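import Pool.Agent.Arith67.Pairing

/-!
Coding of finite sets in models of Peano arithmetic.
-/

namespace Pool.Agent.Arith67

open FirstOrder FirstOrder.Language

section model

variable {M : Type} [LPA.Structure M] (h : M ⊨ PA)

/-- Less or equal. -/
def le' (x y : M) : Prop := ∃ d, y = Ad x d

/-- Strictly less. -/
def lt' (x y : M) : Prop := ∃ d, y = Ad x (Sc d)

include h

theorem Ad_eq_Z_left {a b : M} (hab : Ad a b = Z M) : a = Z M := by
  rw [Ad_comm h] at hab
  exact Ad_eq_Z h hab

theorem Mu_eq_Z {a b : M} (hab : Mu a b = Z M) : a = Z M ∨ b = Z M := by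
  rcases cases_Z_Sc h b with h1 | ⟨b', h1⟩
  · exact Or.inr h1
  · left
    rw [h1, Mu_Sc h] at hab
    exact Ad_eq_Z h hab

theorem le'_refl (x : M) : le' x x := ⟨Z M, (Ad_Z h x).symm⟩

theorem le'_trans {x y z : M} (hxy : le' x y) (hyz : le' y z) : le' x z := by
  obtain ⟨d, rfl⟩ := hxy
  obtain ⟨e, rfl⟩ := hyz
  exact ⟨Ad d e, Ad_assoc h _ _ _⟩

theorem lt'_of_lt'_of_le' {x y z : M} (hxy : lt' x y) (hyz : le' y z) : lt' x z := by
  obtain ⟨d, rfl⟩ := hxy
  obtain ⟨e, rfl⟩ := hyz
  exact ⟨Ad d e, by rw [Ad_assoc h, Sc_Ad h]⟩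

theorem lt'_of_le'_of_lt' {x y z : M} (hxy : le' x y) (hyz : lt' y z) : lt' x z := by
  obtain ⟨d, rfl⟩ := hxy
  obtain ⟨e, rfl⟩ := hyz
  exact ⟨Ad d e, by rw [Ad_assoc h, Ad_Sc h]⟩

theorem lt'_irrefl (x : M) : ¬ lt' x x := by
  rintro ⟨d, hd⟩
  have h1 : Ad x (Z M) = Ad x (Sc d) := by rw [Ad_Z h]; exact hd
  exact Sc_ne_Z h d (Ad_left_cancel h h1).symm

theorem lt'_Sc (x : M) : lt' x (Sc x) := ⟨Z M, by rw [Ad_Sc h, Ad_Z h]⟩

theorem le'_of_lt' {x y : M} (hxy : lt' x y) : le' x y := by
  obtain ⟨d, rfl⟩ := hxy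
  exact ⟨Sc d, rfl⟩

theorem Z_le' (x : M) : le' (Z M) x := ⟨x, (Z_Ad h x).symm⟩

theorem le'_Ad_left (x y : M) : le' x (Ad x y) := ⟨y, rfl⟩

theorem le'_Ad_right (x y : M) : le' y (Ad x y) := ⟨x, Ad_comm h x y⟩

theorem le'_tri (n : M) : le' n (tri h n) := by
  rcases cases_Z_Sc h n with h1 | ⟨m, h1⟩
  · rw [h1, tri_Z h]
    exact le'_refl h _
  · rw [h1, tri_Sc h]
    exact le'_Ad_right h _ _

theorem le'_pr_left (x y : M) : le' x (pr h x y) := by
  unfold pr
  exact le'_trans h (le'_trans h (le'_Ad_left h x y) (le'_tri h _)) (le'_Ad_left h _ _)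

theorem le'_pr_right (x y : M) : le' y (pr h x y) := by
  unfold pr
  exact le'_Ad_right h _ _

/-- The moduli. -/
def qq (i u : M) : M := Sc (Mu (Sc i) u)

omit h in
/-- Divisibility. -/
def dv (q x : M) : Prop := ∃ k, x = Mu q k

theorem dv_sub {q X Y : M} (h1 : dv q X) (h2 : dv q (Ad X Y)) : dv q Y := by
  let _ := csr h
  obtain ⟨k, hk⟩ := h1
  obtain ⟨l, hl⟩ := h2
  obtain ⟨t, ht | ht⟩ := trich h k l
  · refine ⟨t, ?_⟩
    rw [ht, Mu_Ad h, ← hk] at hl
    exact Ad_left_cancel h hl
  · have h3 : Ad X (Z M) = Ad X (Ad Y (Mu q t)) := by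
      rw [Ad_Z h]
      conv_lhs => rw [hk, ht, Mu_Ad h, ← hl]
      rw [Ad_assoc h]
    have h4 := Ad_left_cancel h h3
    have h5 := Ad_eq_Z_left h h4.symm
    exact ⟨Z M, by rw [h5, Mu_Z h]⟩

theorem dv_mul {q X : M} (h1 : dv q X) (y : M) : dv q (Mu X y) := by
  obtain ⟨k, hk⟩ := h1
  exact ⟨Mu k y, by rw [hk, Mu_assoc h]⟩

theorem dv_self (q y : M) : dv q (Mu y q) := ⟨y, Mu_comm h y q⟩

/-- Peeling off a factor. -/
theorem peel {a b u x d : M} (hd : a = Ad b d ∨ b = Ad a d) (hdu : dv d u)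
    (hx : dv (qq b u) (Mu x (qq a u))) : dv (qq b u) x := by
  let _ := csr h
  have hSc : ∀ y : M, Sc y = y + 1 := fun y => Sc_eq h y
  have h1 : dv (qq b u) (Mu (Mu x d) u) := by
    rcases hd with hd | hd
    · -- `qq a u = qq b u + d u`
      have e : Mu x (qq a u) = Ad (Mu x (qq b u)) (Mu (Mu x d) u) := by
        unfold qq
        rw [hd, hSc, hSc, hSc, hSc]
        show x * ((b + d + 1) * u + 1) = x * ((b + 1) * u + 1) + x * d * u
        ring
      rw [e] at hx
      exact dv_sub h (dv_self h _ _) hx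
    · have e : Mu x (qq b u) = Ad (Mu x (qq a u)) (Mu (Mu x d) u) := by
        unfold qq
        rw [hd, hSc, hSc, hSc, hSc]
        show x * ((a + d + 1) * u + 1) = x * ((a + 1) * u + 1) + x * d * u
        ring
      have h2 : dv (qq b u) (Mu x (qq b u)) := dv_self h _ _
      rw [e] at h2
      exact dv_sub h hx h2
  have h2 : dv (qq b u) (Mu x d) := by
    have e : Mu (Mu x d) (qq b u) = Ad (Mu (Mu (Mu x d) u) (Sc b)) (Mu x d) := by
      unfold qq
      rw [hSc, hSc]
      show x * d * ((b + 1) * u + 1) = x * d * u * (b + 1) + x * d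
      ring
    have h3 : dv (qq b u) (Mu (Mu x d) (qq b u)) := dv_self h _ _
    rw [e] at h3
    exact dv_sub h (dv_mul h h1 _) h3
  obtain ⟨v, hv⟩ := hdu
  have h3 : dv (qq b u) (Mu x u) := by
    have e : Mu x u = Mu (Mu x d) v := by rw [hv, Mu_assoc h]
    rw [e]
    exact dv_mul h h2 v
  have e : Mu x (qq b u) = Ad (Mu (Mu x u) (Sc b)) x := by
    unfold qq
    rw [hSc, hSc]
    show x * ((b + 1) * u + 1) = x * u * (b + 1) + x
    ring
  have h4 : dv (qq b u) (Mu x (qq b u)) := dv_self h _ _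
  rw [e] at h4
  exact dv_sub h (dv_mul h h3 _) h4

/-- A modulus does not divide one. -/
theorem not_dv_one {i u : M} (hu : u ≠ Z M) : ¬ dv (qq i u) (Sc (Z M)) := by
  rintro ⟨k, hk⟩
  rcases cases_Z_Sc h k with h1 | ⟨k', h1⟩
  · rw [h1, Mu_Z h] at hk
    exact Sc_ne_Z h _ hk
  · rw [h1, Mu_Sc h] at hk
    unfold qq at hk
    rw [Ad_Sc h] at hk
    have h2 := Sc_inj h hk
    have h3 := Ad_eq_Z h h2.symm
    rcases Mu_eq_Z h h3 with h4 | h4
    · exact Sc_ne_Z h _ h4
    · exact hu h4

/-- A common multiple. -/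
theorem exists_mult (L : List M) (hL : ∀ d ∈ L, d ≠ Z M) :
    ∃ u, u ≠ Z M ∧ ∀ d ∈ L, dv d u := by
  induction L with
  | nil => exact ⟨Sc (Z M), Sc_ne_Z h _, by simp⟩
  | cons a L ih =>
    obtain ⟨u, hu, hd⟩ := ih (fun d hd => hL d (by simp [hd]))
    refine ⟨Mu a u, ?_, ?_⟩
    · intro hc
      rcases Mu_eq_Z h hc with h1 | h1
      · exact hL a (by simp) h1
      · exact hu h1
    · intro d hd'
      rcases List.mem_cons.mp hd' with rfl | hd'
      · exact ⟨u, rfl⟩
      · obtain ⟨k, hk⟩ := hd d hd'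
        exact ⟨Mu a k, by rw [hk, ← Mu_assoc h, Mu_comm h a d, Mu_assoc h]⟩

theorem le'_of_dv {d u : M} (hu : u ≠ Z M) (hd : dv d u) : le' d u := by
  obtain ⟨k, rfl⟩ := hd
  rcases cases_Z_Sc h k with h1 | ⟨k', h1⟩
  · rw [h1, Mu_Z h] at hu
    exact absurd rfl hu
  · rw [h1, Mu_Sc h]
    exact le'_Ad_right h _ _

/-- The product of the moduli. -/
theorem exists_prod (u : M) (J : List M) : ∃ w, w ≠ Z M ∧ (∀ j ∈ J, dv (qq j u) w) ∧
    ∀ i, (∀ j ∈ J, ∃ d, (j = Ad i d ∨ i = Ad j d) ∧ dv d u) → dv (qq i u) w →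
      dv (qq i u) (Sc (Z M)) := by
  induction J with
  | nil => exact ⟨Sc (Z M), Sc_ne_Z h _, by simp, fun i _ hi => hi⟩
  | cons a J ih =>
    obtain ⟨w, hw, h1, h2⟩ := ih
    refine ⟨Mu w (qq a u), ?_, ?_, ?_⟩
    · intro hc
      rcases Mu_eq_Z h hc with h3 | h3
      · exact hw h3
      · exact Sc_ne_Z h _ h3
    · intro j hj
      rcases List.mem_cons.mp hj with rfl | hj
      · exact dv_self h _ _
      · exact dv_mul h (h1 j hj) _
    · intro i hi hdv
      obtain ⟨d, hd, hdu⟩ := hi a (by simp)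
      exact h2 i (fun j hj => hi j (by simp [hj])) (peel h hd hdu hdv)

omit h in
/-- `c` codes a set with member `i`. -/
def Bit (h : M ⊨ PA) (c i : M) : Prop :=
  ∃ u w, c = pr h u w ∧ u ≠ Z M ∧ w ≠ Z M ∧ dv (qq i u) w

theorem Bit_lt {c i : M} (hb : Bit h c i) : lt' i c := by
  obtain ⟨u, w, rfl, hu, hw, hd⟩ := hb
  have h1 := le'_of_dv h hw hd
  have h2 : lt' i (qq i u) := by
    unfold qq
    rcases cases_Z_Sc h u with h3 | ⟨u', h3⟩
    · exact absurd h3 hu
    · rw [h3, Mu_Sc h]
      exact lt'_of_le'_of_lt' h (le'_trans h (le'_of_lt' h (lt'_Sc h i))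
        (le'_Ad_right h _ _)) (lt'_Sc h _)
  exact lt'_of_lt'_of_le' h (lt'_of_lt'_of_le' h h2 h1) (le'_pr_right h _ _)

/-- Finite sets are coded by large elements. -/
theorem exists_code (J I P : List M) (hJI : ∀ i ∈ I, i ∉ J) :
    ∃ c, (∃ u w, c = pr h u w ∧ w ≠ Z M) ∧ (∀ p ∈ P, lt' p c) ∧ (∀ j ∈ J, Bit h c j) ∧
      ∀ i ∈ I, ¬ Bit h c i := by
  choose df hdf using trich h
  obtain ⟨u, hu, hdv⟩ := exists_mult h ((I.flatMap fun i => J.map (fun j => df i j)) ++ P.map Sc)
    (by
      intro d hd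
      rcases List.mem_append.mp hd with hd | hd
      · obtain ⟨i, hi, hd⟩ := List.mem_flatMap.mp hd
        obtain ⟨j, hj, rfl⟩ := List.mem_map.mp hd
        intro hc
        have hij : i ≠ j := fun hc => hJI i hi (hc ▸ hj)
        rcases hdf i j with h1 | h1
        · rw [hc, Ad_Z h] at h1
          exact hij h1.symm
        · rw [hc, Ad_Z h] at h1
          exact hij h1
      · obtain ⟨p, _, rfl⟩ := List.mem_map.mp hd
        exact Sc_ne_Z h p)
  obtain ⟨w, hw, h1, h2⟩ := exists_prod h u J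
  refine ⟨pr h u w, ⟨u, w, rfl, hw⟩, ?_, ?_, ?_⟩
  · intro p hp
    have h3 := hdv (Sc p) (List.mem_append_right _ (List.mem_map.mpr ⟨p, hp, rfl⟩))
    exact lt'_of_lt'_of_le' h (lt'_of_lt'_of_le' h (lt'_Sc h p) (le'_of_dv h hu h3))
      (le'_pr_left h _ _)
  · intro j hj
    exact ⟨u, w, rfl, hu, hw, h1 j hj⟩
  · rintro i hi ⟨u', w', he, _, _, hd⟩
    obtain ⟨rfl, rfl⟩ := pr_inj h he
    apply not_dv_one h hu
    refine h2 i (fun j hj => ⟨df i j, hdf i j, hdv _ (List.mem_append_left _
      (List.mem_flatMap.mpr ⟨i, hi, List.mem_map.mpr ⟨j, hj, rfl⟩⟩))⟩) hd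

omit h in
/-- Codes of lists. -/
noncomputable def lcode (h : M ⊨ PA) (l : List M) : M := l.foldr (fun x y => pr h x y) (Z M)

theorem lcode_cons (x : M) (l : List M) : lcode h (x :: l) = pr h x (lcode h l) := rfl

theorem lcode_inj {l l' : List M} (hl : l.length = l'.length) (he : lcode h l = lcode h l') :
    l = l' := by
  induction l generalizing l' with
  | nil =>
    rw [List.length_nil] at hl
    exact (List.eq_nil_of_length_eq_zero hl.symm).symm
  | cons x l ih =>
    rcases l' with _ | ⟨x', l'⟩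
    · simp at hl
    · rw [lcode_cons, lcode_cons] at he
      obtain ⟨h1, h2⟩ := pr_inj h he
      rw [h1, ih (by simpa using hl) h2]

theorem le'_lcode {x : M} {l : List M} (hx : x ∈ l) : le' x (lcode h l) := by
  induction l with
  | nil => simp at hx
  | cons y l ih =>
    rw [lcode_cons]
    rcases List.mem_cons.mp hx with rfl | hx
    · exact le'_pr_left h _ _
    · exact le'_trans h (ih hx) (le'_pr_right h _ _)

omit h in
/-- Codes of tagged lists. -/
noncomputable def tcode (h : M ⊨ PA) (j : ℕ) (l : List M) : M := pr h (num M j) (lcode h l)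

theorem le'_tcode {x : M} {l : List M} (j : ℕ) (hx : x ∈ l) : le' x (tcode h j l) :=
  le'_trans h (le'_lcode h hx) (le'_pr_right h _ _)

omit h in
open Classical in
/-- The list seen from one of its members. -/
noncomputable def seen (c : M) (l : List M) : List M := l.map (fun y => if y = c then Z M else Sc y)

omit h in
/-- The random relations. -/
def rho (h : M ⊨ PA) (j : ℕ) (l : List M) : Prop := ∃ c ∈ l, Bit h c (tcode h j (seen c l))

omit h in
/-- The graph of the operations. -/
def AA (h : M ⊨ PA) (l : List M) : Prop :=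
  ∃ x y, l = [x, y, Ad x y, Mu x y, pr h (pr h x (pr h y (pr h (Ad x y) (Mu x y)))) (Z M)]

omit h in
/-- The chain of relations. -/
def SS (h : M ⊨ PA) (j : ℕ) : List M → Prop :=
  Nat.rec (motive := fun _ => List M → Prop) (fun l => ¬ AA h l)
    (fun j S l => ¬ S l.dropLast ∨ rho h (j + 1) l) j

theorem SS_zero (l : List M) : SS h 0 l ↔ ¬ AA h l := Iff.rfl

theorem SS_succ (j : ℕ) (l : List M) : SS h (j + 1) l ↔ (¬ SS h j l.dropLast ∨ rho h (j + 1) l) :=
  Iff.rfl

open Classical in
/-- The code of a tuple with a hole. -/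
noncomputable def hole (h : M ⊨ PA) (τ : ℕ → M) (b : ℕ) (q : ℕ × List ℕ) : M :=
  tcode h q.1 (q.2.map (fun x => if x = b then Z M else Sc (τ x)))

/-- The relations on tuples that contain a large new element. -/
theorem rho_new {τ : ℕ → M} {D : List ℕ} {b : ℕ} {m : M}
    (hm : ∀ x ∈ D, lt' (τ x) m) {j : ℕ} {l : List ℕ} (hl : ∀ x ∈ l, x ∈ D ∨ x = b)
    (hbl : b ∈ l) : rho h j (l.map (Function.update τ b m)) ↔ Bit h m (hole h τ b (j, l)) := by
  classical
  have hne : ∀ x ∈ l, x ≠ b → Function.update τ b m x = τ x ∧ τ x ≠ m := by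
    intro x hx hxb
    refine ⟨Function.update_of_ne hxb _ _, ?_⟩
    rcases hl x hx with h1 | h1
    · intro hc
      have := hm x h1
      rw [hc] at this
      exact lt'_irrefl h _ this
    · exact absurd h1 hxb
  have hself : seen m (l.map (Function.update τ b m)) =
      l.map (fun x => if x = b then Z M else Sc (τ x)) := by
    unfold seen
    rw [List.map_map]
    apply List.map_congr_left
    intro x hx
    by_cases hxb : x = b
    · subst hxb
      simp
    · obtain ⟨h1, h2⟩ := hne x hx hxb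
      simp [h1, h2, hxb]
  have hmem : m ∈ l.map (Function.update τ b m) :=
    List.mem_map.mpr ⟨b, hbl, by simp⟩
  constructor
  · rintro ⟨c, hc, hbit⟩
    by_cases hcm : c = m
    · subst hcm
      rw [hself] at hbit
      exact hbit
    · exfalso
      obtain ⟨x, hx, rfl⟩ := List.mem_map.mp hc
      have hxb : x ≠ b := by
        rintro rfl
        simp at hcm
      obtain ⟨h1, h2⟩ := hne x hx hxb
      have hxD : x ∈ D := (hl x hx).resolve_right hxb
      rw [h1] at hbit
      have h3 : Sc m ∈ seen (τ x) (l.map (Function.update τ b m)) := by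
        unfold seen
        refine List.mem_map.mpr ⟨m, hmem, ?_⟩
        simp [Ne.symm h2]
      have h4 := Bit_lt h hbit
      have h5 := lt'_of_le'_of_lt' h (le'_tcode h j h3) h4
      have h6 := lt'_of_lt'_of_le' h h5 (le'_of_lt' h (hm x hxD))
      exact lt'_irrefl h _ (lt'_of_lt'_of_le' h (lt'_Sc h m) (le'_of_lt' h h6))
  · intro hbit
    refine ⟨m, hmem, ?_⟩
    rw [hself]
    exact hbit

theorem hole_inj {τ : ℕ → M} {D : List ℕ} {b : ℕ} (hτ : ∀ x ∈ D, ∀ y ∈ D, τ x = τ y → x = y)
    {q q' : ℕ × List ℕ} (hq : ∀ x ∈ q.2, x ∈ D ∨ x = b) (hq' : ∀ x ∈ q'.2, x ∈ D ∨ x = b)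
    (hlen : q.1 = q'.1 → q.2.length = q'.2.length) (he : hole h τ b q = hole h τ b q') :
    q = q' := by
  classical
  obtain ⟨j, l⟩ := q
  obtain ⟨j', l'⟩ := q'
  unfold hole tcode at he
  obtain ⟨h1, h2⟩ := pr_inj h he
  have h3 : j = j' := num_inj h h1
  subst h3
  have h4 : l.length = l'.length := hlen rfl
  have h5 := lcode_inj h (by simpa using h4) h2
  have h6 : l = l' := by
    apply List.ext_getElem h4
    intro i hi hi'
    have h7 : (l.map (fun x => if x = b then Z M else Sc (τ x)))[i]'(by simpa using hi) =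
        (l'.map (fun x => if x = b then Z M else Sc (τ x)))[i]'(by simpa using hi') := by
      simp only [h5]
    rw [List.getElem_map, List.getElem_map] at h7
    by_cases hb : l[i] = b
    · by_cases hb' : l'[i] = b
      · rw [hb, hb']
      · simp only [hb, hb', if_true, if_false] at h7
        exact absurd h7.symm (Sc_ne_Z h _)
    · by_cases hb' : l'[i] = b
      · simp only [hb, hb', if_true, if_false] at h7
        exact absurd h7 (Sc_ne_Z h _)
      · simp only [hb, hb', if_false] at h7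
        exact hτ _ ((hq _ (List.getElem_mem hi)).resolve_right hb) _
          ((hq' _ (List.getElem_mem hi')).resolve_right hb') (Sc_inj h h7)
  rw [h6]

/-- The one point extension property. -/
theorem extend (τ : ℕ → M) (D : List ℕ) (b : ℕ)
    (hτ : ∀ x ∈ D, ∀ y ∈ D, τ x = τ y → x = y) (pos neg : List (ℕ × List ℕ))
    (hpos : ∀ q ∈ pos, (∀ x ∈ q.2, x ∈ D ∨ x = b) ∧ b ∈ q.2 ∧ q.2.length = 5 + q.1)
    (hneg : ∀ q ∈ neg, (∀ x ∈ q.2, x ∈ D ∨ x = b) ∧ b ∈ q.2 ∧ q.2.length = 5 + q.1)
    (hdis : ∀ q ∈ neg, q ∉ pos) :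
    ∃ m : M, (∀ x ∈ D, τ x ≠ m) ∧
      (∀ q ∈ pos, rho h q.1 (q.2.map (Function.update τ b m))) ∧
      (∀ q ∈ neg, ¬ rho h q.1 (q.2.map (Function.update τ b m))) ∧
      ∀ l : List ℕ, (∀ x ∈ l, x ∈ D ∨ x = b) → b ∈ l →
        ¬ AA h (l.map (Function.update τ b m)) := by
  classical
  obtain ⟨m, ⟨u, w, hm, hw⟩, hP, hJ, hI⟩ := exists_code h (pos.map (hole h τ b))
    (neg.map (hole h τ b)) (D.map τ) (by
      intro i hi hj
      obtain ⟨q, hq, rfl⟩ := List.mem_map.mp hi
      obtain ⟨q', hq', he⟩ := List.mem_map.mp hj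
      have h1 := hole_inj h hτ (hpos q' hq').1 (hneg q hq).1 (fun hqq => by
        rw [(hpos q' hq').2.2, (hneg q hq).2.2, hqq]) he
      rw [h1] at hq'
      exact hdis q hq hq')
  have hlt : ∀ x ∈ D, lt' (τ x) m := fun x hx => hP _ (List.mem_map.mpr ⟨x, hx, rfl⟩)
  refine ⟨m, ?_, ?_, ?_, ?_⟩
  · intro x hx hc
    have := hlt x hx
    rw [hc] at this
    exact lt'_irrefl h _ this
  · intro q hq
    rw [rho_new h hlt (hpos q hq).1 (hpos q hq).2.1]
    exact hJ _ (List.mem_map.mpr ⟨q, hq, rfl⟩)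
  · intro q hq
    rw [rho_new h hlt (hneg q hq).1 (hneg q hq).2.1]
    exact hI _ (List.mem_map.mpr ⟨q, hq, rfl⟩)
  · rintro l hl hbl ⟨x, y, he⟩
    have hmem : m ∈ l.map (Function.update τ b m) := List.mem_map.mpr ⟨b, hbl, by simp⟩
    have hall : ∀ z ∈ l.map (Function.update τ b m), le' z m := by
      intro z hz
      obtain ⟨x, hx, rfl⟩ := List.mem_map.mp hz
      by_cases hxb : x = b
      · subst hxb
        simp only [Function.update_self]
        exact le'_refl h _
      · rw [Function.update_of_ne hxb]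
        exact le'_of_lt' h (hlt x ((hl x hx).resolve_right hxb))
    set v := pr h (pr h x (pr h y (pr h (Ad x y) (Mu x y)))) (Z M) with hv
    have hvm : v ≠ m := by
      intro hc
      rw [hv, hm] at hc
      exact hw (pr_inj h hc).2.symm
    have hvlt : lt' v m := by
      have h1 : v ∈ l.map (Function.update τ b m) := by rw [he]; simp
      obtain ⟨x', hx', hx''⟩ := List.mem_map.mp h1
      by_cases hxb : x' = b
      · subst hxb
        simp only [Function.update_self] at hx''
        exact absurd hx''.symm hvm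
      · rw [Function.update_of_ne hxb] at hx''
        rw [← hx'']
        exact hlt x' ((hl x' hx').resolve_right hxb)
    have hle : ∀ z ∈ [x, y, Ad x y, Mu x y, v], le' z v := by
      have g1 : le' (pr h x (pr h y (pr h (Ad x y) (Mu x y)))) v := le'_pr_left h _ _
      have g2 : le' (pr h y (pr h (Ad x y) (Mu x y))) v :=
        le'_trans h (le'_pr_right h _ _) g1
      have g3 : le' (pr h (Ad x y) (Mu x y)) v := le'_trans h (le'_pr_right h _ _) g2
      intro z hz
      simp only [List.mem_cons, List.not_mem_nil, or_false] at hz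
      rcases hz with rfl | rfl | rfl | rfl | rfl
      · exact le'_trans h (le'_pr_left h _ _) g1
      · exact le'_trans h (le'_pr_left h _ _) g2
      · exact le'_trans h (le'_pr_left h _ _) g3
      · exact le'_trans h (le'_pr_right h _ _) g3
      · exact le'_refl h _
    rw [he] at hmem
    have := hle m hmem
    exact lt'_irrefl h _ (lt'_of_le'_of_lt' h this hvlt)

/-- Each relation of the chain is definable from the next one. -/
theorem SS_pred (j : ℕ) (l : List M) (hl : l.length = 5 + j) :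
    SS h j l ↔ ∃ u, ¬ SS h (j + 1) (l ++ [u]) := by
  constructor
  · intro hS
    -- a new element with an empty code
    obtain ⟨τ, hτ⟩ : ∃ τ : ℕ → M, ∀ i (hi : i < l.length), τ i = l[i] :=
      ⟨fun i => l.getD i (Z M), fun i hi => List.getD_eq_getElem _ _ hi⟩
    classical
    -- use least positions to get an injective enumeration
    let pos : ℕ → ℕ := fun i => l.idxOf (l.getD i (Z M))
    have hpos : ∀ i, i < l.length → pos i < l.length ∧ τ (pos i) = l.getD i (Z M) := by
      intro i hi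
      have h1 : l.getD i (Z M) ∈ l := by
        rw [List.getD_eq_getElem _ _ hi]
        exact List.getElem_mem hi
      have h2 : pos i < l.length := List.idxOf_lt_length_of_mem h1
      refine ⟨h2, ?_⟩
      rw [hτ _ h2]
      exact List.getElem_idxOf h2
    let D : List ℕ := (List.range l.length).map pos
    have hDinj : ∀ x ∈ D, ∀ y ∈ D, τ x = τ y → x = y := by
      intro x hx y hy hxy
      obtain ⟨i, hi, rfl⟩ := List.mem_map.mp hx
      obtain ⟨i', hi', rfl⟩ := List.mem_map.mp hy
      rw [(hpos i (by simpa using hi)).2, (hpos i' (by simpa using hi')).2] at hxy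
      show l.idxOf _ = l.idxOf _
      rw [hxy]
    have hbD : l.length ∉ D := by
      intro hc
      obtain ⟨i, hi, hi'⟩ := List.mem_map.mp hc
      have := (hpos i (by simpa using hi)).1
      omega
    obtain ⟨m, hm1, _, hm3, _⟩ := extend h τ D l.length hDinj []
      [(j + 1, (List.range l.length).map pos ++ [l.length])] (by simp) (by
        intro q hq
        rw [List.mem_singleton] at hq
        subst hq
        refine ⟨?_, by simp, by simp [hl]; omega⟩
        intro x hx
        rcases List.mem_append.mp hx with hx | hx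
        · exact Or.inl hx
        · exact Or.inr (List.mem_singleton.mp hx)) (by simp)
    refine ⟨m, ?_⟩
    rw [SS_succ, List.dropLast_concat]
    rintro (h1 | h1)
    · exact h1 hS
    · have h2 := hm3 _ (List.mem_singleton.mpr rfl)
      apply h2
      have h3 : ((List.range l.length).map pos ++ [l.length]).map
          (Function.update τ l.length m) = l ++ [m] := by
        rw [List.map_append, List.map_map]
        congr 1
        · apply List.ext_getElem (by simp)
          intro i hi hi'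
          simp only [List.getElem_map, List.getElem_range, Function.comp]
          have h4 := hpos i hi'
          rw [Function.update_of_ne (by omega), h4.2, List.getD_eq_getElem _ _ hi']
        · simp
      show rho h (j + 1) _
      rw [h3]
      exact h1
  · rintro ⟨u, hu⟩
    rw [SS_succ, List.dropLast_concat] at hu
    by_contra hcon
    exact hu (Or.inl hcon)

end model

end Pool.Agent.Arith67
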