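import Pool.Agent.Arith67.Jump

/-!
The limit of the construction.
-/

namespace Pool.Agent.Arith67.Jump

open Filter

section

variable (ar : List ℕ) (a : ℕ) (g : (ℕ × List ℕ) × ℕ → Bool) (e : List ℕ × ℕ → Bool)
  (G : ℕ × List ℕ → Bool) (E : List ℕ → Bool)
  (hG : ∀ q, ∀ᶠ s in atTop, g (q, s) = G q) (hE : ∀ l, ∀ᶠ s in atTop, e (l, s) = E l)
  (hge : ∀ l x s, l.length = a → e (l, s) = true → g ((0, l ++ [x]), s) = true)

/-- The extension property. -/
def EP : Prop := ∀ (F : List (ℕ × ℕ)) (b : ℕ) (c : ℕ × List ℕ → Bool), (dom F).Nodup →
  (ran F).Nodup → b ∉ dom F →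
  (∀ l ∈ tuples a (dom F), E (l.map (look F)) = true → c (0, l ++ [b]) = true) →
  ∃ m, m ∉ ran F ∧
    (∀ q ∈ facts ar (dom F ++ [b]), b ∈ q.2 → G (q.1, q.2.map (look (F ++ [(b, m)]))) = c q) ∧
    (∀ l ∈ tuples a (dom F ++ [b]), b ∈ l → E (l.map (look (F ++ [(b, m)]))) = false)

/-- The first `k` entries are stable. -/
def Stab (k : ℕ) : Prop := ∃ (F : List (ℕ × ℕ)) (s0 : ℕ), F.length = k ∧ ∀ s, s0 ≤ s →
  (FF ar a g e s).take k = F ∧
  ∀ i < k, good ar a g e (H ar a g e) (F.take (i + 1)) s = true

theorem stab_zero : Stab ar a g e 0 := ⟨[], 0, rfl, fun s _ => ⟨by simp, fun i hi => by omega⟩⟩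

theorem map_look_append {F F' : List (ℕ × ℕ)} {l : List ℕ} (hl : ∀ x ∈ l, x ∈ dom F) :
    l.map (look (F ++ F')) = l.map (look F) :=
  List.map_congr_left fun x hx => look_append (hl x hx)

theorem lmax_eq {l : List ℕ} {s : ℕ} (hs : s ∈ l) (h : ∀ x ∈ l, x ≤ s) : lmax l = s :=
  le_antisymm (h _ (lmax_mem (by rintro rfl; simp at hs))) (le_lmax hs)

include hge in
/-- At an even position: goodness persists. -/
theorem even_good {F : List (ℕ × ℕ)} {s s' m : ℕ}
    (hc : ∀ s', s ≤ s' → Corr ar a g e G E (ran F ++ [m]) s')
    (hFs : ∀ b ∈ dom F, b < s) (hgF : good ar a g e (H ar a g e) F s' = true) (hss : s < s')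
    (hst : ∀ s'', s < s'' → s'' ≤ s' → (FF ar a g e s'').take (F.length + 1) = F ++ [(s, m)]) :
    good ar a g e (H ar a g e) (F ++ [(s, m)]) s' = true := by
  have hlen1 : (F ++ [(s, m)]).length = F.length + 1 := by simp
  have hsF : s ∉ dom F := fun hc => lt_irrefl _ (hFs s hc)
  -- every later map extends the new one
  have hext : ∀ s'', s < s'' → s'' ≤ s' → ∃ F', FF ar a g e s'' = (F ++ [(s, m)]) ++ F' := by
    intro s'' h1 h2
    refine ⟨(FF ar a g e s'').drop (F.length + 1), ?_⟩
    rw [← hst s'' h1 h2, List.take_append_drop]
  have hran : ∀ x ∈ ran (F ++ [(s, m)]), x ∈ ran F ++ [m] := by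
    intro x hx
    rwa [ran_snoc] at hx
  rw [good_iff] at hgF ⊢
  constructor
  · intro q hq
    obtain ⟨h1, h2, h3⟩ := (mem_facts ar).mp hq
    rw [dom_snoc] at h3
    by_cases hsq : s ∈ q.2
    · -- decided at stage `s + 1`
      have hmax : lmax q.2 = s := lmax_eq hsq (fun x hx => by
        rcases List.mem_append.mp (h3 x hx) with h | h
        · exact le_of_lt (hFs x h)
        · rw [List.mem_singleton.mp h])
      obtain ⟨F', hF'⟩ := hext (s + 1) (by omega) (by omega)
      have hlook : q.2.map (look (FF ar a g e (s + 1))) = q.2.map (look (F ++ [(s, m)])) := by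
        rw [hF']
        apply map_look_append
        intro x hx
        rw [dom_snoc]
        exact h3 x hx
      have hall : q.2.all (fun b => (dom (FF ar a g e (s + 1))).elem b) = true := by
        rw [List.all_eq_true]
        intro x hx
        rw [hF', dom_append]
        have : x ∈ dom (F ++ [(s, m)]) := by
          rw [dom_snoc]
          exact h3 x hx
        simpa using Or.inl this
      rw [H_eq, hmax, hall, cond_true, hlook, Corr.fact ar a g e G E (hc s (le_refl _)) hran hq,
        Corr.fact ar a g e G E (hc s' (by omega)) hran hq]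
    · have h4 : ∀ x ∈ q.2, x ∈ dom F := by
        intro x hx
        rcases List.mem_append.mp (h3 x hx) with h | h
        · exact h
        · rw [List.mem_singleton] at h
          rw [h] at hx
          exact absurd hx hsq
      rw [map_look_append h4]
      exact hgF.1 q ((mem_facts ar).mpr ⟨h1, h2, h4⟩)
  · intro l hl hel u hu
    obtain ⟨h1, h3⟩ := mem_tuples.mp hl
    rw [dom_snoc] at h3
    by_cases hsl : s ∈ l
    · have hEl : E (l.map (look (F ++ [(s, m)]))) = true := by
        rw [← Corr.efact ar a g e G E (hc s' (by omega)) hran hl]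
        exact hel
      set w := lmax (l ++ [u]) with hw
      have hws : s ≤ w := le_lmax (by simp [hsl])
      have hws' : w < s' := by
        have h5 : w ∈ l ++ [u] := lmax_mem (by simp)
        rcases List.mem_append.mp h5 with h | h
        · rcases List.mem_append.mp (h3 w h) with h6 | h6
          · exact lt_trans (hFs w h6) hss
          · rw [List.mem_singleton.mp h6]
            exact hss
        · rw [List.mem_singleton.mp h]
          exact hu
      rw [H_eq]
      show (bif (l ++ [u]).all (fun b => (dom (FF ar a g e (lmax (l ++ [u]) + 1))).elem b) then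
        g ((0, (l ++ [u]).map (look (FF ar a g e (lmax (l ++ [u]) + 1)))), lmax (l ++ [u]))
        else true) = true
      rw [← hw]
      obtain ⟨F', hF'⟩ := hext (w + 1) (by omega) (by omega)
      have hlook : l.map (look (FF ar a g e (w + 1))) = l.map (look (F ++ [(s, m)])) := by
        rw [hF']
        apply map_look_append
        intro x hx
        rw [dom_snoc]
        exact h3 x hx
      rcases hb : (l ++ [u]).all (fun b => (dom (FF ar a g e (w + 1))).elem b) with _ | _
      · rfl
      · rw [cond_true, List.map_append, hlook]
        apply hge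
        · rw [List.length_map]
          exact h1
        · rw [Corr.efact ar a g e G E (hc w hws) hran hl]
          exact hEl
    · have h4 : ∀ x ∈ l, x ∈ dom F := by
        intro x hx
        rcases List.mem_append.mp (h3 x hx) with h | h
        · exact h
        · rw [List.mem_singleton] at h
          rw [h] at hx
          exact absurd hx hsl
      rw [map_look_append h4] at hel
      exact hgF.2 l (mem_tuples.mpr ⟨h1, h4⟩) hel u hu

include hG hE hge in
theorem stab_succ (hEP : EP ar a G E) (hpos : ∀ t < ar.length, 1 ≤ ar.getD t 1) (ha : 1 ≤ a)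
    {k : ℕ} (h : Stab ar a g e k) : Stab ar a g e (k + 1) := by
  obtain ⟨F, s0, hlen, hF⟩ := h
  subst hlen
  have hFself : ∀ s, s0 ≤ s → good ar a g e (H ar a g e) F s = true := by
    intro s hs
    rcases Nat.eq_zero_or_pos F.length with h0 | h0
    · have : F = [] := List.eq_nil_of_length_eq_zero h0
      subst this
      rw [good_iff]
      constructor
      · intro q hq
        obtain ⟨h1, h2, h3⟩ := (mem_facts ar).mp hq
        have h4 := hpos q.1 h1
        rw [← h2] at h4
        rcases hq2 : q.2 with _ | ⟨x, l⟩
        · rw [hq2] at h4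
          simp at h4
        · have := h3 x (by rw [hq2]; simp)
          simp [dom] at this
      · intro l hl
        obtain ⟨h1, h3⟩ := mem_tuples.mp hl
        rcases l with _ | ⟨x, l⟩
        · simp at h1
          omega
        · have := h3 x (by simp)
          simp [dom] at this
    · have h1 := (hF s hs).2 (F.length - 1) (by omega)
      have h2 : F.length - 1 + 1 = F.length := by omega
      rw [h2, List.take_length] at h1
      exact h1
  have hokF : Ok F s0 := by
    have h1 := (ok_FF ar a g e s0).take F.length
    rwa [(hF s0 (le_refl _)).1] at h1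
  by_cases hA : ∃ s1, s0 ≤ s1 ∧ ∀ s, s1 ≤ s → F.length + 1 ≤ (FF ar a g e s).length ∧
      good ar a g e (H ar a g e) ((FF ar a g e s).take (F.length + 1)) s = true
  · obtain ⟨s1, hs01, hs1⟩ := hA
    obtain ⟨F', hF'⟩ : ∃ F', F' = (FF ar a g e s1).take (F.length + 1) := ⟨_, rfl⟩
    have hlen' : F'.length = F.length + 1 := by
      rw [hF', List.length_take]
      have := (hs1 s1 (le_refl _)).1
      omega
    have hF'F : F'.take F.length = F := by
      rw [hF', List.take_take, min_eq_left (by omega)]
      exact (hF s1 hs01).1
    have hpre : ∀ i < F.length, F'.take (i + 1) = F.take (i + 1) := by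
      intro i hi
      have h1 : (F'.take F.length).take (i + 1) = F.take (i + 1) := by rw [hF'F]
      rw [← h1, List.take_take, min_eq_left (by omega)]
    have hall : ∀ s, s1 ≤ s → (FF ar a g e s).take (F.length + 1) = F' := by
      intro s hs
      induction s, hs using Nat.le_induction with
      | base => exact hF'.symm
      | succ s hs ih =>
        have h1 := keep ar a g e (F := F') (s := s) (by rw [hlen']; exact ih) (by
          intro i hi
          rw [hlen'] at hi
          rcases Nat.lt_or_ge i F.length with h2 | h2
          · rw [hpre i h2]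
            exact (hF s (by omega)).2 i h2
          · have h3 : i = F.length := by omega
            subst h3
            have h4 := (hs1 s hs).2
            rw [ih] at h4
            rw [← hlen', List.take_length]
            exact h4)
        rwa [hlen'] at h1
    refine ⟨F', s1, hlen', fun s hs => ⟨hall s hs, fun i hi => ?_⟩⟩
    rcases Nat.lt_or_ge i F.length with h2 | h2
    · rw [hpre i h2]
      exact (hF s (by omega)).2 i h2
    · have h3 : i = F.length := by omega
      subst h3
      have h4 := (hs1 s hs).2
      rw [hall s hs] at h4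
      rw [← hlen', List.take_length]
      exact h4
  · -- the next entry is chosen anew at arbitrarily late stages
    have hB : ∀ s1, s0 ≤ s1 → ∃ s, s1 ≤ s ∧ ((FF ar a g e s).length = F.length ∨
        good ar a g e (H ar a g e) ((FF ar a g e s).take (F.length + 1)) s = false) := by
      intro s1 hs1
      by_contra hcon
      push Not at hcon
      apply hA
      refine ⟨s1, hs1, fun s hs => ?_⟩
      obtain ⟨h1, h2⟩ := hcon s hs
      have h3 : F.length ≤ (FF ar a g e s).length := by
        have := congrArg List.length (hF s (by omega)).1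
        rw [List.length_take] at this
        omega
      exact ⟨by omega, by simpa using h2⟩
    -- it suffices to find a late stage whose choice stays good
    have hfin : ∀ (s b m : ℕ), s0 ≤ s → FF ar a g e (s + 1) = F ++ [(b, m)] →
        (∀ s', s + 1 ≤ s' → (∀ s'', s < s'' → s'' ≤ s' →
          (FF ar a g e s'').take (F.length + 1) = F ++ [(b, m)]) →
          good ar a g e (H ar a g e) (F ++ [(b, m)]) s' = true) →
        Stab ar a g e (F.length + 1) := by
      intro s b m hs hnew hgood
      have hlen' : (F ++ [(b, m)]).length = F.length + 1 := by simp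
      have hpre : ∀ i < F.length, (F ++ [(b, m)]).take (i + 1) = F.take (i + 1) := by
        intro i hi
        rw [List.take_append_of_le_length (by omega)]
      have hall : ∀ s', s + 1 ≤ s' → ∀ s'', s < s'' → s'' ≤ s' →
          (FF ar a g e s'').take (F.length + 1) = F ++ [(b, m)] := by
        intro s' hs'
        induction s', hs' using Nat.le_induction with
        | base =>
          intro s'' h1 h2
          have h3 : s'' = s + 1 := by omega
          rw [h3, hnew, ← hlen', List.take_length]
        | succ s' hs' ih =>
          intro s'' h1 h2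
          rcases Nat.lt_or_ge s' s'' with h3 | h3
          · have h4 : s'' = s' + 1 := by omega
            subst h4
            have h5 := keep ar a g e (F := F ++ [(b, m)]) (s := s')
              (by rw [hlen']; exact ih s' (by omega) (le_refl _)) (by
              intro i hi
              rw [hlen'] at hi
              rcases Nat.lt_or_ge i F.length with h2 | h2
              · rw [hpre i h2]
                exact (hF s' (by omega)).2 i h2
              · have h3 : i = F.length := by omega
                subst h3
                rw [← hlen', List.take_length]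
                exact hgood s' hs' ih)
            rwa [hlen'] at h5
          · exact ih s'' h1 h3
      refine ⟨F ++ [(b, m)], s + 1, hlen', fun s' hs' => ⟨hall s' hs' s' (by omega) (le_refl _),
        fun i hi => ?_⟩⟩
      rcases Nat.lt_or_ge i F.length with h2 | h2
      · rw [hpre i h2]
        exact (hF s' (by omega)).2 i h2
      · have h3 : i = F.length := by omega
        subst h3
        rw [← hlen', List.take_length]
        exact hgood s' hs' (hall s' hs')
    rcases Nat.mod_two_eq_zero_or_one F.length with hpar | hpar
    · -- even position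
      obtain ⟨s2, hs2⟩ := eventually_atTop.mp
        (exists_corr ar a g e G E hG hE (ran F ++ [mex (ran F)]))
      obtain ⟨s, hs, hbad⟩ := hB (max s0 s2) (le_max_left _ _)
      have hs0 : s0 ≤ s := le_trans (le_max_left _ _) hs
      have hs2' : s2 ≤ s := le_trans (le_max_right _ _) hs
      rcases choose_new ar a g e (hF s hs0).1 (hF s hs0).2 hbad with
        ⟨_, h5⟩ | ⟨h4, _⟩ | ⟨h4, _⟩
      · refine hfin s s (mex (ran F)) hs0 h5 ?_
        intro s' hs' hst
        exact even_good ar a g e G E hge (fun s' h => hs2 s' (by omega))
          (fun b hb => lt_of_lt_of_le (hokF.2.2.1 b hb) hs0) (hFself s' (by omega)) (by omega) hst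
      · omega
      · omega
    · -- odd position
      set b := mex (dom F) with hb
      have hbF : b ∉ dom F := mex_notMem _
      -- a value that is good in the limit
      obtain ⟨m0, hm0, hq0, hl0⟩ := hEP F b (H ar a g e) hokF.1 hokF.2.1 hbF (by
        intro l hl hel
        obtain ⟨s, hs, hs'⟩ := ((hE (l.map (look F))).and (eventually_ge_atTop (max s0 (b + 1)))).exists
        have h1 := (good_iff ar a g e).mp (hFself s (by omega))
        exact h1.2 l hl (by rw [hs]; exact hel) b (by omega))
      have hlim0 : GoodLim ar a G E (H ar a g e) (F ++ [(b, m0)]) := by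
        constructor
        · intro q hq
          obtain ⟨h1, h2, h3⟩ := (mem_facts ar).mp hq
          rw [dom_snoc] at h3
          by_cases hbq : b ∈ q.2
          · exact (hq0 q ((mem_facts ar).mpr ⟨h1, h2, h3⟩) hbq).symm
          · have h4 : ∀ x ∈ q.2, x ∈ dom F := by
              intro x hx
              rcases List.mem_append.mp (h3 x hx) with h | h
              · exact h
              · rw [List.mem_singleton] at h
                rw [h] at hx
                exact absurd hx hbq
            rw [map_look_append h4]
            obtain ⟨s, hs, hs'⟩ := ((hG (q.1, q.2.map (look F))).and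
              (eventually_ge_atTop s0)).exists
            have h1 := (good_iff ar a g e).mp (hFself s hs')
            rw [← hs]
            exact h1.1 q ((mem_facts ar).mpr ⟨by assumption, h2, h4⟩)
        · intro l hl hel u
          obtain ⟨h1, h3⟩ := mem_tuples.mp hl
          rw [dom_snoc] at h3
          by_cases hbl : b ∈ l
          · rw [hl0 l (mem_tuples.mpr ⟨h1, h3⟩) hbl] at hel
            exact absurd hel (by simp)
          · have h4 : ∀ x ∈ l, x ∈ dom F := by
              intro x hx
              rcases List.mem_append.mp (h3 x hx) with h | h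
              · exact h
              · rw [List.mem_singleton] at h
                rw [h] at hx
                exact absurd hx hbl
            rw [map_look_append h4] at hel
            obtain ⟨s, hs, hs'⟩ := ((hE (l.map (look F))).and
              (eventually_ge_atTop (max s0 (u + 1)))).exists
            have h5 := (good_iff ar a g e).mp (hFself s (by omega))
            exact h5.2 l (mem_tuples.mpr ⟨h1, h4⟩) (by rw [hs]; exact hel) u (by omega)
      -- the least one
      classical
      have hex : ∃ m, m ∉ ran F ∧ GoodLim ar a G E (H ar a g e) (F ++ [(b, m)]) := ⟨m0, hm0, hlim0⟩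
      set m := Nat.find hex with hm
      obtain ⟨hmF, hmlim⟩ := Nat.find_spec hex
      have hmin : ∀ m' < m, m' ∉ ran F → ¬ GoodLim ar a G E (H ar a g e) (F ++ [(b, m')]) :=
        fun m' hm' h1 h2 => Nat.find_min hex hm' ⟨h1, h2⟩
      have hev1 := (good_lim ar a g e G E hG hE (H ar a g e) (F ++ [(b, m)])).1 hmlim
      have hev2 : ∀ᶠ s in atTop, ∀ m' ∈ List.range m, m' ∉ ran F →
          good ar a g e (H ar a g e) (F ++ [(b, m')]) s = false := by
        apply eventually_list
        intro m' hm'
        by_cases h1 : m' ∈ ran F
        · exact Filter.Eventually.of_forall fun s h2 => absurd h1 h2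
        · filter_upwards [(good_lim ar a g e G E hG hE (H ar a g e) (F ++ [(b, m')])).2
            (hmin m' (by simpa using hm') h1)] with s hs _
          exact hs
      obtain ⟨s3, hs3⟩ := eventually_atTop.mp (hev1.and (hev2.and
        (eventually_ge_atTop (max m (F.length + 1)))))
      obtain ⟨s, hs, hbad⟩ := hB (max s0 s3) (le_max_left _ _)
      have hs0 : s0 ≤ s := le_trans (le_max_left _ _) hs
      have hs3' : s3 ≤ s := le_trans (le_max_right _ _) hs
      obtain ⟨h11, h12, h13⟩ := hs3 s hs3'
      have hbs : b < s := by
        have : b ≤ (dom F).length := mex_le_length _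
        have h2 : (dom F).length = F.length := by simp [dom]
        omega
      rcases choose_new ar a g e (hF s hs0).1 (hF s hs0).2 hbad with
        ⟨h4, _⟩ | ⟨_, _, m', h6, h7, h8, h9, h10⟩ | ⟨_, h5, _⟩
      · omega
      · have hmm : m' = m := by
          rcases Nat.lt_trichotomy m' m with h | h | h
          · have h14 := h12 m' (by simpa using h) h7
            rw [h14] at h8
            exact absurd h8 (by simp)
          · exact h
          · have h14 := h9 m h hmF
            rw [h14] at h11
            exact absurd h11 (by simp)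
        subst hmm
        refine hfin s b _ hs0 h10 ?_
        intro s' hs' _
        exact (hs3 s' (by omega)).1
      · have h14 := h5 hbs m (by omega) hmF
        rw [h14] at h11
        exact absurd h11 (by simp)

include hG hE hge in
theorem stab_all (hEP : EP ar a G E) (hpos : ∀ t < ar.length, 1 ≤ ar.getD t 1) (ha : 1 ≤ a)
    (k : ℕ) : Stab ar a g e k := by
  induction k with
  | zero => exact stab_zero ar a g e
  | succ k ih => exact stab_succ ar a g e G E hG hE hge hEP hpos ha ih

include hG hE hge in
/-- The construction yields an isomorphic copy. -/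
theorem exists_equiv (hEP : EP ar a G E) (hpos : ∀ t < ar.length, 1 ≤ ar.getD t 1)
    (ha : 1 ≤ a) : ∃ f : ℕ ≃ ℕ, ∀ q : ℕ × List ℕ, q.1 < ar.length → q.2.length = ar.getD q.1 1 →
      H ar a g e q = G (q.1, q.2.map f) := by
  have hst := stab_all ar a g e G E hG hE hge hEP hpos ha
  choose F s0 hlen hF using hst
  have hok : ∀ k, Ok (F k) (s0 k) := by
    intro k
    have h1 := (ok_FF ar a g e (s0 k)).take k
    rwa [(hF k (s0 k) (le_refl _)).1] at h1
  have hnest : ∀ k k', k ≤ k' → (F k').take k = F k := by
    intro k k' hkk
    have h1 := (hF k (max (s0 k) (s0 k')) (le_max_left _ _)).1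
    have h2 := (hF k' (max (s0 k) (s0 k')) (le_max_right _ _)).1
    rw [← h1, ← h2, List.take_take, min_eq_left hkk]
  have hext : ∀ k k', k ≤ k' → ∃ F', F k' = F k ++ F' := fun k k' hkk =>
    ⟨(F k').drop k, by rw [← hnest k k' hkk, List.take_append_drop]⟩
  have hself : ∀ k s, s0 k ≤ s → 1 ≤ k → good ar a g e (H ar a g e) (F k) s = true := by
    intro k s hs hk
    have h1 := (hF k s hs).2 (k - 1) (by omega)
    have h2 : k - 1 + 1 = k := by omega
    rw [h2] at h1
    have h3 : (F k).take k = F k := by
      rw [List.take_of_length_le]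
      rw [hlen]
    rwa [h3] at h1
  -- every number gets into the domain
  have hdom : ∀ n, ∀ b < n, b ∈ dom (F (2 * n)) := by
    intro n
    induction n with
    | zero => intro b hb; omega
    | succ n ih =>
      intro b hb
      have hsub : ∀ x ∈ dom (F (2 * n)), x ∈ dom (F (2 * (n + 1))) := by
        intro x hx
        obtain ⟨F', hF'⟩ := hext (2 * n) (2 * (n + 1)) (by omega)
        rw [hF', dom_append]
        exact List.mem_append_left _ hx
      rcases Nat.lt_or_ge b n with h1 | h1
      · exact hsub b (ih b h1)
      · have hbn : b = n := by omega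
        by_contra hcon
        have h2 : mex (dom (F (2 * n + 1))) ≤ b := by
          apply mex_le
          intro hc
          apply hcon
          obtain ⟨F', hF'⟩ := hext (2 * n + 1) (2 * (n + 1)) (by omega)
          rw [hF', dom_append]
          exact List.mem_append_left _ hc
        have hi : 2 * n + 1 < (F (2 * (n + 1))).length := by rw [hlen]; omega
        have h3 := ((hok (2 * (n + 1))).2.2.2 (2 * n + 1) hi).1 (by omega)
        rw [hnest (2 * n + 1) (2 * (n + 1)) (by omega)] at h3
        have h4 : mex (dom (F (2 * n + 1))) ∈ dom (F (2 * (n + 1))) := by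
          rw [← h3]
          exact List.mem_map.mpr ⟨_, List.getElem_mem hi, rfl⟩
        rcases Nat.lt_or_ge (mex (dom (F (2 * n + 1)))) n with h5 | h5
        · have h6 := ih _ h5
          obtain ⟨F', hF'⟩ := hext (2 * n) (2 * n + 1) (by omega)
          have h7 := mex_notMem (dom (F (2 * n + 1)))
          apply h7
          have h8 : mex (dom (F (2 * n + 1))) ∈ dom (F (2 * n) ++ F') := by
            rw [dom_append]
            exact List.mem_append_left _ h6
          rwa [← hF'] at h8
        · have h6 : mex (dom (F (2 * n + 1))) = b := by omega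
          rw [h6] at h4
          exact hcon h4
  have hran : ∀ n, ∀ b < n, b ∈ ran (F (2 * n)) := by
    intro n
    induction n with
    | zero => intro b hb; omega
    | succ n ih =>
      intro b hb
      have hsub : ∀ x ∈ ran (F (2 * n)), x ∈ ran (F (2 * (n + 1))) := by
        intro x hx
        obtain ⟨F', hF'⟩ := hext (2 * n) (2 * (n + 1)) (by omega)
        rw [hF', ran_append]
        exact List.mem_append_left _ hx
      rcases Nat.lt_or_ge b n with h1 | h1
      · exact hsub b (ih b h1)
      · by_contra hcon
        have h2 : mex (ran (F (2 * n))) ≤ b := mex_le _ (fun hc => hcon (hsub b hc))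
        have hi : 2 * n < (F (2 * (n + 1))).length := by rw [hlen]; omega
        have h3 := ((hok (2 * (n + 1))).2.2.2 (2 * n) hi).2 (by omega)
        rw [hnest (2 * n) (2 * (n + 1)) (by omega)] at h3
        have h4 : mex (ran (F (2 * n))) ∈ ran (F (2 * (n + 1))) := by
          rw [← h3]
          exact List.mem_map.mpr ⟨_, List.getElem_mem hi, rfl⟩
        rcases Nat.lt_or_ge (mex (ran (F (2 * n)))) n with h5 | h5
        · exact mex_notMem _ (ih _ h5)
        · have h6 : mex (ran (F (2 * n))) = b := by omega
          rw [h6] at h4
          exact hcon h4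
  have hlook : ∀ b k k', k ≤ k' → b ∈ dom (F k) → look (F k') b = look (F k) b := by
    intro b k k' hkk hb
    obtain ⟨F', hF'⟩ := hext k k' hkk
    rw [hF', look_append hb]
  let f : ℕ → ℕ := fun b => look (F (2 * (b + 1))) b
  have hf : ∀ b k, b ∈ dom (F k) → f b = look (F k) b := by
    intro b k hb
    rcases le_total k (2 * (b + 1)) with h | h
    · exact hlook b k _ h hb
    · exact (hlook b _ k h (hdom (b + 1) b (by omega))).symm
  have hdom' : ∀ n, ∀ b < n, b ∈ dom (F (2 * n)) := hdom
  have hinj : Function.Injective f := by
    intro b b' hbb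
    have h1 := hdom (max b b' + 1) b (by omega)
    have h2 := hdom (max b b' + 1) b' (by omega)
    rw [hf b _ h1, hf b' _ h2] at hbb
    exact look_inj (hok _).2.1 h1 h2 hbb
  have hsurj : Function.Surjective f := by
    intro m
    obtain ⟨b, hb, hbm⟩ := exists_look (hok _).1 (hran (m + 1) m (by omega))
    exact ⟨b, by rw [hf b _ hb, hbm]⟩
  refine ⟨Equiv.ofBijective f ⟨hinj, hsurj⟩, ?_⟩
  intro q h1 h2
  set n := lmax q.2 + 1 with hn
  have h3 : ∀ x ∈ q.2, x ∈ dom (F (2 * n)) := fun x hx => hdom n x (by
    have := le_lmax hx
    omega)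
  have h4 : q.2.map (Equiv.ofBijective f ⟨hinj, hsurj⟩) = q.2.map (look (F (2 * n))) :=
    List.map_congr_left fun x hx => hf x _ (h3 x hx)
  rw [h4]
  obtain ⟨s, hs, hs'⟩ := ((hG (q.1, q.2.map (look (F (2 * n))))).and
    (eventually_ge_atTop (s0 (2 * n)))).exists
  rw [← hs]
  exact ((good_iff ar a g e).mp (hself (2 * n) s hs' (by omega))).1 q
    ((mem_facts ar).mpr ⟨h1, h2, h3⟩)

end

/-- The jump lemma. -/
theorem jump {j : ℕ} (ar : List ℕ) (a : ℕ) (G : ℕ × List ℕ → Bool) (E : List ℕ → Bool)
    (hG : InF (j + 1) G) (hE : InF (j + 1) E)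
    (hGE : ∀ l x, l.length = a → E l = true → G (0, l ++ [x]) = true)
    (hEP : EP ar a G E) (hpos : ∀ t < ar.length, 1 ≤ ar.getD t 1) (ha : 1 ≤ a) :
    ∃ (f : ℕ ≃ ℕ) (H : ℕ × List ℕ → Bool), InF j H ∧
      ∀ q : ℕ × List ℕ, q.1 < ar.length → q.2.length = ar.getD q.1 1 →
        H q = G (q.1, q.2.map f) := by
  obtain ⟨g, hg, hlg⟩ := hG
  obtain ⟨e, he, hle⟩ := hE
  -- make the approximations compatible
  let g' : (ℕ × List ℕ) × ℕ → Bool := fun p =>
    g p || (decide (p.1.1 = 0) && (decide (p.1.2.length = a + 1) && e (p.1.2.dropLast, p.2)))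
  have hdrop : Primrec (fun l : List ℕ => l.dropLast) := by
    refine (Primrec.list_take.comp (Primrec.pred.comp Primrec.list_length) Primrec.id).of_eq
      fun l => ?_
    simp [List.dropLast_eq_take]
  have hg' : InF j g' := by
    refine InF.or hg (InF.and ?_ (InF.and ?_ ?_))
    · exact InF.of_primrec (Primrec.eq.decide.comp (Primrec.fst.comp Primrec.fst)
        (Primrec.const 0))
    · exact InF.of_primrec (Primrec.eq.decide.comp (Primrec.list_length.comp
        (Primrec.snd.comp Primrec.fst)) (Primrec.const (a + 1)))
    · exact he.comp (InF.of_primrec (Primrec.pair (hdrop.comp (Primrec.snd.comp Primrec.fst))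
        Primrec.snd))
  have hlg' : ∀ q, ∀ᶠ s in atTop, g' (q, s) = G q := by
    rintro ⟨t, l⟩
    filter_upwards [hlg (t, l), hle l.dropLast] with s h1 h2
    show (g ((t, l), s) || (decide (t = 0) && (decide (l.length = a + 1) &&
      e (l.dropLast, s)))) = G (t, l)
    rw [h1, h2]
    by_cases h3 : t = 0 ∧ l.length = a + 1 ∧ E l.dropLast = true
    · obtain ⟨rfl, h4, h5⟩ := h3
      have h6 : l.dropLast ++ [l.getLast (by rintro rfl; simp at h4)] = l :=
        List.dropLast_append_getLast _
      have h7 := hGE l.dropLast (l.getLast (by rintro rfl; simp at h4)) (by simp [h4]) h5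
      rw [h6] at h7
      rw [h7]
      rfl
    · have h4 : (decide (t = 0) && (decide (l.length = a + 1) && E l.dropLast)) = false := by
        by_contra hcon
        apply h3
        simpa using hcon
      rw [h4, Bool.or_false]
  have hge : ∀ l x s, l.length = a → e (l, s) = true → g' ((0, l ++ [x]), s) = true := by
    intro l x s hl hel
    show (g ((0, l ++ [x]), s) || (decide (0 = 0) && (decide ((l ++ [x]).length = a + 1) &&
      e ((l ++ [x]).dropLast, s)))) = true
    rw [List.dropLast_concat, hel]
    simp [hl]
  obtain ⟨f, hf⟩ := exists_equiv ar a g' e G E hlg' hle hge hEP hpos ha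
  exact ⟨f, H ar a g' e, inF_H ar a g' e hg' he, hf⟩

end Pool.Agent.Arith67.Jump
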