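import Pool.Agent.Arith67.Bits
import Pool.Agent.Arith67.Jump2

/-!
The chain of copies of decreasing complexity.
-/

namespace Pool.Agent.Arith67

open FirstOrder FirstOrder.Language

section

variable {j : ℕ}

/-- Finitely many functions together. -/
theorem tags (T : ℕ) : ∀ (g : ℕ → List ℕ → Bool), (∀ t < T, InF j (g t)) →
    ∃ G : ℕ × List ℕ → Bool, InF j G ∧ ∀ t < T, ∀ l, G (t, l) = g t l := by
  induction T with
  | zero => intro g _; exact ⟨fun _ => true, InF.const _, fun t ht => by omega⟩
  | succ T ih =>
    intro g hg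
    obtain ⟨G, hG, h⟩ := ih g (fun t ht => hg t (by omega))
    refine ⟨fun q => bif (q.1 == T) then g T q.2 else G q, ?_, ?_⟩
    · refine InF.cond (InF.of_primrec (Primrec.beq.comp Primrec.fst (Primrec.const T)))
        ((hg T (by omega)).comp InF.snd) hG
    · intro t ht l
      by_cases htT : t = T
      · subst htT
        simp
      · show (bif (t == T) then g T l else G (t, l)) = g t l
        have h1 : (t == T) = false := by simpa using htT
        rw [h1, cond_false]
        exact h t (by omega) l

end

section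

variable {P0 : LPA.Structure ℕ} (h : @Theory.Model LPA ℕ P0 PA)

/-- The relations pulled back along `f` have low complexity. -/
def Low (h : @Theory.Model LPA ℕ P0 PA) (K i j : ℕ) (f : ℕ ≃ ℕ) : Prop :=
  (∃ s : List ℕ → Bool, InF i s ∧ ∀ l, l.length = 5 + j → (s l = true ↔ SS h j (l.map f))) ∧
  ∀ t, j < t → t ≤ K → ∃ r : List ℕ → Bool, InF i r ∧
    ∀ l, l.length = 5 + t → (r l = true ↔ rho h t (l.map f))

theorem low_step {K i j : ℕ} (hj : j < K) {f : ℕ ≃ ℕ} (hL : Low h K (i + 1) j f) :
    ∃ f' : ℕ ≃ ℕ, Low h K i (j + 1) f' := by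
  classical
  obtain ⟨⟨s, hs, hs'⟩, hr⟩ := hL
  choose! r hrF hr' using hr
  have hdrop : Primrec (fun l : List ℕ => l.dropLast) := by
    refine (Primrec.list_take.comp (Primrec.pred.comp Primrec.list_length) Primrec.id).of_eq
      fun l => ?_
    simp [List.dropLast_eq_take]
  -- the tagged relations: tag 0 is `SS (j+1)`, tag `t` is `rho (j+1+t)`
  let gt : ℕ → List ℕ → Bool := fun t l =>
    if t = 0 then (!(s l.dropLast) || r (j + 1) l) else r (j + 1 + t) l
  have hgt : ∀ t < K - j, InF (i + 1) (gt t) := by
    intro t ht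
    by_cases h0 : t = 0
    · have : gt t = fun l => !(s l.dropLast) || r (j + 1) l := by
        funext l
        simp [gt, h0]
      rw [this]
      exact InF.or (InF.not (hs.comp (InF.of_primrec hdrop))) (hrF (j + 1) (by omega) (by omega))
    · have : gt t = r (j + 1 + t) := by
        funext l
        simp [gt, h0]
      rw [this]
      exact hrF (j + 1 + t) (by omega) (by omega)
  obtain ⟨G, hG, hGt⟩ := tags (K - j) gt hgt
  have hG0 : ∀ l, G (0, l) = (!(s l.dropLast) || r (j + 1) l) := by
    intro l
    rw [hGt 0 (by omega)]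
    simp [gt]
  have hG1 : ∀ t, 1 ≤ t → t < K - j → ∀ l, G (t, l) = r (j + 1 + t) l := by
    intro t ht ht' l
    rw [hGt t ht']
    have : t ≠ 0 := by omega
    simp [gt, this]
  let E : List ℕ → Bool := fun l => !(s l)
  have hE : InF (i + 1) E := InF.not hs
  let ar : List ℕ := (List.range (K - j)).map (fun t => 5 + (j + 1 + t))
  have harlen : ar.length = K - j := by simp [ar]
  have har : ∀ t < K - j, ar.getD t 1 = 5 + (j + 1 + t) := by
    intro t ht
    rw [List.getD_eq_getElem _ _ (by rw [harlen]; exact ht)]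
    simp [ar]
  have hGE : ∀ l x, l.length = 5 + j → E l = true → G (0, l ++ [x]) = true := by
    intro l x _ hEl
    rw [hG0, List.dropLast_concat]
    simp only [E] at hEl
    rw [hEl]
    rfl
  have hEP : Jump.EP ar (5 + j) G E := by
    intro F b c hd hrn hbF hc
    have hD : ∀ x, x ∈ Jump.dom F ++ [b] → x ∈ Jump.dom F ∨ x = b := by
      intro x hx
      rcases List.mem_append.mp hx with h1 | h1
      · exact Or.inl h1
      · exact Or.inr (List.mem_singleton.mp h1)
    let τ : ℕ → ℕ := fun x => f (Jump.look F x)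
    have hτ : ∀ x ∈ Jump.dom F, ∀ y ∈ Jump.dom F, τ x = τ y → x = y := by
      intro x hx y hy hxy
      exact Jump.look_inj hrn hx hy (f.injective hxy)
    let fb : List (ℕ × List ℕ) := (Jump.facts ar (Jump.dom F ++ [b])).filter
      (fun q => decide (b ∈ q.2))
    have hfb : ∀ q, q ∈ fb ↔ q ∈ Jump.facts ar (Jump.dom F ++ [b]) ∧ b ∈ q.2 := by
      intro q
      simp [fb, List.mem_filter]
    let shift : ℕ × List ℕ → ℕ × List ℕ := fun q => (j + 1 + q.1, q.2)
    let pos : List (ℕ × List ℕ) := (fb.filter (fun q => c q)).map shift ++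
      (List.range j).flatMap (fun i' => ((Jump.tuples (5 + (i' + 1)) (Jump.dom F ++ [b])).filter
        (fun l => decide (b ∈ l))).map (fun l => (i' + 1, l)))
    let neg : List (ℕ × List ℕ) := (fb.filter (fun q => !(c q))).map shift
    have hpos1 : ∀ q ∈ fb, c q = true → shift q ∈ pos := by
      intro q hq hcq
      exact List.mem_append_left _ (List.mem_map.mpr ⟨q, List.mem_filter.mpr ⟨hq, hcq⟩, rfl⟩)
    have hneg1 : ∀ q ∈ fb, c q = false → shift q ∈ neg := by
      intro q hq hcq
      exact List.mem_map.mpr ⟨q, List.mem_filter.mpr ⟨hq, by rw [hcq]; rfl⟩, rfl⟩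
    have hpos2 : ∀ i', 1 ≤ i' → i' ≤ j → ∀ l ∈ Jump.tuples (5 + i') (Jump.dom F ++ [b]), b ∈ l →
        (i', l) ∈ pos := by
      intro i' h1 h2 l hl hbl
      refine List.mem_append_right _ (List.mem_flatMap.mpr ⟨i' - 1, by simp; omega, ?_⟩)
      have h3 : i' - 1 + 1 = i' := by omega
      refine List.mem_map.mpr ⟨l, List.mem_filter.mpr ⟨?_, by simpa using hbl⟩, by rw [h3]⟩
      rw [h3]
      exact hl
    have hfbv : ∀ q ∈ fb, (∀ x ∈ q.2, x ∈ Jump.dom F ∨ x = b) ∧ b ∈ q.2 ∧
        q.2.length = 5 + (j + 1 + q.1) := by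
      intro q hq
      obtain ⟨h1, h2⟩ := (hfb q).mp hq
      obtain ⟨h3, h4, h5⟩ := (Jump.mem_facts ar).mp h1
      rw [har q.1 (by rw [← harlen]; exact h3)] at h4
      exact ⟨fun x hx => hD x (h5 x hx), h2, h4⟩
    obtain ⟨m, hm1, hm2, hm3, hm4⟩ := @extend ℕ P0 h τ (Jump.dom F) b hτ pos neg (by
      intro q hq
      rcases List.mem_append.mp hq with hq | hq
      · obtain ⟨q', hq', rfl⟩ := List.mem_map.mp hq
        exact hfbv q' (List.mem_filter.mp hq').1
      · obtain ⟨i', hi', hq⟩ := List.mem_flatMap.mp hq
        obtain ⟨l, hl, rfl⟩ := List.mem_map.mp hq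
        obtain ⟨h1, h2⟩ := List.mem_filter.mp hl
        obtain ⟨h3, h4⟩ := Jump.mem_tuples.mp h1
        exact ⟨fun x hx => hD x (h4 x hx), by simpa using h2, h3⟩) (by
      intro q hq
      obtain ⟨q', hq', rfl⟩ := List.mem_map.mp hq
      exact hfbv q' (List.mem_filter.mp hq').1) (by
      intro q hq hq2
      obtain ⟨q', hq', rfl⟩ := List.mem_map.mp hq
      obtain ⟨_, hcq⟩ := List.mem_filter.mp hq'
      rcases List.mem_append.mp hq2 with hq2 | hq2
      · obtain ⟨q'', hq'', he⟩ := List.mem_map.mp hq2
        obtain ⟨_, hcq2⟩ := List.mem_filter.mp hq''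
        have h1 : q'' = q' := by
          have e1 : j + 1 + q''.1 = j + 1 + q'.1 := congrArg (fun z : ℕ × List ℕ => z.1) he
          have e2 : (shift q'').2 = (shift q').2 := by rw [he]
          exact Prod.ext (by omega) e2
        rw [h1] at hcq2
        rw [hcq2] at hcq
        exact absurd hcq (by simp)
      · obtain ⟨i', hi', hq2⟩ := List.mem_flatMap.mp hq2
        obtain ⟨l, hl, he⟩ := List.mem_map.mp hq2
        have e1 : i' + 1 = j + 1 + q'.1 := congrArg Prod.fst he
        have : i' < j := by simpa using hi'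
        omega)
    -- the new element
    have hupd : ∀ l : List ℕ, (∀ x ∈ l, x ∈ Jump.dom F ++ [b]) →
        (l.map (Jump.look (F ++ [(b, f.symm m)]))).map f = l.map (Function.update τ b m) := by
      intro l hl
      rw [List.map_map]
      apply List.map_congr_left
      intro x hx
      rcases hD x (hl x hx) with h1 | h1
      · have hxb : x ≠ b := by
          rintro rfl
          exact hbF h1
        rw [Function.update_of_ne hxb]
        show f (Jump.look (F ++ [(b, f.symm m)]) x) = f (Jump.look F x)
        rw [Jump.look_append h1]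
      · subst h1
        rw [Function.update_self]
        show f (Jump.look (F ++ [(x, f.symm m)]) x) = m
        rw [Jump.look_snoc hbF, Equiv.apply_symm_apply]
    -- lower relations hold
    have hSj : ∀ l ∈ Jump.tuples (5 + j) (Jump.dom F ++ [b]), b ∈ l →
        SS h j (l.map (Function.update τ b m)) := by
      intro l hl hbl
      obtain ⟨h1, h2⟩ := Jump.mem_tuples.mp hl
      rcases Nat.eq_zero_or_pos j with h0 | h0
      · subst h0
        exact hm4 l (fun x hx => hD x (h2 x hx)) hbl
      · obtain ⟨j', rfl⟩ : ∃ j', j = j' + 1 := ⟨j - 1, by omega⟩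
        rw [SS_succ]
        exact Or.inr (hm2 _ (hpos2 (j' + 1) (by omega) (le_refl _) l hl hbl))
    have hsE : ∀ l ∈ Jump.tuples (5 + j) (Jump.dom F ++ [b]), b ∈ l →
        s (l.map (Jump.look (F ++ [(b, f.symm m)]))) = true := by
      intro l hl hbl
      obtain ⟨h1, h2⟩ := Jump.mem_tuples.mp hl
      rw [hs' _ (by rw [List.length_map]; exact h1), hupd l h2]
      exact hSj l hl hbl
    have hrho : ∀ q ∈ Jump.facts ar (Jump.dom F ++ [b]), b ∈ q.2 →
        r (j + 1 + q.1) (q.2.map (Jump.look (F ++ [(b, f.symm m)]))) = c q := by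
      intro q hq hbq
      have hqfb : q ∈ fb := (hfb q).mpr ⟨hq, hbq⟩
      obtain ⟨h3, h4, h5⟩ := (Jump.mem_facts ar).mp hq
      rw [harlen] at h3
      rw [har q.1 h3] at h4
      have h6 := hr' (j + 1 + q.1) (by omega) (by omega)
        (q.2.map (Jump.look (F ++ [(b, f.symm m)]))) (by rw [List.length_map]; exact h4)
      rw [hupd q.2 h5] at h6
      rcases hcq : c q with _ | _
      · rw [← Bool.not_eq_true, h6]
        exact hm3 _ (hneg1 q hqfb hcq)
      · rw [h6]
        exact hm2 _ (hpos1 q hqfb hcq)
    refine ⟨f.symm m, ?_, ?_, ?_⟩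
    · intro hc
      obtain ⟨x, hx, hx'⟩ := Jump.exists_look hd hc
      apply hm1 x hx
      show f (Jump.look F x) = m
      rw [hx', Equiv.apply_symm_apply]
    · intro q hq hbq
      obtain ⟨h3, h4, h5⟩ := (Jump.mem_facts ar).mp hq
      rw [harlen] at h3
      have h4' := h4
      rw [har q.1 h3] at h4'
      obtain ⟨t, l⟩ := q
      rcases Nat.eq_zero_or_pos t with h0 | h0
      · subst h0
        rw [hG0]
        have hr0 := hrho (0, l) hq hbq
        simp only [Nat.add_zero] at hr0
        rw [hr0, ← List.map_dropLast]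
        have hl5 : l.length = 5 + j + 1 := by
          have h9 : l.length = 5 + (j + 1 + 0) := h4'
          omega
        have hlne : l ≠ [] := by rintro rfl; simp at hl5
        have hsplit : l.dropLast ++ [l.getLast hlne] = l := List.dropLast_append_getLast hlne
        have hdl : l.dropLast ∈ Jump.tuples (5 + j) (Jump.dom F ++ [b]) := by
          rw [Jump.mem_tuples]
          exact ⟨by simp [hl5], fun x hx => h5 x (List.mem_of_mem_dropLast hx)⟩
        by_cases hbd : b ∈ l.dropLast
        · rw [hsE _ hdl hbd]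
          simp
        · -- the new element is the last entry
          have hlast : l.getLast hlne = b := by
            have h6 : b ∈ l.dropLast ++ [l.getLast hlne] := by rw [hsplit]; exact hbq
            rcases List.mem_append.mp h6 with h7 | h7
            · exact absurd h7 hbd
            · exact (List.mem_singleton.mp h7).symm
          have hdF : ∀ x ∈ l.dropLast, x ∈ Jump.dom F := by
            intro x hx
            rcases hD x (h5 x (List.mem_of_mem_dropLast hx)) with h7 | h7
            · exact h7
            · rw [h7] at hx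
              exact absurd hx hbd
          have hlk : l.dropLast.map (Jump.look (F ++ [(b, f.symm m)])) =
              l.dropLast.map (Jump.look F) :=
            List.map_congr_left fun x hx => Jump.look_append (hdF x hx)
          rw [hlk]
          rcases hsv : s (l.dropLast.map (Jump.look F)) with _ | _
          · have h7 := hc l.dropLast (Jump.mem_tuples.mpr ⟨by simp [hl5], hdF⟩) (by
              show (!(s (l.dropLast.map (Jump.look F)))) = true
              rw [hsv]
              rfl)
            rw [← hlast, hsplit] at h7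
            rw [h7]
            rfl
          · simp
      · rw [hG1 t h0 h3]
        exact hrho (t, l) hq hbq
    · intro l hl hbl
      simp only [E]
      rw [hsE l hl hbl]
      rfl
  obtain ⟨f', H, hH, hHf⟩ := Jump.jump ar (5 + j) G E hG hE hGE hEP (by
    intro t ht
    rw [harlen] at ht
    rw [har t ht]
    omega) (by omega)
  refine ⟨f'.trans f, ⟨fun l => H (0, l), hH.comp ((InF.const 0).pair InF.id), ?_⟩, ?_⟩
  · intro l hl
    have h1 := hHf (0, l) (by rw [harlen]; show 0 < K - j; omega) (by
      rw [har 0 (by omega)]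
      show l.length = 5 + (j + 1 + 0)
      omega)
    show H (0, l) = true ↔ _
    rw [h1]
    show G (0, l.map f') = true ↔ _
    rw [hG0, SS_succ, Bool.or_eq_true, Bool.not_eq_true', ← Bool.not_eq_true,
      hs' _ (by simp [hl]), hr' (j + 1) (by omega) (by omega) _ (by simp [hl])]
    have e1 : l.map (f'.trans f) = (l.map f').map f := by
      rw [List.map_map]
      rfl
    rw [e1, List.map_dropLast]
  · intro t ht htK
    refine ⟨fun l => H (t - (j + 1), l), hH.comp ((InF.const _).pair InF.id), ?_⟩
    intro l hl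
    have h1 := hHf (t - (j + 1), l) (by rw [harlen]; show t - (j + 1) < K - j; omega) (by
      rw [har _ (by show t - (j + 1) < K - j; omega)]
      show l.length = 5 + (j + 1 + (t - (j + 1)))
      omega)
    show H (t - (j + 1), l) = true ↔ _
    rw [h1]
    show G (t - (j + 1), l.map f') = true ↔ _
    have h2 : j + 1 + (t - (j + 1)) = t := by omega
    rw [hG1 _ (by omega) (by omega), h2, hr' t (by omega) htK _ (by simp [hl])]
    have e1 : l.map (f'.trans f) = (l.map f').map f := by
      rw [List.map_map]
      rfl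
    rw [e1]

theorem low_all {K : ℕ} (h0 : Low h K K 0 (Equiv.refl ℕ)) (j : ℕ) (hj : j ≤ K) :
    ∃ f : ℕ ≃ ℕ, Low h K (K - j) j f := by
  induction j with
  | zero => exact ⟨_, h0⟩
  | succ j ih =>
    obtain ⟨f, hf⟩ := ih (by omega)
    have h1 : K - j = K - (j + 1) + 1 := by omega
    rw [h1] at hf
    exact low_step h (by omega) hf

/-- A computable copy of the last relation of the chain. -/
theorem exists_copy {K : ℕ} (h0 : Low h K K 0 (Equiv.refl ℕ)) :
    ∃ (f : ℕ ≃ ℕ) (s : List ℕ → Bool), Computable s ∧
      ∀ l, l.length = 5 + K → (s l = true ↔ SS h K (l.map f)) := by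
  obtain ⟨f, ⟨s, hs, hs'⟩, _⟩ := low_all h h0 K (le_refl _)
  rw [Nat.sub_self] at hs
  exact ⟨f, s, hs, hs'⟩

end

end Pool.Agent.Arith67
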