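import Pool.Agent.Arith67.PAModel

/-!
Codes of flattened formulas and their meaning.
-/

namespace Pool.Agent.Arith67

open FirstOrder FirstOrder.Language

/-- Less-than in a structure for arithmetic. -/
def Lt {M : Type} [LPA.Structure M] (x y : M) : Prop :=
  Structure.RelMap (L := LPA) (PARel.lt : LPA.Relations 2) ![x, y]

theorem realize_ltF {M : Type} [LPA.Structure M] {α : Type} (t u : LPA.Term α) (v : α → M) :
    (ltF t u).Realize v ↔ Lt (t.realize v) (u.realize v) := by
  show Structure.RelMap (L := LPA) (PARel.lt : LPA.Relations 2) _ ↔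
    Structure.RelMap (L := LPA) (PARel.lt : LPA.Relations 2) _
  apply iff_of_eq
  congr 1
  funext j
  fin_cases j <;> exact Term.realize_relabel.trans rfl

def get {M : Type} [LPA.Structure M] (l : List M) (i : ℕ) : M := l.getD i (Z M)

def mk (t d : ℕ) : ℕ := 9 * d + t + 1

def eqC (i j : ℕ) : ℕ := mk 0 (Nat.pair i j)
def ltC (i j : ℕ) : ℕ := mk 1 (Nat.pair i j)
def impC (a b : ℕ) : ℕ := mk 2 (Nat.pair a b)
def allC (a : ℕ) : ℕ := mk 3 a
def ballC (i a : ℕ) : ℕ := mk 4 (Nat.pair i a)
def zC (a : ℕ) : ℕ := mk 5 a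
def sC (i a : ℕ) : ℕ := mk 6 (Nat.pair i a)
def addC (i j a : ℕ) : ℕ := mk 7 (Nat.pair i (Nat.pair j a))
def mulC (i j a : ℕ) : ℕ := mk 8 (Nat.pair i (Nat.pair j a))

/-- Meaning of codes. -/
def Sat {M : Type} [LPA.Structure M] (n : ℕ) (l : List M) : Prop :=
  if n = 0 then False
  else if (n - 1) % 9 = 0 then
    get l (Nat.unpair ((n - 1) / 9)).1 = get l (Nat.unpair ((n - 1) / 9)).2
  else if (n - 1) % 9 = 1 then
    Lt (get l (Nat.unpair ((n - 1) / 9)).1) (get l (Nat.unpair ((n - 1) / 9)).2)
  else if (n - 1) % 9 = 2 then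
    (Sat (Nat.unpair ((n - 1) / 9)).1 l → Sat (Nat.unpair ((n - 1) / 9)).2 l)
  else if (n - 1) % 9 = 3 then
    ∀ x : M, Sat ((n - 1) / 9) (l ++ [x])
  else if (n - 1) % 9 = 4 then
    ∀ x : M, Lt x (get l (Nat.unpair ((n - 1) / 9)).1) →
      Sat (Nat.unpair ((n - 1) / 9)).2 (l ++ [x])
  else if (n - 1) % 9 = 5 then
    Sat ((n - 1) / 9) (l ++ [Z M])
  else if (n - 1) % 9 = 6 then
    Sat (Nat.unpair ((n - 1) / 9)).2 (l ++ [Sc (get l (Nat.unpair ((n - 1) / 9)).1)])
  else if (n - 1) % 9 = 7 then
    Sat (Nat.unpair (Nat.unpair ((n - 1) / 9)).2).2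
      (l ++ [Ad (get l (Nat.unpair ((n - 1) / 9)).1)
        (get l (Nat.unpair (Nat.unpair ((n - 1) / 9)).2).1)])
  else
    Sat (Nat.unpair (Nat.unpair ((n - 1) / 9)).2).2
      (l ++ [Mu (get l (Nat.unpair ((n - 1) / 9)).1)
        (get l (Nat.unpair (Nat.unpair ((n - 1) / 9)).2).1)])
termination_by n
decreasing_by
  all_goals
    have h1 := Nat.unpair_left_le ((n - 1) / 9)
    have h2 := Nat.unpair_right_le ((n - 1) / 9)
    have h3 := Nat.unpair_right_le (Nat.unpair ((n - 1) / 9)).2
    omega

section

variable {M : Type} [LPA.Structure M] (l : List M)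

theorem mk_tag {t d : ℕ} (ht : t < 9) : (mk t d - 1) % 9 = t := by unfold mk; omega
theorem mk_data {t d : ℕ} (ht : t < 9) : (mk t d - 1) / 9 = d := by unfold mk; omega
theorem mk_ne (t d : ℕ) : mk t d ≠ 0 := by unfold mk; omega

theorem sat_zero : ¬ Sat 0 l := by
  rw [Sat]
  simp

theorem sat_eq (i j : ℕ) : Sat (eqC i j) l ↔ get l i = get l j := by
  rw [Sat, eqC]
  simp [mk_tag, mk_data, mk_ne]

theorem sat_lt (i j : ℕ) : Sat (ltC i j) l ↔ Lt (get l i) (get l j) := by
  rw [Sat, ltC]
  simp [mk_tag, mk_data, mk_ne]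

theorem sat_imp (a b : ℕ) : Sat (impC a b) l ↔ (Sat a l → Sat b l) := by
  rw [Sat, impC]
  simp [mk_tag, mk_data, mk_ne]

theorem sat_all (a : ℕ) : Sat (allC a) l ↔ ∀ x : M, Sat a (l ++ [x]) := by
  rw [Sat, allC]
  simp [mk_tag, mk_data, mk_ne]

theorem sat_ball (i a : ℕ) : Sat (ballC i a) l ↔ ∀ x : M, Lt x (get l i) → Sat a (l ++ [x]) := by
  rw [Sat, ballC]
  simp [mk_tag, mk_data, mk_ne]

theorem sat_z (a : ℕ) : Sat (zC a) l ↔ Sat a (l ++ [Z M]) := by
  rw [Sat, zC]
  simp [mk_tag, mk_data, mk_ne]

theorem sat_s (i a : ℕ) : Sat (sC i a) l ↔ Sat a (l ++ [Sc (get l i)]) := by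
  rw [Sat, sC]
  simp [mk_tag, mk_data, mk_ne]

theorem sat_add (i j a : ℕ) : Sat (addC i j a) l ↔ Sat a (l ++ [Ad (get l i) (get l j)]) := by
  rw [Sat, addC]
  simp [mk_tag, mk_data, mk_ne]

theorem sat_mul (i j a : ℕ) : Sat (mulC i j a) l ↔ Sat a (l ++ [Mu (get l i) (get l j)]) := by
  rw [Sat, mulC]
  simp [mk_tag, mk_data, mk_ne]

end

theorem code_induction {P : ℕ → Prop} (h0 : P 0) (h1 : ∀ i j, P (eqC i j))
    (h2 : ∀ i j, P (ltC i j)) (h3 : ∀ a b, P a → P b → P (impC a b)) (h4 : ∀ a, P a → P (allC a))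
    (h5 : ∀ i a, P a → P (ballC i a)) (h6 : ∀ a, P a → P (zC a)) (h7 : ∀ i a, P a → P (sC i a))
    (h8 : ∀ i j a, P a → P (addC i j a)) (h9 : ∀ i j a, P a → P (mulC i j a)) (n : ℕ) : P n := by
  induction n using Nat.strong_induction_on with
  | _ n ih =>
    rcases Nat.eq_zero_or_pos n with rfl | hn
    · exact h0
    · obtain ⟨d, t, ht, rfl⟩ : ∃ d t, t < 9 ∧ n = mk t d :=
        ⟨(n - 1) / 9, (n - 1) % 9, by omega, by unfold mk; omega⟩
      have hd : d < mk t d := by unfold mk; omega
      have e1 := Nat.unpair_left_le d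
      have e2 := Nat.unpair_right_le d
      have e3 := Nat.unpair_right_le (Nat.unpair d).2
      have p1 : Nat.pair (Nat.unpair d).1 (Nat.unpair d).2 = d := Nat.pair_unpair d
      have p2 : Nat.pair (Nat.unpair (Nat.unpair d).2).1 (Nat.unpair (Nat.unpair d).2).2 =
        (Nat.unpair d).2 := Nat.pair_unpair _
      interval_cases t
      · have := h1 (Nat.unpair d).1 (Nat.unpair d).2
        rwa [eqC, p1] at this
      · have := h2 (Nat.unpair d).1 (Nat.unpair d).2
        rwa [ltC, p1] at this
      · have := h3 (Nat.unpair d).1 (Nat.unpair d).2 (ih _ (by omega)) (ih _ (by omega))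
        rwa [impC, p1] at this
      · exact h4 d (ih _ hd)
      · have := h5 (Nat.unpair d).1 (Nat.unpair d).2 (ih _ (by omega))
        rwa [ballC, p1] at this
      · exact h6 d (ih _ hd)
      · have := h7 (Nat.unpair d).1 (Nat.unpair d).2 (ih _ (by omega))
        rwa [sC, p1] at this
      · have := h8 (Nat.unpair d).1 (Nat.unpair (Nat.unpair d).2).1
          (Nat.unpair (Nat.unpair d).2).2 (ih _ (by omega))
        rwa [addC, p2, p1] at this
      · have := h9 (Nat.unpair d).1 (Nat.unpair (Nat.unpair d).2).1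
          (Nat.unpair (Nat.unpair d).2).2 (ih _ (by omega))
        rwa [mulC, p2, p1] at this

/-- Codes without unbounded quantifiers. -/
inductive Bd : ℕ → Prop
  | fal : Bd 0
  | eq (i j : ℕ) : Bd (eqC i j)
  | lt (i j : ℕ) : Bd (ltC i j)
  | imp {a b : ℕ} : Bd a → Bd b → Bd (impC a b)
  | ball (i : ℕ) {a : ℕ} : Bd a → Bd (ballC i a)
  | z {a : ℕ} : Bd a → Bd (zC a)
  | s (i : ℕ) {a : ℕ} : Bd a → Bd (sC i a)
  | add (i j : ℕ) {a : ℕ} : Bd a → Bd (addC i j a)
  | mul (i j : ℕ) {a : ℕ} : Bd a → Bd (mulC i j a)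

section ud

variable {ι : Type 1} {C : ι → Type} [∀ i, LPA.Structure (C i)]

/-- The term for position `i` of the environment. -/
def getT (k i : ℕ) : LPA.Term (Fin k) := if h : i < k then .var ⟨i, h⟩ else zeroT

theorem realize_getT {M : Type} [LPA.Structure M] (k i : ℕ) (v : Fin k → M) :
    (getT k i).realize v = get (List.ofFn v) i := by
  unfold getT get
  by_cases h : i < k
  · rw [dif_pos h, List.getD_eq_getElem _ _ (by simpa using h)]
    simp
  · rw [dif_neg h, List.getD_eq_default _ _ (by simpa using h)]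
    simp

theorem ofFn_snoc {M : Type} {k : ℕ} (v : Fin k → M) (x : M) :
    List.ofFn (Fin.snoc v x : Fin (k + 1) → M) = List.ofFn v ++ [x] := by
  rw [List.ofFn_succ', List.concat_eq_append]
  simp

theorem UD_snoc {k : ℕ} {r : ∀ i, List (C i) → Prop}
    (h : UD LPA C (fun i (v : Fin (k + 1) → C i) => r i (List.ofFn v))) :
    UD LPA C (fun i (v : Option (Fin k) → C i) =>
      r i (List.ofFn (fun j => v (some j)) ++ [v none])) := by
  refine (h.relabel (Fin.snoc (fun j => some j) none : Fin (k + 1) → Option (Fin k))).congr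
    fun i v => ?_
  rw [← ofFn_snoc]
  have : (v ∘ (Fin.snoc (fun j => some j) none : Fin (k + 1) → Option (Fin k))) =
      Fin.snoc (fun j => v (some j)) (v none) := by
    funext j
    refine Fin.lastCases ?_ (fun j => ?_) j
    · simp
    · simp
  rw [this]

theorem UD_let {k : ℕ} {r : ∀ i, List (C i) → Prop}
    (h : UD LPA C (fun i (v : Fin (k + 1) → C i) => r i (List.ofFn v)))
    (t : LPA.Term (Fin k)) :
    UD LPA C (fun i (v : Fin k → C i) => r i (List.ofFn v ++ [t.realize v])) := by
  have h1 : UD LPA C (fun i (v : Fin k → C i) => ∃ x : C i, x = t.realize v ∧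
      r i (List.ofFn v ++ [x])) := by
    refine UD.ex (r := fun i v x => x = t.realize v ∧ r i (List.ofFn v ++ [x])) ?_
    refine UD.and ?_ (UD_snoc h)
    refine (UD.term (Term.var none) (t.relabel some)).congr fun i v => ?_
    rw [Term.realize_relabel]
    rfl
  refine h1.congr fun i v => ?_
  constructor
  · rintro ⟨x, rfl, hx⟩
    exact hx
  · intro hx
    exact ⟨_, rfl, hx⟩

/-- Codes define uniformly definable relations. -/
theorem UD_sat (n : ℕ) : ∀ k : ℕ,
    UD LPA C (fun i (v : Fin k → C i) => Sat n (List.ofFn v)) := by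
  induction n using code_induction with
  | h0 => intro k; exact UD.false.congr fun i v => by simp [sat_zero]
  | h1 i j =>
    intro k
    refine (UD.term (getT k i) (getT k j)).congr fun _ v => ?_
    rw [realize_getT, realize_getT, sat_eq]
  | h2 i j =>
    intro k
    refine (UD.formula (ltF (getT k i) (getT k j))).congr fun _ v => ?_
    rw [realize_ltF, realize_getT, realize_getT, sat_lt]
  | h3 a b ha hb =>
    intro k
    refine ((ha k).imp (hb k)).congr fun _ v => ?_
    rw [sat_imp]
  | h4 a ha =>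
    intro k
    refine (UD.all (r := fun i (v : Fin k → C i) x => Sat a (List.ofFn v ++ [x]))
      (UD_snoc (ha (k + 1)))).congr fun _ v => ?_
    rw [sat_all]
  | h5 i a ha =>
    intro k
    refine (UD.all (r := fun i' (v : Fin k → C i') x => Lt x (get (List.ofFn v) i) →
      Sat a (List.ofFn v ++ [x])) ?_).congr fun _ v => ?_
    · refine UD.imp ?_ (UD_snoc (ha (k + 1)))
      refine (UD.formula (ltF (Term.var none) ((getT k i).relabel some))).congr fun _ v => ?_
      rw [realize_ltF, Term.realize_relabel, realize_getT]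
      rfl
    · rw [sat_ball]
  | h6 a ha =>
    intro k
    refine (UD_let (ha (k + 1)) zeroT).congr fun _ v => ?_
    rw [sat_z, realize_zeroT]
  | h7 i a ha =>
    intro k
    refine (UD_let (ha (k + 1)) (succT (getT k i))).congr fun _ v => ?_
    rw [sat_s, realize_succT, realize_getT]
  | h8 i j a ha =>
    intro k
    refine (UD_let (ha (k + 1)) (addT (getT k i) (getT k j))).congr fun _ v => ?_
    rw [sat_add, realize_addT, realize_getT, realize_getT]
  | h9 i j a ha =>
    intro k
    refine (UD_let (ha (k + 1)) (mulT (getT k i) (getT k j))).congr fun _ v => ?_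
    rw [sat_mul, realize_mulT, realize_getT, realize_getT]

end ud

section translate

theorem get_append_left {M : Type} [LPA.Structure M] {l l' : List M} {i : ℕ} (hi : i < l.length) :
    get (l ++ l') i = get l i := by
  unfold get
  rw [List.getD_append _ _ _ _ hi]

theorem get_append_length {M : Type} [LPA.Structure M] {l : List M} {x : M} {i : ℕ}
    (hi : i = l.length) : get (l ++ [x]) i = x := by
  unfold get
  subst hi
  rw [List.getD_append_right _ _ _ _ (le_refl _)]
  simp

/-- Terms. -/
theorem term_code {β : Type} (t : LPA.Term β) : ∀ (k : ℕ) (pos : β → ℕ), (∀ b, pos b < k) →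
    ∃ (e q : ℕ) (F : ℕ → ℕ), q < k + e ∧ (∀ c, Bd c → Bd (F c)) ∧
      ∀ (M : Type) [LPA.Structure M] (l : List M), l.length = k →
        ∃ ext : List M, ext.length = e ∧ (∀ c, Sat (F c) l ↔ Sat c (l ++ ext)) ∧
          get (l ++ ext) q = t.realize (fun b => get l (pos b)) := by
  induction t with
  | var b =>
    intro k pos hpos
    refine ⟨0, pos b, id, by simpa using hpos b, fun c hc => hc, ?_⟩
    intro M _ l hl
    exact ⟨[], rfl, fun c => by simp, by simp⟩
  | @func n f ts ih =>
    intro k pos hpos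
    cases f with
    | zero =>
      refine ⟨1, k, zC, by omega, fun c hc => Bd.z hc, ?_⟩
      intro M _ l hl
      refine ⟨[Z M], rfl, fun c => sat_z l c, ?_⟩
      rw [get_append_length hl.symm]
      show Z M = Structure.funMap (L := LPA) PAFun.zero _
      unfold Z
      congr 1
      funext j; exact j.elim0
    | succ =>
      obtain ⟨e, q, F, hq, hF, h⟩ := ih 0 k pos hpos
      refine ⟨e + 1, k + e, fun c => F (sC q c), by omega, fun c hc => hF _ (Bd.s q hc), ?_⟩
      intro M _ l hl
      obtain ⟨ext, he, h1, h2⟩ := h M l hl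
      refine ⟨ext ++ [Sc (get (l ++ ext) q)], by simp [he], fun c => ?_, ?_⟩
      · rw [h1, sat_s, List.append_assoc]
      · rw [← List.append_assoc, get_append_length (by simp [hl, he]), h2]
        show Structure.funMap (L := LPA) PAFun.succ _ = Structure.funMap (L := LPA) PAFun.succ _
        congr 1
        funext j
        have : j = 0 := Subsingleton.elim _ _
        subst this
        rfl
    | add =>
      obtain ⟨e, q, F, hq, hF, h⟩ := ih 0 k pos hpos
      obtain ⟨e', q', F', hq', hF', h'⟩ := ih 1 (k + e) pos (fun b => by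
        have := hpos b
        omega)
      refine ⟨e + e' + 1, k + e + e', fun c => F (F' (addC q q' c)), by omega,
        fun c hc => hF _ (hF' _ (Bd.add q q' hc)), ?_⟩
      intro M _ l hl
      obtain ⟨ext, he, h1, h2⟩ := h M l hl
      obtain ⟨ext', he', h1', h2'⟩ := h' M (l ++ ext) (by simp [hl, he])
      have hv : (fun b => get (l ++ ext) (pos b)) = fun b => get l (pos b) := by
        funext b
        exact get_append_left (by rw [hl]; exact hpos b)
      rw [hv] at h2'
      have h2'' : get (l ++ ext ++ ext') q = Term.realize (fun b => get l (pos b)) (ts 0) := by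
        rw [get_append_left (by simp [hl, he]; omega), h2]
      refine ⟨ext ++ ext' ++ [Ad (get (l ++ ext ++ ext') q) (get (l ++ ext ++ ext') q')],
        by simp [he, he']; omega, fun c => ?_, ?_⟩
      · rw [h1, h1', sat_add, ← List.append_assoc, ← List.append_assoc]
      · rw [← List.append_assoc, ← List.append_assoc, get_append_length (by simp [hl, he, he']; omega),
          h2'', h2']
        show Structure.funMap (L := LPA) PAFun.add _ = Structure.funMap (L := LPA) PAFun.add _
        congr 1
        funext j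
        fin_cases j <;> rfl
    | mul =>
      obtain ⟨e, q, F, hq, hF, h⟩ := ih 0 k pos hpos
      obtain ⟨e', q', F', hq', hF', h'⟩ := ih 1 (k + e) pos (fun b => by
        have := hpos b
        omega)
      refine ⟨e + e' + 1, k + e + e', fun c => F (F' (mulC q q' c)), by omega,
        fun c hc => hF _ (hF' _ (Bd.mul q q' hc)), ?_⟩
      intro M _ l hl
      obtain ⟨ext, he, h1, h2⟩ := h M l hl
      obtain ⟨ext', he', h1', h2'⟩ := h' M (l ++ ext) (by simp [hl, he])
      have hv : (fun b => get (l ++ ext) (pos b)) = fun b => get l (pos b) := by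
        funext b
        exact get_append_left (by rw [hl]; exact hpos b)
      rw [hv] at h2'
      have h2'' : get (l ++ ext ++ ext') q = Term.realize (fun b => get l (pos b)) (ts 0) := by
        rw [get_append_left (by simp [hl, he]; omega), h2]
      refine ⟨ext ++ ext' ++ [Mu (get (l ++ ext ++ ext') q) (get (l ++ ext ++ ext') q')],
        by simp [he, he']; omega, fun c => ?_, ?_⟩
      · rw [h1, h1', sat_mul, ← List.append_assoc, ← List.append_assoc]
      · rw [← List.append_assoc, ← List.append_assoc, get_append_length (by simp [hl, he, he']; omega),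
          h2'', h2']
        show Structure.funMap (L := LPA) PAFun.mul _ = Structure.funMap (L := LPA) PAFun.mul _
        congr 1
        funext j
        fin_cases j <;> rfl

/-- Equality of two terms. -/
theorem equal_code {β : Type} (t u : LPA.Term β) (k : ℕ) (pos : β → ℕ) (hpos : ∀ b, pos b < k) :
    ∃ c, Bd c ∧ ∀ (M : Type) [LPA.Structure M] (l : List M), l.length = k →
      (Sat c l ↔ t.realize (fun b => get l (pos b)) = u.realize (fun b => get l (pos b))) := by
  obtain ⟨e, q, F, hq, hF, h⟩ := term_code t k pos hpos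
  obtain ⟨e', q', F', hq', hF', h'⟩ := term_code u (k + e) pos (fun b => by
    have := hpos b
    omega)
  refine ⟨F (F' (eqC q q')), hF _ (hF' _ (Bd.eq _ _)), ?_⟩
  intro M _ l hl
  obtain ⟨ext, he, h1, h2⟩ := h M l hl
  obtain ⟨ext', he', h1', h2'⟩ := h' M (l ++ ext) (by simp [hl, he])
  have hv : (fun b => get (l ++ ext) (pos b)) = fun b => get l (pos b) := by
    funext b
    exact get_append_left (by rw [hl]; exact hpos b)
  rw [hv] at h2'
  rw [h1, h1', sat_eq, h2', get_append_left (by simp [hl, he]; omega), h2]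

/-- Less-than of two terms. -/
theorem lt_code {β : Type} (t u : LPA.Term β) (k : ℕ) (pos : β → ℕ) (hpos : ∀ b, pos b < k) :
    ∃ c, Bd c ∧ ∀ (M : Type) [LPA.Structure M] (l : List M), l.length = k →
      (Sat c l ↔ Lt (t.realize (fun b => get l (pos b))) (u.realize (fun b => get l (pos b)))) := by
  obtain ⟨e, q, F, hq, hF, h⟩ := term_code t k pos hpos
  obtain ⟨e', q', F', hq', hF', h'⟩ := term_code u (k + e) pos (fun b => by
    have := hpos b
    omega)
  refine ⟨F (F' (ltC q q')), hF _ (hF' _ (Bd.lt _ _)), ?_⟩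
  intro M _ l hl
  obtain ⟨ext, he, h1, h2⟩ := h M l hl
  obtain ⟨ext', he', h1', h2'⟩ := h' M (l ++ ext) (by simp [hl, he])
  have hv : (fun b => get (l ++ ext) (pos b)) = fun b => get l (pos b) := by
    funext b
    exact get_append_left (by rw [hl]; exact hpos b)
  rw [hv] at h2'
  rw [h1, h1', sat_lt, h2', get_append_left (by simp [hl, he]; omega), h2]

/-- Formulas have codes. -/
theorem formula_code {α : Type} {m : ℕ} (φ : LPA.BoundedFormula α m) :
    ∀ (k : ℕ) (pos : α → ℕ) (pb : Fin m → ℕ), (∀ b, pos b < k) → (∀ b, pb b < k) →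
    ∃ c, ∀ (M : Type) [LPA.Structure M] (l : List M), l.length = k →
      (Sat c l ↔ φ.Realize (fun b => get l (pos b)) (fun b => get l (pb b))) := by
  induction φ with
  | falsum =>
    intro k pos pb h1 h2
    exact ⟨0, fun M _ l hl => by simp [sat_zero, BoundedFormula.Realize]⟩
  | equal t u =>
    intro k pos pb h1 h2
    obtain ⟨c, _, hc⟩ := equal_code t u k (Sum.elim pos pb) (by
      rintro (b | b)
      · exact h1 b
      · exact h2 b)
    refine ⟨c, fun M _ l hl => ?_⟩
    rw [hc M l hl]
    have hv : (fun b => get l ((Sum.elim pos pb) b)) =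
        Sum.elim (fun b => get l (pos b)) (fun b => get l (pb b)) := by
      funext b
      rcases b with b | b <;> rfl
    rw [hv]
    rfl
  | @rel n r R ts =>
    intro k pos pb h1 h2
    cases R
    obtain ⟨c, _, hc⟩ := lt_code (ts 0) (ts 1) k (Sum.elim pos pb) (by
      rintro (b | b)
      · exact h1 b
      · exact h2 b)
    refine ⟨c, fun M _ l hl => ?_⟩
    rw [hc M l hl]
    have hv : (fun b => get l ((Sum.elim pos pb) b)) =
        Sum.elim (fun b => get l (pos b)) (fun b => get l (pb b)) := by
      funext b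
      rcases b with b | b <;> rfl
    rw [hv]
    show Structure.RelMap (L := LPA) PARel.lt _ ↔ Structure.RelMap (L := LPA) PARel.lt _
    apply iff_of_eq
    congr 1
    funext j
    fin_cases j <;> rfl
  | imp φ ψ ih1 ih2 =>
    intro k pos pb h1 h2
    obtain ⟨c1, hc1⟩ := ih1 k pos pb h1 h2
    obtain ⟨c2, hc2⟩ := ih2 k pos pb h1 h2
    refine ⟨impC c1 c2, fun M _ l hl => ?_⟩
    rw [sat_imp, hc1 M l hl, hc2 M l hl]
    rfl
  | @all m φ ih =>
    intro k pos pb h1 h2
    obtain ⟨c, hc⟩ := ih (k + 1) pos (Fin.snoc pb k) (fun b => by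
      have := h1 b
      omega) (by
      intro b
      refine Fin.lastCases ?_ (fun b => ?_) b
      · simp
      · simp only [Fin.snoc_castSucc]
        have := h2 b
        omega)
    refine ⟨allC c, fun M _ l hl => ?_⟩
    rw [sat_all, BoundedFormula.realize_all]
    refine forall_congr' fun x => ?_
    rw [hc M (l ++ [x]) (by simp [hl])]
    have e1 : (fun b => get (l ++ [x]) (pos b)) = fun b => get l (pos b) := by
      funext b
      exact get_append_left (by rw [hl]; exact h1 b)
    have e2 : (fun b => get (l ++ [x]) ((Fin.snoc pb k : Fin (m + 1) → ℕ) b)) =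
        Fin.snoc (fun b => get l (pb b)) x := by
      funext b
      refine Fin.lastCases ?_ (fun b => ?_) b
      · simp only [Fin.snoc_last]
        exact get_append_length hl.symm
      · simp only [Fin.snoc_castSucc]
        exact get_append_left (by rw [hl]; exact h2 b)
    rw [e1, e2]

end translate

end Pool.Agent.Arith67
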