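import Pool.Agent.Arith67.Code

/-!
The coding theorem: a theory in one relation symbol of arity `r ≥ 2`.
-/

namespace Pool.Agent.Arith67

open FirstOrder FirstOrder.Language

/-- Models of `U` with the definitional expansion to `L`. -/
structure Idx (U : LPA.Theory) (L : FirstOrder.Language.{0,0}) (D : Defns LPA L) : Type 1 where
  C : Type
  pa : LPA.Structure C
  ls : L.Structure C
  ne : Nonempty C
  mod : C ⊨ U
  holds : D.Holds C

/-- The structure given by a binary relation. -/
@[instance_reducible] def oneStr {C : Type} (R : C → C → Prop) (r : ℕ) (hr : 2 ≤ r) :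
    (LOne r).Structure C where
  funMap := fun f => f.elim
  RelMap := fun {n} _ v => ∃ h : n = r, R (v ⟨0, by omega⟩) (v ⟨1, by omega⟩)

theorem relMap_oneStr {C : Type} (R : C → C → Prop) (r : ℕ) (hr : 2 ≤ r) (v : Fin r → C) :
    (oneStr R r hr).RelMap (OneRel.q : OneRel r r) v ↔ R (v ⟨0, by omega⟩) (v ⟨1, by omega⟩) :=
  ⟨fun ⟨_, h⟩ => h, fun h => ⟨rfl, h⟩⟩

section

variable {U : LPA.Theory} {L : FirstOrder.Language.{0,0}} {D : Defns LPA L} {E : Defns L LPA}
  {T : L.Theory} (hSM : SameModels U T D E)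
  (hU : ∀ (M : Type) [LPA.Structure M], M ⊨ U → M ⊨ PA)
  {m s : ℕ} (hm : ∀ (k : ℕ) (_ : L.Relations k), k ≤ m + 1)
  {nI : ((k : ℕ) × L.Relations k) → ℕ} (hnI : Function.Injective nI)
  (κE : Kind nI (m + 1) ≃ Fin s) {r : ℕ} (hr : 2 ≤ r)

instance (i : Idx U L D) : LPA.Structure i.C := i.pa
instance (i : Idx U L D) : L.Structure i.C := i.ls
instance (i : Idx U L D) : Nonempty i.C := i.ne

include hSM in
theorem Idx.holdsE (i : Idx U L D) : E.Holds i.C :=
  ((hSM i.C).mp ⟨i.mod, i.holds⟩).2

include hU in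
theorem Idx.hPA (i : Idx U L D) : i.C ⊨ PA := hU i.C i.mod

/-- The bijection with the universe of the graph. -/
noncomputable def BI (hU : ∀ (M : Type) [LPA.Structure M], M ⊨ U → M ⊨ PA)
    (κE : Kind nI (m + 1) ≃ Fin s) (i : Idx U L D) : GG nI (m + 1) i.C ≃ i.C :=
  BP (C := fun i : Idx U L D => i.C) (Idx.hPA hU) κE i

/-- The graph relation on a model of `U`. -/
def RI (hU : ∀ (M : Type) [LPA.Structure M], M ⊨ U → M ⊨ PA)
    (hm : ∀ (k : ℕ) (_ : L.Relations k), k ≤ m + 1)
    (κE : Kind nI (m + 1) ≃ Fin s) (i : Idx U L D) : i.C → i.C → Prop :=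
  Rn (C := fun i : Idx U L D => i.C) (BI hU κE) (PP hm) i

/-- The structure for the one relation symbol. -/
@[instance_reducible] def SI (hU : ∀ (M : Type) [LPA.Structure M], M ⊨ U → M ⊨ PA)
    (hm : ∀ (k : ℕ) (_ : L.Relations k), k ≤ m + 1)
    (κE : Kind nI (m + 1) ≃ Fin s) {r : ℕ} (hr : 2 ≤ r) (i : Idx U L D) :
    (LOne r).Structure i.C :=
  oneStr (RI hU hm κE i) r hr

theorem HRI :
    letI : ∀ i : Idx U L D, (LOne r).Structure i.C := SI hU hm κE hr
    HR (LOne r) (fun i : Idx U L D => i.C) (BI hU κE) (PP hm) := by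
  intro α a b
  letI : ∀ i : Idx U L D, (LOne r).Structure i.C := SI hU hm κE hr
  refine (UD.rel (L := LOne r) (M := fun i : Idx U L D => i.C) (OneRel.q : OneRel r r)
    (fun j => if j.val = 0 then a else b)).congr fun i v => ?_
  refine (relMap_oneStr _ r hr _).trans ?_
  simp only [↓reduceIte, one_ne_zero]
  exact Iff.rfl

theorem UD_PP (t : (k : ℕ) × L.Relations k) :
    UD LPA (fun i : Idx U L D => i.C) (fun i (v : Fin (m + 1) → i.C) => PP hm i t v) := by
  refine ((UD.formula (M := fun i : Idx U L D => i.C) (D.rel t.2)).relabel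
    (Fin.castLE (hm t.1 t.2))).congr fun i v => ?_
  exact (i.holds.1 t.1 t.2 _).symm

theorem UD_RI [Finite ((k : ℕ) × L.Relations k)] {α : Type} (a b : α) :
    UD LPA (fun i : Idx U L D => i.C) (fun i (v : α → i.C) => RI hU hm κE i (v a) (v b)) :=
  UD_Rn (Idx.hPA hU) κE (UD_PP hm) a b

include hSM hnI in
/-- Everything definable in arithmetic is definable from the graph relation. -/
theorem UD_one [L.IsRelational] [Finite ((k : ℕ) × L.Relations k)] {α : Type} [Finite α]
    {q : ∀ i : Idx U L D, (α → i.C) → Prop} (h : UD LPA (fun i : Idx U L D => i.C) q) :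
    letI : ∀ i : Idx U L D, (LOne r).Structure i.C := SI hU hm κE hr
    UD (LOne r) (fun i : Idx U L D => i.C) q := by
  letI : ∀ i : Idx U L D, (LOne r).Structure i.C := SI hU hm κE hr
  have hHR := HRI (r := r) (D := D) hU hm κE hr
  have hVD : ∀ {β : Type} {q : ∀ i : Idx U L D, (β → i.C) → Prop},
      UD LPA (fun i : Idx U L D => i.C) q → VD (LOne r) (fun i : Idx U L D => i.C) (BI hU κE) q :=
    fun hq => VD_of_UD hm hnI hHR (UD.trans E (Idx.holdsE hSM) hq)
  have h0 : VD (LOne r) (fun i : Idx U L D => i.C) (BI hU κE)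
      (fun i (u : Fin 2 → i.C) => u 1 = emb (BI hU κE) i (u 0)) :=
    hVD (UD_BP_inl (Idx.hPA hU) κE 0 1)
  have h1 : ∀ k : Kind nI (m + 1), VD (LOne r) (fun i : Idx U L D => i.C) (BI hU κE)
      (fun i (u : Option (Fin (m + 1)) → i.C) =>
        u none = (BI hU κE) i (Sum.inr (k, fun j => u (some j)))) :=
    fun k => hVD (UD_BP_inr (Idx.hPA hU) κE k some none)
  exact UD_of_VD (fun α a b => UD_emb hnI hHR h0 h1 a b) (hVD h)

include hSM hnI in
theorem exists_defns [L.IsRelational] [Finite ((k : ℕ) × L.Relations k)] :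
    ∃ (D' : Defns LPA (LOne r)) (E' : Defns (LOne r) LPA), ∀ i : Idx U L D,
      letI : (LOne r).Structure i.C := SI hU hm κE hr i
      D'.Holds i.C ∧ E'.Holds i.C := by
  letI inst1 : ∀ i : Idx U L D, (LOne r).Structure i.C := SI hU hm κE hr
  have e1 : ∀ {k : ℕ} (R : LPA.Relations k), UD (LOne r) (fun i : Idx U L D => i.C)
      (fun i (v : Fin k → i.C) => Structure.RelMap R v) := fun R =>
    UD_one hSM hU hm hnI κE hr (UD.rel R id)
  have e2 : ∀ {k : ℕ} (f : LPA.Functions k), UD (LOne r) (fun i : Idx U L D => i.C)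
      (fun i (v : Fin (k + 1) → i.C) => Structure.funMap f (fun j : Fin k => v j.castSucc) =
        v (Fin.last k)) := fun {k} f =>
    UD_one hSM hU hm hnI κE hr (UD.term (Term.func f (fun j : Fin k => Term.var j.castSucc))
      (Term.var (Fin.last k)))
  have e3 : ∀ {k : ℕ} (R : (LOne r).Relations k), UD LPA (fun i : Idx U L D => i.C)
      (fun i (v : Fin k → i.C) => Structure.RelMap R v) := by
    intro k R
    cases R
    refine (UD_RI hU hm κE (⟨0, by omega⟩ : Fin r) ⟨1, by omega⟩).congr fun i v => ?_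
    exact (relMap_oneStr _ r hr v).symm
  choose φ1 h1 using @e1
  choose φ2 h2 using @e2
  choose φ3 h3 using @e3
  refine ⟨⟨fun {k} R => φ3 R, fun f => f.elim⟩, ⟨fun {k} R => φ1 R, fun {k} f => φ2 f⟩, ?_⟩
  intro i
  refine ⟨⟨fun k R v => (h3 R i v).symm, fun k f => f.elim⟩, fun k R v => (h1 R i v).symm, ?_⟩
  intro k f v y
  refine Iff.trans ?_ (h2 f i _).symm
  simp

/-- The theory in the one relation symbol. -/
def TI (hU : ∀ (M : Type) [LPA.Structure M], M ⊨ U → M ⊨ PA)
    (hm : ∀ (k : ℕ) (_ : L.Relations k), k ≤ m + 1)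
    (κE : Kind nI (m + 1) ≃ Fin s) {r : ℕ} (hr : 2 ≤ r) (D : Defns LPA L) : (LOne r).Theory :=
  {σ | ∀ i : Idx U L D, @Sentence.Realize (LOne r) i.C (SI hU hm κE hr i) σ}

theorem structure_eq {C : Type} [LPA.Structure C] (D' : Defns LPA (LOne r))
    (S1 S2 : (LOne r).Structure C)
    (h1 : @Defns.Holds LPA (LOne r) D' C _ S1) (h2 : @Defns.Holds LPA (LOne r) D' C _ S2) :
    S1 = S2 := by
  apply Structure.ext
  · funext n f
    exact f.elim
  · funext n R v
    exact propext ((h1.1 n R v).trans (h2.1 n R v).symm)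

/-- All structures for arithmetic and the relation symbol in which the definitions hold. -/
structure Idx2 (r : ℕ) (E' : Defns (LOne r) LPA) : Type 1 where
  C : Type
  pa : LPA.Structure C
  os : (LOne r).Structure C
  holds : E'.Holds C

instance (E' : Defns (LOne r) LPA) (i : Idx2 r E') : LPA.Structure i.C := i.pa
instance (E' : Defns (LOne r) LPA) (i : Idx2 r E') : (LOne r).Structure i.C := i.os

theorem sameModels_TI [L.IsRelational] (D' : Defns LPA (LOne r)) (E' : Defns (LOne r) LPA)
    (hDE : ∀ i : Idx U L D,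
      letI : (LOne r).Structure i.C := SI hU hm κE hr i
      D'.Holds i.C ∧ E'.Holds i.C) :
    SameModels U (TI hU hm κE hr D) D' E' := by
  intro M hne hpa hone
  constructor
  · rintro ⟨hMU, hMD⟩
    -- the expansion of `M` to `L`
    letI ls : L.Structure M :=
      { funMap := fun f => isEmptyElim f
        RelMap := fun {k} R v => (D.rel R).Realize v }
    have hls : D.Holds M := ⟨fun k R v => Iff.rfl, fun k f => isEmptyElim f⟩
    let i0 : Idx U L D := ⟨M, hpa, ls, hne, hMU, hls⟩
    have heq : hone = SI hU hm κE hr i0 :=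
      structure_eq (C := M) D' hone (SI hU hm κE hr i0) hMD (hDE i0).1
    subst heq
    letI : (LOne r).Structure M := SI hU hm κE hr i0
    exact ⟨⟨fun σ hσ => hσ i0⟩, (hDE i0).2⟩
  · rintro ⟨hMT, hME⟩
    let j0 : Idx2 r E' := ⟨M, hpa, hone, hME⟩
    have key : ∀ {α : Type} (φ : LPA.Formula α), ∃ ψ : (LOne r).Formula α,
        ∀ (j : Idx2 r E') (v : α → j.C), ψ.Realize v ↔ φ.Realize v := fun φ =>
      UD_formula' (C := fun j : Idx2 r E' => j.C) E' (fun j => j.holds) φ
    refine ⟨⟨fun σ hσ => ?_⟩, ⟨fun k R v => ?_, fun k f => f.elim⟩⟩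
    · obtain ⟨ψ, hψ⟩ := key σ
      have h1 : ψ ∈ TI hU hm κE hr D := by
        intro i
        let j : Idx2 r E' := ⟨i.C, i.pa, SI hU hm κE hr i, (hDE i).2⟩
        exact (hψ j default).mpr (i.mod.realize_of_mem σ hσ)
      exact (hψ j0 default).mp (hMT.realize_of_mem ψ h1)
    · obtain ⟨ψ, hψ⟩ := key (D'.rel R)
      set χ : (LOne r).Formula (Fin k) := (Relations.formula R (fun j => Term.var j)).iff ψ with hχ
      have h1 : (Formula.iAlls (Fin k) (Formula.relabel (Sum.inr : Fin k → Empty ⊕ Fin k) χ) :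
          (LOne r).Sentence) ∈ TI hU hm κE hr D := by
        intro i
        letI := SI hU hm κE hr i
        let j : Idx2 r E' := ⟨i.C, i.pa, SI hU hm κE hr i, (hDE i).2⟩
        show Formula.Realize _ _
        rw [Formula.realize_iAlls]
        intro w
        rw [Formula.realize_relabel, hχ, Formula.realize_iff, Formula.realize_rel]
        exact ((hDE i).1.1 k R w).trans (hψ j w).symm
      have h2 := hMT.realize_of_mem _ h1
      rw [Sentence.Realize, Formula.realize_iAlls] at h2
      have h3 := h2 v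
      rw [Formula.realize_relabel, hχ, Formula.realize_iff, Formula.realize_rel] at h3
      exact h3.trans (hψ j0 v)

end

end Pool.Agent.Arith67
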