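import Pool.Agent.Arith67.Bits
import Pool.Agent.Arith67.Codes
import Pool.Agent.Arith67.Main

/-!
Uniform definability of the chain, and of arithmetic from its members.
-/

namespace Pool.Agent.Arith67

open FirstOrder FirstOrder.Language

section lpa

variable {ι : Type 1} {C : ι → Type} [∀ i, LPA.Structure (C i)] (hPA : ∀ i, C i ⊨ PA)

include hPA

theorem UD_lcode (m : ℕ) {α : Type} (f : Fin m → α) (b : α) :
    UD LPA C (fun i (v : α → C i) => v b = lcode (hPA i) (List.ofFn (fun j => v (f j)))) := by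
  induction m generalizing α with
  | zero =>
    refine (UD.term (Term.var b) zeroT).congr fun i v => ?_
    rw [realize_zeroT, List.ofFn_zero]
    rfl
  | succ m ih =>
    have q : UD LPA C (fun i (v : α → C i) => ∃ z : C i,
        z = lcode (hPA i) (List.ofFn (fun j => v (f j.succ))) ∧
          v b = pr (hPA i) (v (f 0)) z) := by
      refine UD.ex (r := fun i v z =>
        z = lcode (hPA i) (List.ofFn (fun j => v (f j.succ))) ∧ v b = pr (hPA i) (v (f 0)) z) ?_
      refine UD.and (ih (fun j => some (f j.succ)) none) ?_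
      exact UD_pr hPA (Term.var (some (f 0))) (Term.var none) (Term.var (some b))
    refine q.congr fun i v => ?_
    rw [List.ofFn_succ, lcode_cons]
    constructor
    · rintro ⟨z, rfl, hz⟩
      exact hz
    · intro hz
      exact ⟨_, rfl, hz⟩

theorem UD_tcode (j m : ℕ) {α : Type} (f : Fin m → α) (b : α) :
    UD LPA C (fun i (v : α → C i) => v b = tcode (hPA i) j (List.ofFn (fun k => v (f k)))) := by
  have q : UD LPA C (fun i (v : α → C i) => ∃ z : C i,
      z = lcode (hPA i) (List.ofFn (fun k => v (f k))) ∧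
        v b = pr (hPA i) (num (C i) j) z) := by
    refine UD.ex (r := fun i v z =>
      z = lcode (hPA i) (List.ofFn (fun k => v (f k))) ∧ v b = pr (hPA i) (num (C i) j) z) ?_
    refine UD.and (UD_lcode hPA m (fun k => some (f k)) none) ?_
    refine (UD_pr hPA (numT j) (Term.var none) (Term.var (some b))).congr fun i v => ?_
    rw [realize_numT]
    rfl
  refine q.congr fun i v => ?_
  constructor
  · rintro ⟨z, rfl, hz⟩
    exact hz
  · intro hz
    exact ⟨_, rfl, hz⟩

theorem UD_Bit {α : Type} (c z : α) :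
    UD LPA C (fun i (v : α → C i) => Bit (hPA i) (v c) (v z)) := by
  have q : UD LPA C (fun i (v : α → C i) => ∃ w : Fin 3 → C i,
      v c = pr (hPA i) (w 0) (w 1) ∧ (¬ w 0 = Z (C i) ∧ (¬ w 1 = Z (C i) ∧
        w 1 = Mu (qq (v z) (w 0)) (w 2)))) := by
    refine UD.exs (Fin 3) (r := fun i v w => v c = pr (hPA i) (w 0) (w 1) ∧ (¬ w 0 = Z (C i) ∧
      (¬ w 1 = Z (C i) ∧ w 1 = Mu (qq (v z) (w 0)) (w 2)))) ?_
    refine UD.and ?_ (UD.and (UD.not ?_) (UD.and (UD.not ?_) ?_))
    · exact UD_pr hPA (Term.var (Sum.inr 0)) (Term.var (Sum.inr 1)) (Term.var (Sum.inl c))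
    · refine (UD.term (Term.var (Sum.inr 0)) zeroT).congr fun i v => ?_
      rw [realize_zeroT]
      rfl
    · refine (UD.term (Term.var (Sum.inr 1)) zeroT).congr fun i v => ?_
      rw [realize_zeroT]
      rfl
    · refine (UD.term (Term.var (Sum.inr 1)) (mulT (succT (mulT (succT (Term.var (Sum.inl z)))
        (Term.var (Sum.inr 0)))) (Term.var (Sum.inr 2)))).congr fun i v => ?_
      simp only [realize_mulT, realize_succT, Term.realize_var]
      rfl
  refine q.congr fun i v => ?_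
  constructor
  · rintro ⟨w, h1, h2, h3, h4⟩
    exact ⟨w 0, w 1, h1, h2, h3, w 2, h4⟩
  · rintro ⟨u, w, h1, h2, h3, k, h4⟩
    exact ⟨![u, w, k], h1, h2, h3, h4⟩

theorem UD_rho (j m : ℕ) {α : Type} (f : Fin m → α) :
    UD LPA C (fun i (v : α → C i) => rho (hPA i) j (List.ofFn (fun k => v (f k)))) := by
  have q : UD LPA C (fun i (v : α → C i) => ∃ k : Fin m, ∃ y : Fin m → C i,
      (∀ l : Fin m, ((v (f l) = v (f k) ∧ y l = Z (C i)) ∨
        (¬ v (f l) = v (f k) ∧ y l = Sc (v (f l))))) ∧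
      ∃ z : C i, z = tcode (hPA i) j (List.ofFn y) ∧ Bit (hPA i) (v (f k)) z) := by
    refine UD.iOr (r := fun k i v => ∃ y : Fin m → C i,
      (∀ l : Fin m, ((v (f l) = v (f k) ∧ y l = Z (C i)) ∨
        (¬ v (f l) = v (f k) ∧ y l = Sc (v (f l))))) ∧
      ∃ z : C i, z = tcode (hPA i) j (List.ofFn y) ∧ Bit (hPA i) (v (f k)) z) fun k => ?_
    refine UD.exs (Fin m) (r := fun i v y =>
      (∀ l : Fin m, ((v (f l) = v (f k) ∧ y l = Z (C i)) ∨
        (¬ v (f l) = v (f k) ∧ y l = Sc (v (f l))))) ∧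
      ∃ z : C i, z = tcode (hPA i) j (List.ofFn y) ∧ Bit (hPA i) (v (f k)) z) ?_
    refine UD.and (UD.iAnd fun l => UD.or (UD.and (UD.eq _ _) ?_)
      (UD.and (UD.not (UD.eq _ _)) ?_)) ?_
    · refine (UD.term (Term.var (Sum.inr l)) zeroT).congr fun i v => ?_
      rw [realize_zeroT]
      rfl
    · refine (UD.term (Term.var (Sum.inr l)) (succT (Term.var (Sum.inl (f l))))).congr
        fun i v => ?_
      rw [realize_succT]
      rfl
    · refine UD.ex (r := fun i v z => z = tcode (hPA i) j (List.ofFn (v ∘ Sum.inr)) ∧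
        Bit (hPA i) ((v ∘ Sum.inl) (f k)) z) ?_
      refine UD.and (UD_tcode hPA j m (fun l => some (Sum.inr l)) none) ?_
      exact UD_Bit hPA (some (Sum.inl (f k))) none
  refine q.congr fun i v => ?_
  classical
  constructor
  · rintro ⟨k, y, hy, z, hz, hb⟩
    refine ⟨v (f k), List.mem_ofFn.mpr ⟨k, rfl⟩, ?_⟩
    have h1 : seen (v (f k)) (List.ofFn (fun k => v (f k))) = List.ofFn y := by
      unfold seen
      rw [List.map_ofFn]
      congr 1
      funext l
      rcases hy l with ⟨h2, h3⟩ | ⟨h2, h3⟩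
      · simp [h2, h3]
      · simp [h2, h3]
    rw [h1, ← hz]
    exact hb
  · rintro ⟨c, hc, hb⟩
    obtain ⟨k, rfl⟩ := List.mem_ofFn.mp hc
    refine ⟨k, fun l => if v (f l) = v (f k) then Z (C i) else Sc (v (f l)), ?_, _, rfl, ?_⟩
    · intro l
      by_cases h1 : v (f l) = v (f k)
      · left
        simp [h1]
      · right
        simp [h1]
    · have h1 : seen (v (f k)) (List.ofFn (fun k => v (f k))) =
          List.ofFn (fun l => if v (f l) = v (f k) then Z (C i) else Sc (v (f l))) := by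
        unfold seen
        rw [List.map_ofFn]
        rfl
      rw [← h1]
      exact hb

theorem UD_AA {α : Type} (f : Fin 5 → α) :
    UD LPA C (fun i (v : α → C i) => AA (hPA i) (List.ofFn (fun k => v (f k)))) := by
  have q : UD LPA C (fun i (v : α → C i) => v (f 2) = Ad (v (f 0)) (v (f 1)) ∧
      (v (f 3) = Mu (v (f 0)) (v (f 1)) ∧ ∃ w : Fin 3 → C i,
        w 0 = pr (hPA i) (Ad (v (f 0)) (v (f 1))) (Mu (v (f 0)) (v (f 1))) ∧
        (w 1 = pr (hPA i) (v (f 1)) (w 0) ∧ (w 2 = pr (hPA i) (v (f 0)) (w 1) ∧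
        v (f 4) = pr (hPA i) (w 2) (Z (C i)))))) := by
    refine UD.and ?_ (UD.and ?_ ?_)
    · refine (UD.term (Term.var (f 2)) (addT (Term.var (f 0)) (Term.var (f 1)))).congr
        fun i v => ?_
      rw [realize_addT]
      rfl
    · refine (UD.term (Term.var (f 3)) (mulT (Term.var (f 0)) (Term.var (f 1)))).congr
        fun i v => ?_
      rw [realize_mulT]
      rfl
    · refine UD.exs (Fin 3) (r := fun i v w =>
        w 0 = pr (hPA i) (Ad (v (f 0)) (v (f 1))) (Mu (v (f 0)) (v (f 1))) ∧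
        (w 1 = pr (hPA i) (v (f 1)) (w 0) ∧ (w 2 = pr (hPA i) (v (f 0)) (w 1) ∧
        v (f 4) = pr (hPA i) (w 2) (Z (C i))))) ?_
      refine UD.and ?_ (UD.and ?_ (UD.and ?_ ?_))
      · refine (UD_pr hPA (addT (Term.var (Sum.inl (f 0))) (Term.var (Sum.inl (f 1))))
          (mulT (Term.var (Sum.inl (f 0))) (Term.var (Sum.inl (f 1))))
          (Term.var (Sum.inr 0))).congr fun i v => ?_
        rw [realize_addT, realize_mulT]
        rfl
      · exact UD_pr hPA (Term.var (Sum.inl (f 1))) (Term.var (Sum.inr 0)) (Term.var (Sum.inr 1))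
      · exact UD_pr hPA (Term.var (Sum.inl (f 0))) (Term.var (Sum.inr 1)) (Term.var (Sum.inr 2))
      · refine (UD_pr hPA (Term.var (Sum.inr 2)) zeroT (Term.var (Sum.inl (f 4)))).congr
          fun i v => ?_
        rw [realize_zeroT]
        rfl
  refine q.congr fun i v => ?_
  have hl : List.ofFn (fun k => v (f k)) = [v (f 0), v (f 1), v (f 2), v (f 3), v (f 4)] := by
    simp [List.ofFn_succ]
  rw [hl]
  constructor
  · rintro ⟨h1, h2, w, h3, h4, h5, h6⟩
    refine ⟨v (f 0), v (f 1), ?_⟩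
    rw [h6, h5, h4, h3, h1, h2]
  · rintro ⟨x, y, he⟩
    simp only [List.cons.injEq, and_true] at he
    obtain ⟨h0, h1, h2, h3, h4⟩ := he
    subst h0
    subst h1
    exact ⟨h2, h3, ![pr (hPA i) (Ad (v (f 0)) (v (f 1))) (Mu (v (f 0)) (v (f 1))),
      pr (hPA i) (v (f 1)) (pr (hPA i) (Ad (v (f 0)) (v (f 1))) (Mu (v (f 0)) (v (f 1)))),
      pr (hPA i) (v (f 0)) (pr (hPA i) (v (f 1)) (pr (hPA i) (Ad (v (f 0)) (v (f 1)))
        (Mu (v (f 0)) (v (f 1)))))], rfl, rfl, rfl, h4⟩

theorem UD_SS (j : ℕ) {α : Type} (f : Fin (5 + j) → α) :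
    UD LPA C (fun i (v : α → C i) => SS (hPA i) j (List.ofFn (fun k => v (f k)))) := by
  induction j with
  | zero => exact (UD_AA hPA f).not
  | succ j ih =>
    refine (UD.or (ih (fun k => f k.castSucc)).not (UD_rho hPA (j + 1) (5 + j + 1) f)).congr
      fun i v => ?_
    rw [SS_succ]
    have h1 : (List.ofFn (fun k : Fin (5 + (j + 1)) => v (f k))).dropLast =
        List.ofFn (fun k : Fin (5 + j) => v (f k.castSucc)) := by
      have h2 : List.ofFn (fun k : Fin (5 + j + 1) => v (f k)) =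
          List.ofFn (fun k : Fin (5 + j) => v (f k.castSucc)) ++ [v (f (Fin.last (5 + j)))] := by
        rw [List.ofFn_succ', List.concat_eq_append]
      show (List.ofFn (fun k : Fin (5 + j + 1) => v (f k))).dropLast = _
      rw [h2, List.dropLast_concat]
    rw [h1]
    exact Iff.rfl

end lpa

section lt

variable {M : Type} [LPA.Structure M] (h : M ⊨ PA)

include h

theorem not_Lt_Z (x : M) : ¬ Lt x (Z M) := by
  have h1 := pa_sent h (σ := close (k := 1) (ltF (.var 0) zeroT).not) (by simp [PA])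
  rw [realize_close] at h1
  have h2 := h1 (fun _ => x)
  rw [Formula.realize_not, realize_ltF] at h2
  simpa using h2

theorem Lt_Sc (x y : M) : Lt x (Sc y) ↔ Lt x y ∨ x = y := by
  have h1 := pa_sent h (σ := close (k := 2) ((ltF (.var 0) (succT (.var 1))).iff
      (ltF (.var 0) (.var 1) ⊔ (Language.Term.var 0).equal (.var 1)))) (by simp [PA])
  rw [realize_close] at h1
  have h2 := h1 ![x, y]
  rw [Formula.realize_iff, Formula.realize_sup, realize_ltF, realize_ltF] at h2
  simpa using h2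

theorem Lt_iff (x y : M) : Lt x y ↔ lt' x y := by
  refine ind_pred h ![x] (fun y => Lt x y ↔ lt' x y)
    ((ltF (.var (Sum.inl 0)) (.var (Sum.inr ()))).iff
      (Formula.iExs Unit ((Term.var (Sum.inl (Sum.inr ()))).equal
        (addT (.var (Sum.inl (Sum.inl 0))) (succT (.var (Sum.inr ())))))))
    (fun y => ?_) ?_ ?_ y
  · rw [Formula.realize_iff, realize_ltF, Formula.realize_iExs]
    simp only [Formula.realize_equal, Term.realize_var, realize_addT, realize_succT,
      Sum.elim_inr, Sum.elim_inl]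
    apply iff_congr Iff.rfl
    constructor
    · rintro ⟨w, hw⟩
      exact ⟨_, hw⟩
    · rintro ⟨w, hw⟩
      exact ⟨fun _ => w, hw⟩
  · constructor
    · intro h1
      exact absurd h1 (not_Lt_Z h x)
    · rintro ⟨d, hd⟩
      rw [Ad_Sc h] at hd
      exact absurd hd.symm (Sc_ne_Z h _)
  · intro y hy
    rw [Lt_Sc h, hy]
    constructor
    · rintro (⟨d, rfl⟩ | rfl)
      · exact ⟨Sc d, by rw [Ad_Sc h, Ad_Sc h, Ad_Sc h]⟩
      · exact lt'_Sc h x
    · rintro ⟨d, hd⟩
      rw [Ad_Sc h] at hd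
      have h1 := Sc_inj h hd
      rcases cases_Z_Sc h d with h2 | ⟨d', h2⟩
      · right
        rw [h1, h2, Ad_Z h]
      · left
        exact ⟨d', by rw [h1, h2]⟩

end lt

section back

variable {ι : Type 1} {C : ι → Type} [∀ i, LPA.Structure (C i)] (hPA : ∀ i, C i ⊨ PA)
  {L : FirstOrder.Language.{0,0}} [∀ i, L.Structure (C i)]

theorem UDL_snoc {k : ℕ} {r : ∀ i, List (C i) → Prop}
    (h : UD L C (fun i (v : Fin (k + 1) → C i) => r i (List.ofFn v))) :
    UD L C (fun i (v : Option (Fin k) → C i) =>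
      r i (List.ofFn (fun j => v (some j)) ++ [v none])) := by
  refine (h.relabel (Fin.snoc (fun j => some j) none : Fin (k + 1) → Option (Fin k))).congr
    fun i v => ?_
  rw [← ofFn_snoc]
  have : (v ∘ (Fin.snoc (fun j => some j) none : Fin (k + 1) → Option (Fin k))) =
      Fin.snoc (fun j => v (some j)) (v none) := by
    funext j
    refine Fin.lastCases ?_ (fun j => ?_) j
    · simp
    · simp
  rw [this]

include hPA

theorem UDL_SS {K : ℕ} (hS : UD L C (fun i (v : Fin (5 + K) → C i) =>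
    SS (hPA i) K (List.ofFn v))) (j : ℕ) (hj : j ≤ K) :
    UD L C (fun i (v : Fin (5 + j) → C i) => SS (hPA i) j (List.ofFn v)) := by
  obtain ⟨d, hd⟩ : ∃ d, K = j + d := ⟨K - j, by omega⟩
  induction d generalizing j with
  | zero =>
    have : K = j := by omega
    subst this
    exact hS
  | succ d ih =>
    have h1 := ih (j + 1) (by omega) (by omega)
    refine (UD.ex (r := fun i (v : Fin (5 + j) → C i) u =>
      ¬ SS (hPA i) (j + 1) (List.ofFn v ++ [u])) (UDL_snoc
        (r := fun i l => SS (hPA i) (j + 1) l) h1).not).congr fun i v => ?_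
    rw [SS_pred (hPA i) j _ (by simp)]

theorem UDL_AA {K : ℕ} (hS : UD L C (fun i (v : Fin (5 + K) → C i) =>
    SS (hPA i) K (List.ofFn v))) {α : Type} (f : Fin 5 → α) :
    UD L C (fun i (v : α → C i) => AA (hPA i) [v (f 0), v (f 1), v (f 2), v (f 3), v (f 4)]) := by
  refine ((UDL_SS hPA hS 0 (by omega)).relabel f).not.congr fun i v => ?_
  rw [SS_zero (hPA i), not_not]
  have hl : List.ofFn (fun k => v (f k)) = [v (f 0), v (f 1), v (f 2), v (f 3), v (f 4)] := by
    simp [List.ofFn_succ]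
  show AA (hPA i) (List.ofFn (fun k => v (f k))) ↔ _
  rw [hl]

theorem UDL_add {K : ℕ} (hS : UD L C (fun i (v : Fin (5 + K) → C i) =>
    SS (hPA i) K (List.ofFn v))) {α : Type} (a b c : α) :
    UD L C (fun i (v : α → C i) => Ad (v a) (v b) = v c) := by
  refine (UD.exs (Fin 2) (r := fun i (v : α → C i) (w : Fin 2 → C i) =>
    AA (hPA i) [v a, v b, v c, w 0, w 1]) ?_).congr fun i v => ?_
  · exact UDL_AA hPA hS (![Sum.inl a, Sum.inl b, Sum.inl c, Sum.inr 0, Sum.inr 1] :
      Fin 5 → α ⊕ Fin 2)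
  · constructor
    · rintro ⟨w, x, y, he⟩
      simp only [List.cons.injEq, and_true] at he
      obtain ⟨h0, h1, h2, h3, h4⟩ := he
      rw [h0, h1, h2]
    · intro he
      refine ⟨![Mu (v a) (v b), pr (hPA i) (pr (hPA i) (v a) (pr (hPA i) (v b)
        (pr (hPA i) (Ad (v a) (v b)) (Mu (v a) (v b))))) (Z (C i))], v a, v b, ?_⟩
      rw [← he]
      rfl

theorem UDL_mul {K : ℕ} (hS : UD L C (fun i (v : Fin (5 + K) → C i) =>
    SS (hPA i) K (List.ofFn v))) {α : Type} (a b c : α) :
    UD L C (fun i (v : α → C i) => Mu (v a) (v b) = v c) := by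
  refine (UD.exs (Fin 2) (r := fun i (v : α → C i) (w : Fin 2 → C i) =>
    AA (hPA i) [v a, v b, w 0, v c, w 1]) ?_).congr fun i v => ?_
  · exact UDL_AA hPA hS (![Sum.inl a, Sum.inl b, Sum.inr 0, Sum.inl c, Sum.inr 1] :
      Fin 5 → α ⊕ Fin 2)
  · constructor
    · rintro ⟨w, x, y, he⟩
      simp only [List.cons.injEq, and_true] at he
      obtain ⟨h0, h1, h2, h3, h4⟩ := he
      rw [h0, h1, h3]
    · intro he
      refine ⟨![Ad (v a) (v b), pr (hPA i) (pr (hPA i) (v a) (pr (hPA i) (v b)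
        (pr (hPA i) (Ad (v a) (v b)) (Mu (v a) (v b))))) (Z (C i))], v a, v b, ?_⟩
      rw [← he]
      rfl

omit [∀ i, L.Structure (C i)] in
theorem zero_iff {i : ι} (x : C i) : x = Z (C i) ↔ Ad x x = x := by
  constructor
  · rintro rfl
    exact Ad_Z (hPA i) _
  · intro h1
    have h2 : Ad x x = Ad x (Z (C i)) := by rw [Ad_Z (hPA i)]; exact h1
    exact Ad_left_cancel (hPA i) h2

omit [∀ i, L.Structure (C i)] in
theorem succ_iff {i : ι} (x y : C i) : Sc x = y ↔ ∃ o : C i, (∀ u, Mu o u = u) ∧ Ad x o = y := by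
  let _ := csr (hPA i)
  constructor
  · rintro rfl
    refine ⟨Sc (Z (C i)), fun u => ?_, ?_⟩
    · rw [Sc_Mu (hPA i), Z_Mu (hPA i), Z_Ad (hPA i)]
    · rw [Ad_Sc (hPA i), Ad_Z (hPA i)]
  · rintro ⟨o, ho, rfl⟩
    have h1 := ho (Sc (Z (C i)))
    rw [Mu_Sc (hPA i), Mu_Z (hPA i), Z_Ad (hPA i)] at h1
    rw [h1, Ad_Sc (hPA i), Ad_Z (hPA i)]

theorem UDL_zero {K : ℕ} (hS : UD L C (fun i (v : Fin (5 + K) → C i) =>
    SS (hPA i) K (List.ofFn v))) {α : Type} (a : α) :
    UD L C (fun i (v : α → C i) => v a = Z (C i)) :=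
  (UDL_add hPA hS a a a).congr fun i v => (zero_iff hPA (v a)).symm

theorem UDL_succ {K : ℕ} (hS : UD L C (fun i (v : Fin (5 + K) → C i) =>
    SS (hPA i) K (List.ofFn v))) {α : Type} (a b : α) :
    UD L C (fun i (v : α → C i) => Sc (v a) = v b) := by
  refine (UD.ex (r := fun i (v : α → C i) (o : C i) => (∀ u, Mu o u = u) ∧ Ad (v a) o = v b)
    (UD.and ?_ (UDL_add hPA hS (some a) none (some b)))).congr fun i v =>
      (succ_iff hPA (v a) (v b)).symm
  exact UD.all (r := fun i (v : Option α → C i) (u : C i) => Mu (v none) u = u)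
    (UDL_mul hPA hS (some none) none none)

theorem UDL_lt {K : ℕ} (hS : UD L C (fun i (v : Fin (5 + K) → C i) =>
    SS (hPA i) K (List.ofFn v))) {α : Type} (a b : α) :
    UD L C (fun i (v : α → C i) => Lt (v a) (v b)) := by
  refine (UD.ex (r := fun i (v : α → C i) (d : C i) => ¬ (d = Z (C i)) ∧ Ad (v a) d = v b)
    (UD.and (UD.not (UDL_zero hPA hS none)) (UDL_add hPA hS (some a) none (some b)))).congr
      fun i v => ?_
  rw [Lt_iff (hPA i)]
  constructor
  · rintro ⟨d, hd, he⟩
    rcases cases_Z_Sc (hPA i) d with h1 | ⟨d', h1⟩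
    · exact absurd h1 hd
    · exact ⟨d', by rw [← he, h1]⟩
  · rintro ⟨d, hd⟩
    exact ⟨Sc d, Sc_ne_Z (hPA i) d, hd.symm⟩

/-- All symbols of arithmetic are definable from the last relation of the chain. -/
theorem UDL_rel {K : ℕ} (hS : UD L C (fun i (v : Fin (5 + K) → C i) =>
    SS (hPA i) K (List.ofFn v))) {k : ℕ} (R : LPA.Relations k) :
    UD L C (fun i (v : Fin k → C i) => Structure.RelMap R v) := by
  cases R
  refine (UDL_lt hPA hS (0 : Fin 2) 1).congr fun i v => ?_
  unfold Lt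
  apply iff_of_eq
  congr 1
  funext j
  fin_cases j <;> rfl

theorem UDL_fun {K : ℕ} (hS : UD L C (fun i (v : Fin (5 + K) → C i) =>
    SS (hPA i) K (List.ofFn v))) {k : ℕ} (f : LPA.Functions k) :
    UD L C (fun i (v : Fin (k + 1) → C i) =>
      Structure.funMap f (fun j : Fin k => v j.castSucc) = v (Fin.last k)) := by
  cases f with
  | zero =>
    refine (UDL_zero hPA hS (0 : Fin 1)).congr fun i v => ?_
    have h1 : Structure.funMap (L := LPA) PAFun.zero (fun j : Fin 0 => v j.castSucc) = Z (C i) := by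
      unfold Z
      congr 1
      funext j
      exact j.elim0
    rw [eq_comm]
    show Z (C i) = v 0 ↔ Structure.funMap (L := LPA) PAFun.zero (fun j : Fin 0 => v j.castSucc) = _
    rw [h1]
    rfl
  | succ =>
    refine (UDL_succ hPA hS (0 : Fin 2) 1).congr fun i v => ?_
    unfold Sc
    apply iff_of_eq
    congr 2
    funext j
    have : j = 0 := Subsingleton.elim _ _
    subst this
    rfl
  | add =>
    refine (UDL_add hPA hS (0 : Fin 3) 1 2).congr fun i v => ?_
    unfold Ad
    apply iff_of_eq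
    congr 2
    funext j
    fin_cases j <;> rfl
  | mul =>
    refine (UDL_mul hPA hS (0 : Fin 3) 1 2).congr fun i v => ?_
    unfold Mu
    apply iff_of_eq
    congr 2
    funext j
    fin_cases j <;> rfl

end back

end Pool.Agent.Arith67
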