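import Mathlib

/-!
Coding finitely many `m`-ary relations by one binary relation: pure combinatorics.
-/

namespace Pool.Agent.Arith67

section

variable {I : Type} (nI : I → ℕ) (m : ℕ)

/-- Number of nodes in the gadget path of the symbol `i`. -/
def NN (i : I) : ℕ := m + 2 + nI i

/-- The kinds of nodes: symbol and position. -/
abbrev Kind := (i : I) × Fin (NN nI m i)

variable {M : Type} (P : I → (Fin m → M) → Prop)

/-- The universe of the graph: old elements and gadget nodes. -/
abbrev GG (M : Type) := M ⊕ (Kind nI m × (Fin m → M))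

/-- The edge relation. -/
def EG : GG nI m M → GG nI m M → Prop
  | Sum.inl _, _ => False
  | Sum.inr (k, a), Sum.inl c => ∃ j : Fin m, k.2.val = j.val + 1 ∧ c = a j
  | Sum.inr (k, a), Sum.inr (k', a') =>
      a = a' ∧ k.1 = k'.1 ∧ (k'.2.val = k.2.val + 1 ∨
        (k'.2.val = k.2.val ∧ (k.2.val + 1 = NN nI m k.1 ∨ (k.2.val = 0 ∧ P k.1 a))))

variable {nI m P}

theorem EG_inl_left (c : M) (g : GG nI m M) : ¬ EG nI m P (Sum.inl c) g := id

theorem EG_inr_inl (k : Kind nI m) (a : Fin m → M) (c : M) :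
    EG nI m P (Sum.inr (k, a)) (Sum.inl c) ↔ ∃ j : Fin m, k.2.val = j.val + 1 ∧ c = a j := Iff.rfl

theorem EG_inr_inr (k k' : Kind nI m) (a a' : Fin m → M) :
    EG nI m P (Sum.inr (k, a)) (Sum.inr (k', a')) ↔
      a = a' ∧ k.1 = k'.1 ∧ (k'.2.val = k.2.val + 1 ∨
        (k'.2.val = k.2.val ∧ (k.2.val + 1 = NN nI m k.1 ∨ (k.2.val = 0 ∧ P k.1 a)))) := Iff.rfl

theorem kind_ext {k k' : Kind nI m} (h1 : k.1 = k'.1) (h2 : k.2.val = k'.2.val) : k = k' := by
  obtain ⟨i, t⟩ := k
  obtain ⟨i', t'⟩ := k'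
  dsimp at h1 h2
  subst h1
  congr
  exact Fin.ext h2

/-- Old elements are the sinks. -/
theorem sink_iff (g : GG nI m M) : (∀ g', ¬ EG nI m P g g') ↔ ∃ c, g = Sum.inl c := by
  constructor
  · intro h
    rcases g with c | ⟨k, a⟩
    · exact ⟨c, rfl⟩
    · exfalso
      by_cases hk : k.2.val + 1 = NN nI m k.1
      · exact h (Sum.inr (k, a)) ⟨rfl, rfl, Or.inr ⟨rfl, Or.inl hk⟩⟩
      · have hlt : k.2.val + 1 < NN nI m k.1 := by
          have := k.2.isLt
          omega
        exact h (Sum.inr (⟨k.1, ⟨k.2.val + 1, hlt⟩⟩, a)) ⟨rfl, rfl, Or.inl rfl⟩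
  · rintro ⟨c, rfl⟩ g'
    exact id

/-- The path of the gadget of `i` with coordinates `w`. -/
def PathG (P : I → (Fin m → M) → Prop) (i : I) (g : Fin (NN nI m i) → GG nI m M)
    (w : Fin m → GG nI m M) : Prop :=
  (∀ t, ∃ g', EG nI m P (g t) g') ∧
  (∀ (t : Fin (NN nI m i)), t.val = 0 → ∀ g', EG nI m P g' (g t) → g' = g t) ∧
  (∀ t t' : Fin (NN nI m i), t'.val = t.val + 1 → EG nI m P (g t) (g t') ∧ g t ≠ g t') ∧
  (∀ t : Fin (NN nI m i), t.val + 1 = NN nI m i → EG nI m P (g t) (g t)) ∧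
  (∀ (j : Fin m), (∀ g', ¬ EG nI m P (w j) g') ∧
    ∀ t : Fin (NN nI m i), t.val = j.val + 1 → EG nI m P (g t) (w j))

theorem pathG_iff (hnI : Function.Injective nI) (i : I) (g : Fin (NN nI m i) → GG nI m M)
    (w : Fin m → GG nI m M) :
    PathG P i g w ↔ ∃ a : Fin m → M, (∀ j, w j = Sum.inl (a j)) ∧
      ∀ t, g t = Sum.inr (⟨i, t⟩, a) := by
  have hN : 2 ≤ NN nI m i := by unfold NN; omega
  constructor
  · rintro ⟨h1, h2, h3, h4, h5⟩
    -- the first node
    have hnode : ∀ t, ∃ k a, g t = Sum.inr (k, a) := by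
      intro t
      rcases hg : g t with c | ⟨k, a⟩
      · exfalso
        obtain ⟨g', hg'⟩ := h1 t
        rw [hg] at hg'
        exact hg'
      · exact ⟨k, a, rfl⟩
    set t0 : Fin (NN nI m i) := ⟨0, by omega⟩ with ht0
    obtain ⟨k0, a, hk0⟩ := hnode t0
    have hpos : k0.2.val = 0 := by
      by_contra hne
      obtain ⟨p, hp⟩ : ∃ p, k0.2.val = p + 1 := ⟨k0.2.val - 1, by omega⟩
      have hlt : p < NN nI m k0.1 := by
        have := k0.2.isLt
        omega
      have he := h2 t0 rfl (Sum.inr (⟨k0.1, ⟨p, hlt⟩⟩, a)) (by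
        rw [hk0]
        exact ⟨rfl, rfl, Or.inl hp⟩)
      rw [hk0] at he
      have h6 : (⟨k0.1, ⟨p, hlt⟩⟩ : Kind nI m) = k0 := by
        have := Sum.inr.inj he
        exact (Prod.ext_iff.mp this).1
      have h7 : p = k0.2.val := by rw [← h6]
      omega
    -- all nodes
    have hall : ∀ (t : ℕ) (ht : t < NN nI m i), ∃ (ht' : t < NN nI m k0.1),
        g ⟨t, ht⟩ = Sum.inr (⟨k0.1, ⟨t, ht'⟩⟩, a) := by
      intro t
      induction t with
      | zero =>
        intro ht
        refine ⟨by rw [← hpos]; exact k0.2.isLt, ?_⟩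
        have : g ⟨0, ht⟩ = g t0 := rfl
        rw [this, hk0]
        congr 2
        exact kind_ext rfl hpos
      | succ t ih =>
        intro ht
        obtain ⟨ht', hgt⟩ := ih (by omega)
        obtain ⟨he, hne⟩ := h3 ⟨t, by omega⟩ ⟨t + 1, ht⟩ rfl
        obtain ⟨k1, a1, hk1⟩ := hnode ⟨t + 1, ht⟩
        rw [hgt, hk1] at he
        obtain ⟨ha, hi, hd | hd⟩ := he
        · dsimp at hi hd
          have hk1lt := k1.2.isLt
          refine ⟨by rw [hi]; omega, ?_⟩
          rw [hk1, ha]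
          congr 2
          exact kind_ext hi.symm hd
        · exfalso
          apply hne
          rw [hgt, hk1, ha]
          congr 2
          exact kind_ext hi hd.1.symm
    -- the last node
    obtain ⟨hl', hgl⟩ := hall (NN nI m i - 1) (by omega)
    have h6 := h4 ⟨NN nI m i - 1, by omega⟩ (by dsimp; omega)
    rw [hgl] at h6
    have h7 : NN nI m i = NN nI m k0.1 := by
      obtain ⟨-, -, hd | ⟨-, hd | hd⟩⟩ := h6
      · dsimp at hd; omega
      · dsimp at hd; omega
      · dsimp at hd; omega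
    have h8 : i = k0.1 := by
      apply hnI
      unfold NN at h7
      omega
    refine ⟨a, ?_, ?_⟩
    · intro j
      obtain ⟨h9, h10⟩ := h5 j
      obtain ⟨c, hc⟩ := (sink_iff _).mp h9
      have hjlt : j.val + 1 < NN nI m i := by
        have := j.isLt
        unfold NN
        omega
      have h11 := h10 ⟨j.val + 1, hjlt⟩ rfl
      obtain ⟨hq, hgj⟩ := hall (j.val + 1) hjlt
      rw [hgj, hc] at h11
      obtain ⟨j', hj', hcj⟩ := h11
      dsimp at hj'
      have : j = j' := Fin.ext (by omega)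
      rw [hc, hcj, this]
    · intro t
      obtain ⟨hq, hgt⟩ := hall t.val t.isLt
      have : g t = g ⟨t.val, t.isLt⟩ := rfl
      rw [this, hgt]
      congr 2
      exact kind_ext h8.symm rfl
  · rintro ⟨a, hw, hg⟩
    refine ⟨?_, ?_, ?_, ?_, ?_⟩
    · intro t
      rw [hg t]
      by_contra hcon
      push Not at hcon
      obtain ⟨c, hc⟩ := (sink_iff _).mp hcon
      exact absurd hc (by simp)
    · intro t ht g' hg'
      rw [hg t] at hg' ⊢
      rcases g' with c | ⟨k, b⟩
      · exact absurd hg' id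
      · obtain ⟨ha, hi, hd | hd⟩ := hg'
        · dsimp at hd
          omega
        · rw [ha]
          congr 2
          exact kind_ext hi hd.1.symm
    · intro t t' htt
      rw [hg t, hg t']
      refine ⟨⟨rfl, rfl, Or.inl htt⟩, ?_⟩
      intro hcon
      have h1 := Sum.inr.inj hcon
      have h2 := (Prod.ext_iff.mp h1).1
      have h3 : t = t' := by
        have := h2
        simpa using this
      rw [h3] at htt
      omega
    · intro t ht
      rw [hg t]
      exact ⟨rfl, rfl, Or.inr ⟨rfl, Or.inl ht⟩⟩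
    · intro j
      refine ⟨?_, ?_⟩
      · rw [hw j]
        intro g'
        exact id
      · intro t ht
        rw [hw j, hg t]
        exact ⟨j, ht, rfl⟩

/-- The first node carries a loop exactly when the relation holds. -/
theorem loop_iff (i : I) (a : Fin m → M) (t : Fin (NN nI m i)) (ht : t.val = 0) :
    EG nI m P (Sum.inr (⟨i, t⟩, a)) (Sum.inr (⟨i, t⟩, a)) ↔ P i a := by
  have hN : 2 ≤ NN nI m i := by unfold NN; omega
  constructor
  · rintro ⟨-, -, hd | ⟨-, hd | hd⟩⟩
    · dsimp at hd; omega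
    · dsimp at hd; omega
    · exact hd.2
  · intro h
    exact ⟨rfl, rfl, Or.inr ⟨rfl, Or.inr ⟨ht, h⟩⟩⟩

end

end Pool.Agent.Arith67
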