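import Pool.Agent.Arith67.UDef
import Pool.Agent.Arith67.Graph

/-!
Recovering the coded structure from the graph by formulas.
-/

namespace Pool.Agent.Arith67

open FirstOrder FirstOrder.Language

section

variable {ι : Type 1} {C : ι → Type} {I : Type} {nI : I → ℕ} {m : ℕ}

/-- The graph relation transported to the universe `C i`. -/
def Rn (B : ∀ i, GG nI m (C i) ≃ C i) (P : ∀ i, I → (Fin m → C i) → Prop) (i : ι)
    (x y : C i) : Prop :=
  EG nI m (P i) ((B i).symm x) ((B i).symm y)

/-- The embedding of the old universe. -/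
def emb (B : ∀ i, GG nI m (C i) ≃ C i) (i : ι) (x : C i) : C i := B i (Sum.inl x)

variable {B : ∀ i, GG nI m (C i) ≃ C i} {P : ∀ i, I → (Fin m → C i) → Prop}

theorem emb_inj {i : ι} {x y : C i} (h : emb B i x = emb B i y) : x = y := by
  have := (B i).injective h
  exact Sum.inl.inj this

def isV (B : ∀ i, GG nI m (C i) ≃ C i) (P : ∀ i, I → (Fin m → C i) → Prop) (i : ι)
    (x : C i) : Prop := ∀ y, ¬ Rn B P i x y

theorem isV_iff {i : ι} {x : C i} : isV B P i x ↔ ∃ c, x = emb B i c := by
  have h1 : isV B P i x ↔ ∀ g', ¬ EG nI m (P i) ((B i).symm x) g' := by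
    constructor
    · intro h g' hg'
      exact h (B i g') (by unfold Rn; rw [Equiv.symm_apply_apply]; exact hg')
    · intro h y hy
      exact h _ hy
  rw [h1, sink_iff]
  constructor
  · rintro ⟨c, hc⟩
    exact ⟨c, by rw [emb, ← hc, Equiv.apply_symm_apply]⟩
  · rintro ⟨c, hc⟩
    exact ⟨c, by rw [hc, emb, Equiv.symm_apply_apply]⟩

variable {LR : FirstOrder.Language.{0,0}} [∀ i, LR.Structure (C i)]

/-- The graph relation is definable. -/
def HR (LR : FirstOrder.Language.{0,0}) (C : ι → Type) [∀ i, LR.Structure (C i)]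
    (B : ∀ i, GG nI m (C i) ≃ C i) (P : ∀ i, I → (Fin m → C i) → Prop) : Prop :=
  ∀ (α : Type) (a b : α), UD LR C (fun i (v : α → C i) => Rn B P i (v a) (v b))

theorem UD_isV (hR : HR LR C B P) {α : Type} (a : α) :
    UD LR C (fun i (v : α → C i) => isV B P i (v a)) := by
  refine UD.all (r := fun i v y => ¬ Rn B P i (v a) y) ?_
  exact (hR (Option α) (some a) none).not

theorem UD_path (hR : HR LR C B P) (s : I) :
    UD LR C (fun i (v : Fin (NN nI m s) ⊕ Fin m → C i) =>
      PathG (P i) s (fun t => (B i).symm (v (Sum.inl t))) (fun j => (B i).symm (v (Sum.inr j)))) := by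
  have q1 : UD LR C (fun i (v : Fin (NN nI m s) ⊕ Fin m → C i) =>
      ∀ t : Fin (NN nI m s), ∃ y, Rn B P i (v (Sum.inl t)) y) :=
    UD.iAnd fun t => UD.ex (r := fun i v y => Rn B P i (v (Sum.inl t)) y)
      (hR _ (some (Sum.inl t)) none)
  have q2 : UD LR C (fun i (v : Fin (NN nI m s) ⊕ Fin m → C i) =>
      ∀ t : Fin (NN nI m s), t.val = 0 → ∀ y, Rn B P i y (v (Sum.inl t)) → y = v (Sum.inl t)) :=
    UD.iAnd fun t => (UD.const _).imp (UD.all (r := fun i v y => Rn B P i y (v (Sum.inl t)) →
      y = v (Sum.inl t)) ((hR _ none (some (Sum.inl t))).imp (UD.eq _ _)))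
  have q3 : UD LR C (fun i (v : Fin (NN nI m s) ⊕ Fin m → C i) =>
      ∀ t t' : Fin (NN nI m s), t'.val = t.val + 1 →
        Rn B P i (v (Sum.inl t)) (v (Sum.inl t')) ∧ ¬ v (Sum.inl t) = v (Sum.inl t')) :=
    UD.iAnd fun t => UD.iAnd fun t' => (UD.const _).imp ((hR _ _ _).and (UD.eq _ _).not)
  have q4 : UD LR C (fun i (v : Fin (NN nI m s) ⊕ Fin m → C i) =>
      ∀ t : Fin (NN nI m s), t.val + 1 = NN nI m s →
        Rn B P i (v (Sum.inl t)) (v (Sum.inl t))) :=
    UD.iAnd fun t => (UD.const _).imp (hR _ _ _)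
  have q5 : UD LR C (fun i (v : Fin (NN nI m s) ⊕ Fin m → C i) =>
      ∀ j : Fin m, isV B P i (v (Sum.inr j)) ∧ ∀ t : Fin (NN nI m s), t.val = j.val + 1 →
        Rn B P i (v (Sum.inl t)) (v (Sum.inr j))) :=
    UD.iAnd fun j => (UD_isV hR _).and (UD.iAnd fun t => (UD.const _).imp (hR _ _ _))
  refine (q1.and (q2.and (q3.and (q4.and q5)))).congr fun i v => ?_
  have hs : ∀ (g : GG nI m (C i)), ∃ y, g = (B i).symm y := fun g =>
    ⟨B i g, (Equiv.symm_apply_apply _ _).symm⟩
  unfold PathG
  refine and_congr ?_ (and_congr ?_ (and_congr ?_ (and_congr ?_ ?_)))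
  · refine forall_congr' fun t => ?_
    constructor
    · rintro ⟨y, hy⟩
      exact ⟨_, hy⟩
    · rintro ⟨g, hg⟩
      obtain ⟨y, rfl⟩ := hs g
      exact ⟨y, hg⟩
  · refine forall_congr' fun t => imp_congr Iff.rfl ?_
    constructor
    · intro h g hg
      obtain ⟨y, rfl⟩ := hs g
      rw [h y hg]
    · intro h y hy
      exact (B i).symm.injective (h _ hy)
  · refine forall_congr' fun t => forall_congr' fun t' => imp_congr Iff.rfl (and_congr Iff.rfl ?_)
    exact not_congr (B i).symm.injective.eq_iff.symm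
  · exact Iff.rfl
  · refine forall_congr' fun j => and_congr ?_ Iff.rfl
    constructor
    · intro h g hg
      obtain ⟨y, rfl⟩ := hs g
      exact h y hg
    · intro h y hy
      exact h _ hy

/-- Families of relations on the old universe that are definable through the embedding. -/
def VD (LR : FirstOrder.Language.{0,0}) (C : ι → Type) [∀ i, LR.Structure (C i)]
    (B : ∀ i, GG nI m (C i) ≃ C i) {α : Type} (r : ∀ i, (α → C i) → Prop) : Prop :=
  ∃ s : ∀ i, (α → C i) → Prop, UD LR C s ∧ ∀ i u, s i (fun a => emb B i (u a)) ↔ r i u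

namespace VD

variable {α : Type}

theorem congr {r s : ∀ i, (α → C i) → Prop} (h : VD LR C B r) (hrs : ∀ i v, r i v ↔ s i v) :
    VD LR C B s := by
  obtain ⟨t, ht, hts⟩ := h
  exact ⟨t, ht, fun i u => (hts i u).trans (hrs i u)⟩

theorem not {r : ∀ i, (α → C i) → Prop} (h : VD LR C B r) : VD LR C B (fun i v => ¬ r i v) := by
  obtain ⟨t, ht, hts⟩ := h
  exact ⟨fun i v => ¬ t i v, ht.not, fun i u => not_congr (hts i u)⟩

theorem imp {r s : ∀ i, (α → C i) → Prop} (h : VD LR C B r) (h' : VD LR C B s) :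
    VD LR C B (fun i v => r i v → s i v) := by
  obtain ⟨t, ht, hts⟩ := h
  obtain ⟨t', ht', hts'⟩ := h'
  exact ⟨fun i v => t i v → t' i v, ht.imp ht', fun i u => imp_congr (hts i u) (hts' i u)⟩

theorem and {r s : ∀ i, (α → C i) → Prop} (h : VD LR C B r) (h' : VD LR C B s) :
    VD LR C B (fun i v => r i v ∧ s i v) := by
  refine (h.imp h'.not).not.congr fun i v => ?_
  tauto

theorem false : VD LR C B (fun i (_ : α → C i) => False) :=
  ⟨_, UD.false, fun _ _ => Iff.rfl⟩

theorem eq (a b : α) : VD LR C B (fun i (v : α → C i) => v a = v b) :=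
  ⟨_, UD.eq a b, fun i _ => ⟨fun h => emb_inj h, fun h => congrArg (emb B i) h⟩⟩

theorem relabel {β : Type} {r : ∀ i, (α → C i) → Prop} (h : VD LR C B r) (f : α → β) :
    VD LR C B (fun i (v : β → C i) => r i (v ∘ f)) := by
  obtain ⟨t, ht, hts⟩ := h
  exact ⟨_, ht.relabel f, fun i u => hts i (u ∘ f)⟩

theorem ex (hR : HR LR C B P) {r : ∀ i, (α → C i) → C i → Prop}
    (h : VD LR C B (fun i (v : Option α → C i) => r i (fun a => v (some a)) (v none))) :
    VD LR C B (fun i v => ∃ x : C i, r i v x) := by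
  obtain ⟨t, ht, hts⟩ := h
  refine ⟨fun i v => ∃ y, isV B P i y ∧ t i (fun o => o.elim y v), ?_, ?_⟩
  · refine UD.ex (r := fun i v y => isV B P i y ∧ t i (fun o => o.elim y v)) ?_
    refine (UD_isV hR none).and (ht.congr fun i v => ?_)
    apply iff_of_eq
    congr 1
    funext o
    cases o <;> rfl
  · intro i u
    constructor
    · rintro ⟨y, hy, hty⟩
      obtain ⟨c, rfl⟩ := isV_iff.mp hy
      refine ⟨c, (hts i (fun o => o.elim c u)).mp ?_⟩
      convert hty using 1
      funext o
      cases o <;> rfl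
    · rintro ⟨c, hc⟩
      refine ⟨emb B i c, isV_iff.mpr ⟨c, rfl⟩, ?_⟩
      have := (hts i (fun o => o.elim c u)).mpr hc
      convert this using 1
      funext o
      cases o <;> rfl

theorem all (hR : HR LR C B P) {r : ∀ i, (α → C i) → C i → Prop}
    (h : VD LR C B (fun i (v : Option α → C i) => r i (fun a => v (some a)) (v none))) :
    VD LR C B (fun i v => ∀ x : C i, r i v x) := by
  refine (VD.ex hR (r := fun i v x => ¬ r i v x) h.not).not.congr fun i v => ?_
  push Not
  rfl

theorem exs (hR : HR LR C B P) (β : Type) [Finite β] {r : ∀ i, (α → C i) → (β → C i) → Prop}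
    (h : VD LR C B (fun i (v : α ⊕ β → C i) => r i (v ∘ Sum.inl) (v ∘ Sum.inr))) :
    VD LR C B (fun i v => ∃ w : β → C i, r i v w) := by
  obtain ⟨t, ht, hts⟩ := h
  refine ⟨fun i v => ∃ w : β → C i, (∀ b, isV B P i (w b)) ∧ t i (Sum.elim v w), ?_, ?_⟩
  · refine UD.exs β (r := fun i v w => (∀ b, isV B P i (w b)) ∧ t i (Sum.elim v w)) ?_
    refine (UD.iAnd fun b => UD_isV hR (Sum.inr b)).and (ht.congr fun i v => ?_)
    apply iff_of_eq
    congr 1
    funext o
    cases o <;> rfl
  · intro i u
    constructor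
    · rintro ⟨w, hw, htw⟩
      have hw' : ∀ b, ∃ c, w b = emb B i c := fun b => isV_iff.mp (hw b)
      choose c hc using hw'
      refine ⟨c, (hts i (Sum.elim u c)).mp ?_⟩
      convert htw using 1
      funext o
      rcases o with o | o
      · rfl
      · exact (hc o).symm
    · rintro ⟨c, hc⟩
      refine ⟨fun b => emb B i (c b), fun b => isV_iff.mpr ⟨c b, rfl⟩, ?_⟩
      have := (hts i (Sum.elim u c)).mpr hc
      convert this using 1
      funext o
      cases o <;> rfl

/-- The coded relations are definable through the embedding. -/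
theorem coded (hnI : Function.Injective nI) (hR : HR LR C B P) (s : I) :
    VD LR C B (fun i (u : Fin m → C i) => P i s u) := by
  refine ⟨fun i w => ∃ g : Fin (NN nI m s) → C i,
    PathG (P i) s (fun t => (B i).symm (g t)) (fun j => (B i).symm (w j)) ∧
      ∀ t : Fin (NN nI m s), t.val = 0 → Rn B P i (g t) (g t), ?_, ?_⟩
  · refine UD.exs (Fin (NN nI m s)) (r := fun i w g =>
      PathG (P i) s (fun t => (B i).symm (g t)) (fun j => (B i).symm (w j)) ∧
      ∀ t : Fin (NN nI m s), t.val = 0 → Rn B P i (g t) (g t)) ?_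
    refine UD.and ?_ ?_
    · refine ((UD_path hR s).relabel (Sum.elim Sum.inr Sum.inl)).congr fun i v => ?_
      exact Iff.rfl
    · exact UD.iAnd fun t => (UD.const _).imp (hR _ _ _)
  · intro i u
    have hN : 2 ≤ NN nI m s := by unfold NN; omega
    constructor
    · rintro ⟨g, hg, hl⟩
      obtain ⟨a, ha, hga⟩ := (pathG_iff hnI s _ _).mp hg
      have hua : u = a := by
        funext j
        have h1 := ha j
        simp only [emb, Equiv.symm_apply_apply] at h1
        exact Sum.inl.inj h1
      have h2 := hl ⟨0, by omega⟩ rfl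
      unfold Rn at h2
      rw [hga ⟨0, by omega⟩] at h2
      rw [hua]
      exact (loop_iff s a _ rfl).mp h2
    · intro hP
      refine ⟨fun t => B i (Sum.inr (⟨s, t⟩, u)), ?_, ?_⟩
      · refine (pathG_iff hnI s _ _).mpr ⟨u, ?_, ?_⟩
        · intro j
          simp [emb]
        · intro t
          simp
      · intro t ht
        unfold Rn
        rw [Equiv.symm_apply_apply]
        exact (loop_iff s u t ht).mpr hP

end VD

/-- The node of symbol `s` at position `t` with old coordinates `w` (given through the embedding)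
is definable. -/
theorem UD_node (hnI : Function.Injective nI) (hR : HR LR C B P) (s : I) (t : Fin (NN nI m s)) :
    UD LR C (fun i (v : Option (Fin m) → C i) => ∃ a : Fin m → C i,
      (∀ j, v (some j) = emb B i (a j)) ∧ v none = B i (Sum.inr (⟨s, t⟩, a))) := by
  have q : UD LR C (fun i (v : Option (Fin m) → C i) => ∃ g : Fin (NN nI m s) → C i,
      PathG (P i) s (fun t => (B i).symm (g t)) (fun j => (B i).symm (v (some j))) ∧
        v none = g t) := by
    refine UD.exs (Fin (NN nI m s)) (r := fun i v g =>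
      PathG (P i) s (fun t => (B i).symm (g t)) (fun j => (B i).symm (v (some j))) ∧
        v none = g t) ?_
    refine UD.and ?_ (UD.eq _ _)
    refine ((UD_path hR s).relabel (Sum.elim Sum.inr (fun j => Sum.inl (some j)))).congr
      fun i v => ?_
    exact Iff.rfl
  refine q.congr fun i v => ?_
  constructor
  · rintro ⟨g, hg, hv⟩
    obtain ⟨a, ha, hga⟩ := (pathG_iff hnI s _ _).mp hg
    refine ⟨a, fun j => ?_, ?_⟩
    · rw [emb, ← ha j, Equiv.apply_symm_apply]
    · rw [hv, ← hga t, Equiv.apply_symm_apply]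
  · rintro ⟨a, ha, hv⟩
    refine ⟨fun t => B i (Sum.inr (⟨s, t⟩, a)), ?_, hv⟩
    refine (pathG_iff hnI s _ _).mpr ⟨a, fun j => ?_, fun t => ?_⟩
    · rw [ha j, emb, Equiv.symm_apply_apply]
    · simp

/-- The graph of the embedding is definable. -/
theorem UD_emb [Finite I] (hnI : Function.Injective nI) (hR : HR LR C B P)
    (h0 : VD LR C B (fun i (u : Fin 2 → C i) => u 1 = emb B i (u 0)))
    (h1 : ∀ k : Kind nI m, VD LR C B (fun i (u : Option (Fin m) → C i) =>
      u none = B i (Sum.inr (k, fun j => u (some j))))) {α : Type} (a b : α) :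
    UD LR C (fun i (v : α → C i) => v b = emb B i (v a)) := by
  obtain ⟨t0, ht0, hts0⟩ := h0
  choose t1 ht1 hts1 using h1
  have q0 : UD LR C (fun i (v : Fin 2 → C i) => isV B P i (v 0) ∧ isV B P i (v 1) ∧ t0 i v) :=
    (UD_isV hR _).and ((UD_isV hR _).and ht0)
  have q1 : UD LR C (fun i (v : Fin 2 → C i) => ∃ k : Kind nI m, ∃ w : Fin m → C i,
      (∃ a : Fin m → C i, (∀ j, w j = emb B i (a j)) ∧ v 0 = B i (Sum.inr (⟨k.1, k.2⟩, a))) ∧
      isV B P i (v 1) ∧ t1 k i (fun o => o.elim (v 1) w)) := by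
    refine UD.iOr fun k => UD.exs (Fin m) (r := fun i v w =>
      (∃ a : Fin m → C i, (∀ j, w j = emb B i (a j)) ∧ v 0 = B i (Sum.inr (⟨k.1, k.2⟩, a))) ∧
      isV B P i (v 1) ∧ t1 k i (fun o => o.elim (v 1) w)) ?_
    refine UD.and ?_ (UD.and (UD_isV hR _) ?_)
    · exact ((UD_node hnI hR k.1 k.2).relabel (fun o : Option (Fin m) =>
        (o.elim (Sum.inl 0) Sum.inr : Fin 2 ⊕ Fin m)))
    · refine ((ht1 k).relabel (fun o : Option (Fin m) =>
        (o.elim (Sum.inl 1) Sum.inr : Fin 2 ⊕ Fin m))).congr fun i v => ?_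
      apply iff_of_eq
      congr 1
      funext o
      cases o <;> rfl
  have q : UD LR C (fun i (v : Fin 2 → C i) => v 1 = emb B i (v 0)) := by
    refine (q0.or q1).congr fun i v => ?_
    constructor
    · rintro (⟨hx, hy, ht⟩ | ⟨k, w, ⟨a, hw, hv0⟩, hy, ht⟩)
      · obtain ⟨x, hx⟩ := isV_iff.mp hx
        obtain ⟨y, hy⟩ := isV_iff.mp hy
        have h2 := (hts0 i ![x, y]).mp (by
          convert ht using 1
          funext j
          fin_cases j
          · exact hx.symm
          · exact hy.symm)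
        have h3 : y = emb B i x := h2
        rw [hy, h3, hx]
      · obtain ⟨y, hy⟩ := isV_iff.mp hy
        have h2 := (hts1 k i (fun o => o.elim y a)).mp (by
          convert ht using 1
          funext o
          cases o with
          | none => exact hy.symm
          | some j => exact (hw j).symm)
        have h3 : y = B i (Sum.inr (k, a)) := h2
        rw [hy, h3, hv0]
    · intro hv
      rcases hx : (B i).symm (v 0) with x | ⟨k, a⟩
      · left
        have hx' : v 0 = emb B i x := by rw [emb, ← hx, Equiv.apply_symm_apply]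
        refine ⟨isV_iff.mpr ⟨x, hx'⟩, isV_iff.mpr ⟨v 0, hv⟩, ?_⟩
        have h2 := (hts0 i ![x, v 0]).mpr hx'
        convert h2 using 1
        funext j
        fin_cases j
        · exact hx'
        · exact hv
      · right
        have hx' : v 0 = B i (Sum.inr (k, a)) := by rw [← hx, Equiv.apply_symm_apply]
        refine ⟨k, fun j => emb B i (a j), ⟨a, fun j => rfl, hx'⟩, isV_iff.mpr ⟨v 0, hv⟩, ?_⟩
        have h2 := (hts1 k i (fun o => o.elim (v 0) a)).mpr hx'
        convert h2 using 1
        funext o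
        cases o with
        | none => exact hv
        | some j => rfl
  refine (q.relabel ![a, b]).congr fun i v => ?_
  exact Iff.rfl

/-- Everything definable through the embedding is definable. -/
theorem UD_of_VD (hemb : ∀ (α : Type) (a b : α), UD LR C (fun i (v : α → C i) => v b = emb B i (v a)))
    {α : Type} [Finite α] {r : ∀ i, (α → C i) → Prop} (h : VD LR C B r) : UD LR C r := by
  obtain ⟨t, ht, hts⟩ := h
  have q : UD LR C (fun i (v : α → C i) => ∃ w : α → C i, (∀ a, w a = emb B i (v a)) ∧ t i w) := by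
    refine UD.exs α (r := fun i v w => (∀ a, w a = emb B i (v a)) ∧ t i w) ?_
    refine UD.and (UD.iAnd fun a => hemb _ (Sum.inl a) (Sum.inr a)) (ht.relabel Sum.inr)
  refine q.congr fun i v => ?_
  constructor
  · rintro ⟨w, hw, htw⟩
    have : w = fun a => emb B i (v a) := funext hw
    rw [this] at htw
    exact (hts i v).mp htw
  · intro hr
    exact ⟨fun a => emb B i (v a), fun a => rfl, (hts i v).mpr hr⟩

end

end Pool.Agent.Arith67
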