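import Pool.Agent.Arith67.Defs
import Pool.Agent.Arith67.Coded

/-!
Translation of formulas along definitions.
-/

namespace Pool.Agent.Arith67

open FirstOrder FirstOrder.Language

section

variable {ι : Type 1} {C : ι → Type} {L L' : FirstOrder.Language.{0,0}}
  [∀ i, L.Structure (C i)] [∀ i, L'.Structure (C i)]

theorem UD_term (E : Defns L' L) (hE : ∀ i, E.Holds (C i)) {α : Type} (t : L.Term α) :
    UD L' C (fun i (v : Option α → C i) => t.realize (fun a => v (some a)) = v none) := by
  induction t with
  | var a => exact UD.eq (some a) none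
  | @func l f ts ih =>
    have q : UD L' C (fun i (v : Option α → C i) => ∃ w : Fin l → C i,
        (∀ j, (ts j).realize (fun a => v (some a)) = w j) ∧
          (E.fn f).Realize (Fin.snoc w (v none) : Fin (l + 1) → C i)) := by
      refine UD.exs (Fin l) (r := fun i v w =>
        (∀ j, (ts j).realize (fun a => v (some a)) = w j) ∧
          (E.fn f).Realize (Fin.snoc w (v none) : Fin (l + 1) → C i)) ?_
      refine UD.and (UD.iAnd fun j => ?_) ?_
      · refine ((ih j).relabel (fun o : Option α => (o.elim (Sum.inr j) (fun a => Sum.inl (some a)) :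
          Option α ⊕ Fin l))).congr fun i v => ?_
        exact Iff.rfl
      · refine ((UD.formula (E.fn f)).relabel (Fin.snoc (fun j => Sum.inr j) (Sum.inl none) :
          Fin (l + 1) → Option α ⊕ Fin l)).congr fun i v => ?_
        apply iff_of_eq
        congr 1
        funext j
        refine Fin.lastCases ?_ (fun j => ?_) j
        · simp
        · simp
    refine q.congr fun i v => ?_
    constructor
    · rintro ⟨w, hw, hf⟩
      have h1 := ((hE i).2 l f w (v none)).mpr hf
      rw [Term.realize]
      rw [← h1]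
      congr 1
      funext j
      exact hw j
    · intro h
      refine ⟨fun j => (ts j).realize (fun a => v (some a)), fun j => rfl, ?_⟩
      exact ((hE i).2 l f _ (v none)).mp h

theorem UD_bdFormula (E : Defns L' L) (hE : ∀ i, E.Holds (C i)) {α : Type} {n : ℕ}
    (φ : L.BoundedFormula α n) :
    UD L' C (fun i (v : α ⊕ Fin n → C i) =>
      φ.Realize (fun a => v (Sum.inl a)) (fun j => v (Sum.inr j))) := by
  induction φ with
  | falsum => exact UD.false.congr fun i v => Iff.rfl
  | @equal n t u =>
    have q : UD L' C (fun i (v : α ⊕ Fin n → C i) => ∃ y : C i,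
        t.realize v = y ∧ u.realize v = y) := by
      refine UD.ex (r := fun i v y => t.realize v = y ∧ u.realize v = y) ?_
      exact (UD_term E hE t).and (UD_term E hE u)
    refine q.congr fun i v => ?_
    have hv : Sum.elim (fun a => v (Sum.inl a)) (fun j => v (Sum.inr j)) = v := by
      funext a; cases a <;> rfl
    show _ ↔ t.realize (Sum.elim (fun a => v (Sum.inl a)) (fun j => v (Sum.inr j))) =
      u.realize (Sum.elim (fun a => v (Sum.inl a)) (fun j => v (Sum.inr j)))
    rw [hv]
    constructor
    · rintro ⟨y, h1, h2⟩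
      rw [h1, h2]
    · intro h
      exact ⟨_, h, rfl⟩
  | @rel n l R ts =>
    have q : UD L' C (fun i (v : α ⊕ Fin n → C i) => ∃ w : Fin l → C i,
        (∀ j, (ts j).realize v = w j) ∧ (E.rel R).Realize w) := by
      refine UD.exs (Fin l) (r := fun i v w =>
        (∀ j, (ts j).realize v = w j) ∧ (E.rel R).Realize w) ?_
      refine UD.and (UD.iAnd fun j => ?_) ?_
      · refine ((UD_term E hE (ts j)).relabel (fun o : Option (α ⊕ Fin n) =>
          (o.elim (Sum.inr j) Sum.inl : (α ⊕ Fin n) ⊕ Fin l))).congr fun i v => ?_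
        exact Iff.rfl
      · exact ((UD.formula (E.rel R)).relabel (Sum.inr : Fin l → (α ⊕ Fin n) ⊕ Fin l))
    refine q.congr fun i v => ?_
    have hv : Sum.elim (fun a => v (Sum.inl a)) (fun j => v (Sum.inr j)) = v := by
      funext a; cases a <;> rfl
    show _ ↔ Structure.RelMap R (fun j => (ts j).realize
      (Sum.elim (fun a => v (Sum.inl a)) (fun j => v (Sum.inr j))))
    rw [hv]
    constructor
    · rintro ⟨w, hw, hr⟩
      have := ((hE i).1 l R w).mpr hr
      convert this using 1
      funext j
      exact hw j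
    · intro h
      exact ⟨_, fun j => rfl, ((hE i).1 l R _).mp h⟩
  | imp _ _ ih1 ih2 => exact ih1.imp ih2
  | @all n φ ih =>
    refine UD.all (M := C) (r := fun i v x =>
      φ.Realize (fun a => v (Sum.inl a)) (Fin.snoc (fun j => v (Sum.inr j)) x)) ?_
    refine (ih.relabel (Sum.elim (fun a => some (Sum.inl a))
      (Fin.snoc (fun j => some (Sum.inr j)) none) :
        α ⊕ Fin (n + 1) → Option (α ⊕ Fin n))).congr fun i v => ?_
    apply iff_of_eq
    congr 1
    funext j
    refine Fin.lastCases ?_ (fun j => ?_) j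
    · simp
    · simp

theorem UD_formula' (E : Defns L' L) (hE : ∀ i, E.Holds (C i)) {α : Type} (φ : L.Formula α) :
    UD L' C (fun i (v : α → C i) => φ.Realize v) := by
  refine ((UD_bdFormula E hE φ).relabel (Sum.elim id (fun j : Fin 0 => j.elim0) :
    α ⊕ Fin 0 → α)).congr fun i v => ?_
  show BoundedFormula.Realize φ _ _ ↔ BoundedFormula.Realize φ v default
  apply iff_of_eq
  congr 1
  exact Subsingleton.elim _ _

/-- Definability in `L` gives definability in `L'`. -/
theorem UD.trans (E : Defns L' L) (hE : ∀ i, E.Holds (C i)) {α : Type}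
    {r : ∀ i, (α → C i) → Prop} (h : UD L C r) : UD L' C r := by
  obtain ⟨φ, hφ⟩ := h
  exact (UD_formula' E hE φ).congr hφ

end

section

variable {ι : Type 1} {C : ι → Type} {L LR : FirstOrder.Language.{0,0}}
  [∀ i, L.Structure (C i)] [∀ i, LR.Structure (C i)]
  {nI : ((k : ℕ) × L.Relations k) → ℕ} {m : ℕ} {B : ∀ i, GG nI m (C i) ≃ C i}

/-- The `m`-ary version of a relation of arity at most `m`. -/
def PP (hm : ∀ (k : ℕ) (_ : L.Relations k), k ≤ m) (i : ι) (s : (k : ℕ) × L.Relations k)
    (a : Fin m → C i) : Prop :=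
  Structure.RelMap s.2 (fun j : Fin s.1 => a (Fin.castLE (hm s.1 s.2) j))

theorem VD_bdFormula [L.IsRelational] (hm : ∀ (k : ℕ) (_ : L.Relations k), k ≤ m)
    (hnI : Function.Injective nI) [∀ i, Nonempty (C i)]
    (hR : HR LR C B (PP (C := C) hm)) {α : Type} {n : ℕ} (φ : L.BoundedFormula α n) :
    VD LR C B (fun i (v : α ⊕ Fin n → C i) =>
      φ.Realize (fun a => v (Sum.inl a)) (fun j => v (Sum.inr j))) := by
  have hterm : ∀ {n : ℕ} (t : L.Term (α ⊕ Fin n)), ∃ a, t = Term.var a := by
    intro n t
    cases t with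
    | var a => exact ⟨a, rfl⟩
    | func f _ => exact isEmptyElim f
  induction φ with
  | falsum => exact VD.false.congr fun i v => Iff.rfl
  | @equal n t u =>
    obtain ⟨a, rfl⟩ := hterm t
    obtain ⟨b, rfl⟩ := hterm u
    refine (VD.eq a b).congr fun i v => ?_
    show v a = v b ↔ Sum.elim (fun a => v (Sum.inl a)) (fun j => v (Sum.inr j)) a =
      Sum.elim (fun a => v (Sum.inl a)) (fun j => v (Sum.inr j)) b
    have hv : Sum.elim (fun a => v (Sum.inl a)) (fun j => v (Sum.inr j)) = v := by
      funext a; cases a <;> rfl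
    rw [hv]
  | @rel n l R ts =>
    have hts : ∀ j, ∃ a, ts j = Term.var a := fun j => hterm (ts j)
    choose x hx using hts
    have q : VD LR C B (fun i (v : α ⊕ Fin n → C i) => ∃ w : Fin m → C i,
        (∀ j : Fin l, v (x j) = w (Fin.castLE (hm l R) j)) ∧ PP hm i ⟨l, R⟩ w) := by
      refine VD.exs hR (Fin m) (r := fun i v w =>
        (∀ j : Fin l, v (x j) = w (Fin.castLE (hm l R) j)) ∧ PP hm i ⟨l, R⟩ w) ?_
      refine VD.and ?_ ?_
      · obtain ⟨s, hs, hss⟩ : VD LR C B (fun i (v : (α ⊕ Fin n) ⊕ Fin m → C i) =>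
            ∀ j : Fin l, v (Sum.inl (x j)) = v (Sum.inr (Fin.castLE (hm l R) j))) := by
          refine ⟨fun i v => ∀ j : Fin l, v (Sum.inl (x j)) = v (Sum.inr (Fin.castLE (hm l R) j)),
            UD.iAnd fun j => UD.eq _ _, fun i u => ?_⟩
          exact forall_congr' fun j => ⟨fun h => emb_inj h, fun h => congrArg (emb B i) h⟩
        exact ⟨s, hs, hss⟩
      · exact (VD.coded hnI hR ⟨l, R⟩).relabel Sum.inr
    refine q.congr fun i v => ?_
    have hv : Sum.elim (fun a => v (Sum.inl a)) (fun j => v (Sum.inr j)) = v := by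
      funext a; cases a <;> rfl
    show _ ↔ Structure.RelMap R (fun j => (ts j).realize
      (Sum.elim (fun a => v (Sum.inl a)) (fun j => v (Sum.inr j))))
    rw [hv]
    constructor
    · rintro ⟨w, hw, hr⟩
      unfold PP at hr
      convert hr using 1
      funext j
      rw [hx j]
      exact hw j
    · intro h
      have hC : Nonempty (C i) := inferInstance
      obtain ⟨c⟩ := hC
      refine ⟨fun j => if hj : j.val < l then v (x ⟨j.val, hj⟩) else c, ?_, ?_⟩
      · intro j
        have : (Fin.castLE (hm l R) j).val < l := j.isLt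
        simp only [this, dif_pos]
        rfl
      · unfold PP
        convert h using 1
        funext j
        have : (Fin.castLE (hm l R) j).val < l := j.isLt
        simp only [this, dif_pos]
        rw [hx j]
        rfl
  | imp _ _ ih1 ih2 => exact ih1.imp ih2
  | @all n φ ih =>
    refine VD.all hR (r := fun i v x =>
      φ.Realize (fun a => v (Sum.inl a)) (Fin.snoc (fun j => v (Sum.inr j)) x)) ?_
    refine (ih.relabel (Sum.elim (fun a => some (Sum.inl a))
      (Fin.snoc (fun j => some (Sum.inr j)) none) :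
        α ⊕ Fin (n + 1) → Option (α ⊕ Fin n))).congr fun i v => ?_
    apply iff_of_eq
    congr 1
    funext j
    refine Fin.lastCases ?_ (fun j => ?_) j
    · simp
    · simp

theorem VD_of_UD [L.IsRelational] (hm : ∀ (k : ℕ) (_ : L.Relations k), k ≤ m)
    (hnI : Function.Injective nI) [∀ i, Nonempty (C i)]
    (hR : HR LR C B (PP (C := C) hm)) {α : Type} {r : ∀ i, (α → C i) → Prop} (h : UD L C r) :
    VD LR C B r := by
  obtain ⟨φ, hφ⟩ := h
  refine (((VD_bdFormula hm hnI hR φ).relabel (Sum.elim id (fun j : Fin 0 => j.elim0) :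
    α ⊕ Fin 0 → α)).congr fun i v => ?_).congr hφ
  show BoundedFormula.Realize φ _ _ ↔ BoundedFormula.Realize φ v default
  apply iff_of_eq
  congr 1
  exact Subsingleton.elim _ _

end

end Pool.Agent.Arith67
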