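import Pool.Agent.Arith67.Pairing
import Pool.Agent.Arith67.Translate

/-!
The universe of the graph is in definable bijection with a model of arithmetic.
-/

namespace Pool.Agent.Arith67

open FirstOrder FirstOrder.Language

section general

variable {M : Type}

/-- Coding of tuples from a pairing bijection. -/
def tupE (e : M × M ≃ M) : ∀ m : ℕ, (Fin (m + 1) → M) ≃ M
  | 0 => Equiv.funUnique (Fin 1) M
  | m + 1 => ((Fin.consEquiv (fun _ : Fin (m + 2) => M)).symm.trans
      (Equiv.prodCongr (Equiv.refl M) (tupE e m))).trans e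

theorem tupE_zero (e : M × M ≃ M) (a : Fin 1 → M) : tupE e 0 a = a 0 := rfl

theorem tupE_succ (e : M × M ≃ M) (m : ℕ) (a : Fin (m + 2) → M) :
    tupE e (m + 1) a = e (a 0, tupE e m (fun j => a j.succ)) := rfl

variable {I : Type} {nI : I → ℕ} {m s : ℕ}

/-- The bijection of the universe of the graph with the old universe. -/
def BE (κE : Kind nI (m + 1) ≃ Fin s) (e : M × M ≃ M) (sh : M ⊕ Fin s ≃ M) :
    GG nI (m + 1) M ≃ M :=
  ((Equiv.sumCongr e.symm (Equiv.prodCongr κE (tupE e m))).trans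
    ((Equiv.sumProdDistrib M (Fin s) M).symm.trans (Equiv.prodCongr sh (Equiv.refl M)))).trans e

theorem BE_inl (κE : Kind nI (m + 1) ≃ Fin s) (e : M × M ≃ M) (sh : M ⊕ Fin s ≃ M) (x : M) :
    BE κE e sh (Sum.inl x) = e (sh (Sum.inl (e.symm x).1), (e.symm x).2) := rfl

theorem BE_inr (κE : Kind nI (m + 1) ≃ Fin s) (e : M × M ≃ M) (sh : M ⊕ Fin s ≃ M)
    (k : Kind nI (m + 1)) (a : Fin (m + 1) → M) :
    BE κE e sh (Sum.inr (k, a)) = e (sh (Sum.inr (κE k)), tupE e m a) := rfl

end general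

section model

variable {M : Type} [LPA.Structure M]

/-- Shift by `s` and the numerals below `s`. -/
noncomputable def shE (h : M ⊨ PA) (s : ℕ) : M ⊕ Fin s ≃ M :=
  Equiv.ofBijective (Sum.elim (shift s) (fun j => num M j.val)) ⟨by
    intro x y hxy
    rcases x with x | x <;> rcases y with y | y
    · exact congrArg Sum.inl (shift_inj h s hxy)
    · exact absurd hxy.symm (num_ne_shift h y.isLt _)
    · exact absurd hxy (num_ne_shift h x.isLt _)
    · exact congrArg Sum.inr (Fin.ext (num_inj h hxy)), by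
    intro x
    rcases num_or_shift h s x with ⟨j, hj, hx⟩ | ⟨y, hy⟩
    · exact ⟨Sum.inr ⟨j, hj⟩, hx.symm⟩
    · exact ⟨Sum.inl y, hy.symm⟩⟩

theorem shE_inl (h : M ⊨ PA) (s : ℕ) (x : M) : shE h s (Sum.inl x) = shift s x := rfl

theorem shE_inr (h : M ⊨ PA) (s : ℕ) (j : Fin s) : shE h s (Sum.inr j) = num M j.val := rfl

theorem prEquiv_apply (h : M ⊨ PA) (p : M × M) : prEquiv h p = pr h p.1 p.2 := rfl

/-- Numeral terms. -/
def numT {α : Type} (k : ℕ) : LPA.Term α := Nat.rec zeroT (fun _ t => succT t) k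

def shiftT {α : Type} (k : ℕ) (t : LPA.Term α) : LPA.Term α := Nat.rec t (fun _ t => succT t) k

theorem realize_numT {α : Type} (k : ℕ) (v : α → M) :
    (numT k : LPA.Term α).realize v = num M k := by
  induction k with
  | zero => exact realize_zeroT v
  | succ k ih =>
    show Term.realize v (succT (numT k)) = Sc (num M k)
    rw [realize_succT, ih]

theorem realize_shiftT {α : Type} (k : ℕ) (t : LPA.Term α) (v : α → M) :
    (shiftT k t).realize v = shift k (t.realize v) := by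
  induction k with
  | zero => rfl
  | succ k ih =>
    show Term.realize v (succT (shiftT k t)) = Sc (shift k (t.realize v))
    rw [realize_succT, ih]

end model

section family

variable {ι : Type 1} {C : ι → Type} [∀ i, LPA.Structure (C i)] (hPA : ∀ i, C i ⊨ PA)

include hPA

theorem UD_pr {α : Type} (t u w : LPA.Term α) :
    UD LPA C (fun i (v : α → C i) => w.realize v = pr (hPA i) (t.realize v) (u.realize v)) := by
  refine (UD.term (addT w w) (addT (mulT (addT t u) (succT (addT t u))) (addT u u))).congr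
    fun i v => ?_
  rw [pr_graph]
  simp

theorem UD_tup (m : ℕ) {α : Type} (f : Fin (m + 1) → α) (b : α) :
    UD LPA C (fun i (v : α → C i) => v b = tupE (prEquiv (hPA i)) m (fun j => v (f j))) := by
  induction m generalizing α with
  | zero =>
    refine (UD.eq b (f 0)).congr fun i v => ?_
    rw [tupE_zero]
  | succ m ih =>
    have q : UD LPA C (fun i (v : α → C i) => ∃ z : C i,
        z = tupE (prEquiv (hPA i)) m (fun j => v (f j.succ)) ∧ v b = pr (hPA i) (v (f 0)) z) := by
      refine UD.ex (r := fun i v z =>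
        z = tupE (prEquiv (hPA i)) m (fun j => v (f j.succ)) ∧ v b = pr (hPA i) (v (f 0)) z) ?_
      refine UD.and (ih (fun j => some (f j.succ)) none) ?_
      exact UD_pr hPA (Term.var (some (f 0))) (Term.var none) (Term.var (some b))
    refine q.congr fun i v => ?_
    rw [tupE_succ, prEquiv_apply]
    constructor
    · rintro ⟨z, rfl, hz⟩
      exact hz
    · intro h
      exact ⟨_, rfl, h⟩

variable {I : Type} {nI : I → ℕ} {m s : ℕ} (κE : Kind nI (m + 1) ≃ Fin s)

omit hPA in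
/-- The bijection in a model of arithmetic. -/
noncomputable def BP (hPA : ∀ i, C i ⊨ PA) (κE : Kind nI (m + 1) ≃ Fin s) (i : ι) :
    GG nI (m + 1) (C i) ≃ C i :=
  BE κE (prEquiv (hPA i)) (shE (hPA i) s)

theorem UD_BP_inl {α : Type} (a b : α) :
    UD LPA C (fun i (v : α → C i) => v b = BP hPA κE i (Sum.inl (v a))) := by
  have q : UD LPA C (fun i (v : α → C i) => ∃ w : Fin 2 → C i,
      v a = pr (hPA i) (w 0) (w 1) ∧ v b = pr (hPA i) (shift s (w 0)) (w 1)) := by
    refine UD.exs (Fin 2) (r := fun i v w =>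
      v a = pr (hPA i) (w 0) (w 1) ∧ v b = pr (hPA i) (shift s (w 0)) (w 1)) ?_
    refine UD.and ?_ ?_
    · exact UD_pr hPA (Term.var (Sum.inr 0)) (Term.var (Sum.inr 1)) (Term.var (Sum.inl a))
    · refine (UD_pr hPA (shiftT s (Term.var (Sum.inr 0))) (Term.var (Sum.inr 1))
        (Term.var (Sum.inl b))).congr fun i v => ?_
      rw [realize_shiftT]
      rfl
  refine q.congr fun i v => ?_
  rw [BP, BE_inl, shE_inl, prEquiv_apply]
  constructor
  · rintro ⟨w, hw, hb⟩
    have h1 : (prEquiv (hPA i)).symm (v a) = (w 0, w 1) := by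
      rw [Equiv.symm_apply_eq, hw]
      rfl
    rw [h1, hb]
  · intro h
    refine ⟨![((prEquiv (hPA i)).symm (v a)).1, ((prEquiv (hPA i)).symm (v a)).2], ?_, h⟩
    have h1 := (prEquiv (hPA i)).apply_symm_apply (v a)
    rw [prEquiv_apply] at h1
    exact h1.symm

theorem UD_BP_inr {α : Type} (k : Kind nI (m + 1)) (f : Fin (m + 1) → α) (b : α) :
    UD LPA C (fun i (v : α → C i) => v b = BP hPA κE i (Sum.inr (k, fun j => v (f j)))) := by
  have q : UD LPA C (fun i (v : α → C i) => ∃ z : C i,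
      z = tupE (prEquiv (hPA i)) m (fun j => v (f j)) ∧
        v b = pr (hPA i) (num (C i) (κE k).val) z) := by
    refine UD.ex (r := fun i v z => z = tupE (prEquiv (hPA i)) m (fun j => v (f j)) ∧
        v b = pr (hPA i) (num (C i) (κE k).val) z) ?_
    refine UD.and (UD_tup hPA m (fun j => some (f j)) none) ?_
    refine (UD_pr hPA (numT (κE k).val) (Term.var none) (Term.var (some b))).congr fun i v => ?_
    rw [realize_numT]
    rfl
  refine q.congr fun i v => ?_
  rw [BP, BE_inr, shE_inr, prEquiv_apply]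
  constructor
  · rintro ⟨z, rfl, hz⟩
    exact hz
  · intro h
    exact ⟨_, rfl, h⟩

/-- The graph relation is definable in arithmetic if the coded relations are. -/
theorem UD_Rn [Finite I] {P : ∀ i, I → (Fin (m + 1) → C i) → Prop}
    (hP : ∀ t : I, UD LPA C (fun i (v : Fin (m + 1) → C i) => P i t v)) {α : Type} (a b : α) :
    UD LPA C (fun i (v : α → C i) => Rn (BP hPA κE) P i (v a) (v b)) := by
  have q1 : UD LPA C (fun i (v : α → C i) => ∃ (k : Kind nI (m + 1)), ∃ (j : Fin (m + 1)),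
      k.2.val = j.val + 1 ∧ ∃ w : Fin (m + 1) → C i,
        v a = BP hPA κE i (Sum.inr (k, w)) ∧ v b = BP hPA κE i (Sum.inl (w j))) := by
    refine UD.iOr fun k => UD.iOr fun j => (UD.const _).and ?_
    refine UD.exs (Fin (m + 1)) (r := fun i v w =>
        v a = BP hPA κE i (Sum.inr (k, w)) ∧ v b = BP hPA κE i (Sum.inl (w j))) ?_
    exact (UD_BP_inr hPA κE k Sum.inr (Sum.inl a)).and
      (UD_BP_inl hPA κE (Sum.inr j) (Sum.inl b))
  have q2 : UD LPA C (fun i (v : α → C i) => ∃ (k k' : Kind nI (m + 1)),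
      k.1 = k'.1 ∧ k'.2.val = k.2.val + 1 ∧ ∃ w : Fin (m + 1) → C i,
        v a = BP hPA κE i (Sum.inr (k, w)) ∧ v b = BP hPA κE i (Sum.inr (k', w))) := by
    refine UD.iOr fun k => UD.iOr fun k' => (UD.const _).and ((UD.const _).and ?_)
    refine UD.exs (Fin (m + 1)) (r := fun i v w =>
        v a = BP hPA κE i (Sum.inr (k, w)) ∧ v b = BP hPA κE i (Sum.inr (k', w))) ?_
    exact (UD_BP_inr hPA κE k Sum.inr (Sum.inl a)).and
      (UD_BP_inr hPA κE k' Sum.inr (Sum.inl b))
  have q3 : UD LPA C (fun i (v : α → C i) => ∃ (k k' : Kind nI (m + 1)),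
      k.1 = k'.1 ∧ k'.2.val = k.2.val ∧ ∃ w : Fin (m + 1) → C i,
        v a = BP hPA κE i (Sum.inr (k, w)) ∧ v b = BP hPA κE i (Sum.inr (k', w)) ∧
          (k.2.val + 1 = NN nI (m + 1) k.1 ∨ (k.2.val = 0 ∧ P i k.1 w))) := by
    refine UD.iOr fun k => UD.iOr fun k' => (UD.const _).and ((UD.const _).and ?_)
    refine UD.exs (Fin (m + 1)) (r := fun i v w =>
        v a = BP hPA κE i (Sum.inr (k, w)) ∧ v b = BP hPA κE i (Sum.inr (k', w)) ∧
          (k.2.val + 1 = NN nI (m + 1) k.1 ∨ (k.2.val = 0 ∧ P i k.1 w))) ?_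
    exact (UD_BP_inr hPA κE k Sum.inr (Sum.inl a)).and
      ((UD_BP_inr hPA κE k' Sum.inr (Sum.inl b)).and
        ((UD.const _).or ((UD.const _).and ((hP k.1).relabel Sum.inr))))
  refine (q1.or (q2.or q3)).congr fun i v => ?_
  have hs : ∀ (x : C i), ∃ g, x = BP hPA κE i g := fun x =>
    ⟨(BP hPA κE i).symm x, (Equiv.apply_symm_apply _ _).symm⟩
  obtain ⟨g, hg⟩ := hs (v a)
  obtain ⟨g', hg'⟩ := hs (v b)
  unfold Rn
  rw [hg, hg', Equiv.symm_apply_apply, Equiv.symm_apply_apply]
  have hinj : ∀ g g' : GG nI (m + 1) (C i), BP hPA κE i g = BP hPA κE i g' ↔ g = g' :=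
    fun g g' => (BP hPA κE i).injective.eq_iff
  constructor
  · rintro (⟨k, j, hkj, w, h1, h2⟩ | ⟨k, k', hkk, hk, w, h1, h2⟩ |
      ⟨k, k', hkk, hk, w, h1, h2, h3⟩)
    · rw [hinj] at h1 h2
      rw [h1, h2]
      exact ⟨j, hkj, rfl⟩
    · rw [hinj] at h1 h2
      rw [h1, h2]
      exact ⟨rfl, hkk, Or.inl hk⟩
    · rw [hinj] at h1 h2
      rw [h1, h2]
      exact ⟨rfl, hkk, Or.inr ⟨hk, h3⟩⟩
  · intro he
    rcases g with c | ⟨k, w⟩
    · exact absurd he id
    · rcases g' with c | ⟨k', w'⟩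
      · obtain ⟨j, hj, rfl⟩ := he
        exact Or.inl ⟨k, j, hj, w, rfl, rfl⟩
      · obtain ⟨rfl, hkk, hd | ⟨hd, h3⟩⟩ := he
        · exact Or.inr (Or.inl ⟨k, k', hkk, hd, w, rfl, rfl⟩)
        · exact Or.inr (Or.inr ⟨k, k', hkk, hd, w, rfl, rfl, h3⟩)

end family

end Pool.Agent.Arith67
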