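import Pool.Agent.Arith67.Code

/-!
The standard copy of the graph is computable when the coded relations are.
-/

namespace Pool.Agent.Arith67

section CP

variable {α β : Type} [Primcodable α] [Primcodable β]

theorem cp_iff {p : α → Prop} : ComputablePred p ↔ ∃ f : α → Bool, Computable f ∧
    ∀ a, p a ↔ f a = true := by
  rw [ComputablePred.computable_iff]
  constructor
  · rintro ⟨f, hf, rfl⟩
    exact ⟨f, hf, fun a => Iff.rfl⟩
  · rintro ⟨f, hf, h⟩
    exact ⟨f, hf, funext fun a => propext (h a)⟩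

theorem cp_and {p q : α → Prop} (hp : ComputablePred p) (hq : ComputablePred q) :
    ComputablePred (fun a => p a ∧ q a) := by
  obtain ⟨f, hf, h⟩ := cp_iff.mp hp
  obtain ⟨g, hg, h'⟩ := cp_iff.mp hq
  refine cp_iff.mpr ⟨fun a => f a && g a, (Primrec.and.to_comp).comp hf hg, fun a => ?_⟩
  rw [h, h', Bool.and_eq_true]

theorem cp_or {p q : α → Prop} (hp : ComputablePred p) (hq : ComputablePred q) :
    ComputablePred (fun a => p a ∨ q a) := by
  obtain ⟨f, hf, h⟩ := cp_iff.mp hp
  obtain ⟨g, hg, h'⟩ := cp_iff.mp hq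
  refine cp_iff.mpr ⟨fun a => f a || g a, (Primrec.or.to_comp).comp hf hg, fun a => ?_⟩
  rw [h, h', Bool.or_eq_true]

theorem cp_const (p : Prop) : ComputablePred (fun _ : α => p) := by
  by_cases hp : p
  · exact cp_iff.mpr ⟨fun _ => true, Computable.const _, fun a => by simp [hp]⟩
  · exact cp_iff.mpr ⟨fun _ => false, Computable.const _, fun a => by simp [hp]⟩

theorem cp_comp {p : β → Prop} (hp : ComputablePred p) {f : α → β} (hf : Computable f) :
    ComputablePred (fun a => p (f a)) := by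
  obtain ⟨g, hg, h⟩ := cp_iff.mp hp
  exact cp_iff.mpr ⟨fun a => g (f a), hg.comp hf, fun a => h _⟩

theorem cp_eq {f g : α → ℕ} (hf : Computable f) (hg : Computable g) :
    ComputablePred (fun a => f a = g a) := by
  have h1 : ComputablePred (fun p : ℕ × ℕ => p.1 = p.2) :=
    PrimrecPred.computablePred (PrimrecRel.comp Primrec.eq Primrec.fst Primrec.snd)
  exact cp_comp h1 (hf.pair hg)

theorem cp_le {f g : α → ℕ} (hf : Computable f) (hg : Computable g) :
    ComputablePred (fun a => f a ≤ g a) := by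
  have h1 : ComputablePred (fun p : ℕ × ℕ => p.1 ≤ p.2) :=
    PrimrecPred.computablePred (PrimrecRel.comp Primrec.nat_le Primrec.fst Primrec.snd)
  exact cp_comp h1 (hf.pair hg)

theorem cp_exists {κ : Type} [Finite κ] {p : κ → α → Prop} (hp : ∀ k, ComputablePred (p k)) :
    ComputablePred (fun a => ∃ k, p k a) := by
  classical
  have := Fintype.ofFinite κ
  have key : ∀ s : Finset κ, ComputablePred (fun a => ∃ k ∈ s, p k a) := by
    intro s
    induction s using Finset.induction_on with
    | empty => exact (cp_const False).of_eq fun a => by simp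
    | insert k s _ ih =>
      refine (cp_or (hp k) ih).of_eq fun a => ?_
      simp
  exact (key Finset.univ).of_eq fun a => by simp

theorem comp_fin {n : ℕ} {f : Fin n → α → ℕ} (hf : ∀ j, Computable (f j)) :
    Computable (fun a j => f j a) := by
  refine ((Primrec.vector_get'.to_comp).comp (Computable.vector_ofFn hf)).of_eq fun a => ?_
  funext j
  simp

theorem comp_app {n : ℕ} (j : Fin n) : Computable (fun v : Fin n → ℕ => v j) :=
  (Primrec.fin_app.comp Primrec.id (Primrec.const j)).to_comp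

end CP

/-- Shift by `s` on the standard numbers. -/
def shStd (s : ℕ) : ℕ ⊕ Fin s ≃ ℕ where
  toFun := Sum.elim (fun x => x + s) (fun j => j.val)
  invFun := fun n => if h : n < s then Sum.inr ⟨n, h⟩ else Sum.inl (n - s)
  left_inv := by
    rintro (x | x)
    · simp
    · simp
  right_inv := by
    intro n
    by_cases h : n < s
    · simp [h]
    · simp only [h, dif_neg, not_false_iff, Sum.elim_inl]
      omega

theorem comp_tup (m : ℕ) (j : Fin (m + 1)) :
    Computable (fun x => (tupE Nat.pairEquiv m).symm x j) := by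
  induction m with
  | zero => exact Computable.id
  | succ m ih =>
    refine Fin.cases ?_ (fun j => ?_) j
    · exact (Computable.fst.comp (Primrec.unpair.to_comp)).of_eq fun x => rfl
    · exact ((ih j).comp (Computable.snd.comp (Primrec.unpair.to_comp))).of_eq fun x => rfl

section

variable {I : Type} {nI : I → ℕ} {m s : ℕ} (κE : Kind nI (m + 1) ≃ Fin s)

/-- The standard coding of the universe of the graph. -/
def BS : GG nI (m + 1) ℕ ≃ ℕ := BE κE Nat.pairEquiv (shStd s)

theorem BS_inl (x : ℕ) : BS κE (Sum.inl x) = Nat.pair ((Nat.unpair x).1 + s) (Nat.unpair x).2 := rfl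

theorem BS_inr (k : Kind nI (m + 1)) (a : Fin (m + 1) → ℕ) :
    BS κE (Sum.inr (k, a)) = Nat.pair (κE k).val (tupE Nat.pairEquiv m a) := rfl

theorem BS_inr_iff (k : Kind nI (m + 1)) (a : Fin (m + 1) → ℕ) (x : ℕ) :
    x = BS κE (Sum.inr (k, a)) ↔
      (Nat.unpair x).1 = (κE k).val ∧ a = fun j => (tupE Nat.pairEquiv m).symm (Nat.unpair x).2 j := by
  rw [BS_inr]
  constructor
  · rintro rfl
    simp
  · rintro ⟨h1, h2⟩
    have h3 : tupE Nat.pairEquiv m a = (Nat.unpair x).2 := by
      rw [h2]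
      exact (tupE Nat.pairEquiv m).apply_symm_apply _
    rw [h3, ← h1, Nat.pair_unpair]

theorem BS_inl_iff (c : ℕ) (y : ℕ) :
    y = BS κE (Sum.inl c) ↔ s ≤ (Nat.unpair y).1 ∧
      c = Nat.pair ((Nat.unpair y).1 - s) (Nat.unpair y).2 := by
  rw [BS_inl]
  constructor
  · rintro rfl
    simp
  · rintro ⟨h1, h2⟩
    rw [h2]
    simp only [Nat.unpair_pair]
    rw [Nat.sub_add_cancel h1, Nat.pair_unpair]

theorem computable_graph [Finite I] {P : I → (Fin (m + 1) → ℕ) → Prop}
    (hP : ∀ t, ComputablePred (P t)) :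
    ComputablePred (fun p : ℕ × ℕ =>
      EG nI (m + 1) P ((BS κE).symm p.1) ((BS κE).symm p.2)) := by
  have u1 : Computable (fun p : ℕ × ℕ => (Nat.unpair p.1).1) :=
    Computable.fst.comp ((Primrec.unpair.to_comp).comp Computable.fst)
  have u2 : Computable (fun p : ℕ × ℕ => (Nat.unpair p.1).2) :=
    Computable.snd.comp ((Primrec.unpair.to_comp).comp Computable.fst)
  have w1 : Computable (fun p : ℕ × ℕ => (Nat.unpair p.2).1) :=
    Computable.fst.comp ((Primrec.unpair.to_comp).comp Computable.snd)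
  have w2 : Computable (fun p : ℕ × ℕ => (Nat.unpair p.2).2) :=
    Computable.snd.comp ((Primrec.unpair.to_comp).comp Computable.snd)
  have ua : Computable (fun (p : ℕ × ℕ) j => (tupE Nat.pairEquiv m).symm (Nat.unpair p.1).2 j) :=
    comp_fin fun j => (comp_tup m j).comp u2
  have wc : Computable (fun p : ℕ × ℕ => Nat.pair ((Nat.unpair p.2).1 - s) (Nat.unpair p.2).2) :=
    (Primrec₂.natPair.to_comp).comp ((Primrec.nat_sub.to_comp).comp w1 (Computable.const s)) w2
  have q1 : ComputablePred (fun p : ℕ × ℕ => ∃ (k : Kind nI (m + 1)) (j : Fin (m + 1)),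
      k.2.val = j.val + 1 ∧ (Nat.unpair p.1).1 = (κE k).val ∧ s ≤ (Nat.unpair p.2).1 ∧
        Nat.pair ((Nat.unpair p.2).1 - s) (Nat.unpair p.2).2 =
          (tupE Nat.pairEquiv m).symm (Nat.unpair p.1).2 j) :=
    cp_exists fun k => cp_exists fun j => cp_and (cp_const _)
      (cp_and (cp_eq u1 (Computable.const _)) (cp_and (cp_le (Computable.const _) w1)
        (cp_eq wc ((comp_tup m j).comp u2))))
  have q2 : ComputablePred (fun p : ℕ × ℕ => ∃ (k k' : Kind nI (m + 1)),
      k.1 = k'.1 ∧ (Nat.unpair p.1).1 = (κE k).val ∧ (Nat.unpair p.2).1 = (κE k').val ∧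
        (Nat.unpair p.1).2 = (Nat.unpair p.2).2 ∧ (k'.2.val = k.2.val + 1 ∨
          (k'.2.val = k.2.val ∧ (k.2.val + 1 = NN nI (m + 1) k.1 ∨
            (k.2.val = 0 ∧ P k.1 (fun j => (tupE Nat.pairEquiv m).symm (Nat.unpair p.1).2 j)))))) :=
    cp_exists fun k => cp_exists fun k' => cp_and (cp_const _)
      (cp_and (cp_eq u1 (Computable.const _)) (cp_and (cp_eq w1 (Computable.const _))
        (cp_and (cp_eq u2 w2) (cp_or (cp_const _) (cp_and (cp_const _) (cp_or (cp_const _)
          (cp_and (cp_const _) (cp_comp (hP k.1) ua))))))))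
  refine (cp_or q1 q2).of_eq fun p => ?_
  have hx := (Equiv.apply_symm_apply (BS κE) p.1).symm
  have hy := (Equiv.apply_symm_apply (BS κE) p.2).symm
  constructor
  · rintro (⟨k, j, hj, h1, h2, h3⟩ | ⟨k, k', hkk, h1, h2, h3, h4⟩)
    · have hp1 := (BS_inr_iff κE k _ p.1).mpr ⟨h1, rfl⟩
      have hp2 := (BS_inl_iff κE _ p.2).mpr ⟨h2, rfl⟩
      have e1 := (Equiv.symm_apply_eq (BS κE)).mpr hp1
      have e2 := (Equiv.symm_apply_eq (BS κE)).mpr hp2
      rw [e1, e2]
      exact ⟨j, hj, h3⟩
    · have hp1 := (BS_inr_iff κE k _ p.1).mpr ⟨h1, rfl⟩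
      have hp2 := (BS_inr_iff κE k' (fun j => (tupE Nat.pairEquiv m).symm (Nat.unpair p.1).2 j)
        p.2).mpr ⟨h2, by rw [h3]⟩
      have e1 := (Equiv.symm_apply_eq (BS κE)).mpr hp1
      have e2 := (Equiv.symm_apply_eq (BS κE)).mpr hp2
      rw [e1, e2]
      exact ⟨rfl, hkk, h4⟩
  · intro he
    rcases hg : (BS κE).symm p.1 with c | ⟨k, a⟩
    · rw [hg] at he
      exact absurd he id
    · rw [hg] at he hx
      obtain ⟨h1, h2⟩ := (BS_inr_iff κE k a p.1).mp hx
      rcases hg' : (BS κE).symm p.2 with c | ⟨k', a'⟩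
      · rw [hg'] at he hy
        obtain ⟨h3, h4⟩ := (BS_inl_iff κE c p.2).mp hy
        obtain ⟨j, hj, hcj⟩ := he
        refine Or.inl ⟨k, j, hj, h1, h3, ?_⟩
        rw [← h4, hcj, h2]
      · rw [hg'] at he hy
        obtain ⟨h3, h4⟩ := (BS_inr_iff κE k' a' p.2).mp hy
        obtain ⟨haa, hkk, h5⟩ := he
        refine Or.inr ⟨k, k', hkk, h1, h3, ?_, ?_⟩
        · rw [h2, h4] at haa
          exact (tupE Nat.pairEquiv m).symm.injective haa
        · rw [h2] at h5
          exact h5

end

end Pool.Agent.Arith67
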