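import Pool.Agent.Arith67.LimF

/-!
The leftmost path of a class of binary sequences.
-/

namespace Pool.Agent.Arith67.Leftmost

open Filter

theorem primrec_two_pow : Primrec (fun n : ℕ => 2 ^ n) := by
  refine (Primrec.nat_rec₁ (f := fun _ y => 2 * y) 1 ?_).of_eq fun n => ?_
  · exact (Primrec.nat_mul.comp (Primrec.const 2) Primrec.snd).to₂
  · induction n with
    | zero => rfl
    | succ n ih =>
      show 2 * _ = _
      rw [ih, pow_succ]
      ring

/-- Bit `x` of the string of length `s` with number `c`. -/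
def bit (s c x : ℕ) : Bool := decide (c / 2 ^ (s - 1 - x) % 2 = 1)

theorem primrec_bit : Primrec (fun p : (ℕ × ℕ) × ℕ => bit p.1.1 p.1.2 p.2) := by
  unfold bit
  refine Primrec.eq.decide.comp (Primrec.nat_mod.comp (Primrec.nat_div.comp
    (Primrec.snd.comp Primrec.fst) (primrec_two_pow.comp (Primrec.nat_sub.comp
      (Primrec.pred.comp (Primrec.fst.comp Primrec.fst)) Primrec.snd))) (Primrec.const 2))
    (Primrec.const 1)

section

variable {j : ℕ} (Q : ℕ → List ℕ) (Φ : ℕ × List Bool → Bool)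

/-- The string satisfies the conditions that it decides. -/
def T (s c : ℕ) : Bool := (List.range s).all (fun i =>
  !((Q i).all (fun x => decide (x < s))) || Φ (i, (Q i).map (bit s c)))

/-- The leftmost string. -/
def lm (s : ℕ) : ℕ := bfind (2 ^ s) (fun c => T Q Φ s c)

theorem T_iff {s c : ℕ} : T Q Φ s c = true ↔
    ∀ i < s, (∀ x ∈ Q i, x < s) → Φ (i, (Q i).map (bit s c)) = true := by
  unfold T
  rw [List.all_eq_true]
  simp only [List.mem_range]
  refine forall_congr' fun i => imp_congr Iff.rfl ?_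
  rw [Bool.or_eq_true, Bool.not_eq_true']
  constructor
  · rintro (h | h) hx
    · have : (Q i).all (fun x => decide (x < s)) = true := by
        rw [List.all_eq_true]
        intro x hx'
        simpa using hx x hx'
      rw [this] at h
      exact absurd h (by simp)
    · exact h
  · intro h
    rcases hb : (Q i).all (fun x => decide (x < s)) with _ | _
    · exact Or.inl rfl
    · right
      apply h
      intro x hx
      have := List.all_eq_true.mp hb x hx
      simpa using this

theorem bit_half {s c x : ℕ} (hx : x < s) : bit s (c / 2) x = bit (s + 1) c x := by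
  unfold bit
  have h1 : s + 1 - 1 - x = (s - 1 - x) + 1 := by omega
  rw [h1, Nat.div_div_eq_div_mul, pow_succ, mul_comm 2]

theorem T_half {s c : ℕ} (h : T Q Φ (s + 1) c = true) : T Q Φ s (c / 2) = true := by
  rw [T_iff] at h ⊢
  intro i hi hx
  have h1 := h i (by omega) (fun x hx' => lt_trans (hx x hx') (Nat.lt_succ_self s))
  have h2 : (Q i).map (bit s (c / 2)) = (Q i).map (bit (s + 1) c) :=
    List.map_congr_left fun x hx' => bit_half (hx x hx')
  rw [h2]
  exact h1

/-- The number of an initial segment. -/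
def num0 (v : ℕ → Bool) (s : ℕ) : ℕ := Nat.rec 0 (fun x c => 2 * c + (v x).toNat) s

theorem num0_succ (v : ℕ → Bool) (s : ℕ) : num0 v (s + 1) = 2 * num0 v s + (v s).toNat := rfl

theorem num0_lt (v : ℕ → Bool) (s : ℕ) : num0 v s < 2 ^ s := by
  induction s with
  | zero => simp [num0]
  | succ s ih =>
    rw [num0_succ, pow_succ]
    have : (v s).toNat ≤ 1 := Bool.toNat_le _
    omega

theorem num0_div (v : ℕ → Bool) (x d : ℕ) : num0 v (x + d) / 2 ^ d = num0 v x := by
  induction d with
  | zero => simp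
  | succ d ih =>
    have h1 : num0 v (x + (d + 1)) = 2 * num0 v (x + d) + (v (x + d)).toNat := num0_succ v (x + d)
    have h2 : (2 * num0 v (x + d) + (v (x + d)).toNat) / 2 = num0 v (x + d) := by
      have : (v (x + d)).toNat ≤ 1 := Bool.toNat_le _
      omega
    rw [h1, pow_succ', ← Nat.div_div_eq_div_mul, h2, ih]

theorem bit_num0 (v : ℕ → Bool) {s x : ℕ} (hx : x < s) : bit s (num0 v s) x = v x := by
  unfold bit
  have h1 : s = (x + 1) + (s - 1 - x) := by omega
  have h2 : num0 v s / 2 ^ (s - 1 - x) = num0 v (x + 1) := by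
    conv_lhs => rw [h1]
    have h3 : x + 1 + (s - 1 - x) - 1 - x = s - 1 - x := by omega
    rw [h3]
    exact num0_div v (x + 1) (s - 1 - x)
  rw [h2, num0_succ]
  rcases v x with _ | _ <;> simp

variable (v0 : ℕ → Bool) (h0 : ∀ i, Φ (i, (Q i).map v0) = true)

include h0 in
theorem T_num0 (s : ℕ) : T Q Φ s (num0 v0 s) = true := by
  rw [T_iff]
  intro i hi hx
  have h2 : (Q i).map (bit s (num0 v0 s)) = (Q i).map v0 :=
    List.map_congr_left fun x hx' => bit_num0 v0 (hx x hx')
  rw [h2]
  exact h0 i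

include h0 in
theorem lm_spec (s : ℕ) : lm Q Φ s < 2 ^ s ∧ T Q Φ s (lm Q Φ s) = true := by
  have h1 : lm Q Φ s ≤ num0 v0 s := by
    by_contra hcon
    have h2 := bfind_min (n := 2 ^ s) (p := fun c => T Q Φ s c) (m := num0 v0 s) (by
      unfold lm at hcon
      omega)
    rw [T_num0 Q Φ v0 h0] at h2
    exact absurd h2 (by simp)
  have h2 : lm Q Φ s < 2 ^ s := lt_of_le_of_lt h1 (num0_lt v0 s)
  exact ⟨h2, bfind_spec h2⟩

include h0 in
theorem lm_mono (s : ℕ) : lm Q Φ s ≤ lm Q Φ (s + 1) / 2 := by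
  obtain ⟨h1, h2⟩ := lm_spec Q Φ v0 h0 (s + 1)
  have h3 := T_half Q Φ h2
  by_contra hcon
  have h4 := bfind_min (n := 2 ^ s) (p := fun c => T Q Φ s c) (m := lm Q Φ (s + 1) / 2) (by
    unfold lm at hcon ⊢
    omega)
  rw [h3] at h4
  exact absurd h4 (by simp)

/-- A bounded nondecreasing sequence is eventually constant. -/
theorem eventually_const (u : ℕ → ℕ) (B n0 : ℕ) (hm : ∀ n, n0 ≤ n → u n ≤ u (n + 1))
    (hb : ∀ n, n0 ≤ n → u n ≤ B) : ∃ c, ∀ᶠ n in atTop, u n = c := by
  by_contra hcon
  push Not at hcon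
  have hm' : ∀ n m, n0 ≤ n → n ≤ m → u n ≤ u m := by
    intro n m hn hnm
    induction m, hnm using Nat.le_induction with
    | base => exact le_refl _
    | succ m hm1 ih => exact le_trans ih (hm m (by omega))
  have key : ∀ k, ∃ n, n0 ≤ n ∧ k ≤ u n := by
    intro k
    induction k with
    | zero => exact ⟨n0, le_refl _, Nat.zero_le _⟩
    | succ k ih =>
      obtain ⟨n, hn, hk⟩ := ih
      have h1 := hcon (u n)
      obtain ⟨m, h2, h3⟩ := (h1.and_eventually (eventually_ge_atTop n)).exists
      have h4 := hm' n m hn h3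
      exact ⟨m, by omega, by omega⟩
  obtain ⟨n, hn, hk⟩ := key (B + 1)
  have := hb n hn
  omega

include h0 in
theorem lm_stable (x : ℕ) : ∃ b : Bool, ∀ᶠ s in atTop, bit s (lm Q Φ s) x = b := by
  obtain ⟨c, hc⟩ := eventually_const (fun s => lm Q Φ s / 2 ^ (s - 1 - x)) (2 ^ (x + 1)) (x + 1)
    (by
      intro s hs
      show lm Q Φ s / 2 ^ (s - 1 - x) ≤ lm Q Φ (s + 1) / 2 ^ (s + 1 - 1 - x)
      have h1 : s + 1 - 1 - x = (s - 1 - x) + 1 := by omega
      rw [h1, pow_succ, mul_comm, ← Nat.div_div_eq_div_mul]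
      exact Nat.div_le_div_right (lm_mono Q Φ v0 h0 s))
    (by
      intro s hs
      show lm Q Φ s / 2 ^ (s - 1 - x) ≤ 2 ^ (x + 1)
      have h1 := (lm_spec Q Φ v0 h0 s).1
      apply Nat.div_le_of_le_mul
      rw [← pow_add]
      have h2 : s - 1 - x + (x + 1) = s := by omega
      rw [h2]
      exact le_of_lt h1)
  refine ⟨decide (c % 2 = 1), ?_⟩
  filter_upwards [hc] with s hs
  unfold bit
  rw [hs]

end

theorem primrec_all_lt : Primrec (fun p : List ℕ × ℕ => p.1.all (fun x => decide (x < p.2))) := by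
  have h1 : Primrec (fun p : List ℕ × ℕ => p.1.foldr (fun x b => decide (x < p.2) && b) true) :=
    Primrec.list_foldr (h := fun (p : List ℕ × ℕ) (q : ℕ × Bool) => decide (q.1 < p.2) && q.2)
      Primrec.fst (Primrec.const true)
      (Primrec.and.comp (Primrec.nat_lt.decide.comp (Primrec.fst.comp Primrec.snd)
        (Primrec.snd.comp Primrec.fst)) (Primrec.snd.comp Primrec.snd)).to₂
  refine h1.of_eq fun p => ?_
  obtain ⟨l, s⟩ := p
  induction l with
  | nil => rfl
  | cons a l ih =>
    show (decide (a < s) && List.foldr (fun x b => decide (x < s) && b) true l) = _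
    have ih' : List.foldr (fun x b => decide (x < s) && b) true l =
      l.all (fun x => decide (x < s)) := ih
    rw [ih']
    rfl

/-- The leftmost path. -/
theorem leftmost {j : ℕ} (Q : ℕ → List ℕ) (Φ : ℕ × List Bool → Bool) (hQ : InF j Q)
    (hΦ : InF j Φ) (v0 : ℕ → Bool) (h0 : ∀ i, Φ (i, (Q i).map v0) = true) :
    ∃ v : ℕ → Bool, InF (j + 1) v ∧ ∀ i, Φ (i, (Q i).map v) = true := by
  have hT : InF j (fun p : ℕ × ℕ => T Q Φ p.1 p.2) := by
    refine InF.listAll (l := fun p : ℕ × ℕ => List.range p.1)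
      (f := fun q => !((Q q.2).all (fun x => decide (x < q.1.1))) ||
        Φ (q.2, (Q q.2).map (bit q.1.1 q.1.2)))
      (InF.of_primrec (Primrec.list_range.comp Primrec.fst)) ?_
    refine InF.or (f := fun q : (ℕ × ℕ) × ℕ => !((Q q.2).all (fun x => decide (x < q.1.1))))
      (InF.not ?_) ?_
    · exact InF.comp (g := fun q : (ℕ × ℕ) × ℕ => (Q q.2, q.1.1)) (InF.of_primrec primrec_all_lt)
        ((hQ.comp InF.snd).pair (InF.fst.comp InF.fst))
    · refine hΦ.comp (g := fun q : (ℕ × ℕ) × ℕ => (q.2, (Q q.2).map (bit q.1.1 q.1.2)))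
        (InF.snd.pair ?_)
      refine InF.listMap (l := fun q : (ℕ × ℕ) × ℕ => Q q.2)
        (f := fun r => bit r.1.1.1 r.1.1.2 r.2) (hQ.comp InF.snd) (InF.of_primrec ?_)
      exact primrec_bit.comp (Primrec.pair (Primrec.fst.comp Primrec.fst) Primrec.snd)
  have hlm : InF j (lm Q Φ) := by
    refine InF.bfind (n := fun s => 2 ^ s) (f := fun p : ℕ × ℕ => T Q Φ p.1 p.2)
      (InF.of_primrec primrec_two_pow) hT
  choose v hv using lm_stable Q Φ v0 h0
  refine ⟨v, ⟨fun p => bit p.2 (lm Q Φ p.2) p.1, ?_, hv⟩, ?_⟩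
  · exact InF.comp (g := fun p : ℕ × ℕ => ((p.2, lm Q Φ p.2), p.1)) (InF.of_primrec primrec_bit)
      ((InF.snd.pair (hlm.comp InF.snd)).pair InF.fst)
  · intro i
    have h1 : ∀ᶠ s in atTop, ∀ x ∈ Q i, bit s (lm Q Φ s) x = v x := by
      generalize Q i = L
      induction L with
      | nil => simp
      | cons a L ih =>
        filter_upwards [hv a, ih] with s h1 h2
        intro x hx
        rcases List.mem_cons.mp hx with rfl | hx
        · exact h1
        · exact h2 x hx
    have h2 : ∀ᶠ s in atTop, ∀ x ∈ Q i, x < s := by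
      generalize Q i = L
      induction L with
      | nil => simp
      | cons a L ih =>
        filter_upwards [eventually_gt_atTop a, ih] with s h1 h2
        intro x hx
        rcases List.mem_cons.mp hx with rfl | hx
        · exact h1
        · exact h2 x hx
    obtain ⟨s, h3, h4, h5⟩ := (h1.and (h2.and (eventually_gt_atTop i))).exists
    have h6 := (T_iff Q Φ).mp (lm_spec Q Φ v0 h0 s).2 i h5 h4
    have h7 : (Q i).map v = (Q i).map (bit s (lm Q Φ s)) :=
      List.map_congr_left fun x hx => (h3 x hx).symm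
    rw [h7]
    exact h6

end Pool.Agent.Arith67.Leftmost
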