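import Pool.Agent.Arith67.Eval
import Pool.Agent.Arith67.Leftmost

/-!
The class of complete theories with witnesses.
-/

namespace Pool.Agent.Arith67

open FirstOrder FirstOrder.Language Filter Encodable

section bu

variable {α β : Type} [Primcodable α] [Primcodable β] {j : ℕ}

/-- Bounded use of an oracle. -/
def BU (j : ℕ) (t : (ℕ → Bool) → α → Bool) : Prop :=
  ∃ (Q : α → List ℕ) (Φ : α × List Bool → Bool), InF j Q ∧ InF j Φ ∧
    ∀ w x, t w x = Φ (x, (Q x).map w)

theorem BU.atom {q : α → ℕ} (hq : InF j q) : BU j (fun w x => w (q x)) := by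
  refine ⟨fun x => [q x], fun p => p.2.getD 0 false, ?_, ?_, fun w x => rfl⟩
  · exact InF.prim₂ Primrec.list_cons hq (InF.const [])
  · exact InF.of_primrec ((Primrec.list_getD false).comp Primrec.snd (Primrec.const 0))

theorem BU.const {f : α → Bool} (hf : InF j f) : BU j (fun _ x => f x) :=
  ⟨fun _ => [], fun p => f p.1, InF.const _, hf.comp InF.fst, fun _ _ => rfl⟩

theorem BU.op2 (op : Bool → Bool → Bool) {t u : (ℕ → Bool) → α → Bool} (ht : BU j t)
    (hu : BU j u) : BU j (fun w x => op (t w x) (u w x)) := by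
  obtain ⟨Q, Φ, hQ, hΦ, h⟩ := ht
  obtain ⟨Q', Φ', hQ', hΦ', h'⟩ := hu
  refine ⟨fun x => Q x ++ Q' x, fun p => op (Φ (p.1, p.2.take (Q p.1).length))
    (Φ' (p.1, p.2.drop (Q p.1).length)), InF.prim₂ Primrec.list_append hQ hQ', ?_, ?_⟩
  · have hop : Primrec₂ op := Primrec.dom_finite _
    have hlen : InF j (fun p : α × List Bool => (Q p.1).length) :=
      InF.comp (InF.of_primrec Primrec.list_length) (hQ.comp InF.fst)
    refine InF.prim₂ hop ?_ ?_
    · exact hΦ.comp (g := fun p : α × List Bool => (p.1, p.2.take (Q p.1).length))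
        (InF.fst.pair (InF.prim₂ Primrec.list_take hlen InF.snd))
    · exact hΦ'.comp (g := fun p : α × List Bool => (p.1, p.2.drop (Q p.1).length))
        (InF.fst.pair (InF.prim₂ Primrec.list_drop hlen InF.snd))
  · intro w x
    show op (t w x) (u w x) = op (Φ (x, ((Q x ++ Q' x).map w).take (Q x).length))
      (Φ' (x, ((Q x ++ Q' x).map w).drop (Q x).length))
    rw [List.map_append, List.take_left' (by simp), List.drop_left' (by simp), h, h']

theorem BU.not {t : (ℕ → Bool) → α → Bool} (ht : BU j t) : BU j (fun w x => !(t w x)) :=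
  BU.op2 (fun a _ => !a) ht ht

theorem BU.or {t u : (ℕ → Bool) → α → Bool} (ht : BU j t) (hu : BU j u) :
    BU j (fun w x => t w x || u w x) := BU.op2 (fun a b => a || b) ht hu

theorem BU.and {t u : (ℕ → Bool) → α → Bool} (ht : BU j t) (hu : BU j u) :
    BU j (fun w x => t w x && u w x) := BU.op2 (fun a b => a && b) ht hu

theorem BU.beq {t u : (ℕ → Bool) → α → Bool} (ht : BU j t) (hu : BU j u) :
    BU j (fun w x => t w x == u w x) := BU.op2 (fun a b => a == b) ht hu

/-- A closed class. -/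
def Closed (j : ℕ) (C : (ℕ → Bool) → Prop) : Prop :=
  ∃ (Q : ℕ → List ℕ) (Φ : ℕ × List Bool → Bool), InF j Q ∧ InF j Φ ∧
    ∀ w, C w ↔ ∀ i, Φ (i, (Q i).map w) = true

theorem Closed.of_iff {C D : (ℕ → Bool) → Prop} (h : Closed j C) (hCD : ∀ w, C w ↔ D w) :
    Closed j D := by
  obtain ⟨Q, Φ, hQ, hΦ, hC⟩ := h
  exact ⟨Q, Φ, hQ, hΦ, fun w => (hCD w).symm.trans (hC w)⟩

theorem closed_of_BU [Inhabited α] {t : (ℕ → Bool) → α → Bool} (ht : BU j t) :
    Closed j (fun w => ∀ x, t w x = true) := by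
  obtain ⟨Q, Φ, hQ, hΦ, h⟩ := ht
  have hd : InF j (fun i : ℕ => ((decode i : Option α).getD default)) :=
    InF.of_primrec (Primrec.option_getD.comp Primrec.decode (Primrec.const default))
  refine ⟨fun i => Q ((decode i : Option α).getD default),
    fun p => Φ ((decode p.1 : Option α).getD default, p.2), hQ.comp hd,
    hΦ.comp ((hd.comp InF.fst).pair InF.snd), fun w => ?_⟩
  constructor
  · intro h1 i
    show Φ (_, _) = true
    rw [← h]
    exact h1 _
  · intro h1 x
    have h2 := h1 (encode x)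
    simp only [encodek, Option.getD_some] at h2
    rw [h]
    exact h2

theorem Closed.and {C D : (ℕ → Bool) → Prop} (hC : Closed j C) (hD : Closed j D) :
    Closed j (fun w => C w ∧ D w) := by
  obtain ⟨Q, Φ, hQ, hΦ, h⟩ := hC
  obtain ⟨Q', Φ', hQ', hΦ', h'⟩ := hD
  have h2 : InF j (fun i : ℕ => i / 2) :=
    InF.of_primrec (Primrec.nat_div.comp Primrec.id (Primrec.const 2))
  have hm : InF j (fun i : ℕ => (i % 2 == 0)) :=
    InF.of_primrec (Primrec.beq.comp (Primrec.nat_mod.comp Primrec.id (Primrec.const 2))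
      (Primrec.const 0))
  refine ⟨fun i => bif (i % 2 == 0) then Q (i / 2) else Q' (i / 2),
    fun p => bif (p.1 % 2 == 0) then Φ (p.1 / 2, p.2) else Φ' (p.1 / 2, p.2),
    InF.cond hm (hQ.comp h2) (hQ'.comp h2),
    InF.cond (hm.comp InF.fst) (hΦ.comp ((h2.comp InF.fst).pair InF.snd))
      (hΦ'.comp ((h2.comp InF.fst).pair InF.snd)), fun w => ?_⟩
  show C w ∧ D w ↔ _
  rw [h, h']
  constructor
  · rintro ⟨h3, h4⟩ i
    rcases hi : (i % 2 == 0) with _ | _
    · simp only [hi, cond_false]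
      exact h4 _
    · simp only [hi, cond_true]
      exact h3 _
  · intro h3
    constructor
    · intro i
      have h4 := h3 (2 * i)
      have h5 : (2 * i % 2 == 0) = true := by simp
      have h6 : 2 * i / 2 = i := by omega
      simp only [h5, cond_true, h6] at h4
      exact h4
    · intro i
      have h4 := h3 (2 * i + 1)
      have h5 : ((2 * i + 1) % 2 == 0) = false := by
        have : (2 * i + 1) % 2 = 1 := by omega
        rw [this]; rfl
      have h6 : (2 * i + 1) / 2 = i := by omega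
      simp only [h5, cond_false, h6] at h4
      exact h4

theorem Closed.leftmost {C : (ℕ → Bool) → Prop} (hC : Closed j C) (h : ∃ w, C w) :
    ∃ w, InF (j + 1) w ∧ C w := by
  obtain ⟨Q, Φ, hQ, hΦ, hC⟩ := hC
  obtain ⟨w0, hw0⟩ := h
  obtain ⟨w, hw, hw'⟩ := Leftmost.leftmost Q Φ hQ hΦ w0 ((hC w0).mp hw0)
  exact ⟨w, hw, (hC w).mpr hw'⟩

end bu

/-! ### Constants -/

def w1 : ℕ := Nat.pair 1 0
def ws (c : ℕ) : ℕ := Nat.pair 2 c
def wa (c d : ℕ) : ℕ := Nat.pair 3 (Nat.pair c d)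
def wm (c d : ℕ) : ℕ := Nat.pair 4 (Nat.pair c d)
def wh (a : ℕ) (l : List ℕ) : ℕ := Nat.pair 5 (Nat.pair a (encode l))
def wi (a : ℕ) (l : List ℕ) : ℕ := Nat.pair 6 (Nat.pair a (encode l))
def wp (a : ℕ) (l : List ℕ) : ℕ := Nat.pair 7 (Nat.pair a (encode l))
def nm (k : ℕ) : ℕ := Nat.rec 0 (fun _ x => ws x) k

/-- Equality of constants. -/
def EQ (V : ℕ → List ℕ → Bool) (c d : ℕ) : Bool := V (eqC 0 1) [c, d]

/-- The position of the bound. -/
def bix (k i : ℕ) : ℕ := bif decide (i < k) then i else k + 1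

theorem primrec_bix : Primrec₂ bix :=
  Primrec.cond (Primrec.nat_lt.decide.comp Primrec.snd Primrec.fst) Primrec.snd
    (Primrec.succ.comp Primrec.fst)

/-- The conditions. -/
structure Gd (n : ℕ) (ax : List ℕ) (V : ℕ → List ℕ → Bool) : Prop where
  fal : ∀ l, V 0 l = false
  imp : ∀ a b l, V (impC a b) l = (!(V a l) || V b l)
  all : ∀ a l d, V (allC a) l = true → V a (l ++ [d]) = true
  wit : ∀ a l, V (allC a) l = false → V a (l ++ [wh a l]) = false
  ball : ∀ i a l, V (ballC i a) l = V (allC (impC (ltC l.length (bix l.length i)) a)) l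
  eq : ∀ i j l, V (eqC i j) l = V (eqC 0 1) [l.getD i 0, l.getD j 0]
  lt : ∀ i j l, V (ltC i j) l = V (ltC 0 1) [l.getD i 0, l.getD j 0]
  z : ∀ a l, V (zC a) l = V a (l ++ [0])
  s : ∀ i a l, V (sC i a) l = V a (l ++ [ws (l.getD i 0)])
  add : ∀ i j a l, V (addC i j a) l = V a (l ++ [wa (l.getD i 0) (l.getD j 0)])
  mul : ∀ i j a l, V (mulC i j a) l = V a (l ++ [wm (l.getD i 0) (l.getD j 0)])
  refl : ∀ c, EQ V c c = true
  cong : ∀ c d a l l', EQ V c d = true → V a (l ++ c :: l') = V a (l ++ d :: l')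
  axm : ∀ c ∈ ax, V c [] = true
  ind : ∀ a l d, V a (l ++ [d]) = false → V a (l ++ [wi a l]) = false ∧
    (EQ V (wi a l) 0 = true ∨ (EQ V (wi a l) (ws (wp a l)) = true ∧ V a (l ++ [wp a l]) = true))
  nonst : ∀ k, EQ V w1 (nm k) = false
  dist : ∀ i j, i ≠ j → EQ V (nm i) (nm j) = false
  tru : ∀ ms a, TT n ((ms, a), []) = true → V (cd n ms a) [] = true

/-- The truth values as a function of pairs. -/
def Vw (w : ℕ → Bool) (a : ℕ) (l : List ℕ) : Bool := w (encode (a, l))

section closed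

variable {α : Type} [Primcodable α] {j : ℕ}

theorem BU.V {a : α → ℕ} {l : α → List ℕ} (ha : Primrec a) (hl : Primrec l) :
    BU j (fun w x => Vw w (a x) (l x)) :=
  BU.atom (q := fun x => encode (a x, l x)) (InF.of_primrec (Primrec.encode.comp (ha.pair hl)))

theorem primrec_mk (t : ℕ) {d : α → ℕ} (hd : Primrec d) : Primrec (fun x => mk t (d x)) :=
  Primrec.nat_add.comp (Primrec.nat_add.comp (Primrec.nat_mul.comp (Primrec.const 9) hd)
    (Primrec.const t)) (Primrec.const 1)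

theorem primrec_pair' {a b : α → ℕ} (ha : Primrec a) (hb : Primrec b) :
    Primrec (fun x => Nat.pair (a x) (b x)) := Primrec₂.natPair.comp ha hb

theorem primrec_sing {b : α → ℕ} (hb : Primrec b) : Primrec (fun x => [b x]) :=
  Primrec.list_cons.comp hb (Primrec.const [])

theorem primrec_snoc {l : α → List ℕ} {b : α → ℕ} (hl : Primrec l) (hb : Primrec b) :
    Primrec (fun x => l x ++ [b x]) := Primrec.list_append.comp hl (primrec_sing hb)

theorem primrec_two {a b : α → ℕ} (ha : Primrec a) (hb : Primrec b) :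
    Primrec (fun x => [a x, b x]) := Primrec.list_cons.comp ha (primrec_sing hb)

theorem primrec_gd {l : α → List ℕ} {i : α → ℕ} (hl : Primrec l) (hi : Primrec i) :
    Primrec (fun x => (l x).getD (i x) 0) := (Primrec.list_getD 0).comp hl hi

theorem primrec_w (t : ℕ) {a : α → ℕ} {l : α → List ℕ} (ha : Primrec a) (hl : Primrec l) :
    Primrec (fun x => Nat.pair t (Nat.pair (a x) (encode (l x)))) :=
  primrec_pair' (Primrec.const t) (primrec_pair' ha (Primrec.encode.comp hl))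

theorem primrec_nm : Primrec nm :=
  Primrec.nat_rec₁ (f := fun _ y => ws y) 0
    ((primrec_pair' (Primrec.const 2) Primrec.snd).to₂)

theorem BU.EQ {c d : α → ℕ} (hc : Primrec c) (hd : Primrec d) :
    BU j (fun w x => Arith67.EQ (Vw w) (c x) (d x)) :=
  BU.V (Primrec.const _) (primrec_two hc hd)

theorem closed_gd (n : ℕ) (ax : List ℕ) : Closed n (fun w => Gd n ax (Vw w)) := by
  have f1 : Primrec (Prod.fst : (ℕ × ℕ) × List ℕ → ℕ × ℕ) := Primrec.fst
  -- projections of ((a, b), l)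
  have pa : Primrec (fun x : (ℕ × ℕ) × List ℕ => x.1.1) := Primrec.fst.comp Primrec.fst
  have pb : Primrec (fun x : (ℕ × ℕ) × List ℕ => x.1.2) := Primrec.snd.comp Primrec.fst
  have pl : Primrec (fun x : (ℕ × ℕ) × List ℕ => x.2) := Primrec.snd
  -- projections of (((i, j), a), l)
  have qi : Primrec (fun x : ((ℕ × ℕ) × ℕ) × List ℕ => x.1.1.1) :=
    Primrec.fst.comp (Primrec.fst.comp Primrec.fst)
  have qj : Primrec (fun x : ((ℕ × ℕ) × ℕ) × List ℕ => x.1.1.2) :=
    Primrec.snd.comp (Primrec.fst.comp Primrec.fst)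
  have qa : Primrec (fun x : ((ℕ × ℕ) × ℕ) × List ℕ => x.1.2) := Primrec.snd.comp Primrec.fst
  have ql : Primrec (fun x : ((ℕ × ℕ) × ℕ) × List ℕ => x.2) := Primrec.snd
  have c1 : Closed n (fun w => ∀ x : List ℕ, (!(Vw w 0 x)) = true) :=
    closed_of_BU (BU.not (BU.V (Primrec.const 0) Primrec.id))
  have c2 : Closed n (fun w => ∀ x : (ℕ × ℕ) × List ℕ,
      (Vw w (impC x.1.1 x.1.2) x.2 == (!(Vw w x.1.1 x.2) || Vw w x.1.2 x.2)) = true) :=
    closed_of_BU (BU.beq (BU.V (primrec_mk 2 (primrec_pair' pa pb)) pl)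
      (BU.or (BU.not (BU.V pa pl)) (BU.V pb pl)))
  have c3 : Closed n (fun w => ∀ x : (ℕ × ℕ) × List ℕ,
      (!(Vw w (allC x.1.1) x.2) || Vw w x.1.1 (x.2 ++ [x.1.2])) = true) :=
    closed_of_BU (BU.or (BU.not (BU.V (primrec_mk 3 pa) pl)) (BU.V pa (primrec_snoc pl pb)))
  have c4 : Closed n (fun w => ∀ x : (ℕ × ℕ) × List ℕ,
      (Vw w (allC x.1.1) x.2 || !(Vw w x.1.1 (x.2 ++ [wh x.1.1 x.2]))) = true) :=
    closed_of_BU (BU.or (BU.V (primrec_mk 3 pa) pl) (BU.not (BU.V pa
      (primrec_snoc pl (primrec_w 5 pa pl)))))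
  have c5 : Closed n (fun w => ∀ x : (ℕ × ℕ) × List ℕ,
      (Vw w (ballC x.1.1 x.1.2) x.2 ==
        Vw w (allC (impC (ltC x.2.length (bix x.2.length x.1.1)) x.1.2)) x.2) = true) :=
    closed_of_BU (BU.beq (BU.V (primrec_mk 4 (primrec_pair' pa pb)) pl)
      (BU.V (primrec_mk 3 (primrec_mk 2 (primrec_pair' (primrec_mk 1 (primrec_pair'
        (Primrec.list_length.comp pl) (primrec_bix.comp (Primrec.list_length.comp pl) pa)))
          pb))) pl))
  have c6 : Closed n (fun w => ∀ x : (ℕ × ℕ) × List ℕ,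
      (Vw w (eqC x.1.1 x.1.2) x.2 ==
        Vw w (eqC 0 1) [x.2.getD x.1.1 0, x.2.getD x.1.2 0]) = true) :=
    closed_of_BU (BU.beq (BU.V (primrec_mk 0 (primrec_pair' pa pb)) pl)
      (BU.V (Primrec.const _) (primrec_two (primrec_gd pl pa) (primrec_gd pl pb))))
  have c7 : Closed n (fun w => ∀ x : (ℕ × ℕ) × List ℕ,
      (Vw w (ltC x.1.1 x.1.2) x.2 ==
        Vw w (ltC 0 1) [x.2.getD x.1.1 0, x.2.getD x.1.2 0]) = true) :=
    closed_of_BU (BU.beq (BU.V (primrec_mk 1 (primrec_pair' pa pb)) pl)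
      (BU.V (Primrec.const _) (primrec_two (primrec_gd pl pa) (primrec_gd pl pb))))
  have c8 : Closed n (fun w => ∀ x : (ℕ × ℕ) × List ℕ,
      (Vw w (zC x.1.1) x.2 == Vw w x.1.1 (x.2 ++ [0])) = true) :=
    closed_of_BU (BU.beq (BU.V (primrec_mk 5 pa) pl)
      (BU.V pa (primrec_snoc pl (Primrec.const 0))))
  have c9 : Closed n (fun w => ∀ x : (ℕ × ℕ) × List ℕ,
      (Vw w (sC x.1.1 x.1.2) x.2 == Vw w x.1.2 (x.2 ++ [ws (x.2.getD x.1.1 0)])) = true) :=
    closed_of_BU (BU.beq (BU.V (primrec_mk 6 (primrec_pair' pa pb)) pl)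
      (BU.V pb (primrec_snoc pl (primrec_pair' (Primrec.const 2) (primrec_gd pl pa)))))
  have c10 : Closed n (fun w => ∀ x : ((ℕ × ℕ) × ℕ) × List ℕ,
      (Vw w (addC x.1.1.1 x.1.1.2 x.1.2) x.2 ==
        Vw w x.1.2 (x.2 ++ [wa (x.2.getD x.1.1.1 0) (x.2.getD x.1.1.2 0)])) = true) :=
    closed_of_BU (BU.beq (BU.V (primrec_mk 7 (primrec_pair' qi (primrec_pair' qj qa))) ql)
      (BU.V qa (primrec_snoc ql (primrec_pair' (Primrec.const 3)
        (primrec_pair' (primrec_gd ql qi) (primrec_gd ql qj))))))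
  have c11 : Closed n (fun w => ∀ x : ((ℕ × ℕ) × ℕ) × List ℕ,
      (Vw w (mulC x.1.1.1 x.1.1.2 x.1.2) x.2 ==
        Vw w x.1.2 (x.2 ++ [wm (x.2.getD x.1.1.1 0) (x.2.getD x.1.1.2 0)])) = true) :=
    closed_of_BU (BU.beq (BU.V (primrec_mk 8 (primrec_pair' qi (primrec_pair' qj qa))) ql)
      (BU.V qa (primrec_snoc ql (primrec_pair' (Primrec.const 4)
        (primrec_pair' (primrec_gd ql qi) (primrec_gd ql qj))))))
  have c12 : Closed n (fun w => ∀ x : ℕ, (Arith67.EQ (Vw w) x x) = true) :=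
    closed_of_BU (BU.EQ Primrec.id Primrec.id)
  have c13 : Closed n (fun w => ∀ x : ((ℕ × ℕ) × ℕ) × (List ℕ × List ℕ),
      (!(Arith67.EQ (Vw w) x.1.1.1 x.1.1.2) || (Vw w x.1.2 (x.2.1 ++ x.1.1.1 :: x.2.2) ==
        Vw w x.1.2 (x.2.1 ++ x.1.1.2 :: x.2.2))) = true) := by
    have r1 : Primrec (fun x : ((ℕ × ℕ) × ℕ) × (List ℕ × List ℕ) => x.1.1.1) :=
      Primrec.fst.comp (Primrec.fst.comp Primrec.fst)
    have r2 : Primrec (fun x : ((ℕ × ℕ) × ℕ) × (List ℕ × List ℕ) => x.1.1.2) :=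
      Primrec.snd.comp (Primrec.fst.comp Primrec.fst)
    have r3 : Primrec (fun x : ((ℕ × ℕ) × ℕ) × (List ℕ × List ℕ) => x.1.2) :=
      Primrec.snd.comp Primrec.fst
    have r4 : Primrec (fun x : ((ℕ × ℕ) × ℕ) × (List ℕ × List ℕ) => x.2.1) :=
      Primrec.fst.comp Primrec.snd
    have r5 : Primrec (fun x : ((ℕ × ℕ) × ℕ) × (List ℕ × List ℕ) => x.2.2) :=
      Primrec.snd.comp Primrec.snd
    exact closed_of_BU (BU.or (BU.not (BU.EQ r1 r2)) (BU.beq
      (BU.V r3 (Primrec.list_append.comp r4 (Primrec.list_cons.comp r1 r5)))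
      (BU.V r3 (Primrec.list_append.comp r4 (Primrec.list_cons.comp r2 r5)))))
  have c14 : Closed n (fun w => ∀ x : ℕ, (!(decide (x < ax.length)) ||
      Vw w (ax.getD x 0) []) = true) :=
    closed_of_BU (BU.or (BU.not (BU.const (InF.of_primrec (Primrec.nat_lt.decide.comp
      Primrec.id (Primrec.const _))))) (BU.V ((Primrec.list_getD 0).comp (Primrec.const ax)
        Primrec.id) (Primrec.const [])))
  have c15 : Closed n (fun w => ∀ x : (ℕ × ℕ) × List ℕ,
      (Vw w x.1.1 (x.2 ++ [x.1.2]) || (!(Vw w x.1.1 (x.2 ++ [wi x.1.1 x.2])) &&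
        (Arith67.EQ (Vw w) (wi x.1.1 x.2) 0 ||
          (Arith67.EQ (Vw w) (wi x.1.1 x.2) (ws (wp x.1.1 x.2)) &&
            Vw w x.1.1 (x.2 ++ [wp x.1.1 x.2]))))) = true) :=
    closed_of_BU (BU.or (BU.V pa (primrec_snoc pl pb)) (BU.and
      (BU.not (BU.V pa (primrec_snoc pl (primrec_w 6 pa pl))))
      (BU.or (BU.EQ (primrec_w 6 pa pl) (Primrec.const 0))
        (BU.and (BU.EQ (primrec_w 6 pa pl) (primrec_pair' (Primrec.const 2) (primrec_w 7 pa pl)))
          (BU.V pa (primrec_snoc pl (primrec_w 7 pa pl)))))))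
  have c16 : Closed n (fun w => ∀ x : ℕ, (!(Arith67.EQ (Vw w) w1 (nm x))) = true) :=
    closed_of_BU (BU.not (BU.EQ (Primrec.const _) primrec_nm))
  have c17 : Closed n (fun w => ∀ x : ℕ × ℕ,
      ((x.1 == x.2) || !(Arith67.EQ (Vw w) (nm x.1) (nm x.2))) = true) :=
    closed_of_BU (BU.or (BU.const (InF.of_primrec (Primrec.beq.comp Primrec.fst Primrec.snd)))
      (BU.not (BU.EQ (primrec_nm.comp Primrec.fst) (primrec_nm.comp Primrec.snd))))
  have c18 : Closed n (fun w => ∀ x : List ℕ × ℕ,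
      (!(TT n (x, [])) || Vw w (cd n x.1 x.2) []) = true) :=
    closed_of_BU (BU.or (BU.not (BU.const ((inF_TT n).comp (g := fun x : List ℕ × ℕ =>
      (x, ([] : List ℕ))) (InF.id.pair (InF.const _)))))
      (BU.V (primrec_cd n) (Primrec.const [])))
  refine (c1.and (c2.and (c3.and (c4.and (c5.and (c6.and (c7.and (c8.and (c9.and (c10.and
    (c11.and (c12.and (c13.and (c14.and (c15.and (c16.and (c17.and
      c18))))))))))))))))).of_iff fun w => ?_
  constructor
  · rintro ⟨h1, h2, h3, h4, h5, h6, h7, h8, h9, h10, h11, h12, h13, h14, h15, h16, h17, h18⟩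
    refine ⟨?_, ?_, ?_, ?_, ?_, ?_, ?_, ?_, ?_, ?_, ?_, ?_, ?_, ?_, ?_, ?_, ?_, ?_⟩
    · intro l; simpa using h1 l
    · intro a b l; simpa using h2 ((a, b), l)
    · intro a l d h
      have := h3 ((a, d), l)
      rw [h] at this
      simpa using this
    · intro a l h
      have := h4 ((a, 0), l)
      rw [h] at this
      simpa using this
    · intro i a l; simpa using h5 ((i, a), l)
    · intro i j l
      have := h6 ((i, j), l)
      exact beq_iff_eq.mp this
    · intro i j l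
      have := h7 ((i, j), l)
      exact beq_iff_eq.mp this
    · intro a l
      exact beq_iff_eq.mp (h8 ((a, 0), l))
    · intro i a l
      exact beq_iff_eq.mp (h9 ((i, a), l))
    · intro i j a l
      exact beq_iff_eq.mp (h10 (((i, j), a), l))
    · intro i j a l
      exact beq_iff_eq.mp (h11 (((i, j), a), l))
    · exact h12
    · intro c d a l l' h
      have := h13 (((c, d), a), (l, l'))
      rw [h] at this
      simpa using this
    · intro c hc
      obtain ⟨i, hi, rfl⟩ := List.getElem_of_mem hc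
      have := h14 i
      rw [List.getD_eq_getElem _ _ hi] at this
      simpa [hi] using this
    · intro a l d h
      have := h15 ((a, d), l)
      rw [h] at this
      simpa using this
    · intro k; simpa using h16 k
    · intro i j hij
      have := h17 (i, j)
      simpa [hij] using this
    · intro ms a h
      have := h18 (ms, a)
      rw [h] at this
      simpa using this
  · intro h
    refine ⟨?_, ?_, ?_, ?_, ?_, ?_, ?_, ?_, ?_, ?_, ?_, ?_, ?_, ?_, ?_, ?_, ?_, ?_⟩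
    · intro l; simpa using h.fal l
    · rintro ⟨⟨a, b⟩, l⟩; simpa using h.imp a b l
    · rintro ⟨⟨a, d⟩, l⟩
      have := h.all a l d
      show (!(Vw w (allC a) l) || Vw w a (l ++ [d])) = true
      rcases hb : Vw w (allC a) l with _ | _
      · rfl
      · rw [this hb]; rfl
    · rintro ⟨⟨a, d⟩, l⟩
      have := h.wit a l
      show (Vw w (allC a) l || !(Vw w a (l ++ [wh a l]))) = true
      rcases hb : Vw w (allC a) l with _ | _
      · rw [this hb]; rfl
      · rfl
    · rintro ⟨⟨a, b⟩, l⟩; exact beq_iff_eq.mpr (h.ball a b l)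
    · rintro ⟨⟨a, b⟩, l⟩; exact beq_iff_eq.mpr (h.eq a b l)
    · rintro ⟨⟨a, b⟩, l⟩; exact beq_iff_eq.mpr (h.lt a b l)
    · rintro ⟨⟨a, b⟩, l⟩; exact beq_iff_eq.mpr (h.z a l)
    · rintro ⟨⟨a, b⟩, l⟩; exact beq_iff_eq.mpr (h.s a b l)
    · rintro ⟨⟨⟨i, j⟩, a⟩, l⟩; exact beq_iff_eq.mpr (h.add i j a l)
    · rintro ⟨⟨⟨i, j⟩, a⟩, l⟩; exact beq_iff_eq.mpr (h.mul i j a l)
    · exact h.refl
    · rintro ⟨⟨⟨c, d⟩, a⟩, ⟨l, l'⟩⟩
      show (!(Arith67.EQ (Vw w) c d) || (Vw w a (l ++ c :: l') == Vw w a (l ++ d :: l'))) = true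
      rcases hb : Arith67.EQ (Vw w) c d with _ | _
      · rfl
      · rw [h.cong c d a l l' hb]
        simp
    · intro i
      by_cases hi : i < ax.length
      · rw [List.getD_eq_getElem _ _ hi, h.axm _ (List.getElem_mem hi)]
        simp
      · simp [hi]
    · rintro ⟨⟨a, d⟩, l⟩
      show (Vw w a (l ++ [d]) || (!(Vw w a (l ++ [wi a l])) &&
        (Arith67.EQ (Vw w) (wi a l) 0 ||
          (Arith67.EQ (Vw w) (wi a l) (ws (wp a l)) && Vw w a (l ++ [wp a l]))))) = true
      rcases hb : Vw w a (l ++ [d]) with _ | _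
      · obtain ⟨h1, h2⟩ := h.ind a l d hb
        rw [h1]
        rcases h2 with h2 | ⟨h2, h3⟩
        · rw [h2]; rfl
        · rw [h2, h3]; simp
      · rfl
    · intro k; rw [h.nonst k]; rfl
    · rintro ⟨i, j⟩
      show ((i == j) || !(Arith67.EQ (Vw w) (nm i) (nm j))) = true
      by_cases hij : i = j
      · simp [hij]
      · rw [h.dist i j hij]; simp
    · rintro ⟨ms, a⟩
      show (!(TT n ((ms, a), [])) || Vw w (cd n ms a) []) = true
      rcases hb : TT n ((ms, a), []) with _ | _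
      · rfl
      · rw [h.tru ms a hb]; rfl

end closed

end Pool.Agent.Arith67
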