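import Pool.Agent.Arith67.PAModel

/-!
A definable pairing bijection in models of Peano arithmetic.
-/

namespace Pool.Agent.Arith67

open FirstOrder FirstOrder.Language

section model

variable {M : Type} [LPA.Structure M] (h : M ⊨ PA)

/-- The semiring structure of a model of Peano arithmetic. -/
@[instance_reducible] noncomputable def csr (h : M ⊨ PA) : CommSemiring M :=
  letI : Zero M := ⟨Z M⟩
  letI : One M := ⟨Sc (Z M)⟩
  letI : Add M := ⟨Ad⟩
  letI : Mul M := ⟨Mu⟩
{
  add_assoc := Ad_assoc h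
  zero_add := Z_Ad h
  add_zero := Ad_Z h
  add_comm := Ad_comm h
  nsmul := nsmulRec
  left_distrib := Mu_Ad h
  right_distrib := fun a b c => by
    show Mu (Ad a b) c = Ad (Mu a c) (Mu b c)
    rw [Mu_comm h, Mu_Ad h, Mu_comm h c a, Mu_comm h c b]
  zero_mul := Z_Mu h
  mul_zero := Mu_Z h
  mul_assoc := Mu_assoc h
  one_mul := fun a => by
    show Mu (Sc (Z M)) a = a
    rw [Sc_Mu h, Z_Mu h, Z_Ad h]
  mul_one := fun a => by
    show Mu a (Sc (Z M)) = a
    rw [Mu_Sc h, Mu_Z h, Z_Ad h]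
  mul_comm := Mu_comm h }

include h

theorem Sc_eq (x : M) : letI := csr h; Sc x = x + 1 := by
  show Sc x = Ad x (Sc (Z M))
  rw [Ad_Sc h, Ad_Z h]

theorem trich (x y : M) : ∃ d, y = Ad x d ∨ x = Ad y d := by
  refine ind_pred h ![x] (fun y => ∃ d, y = Ad x d ∨ x = Ad y d)
    (Formula.iExs Unit (((Term.var (Sum.inl (Sum.inr ()))).equal
        (addT (.var (Sum.inl (Sum.inl 0))) (.var (Sum.inr ())))) ⊔
      ((Term.var (Sum.inl (Sum.inl 0))).equal
        (addT (.var (Sum.inl (Sum.inr ()))) (.var (Sum.inr ()))))))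
    (fun y => ?_) ?_ ?_ y
  · rw [Formula.realize_iExs]
    simp only [Formula.realize_sup, Formula.realize_equal, Term.realize_var, realize_addT,
      Sum.elim_inr, Sum.elim_inl]
    constructor
    · rintro ⟨w, hw⟩
      exact ⟨_, hw⟩
    · rintro ⟨w, hw⟩
      exact ⟨fun _ => w, hw⟩
  · exact ⟨x, Or.inr (by rw [Z_Ad h])⟩
  · rintro y ⟨d, hd | hd⟩
    · exact ⟨Sc d, Or.inl (by rw [Ad_Sc h, hd])⟩
    · rcases cases_Z_Sc h d with h1 | ⟨d', h1⟩
      · refine ⟨Sc (Z M), Or.inl ?_⟩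
        rw [hd, h1, Ad_Sc h, Ad_Z h, Ad_Z h]
      · refine ⟨d', Or.inr ?_⟩
        rw [hd, h1, Ad_Sc h, Sc_Ad h]

theorem Ad_eq_Z {a b : M} (hab : Ad a b = Z M) : b = Z M := by
  rcases cases_Z_Sc h b with h1 | ⟨b', h1⟩
  · exact h1
  · rw [h1, Ad_Sc h] at hab
    exact absurd hab (Sc_ne_Z h _)

theorem double_inj {s t : M} (hst : Ad s s = Ad t t) : s = t := by
  let _ := csr h
  have key : ∀ s t d : M, Ad s s = Ad t t → t = Ad s d → s = t := by
    intro s t d h1 h2
    have h3 : Ad (Z M) (Ad s s) = Ad (Ad d d) (Ad s s) := by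
      rw [Z_Ad h]
      refine h1.trans ?_
      rw [h2]
      show (s + d) + (s + d) = (d + d) + (s + s)
      ring
    have h4 := Ad_cancel h _ _ _ h3
    have h5 := Ad_eq_Z h h4.symm
    rw [h2, h5, Ad_Z h]
  obtain ⟨d, hd | hd⟩ := trich h s t
  · exact key s t d hst hd
  · exact (key t s d hst.symm hd).symm

theorem exists_tri (n : M) : ∃ t, Ad t t = Mu n (Sc n) := by
  refine ind_pred h ![] (fun n => ∃ t, Ad t t = Mu n (Sc n))
    (Formula.iExs Unit ((addT (.var (Sum.inr ())) (.var (Sum.inr ()))).equal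
        (mulT (.var (Sum.inl (Sum.inr ()))) (succT (.var (Sum.inl (Sum.inr ())))))))
    (fun y => ?_) ?_ ?_ n
  · rw [Formula.realize_iExs]
    simp only [Formula.realize_equal, Term.realize_var, realize_addT, realize_mulT,
      realize_succT, Sum.elim_inr, Sum.elim_inl]
    constructor
    · rintro ⟨w, hw⟩
      exact ⟨_, hw⟩
    · rintro ⟨w, hw⟩
      exact ⟨fun _ => w, hw⟩
  · exact ⟨Z M, by rw [Z_Ad h, Z_Mu h]⟩
  · rintro n ⟨t, ht⟩
    let _ := csr h
    refine ⟨Ad t (Sc n), ?_⟩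
    have h1 : Ad (Ad t (Sc n)) (Ad t (Sc n)) = Ad (Ad t t) (Ad (Sc n) (Sc n)) := by
      show (t + Sc n) + (t + Sc n) = (t + t) + (Sc n + Sc n)
      ring
    rw [h1, ht, Sc_eq h n, Sc_eq h (n + 1)]
    show n * (n + 1) + ((n + 1) + (n + 1)) = (n + 1) * (n + 1 + 1)
    ring

omit h in
/-- Triangular numbers. -/
noncomputable def tri (h : M ⊨ PA) (n : M) : M := Classical.choose (exists_tri h n)

theorem tri_spec (n : M) : Ad (tri h n) (tri h n) = Mu n (Sc n) :=
  Classical.choose_spec (exists_tri h n)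

theorem tri_Z : tri h (Z M) = Z M := by
  apply double_inj h
  rw [tri_spec, Z_Mu h, Z_Ad h]

theorem tri_Sc (n : M) : tri h (Sc n) = Ad (tri h n) (Sc n) := by
  apply double_inj h
  let _ := csr h
  have h1 : Ad (Ad (tri h n) (Sc n)) (Ad (tri h n) (Sc n)) =
      Ad (Ad (tri h n) (tri h n)) (Ad (Sc n) (Sc n)) := by
    show (tri h n + Sc n) + (tri h n + Sc n) = (tri h n + tri h n) + (Sc n + Sc n)
    ring
  rw [h1, tri_spec, tri_spec, Sc_eq h n, Sc_eq h (n + 1)]
  show (n + 1) * (n + 1 + 1) = n * (n + 1) + ((n + 1) + (n + 1))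
  ring

omit h in
/-- Cantor pairing. -/
noncomputable def pr (h : M ⊨ PA) (x y : M) : M := Ad (tri h (Ad x y)) y

theorem pr_graph (x y z : M) :
    z = pr h x y ↔ Ad z z = Ad (Mu (Ad x y) (Sc (Ad x y))) (Ad y y) := by
  let _ := csr h
  have h1 : Ad (pr h x y) (pr h x y) = Ad (Mu (Ad x y) (Sc (Ad x y))) (Ad y y) := by
    rw [← tri_spec h]
    show (tri h (Ad x y) + y) + (tri h (Ad x y) + y) =
      (tri h (Ad x y) + tri h (Ad x y)) + (y + y)
    ring
  constructor
  · intro h2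
    rw [h2, h1]
  · intro h2
    apply double_inj h
    rw [h1, h2]

theorem pr_surj (z : M) : ∃ x y, z = pr h x y := by
  refine ind_pred h ![] (fun z => ∃ x y, z = pr h x y)
    (Formula.iExs (Fin 2) ((addT (.var (Sum.inl (Sum.inr ()))) (.var (Sum.inl (Sum.inr ())))).equal
      (addT (mulT (addT (.var (Sum.inr 0)) (.var (Sum.inr 1)))
        (succT (addT (.var (Sum.inr 0)) (.var (Sum.inr 1)))))
        (addT (.var (Sum.inr 1)) (.var (Sum.inr 1))))))
    (fun z => ?_) ?_ ?_ z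
  · rw [Formula.realize_iExs]
    simp only [Formula.realize_equal, Term.realize_var, realize_addT, realize_mulT,
      realize_succT, Sum.elim_inr, Sum.elim_inl]
    constructor
    · rintro ⟨w, hw⟩
      exact ⟨w 0, w 1, (pr_graph h _ _ _).mpr hw⟩
    · rintro ⟨x, y, hw⟩
      exact ⟨![x, y], (pr_graph h _ _ _).mp hw⟩
  · refine ⟨Z M, Z M, ?_⟩
    unfold pr
    rw [Ad_Z h, Ad_Z h, tri_Z h]
  · rintro z ⟨x, y, hz⟩
    rcases cases_Z_Sc h x with h1 | ⟨x', h1⟩
    · refine ⟨Sc y, Z M, ?_⟩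
      rw [hz, h1]
      unfold pr
      rw [Z_Ad h, Ad_Z h, Ad_Z h, tri_Sc h, Ad_Sc h]
    · refine ⟨x', Sc y, ?_⟩
      rw [hz, h1]
      unfold pr
      rw [Sc_Ad h, Ad_Sc h x' y, Ad_Sc h]

theorem tri_mono (n d : M) : ∃ u, tri h (Ad n d) = Ad (tri h n) u := by
  -- 2 T(n+d) = (n+d)(n+d+1) = 2 T(n) + (2 n d + d d + d)
  let _ := csr h
  obtain ⟨t, ht⟩ := exists_tri h d
  refine ⟨Ad (Mu n d) t, ?_⟩
  apply double_inj h
  have h1 : Ad (Ad (tri h n) (Ad (Mu n d) t)) (Ad (tri h n) (Ad (Mu n d) t)) =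
      Ad (Ad (tri h n) (tri h n)) (Ad (Ad (Mu n d) (Mu n d)) (Ad t t)) := by
    show (tri h n + (n * d + t)) + (tri h n + (n * d + t)) =
      (tri h n + tri h n) + ((n * d + n * d) + (t + t))
    ring
  rw [h1, tri_spec, tri_spec, ht, Sc_eq h, Sc_eq h, Sc_eq h]
  show (n + d) * ((n + d) + 1) = n * (n + 1) + ((n * d + n * d) + d * (d + 1))
  ring

theorem Ad_left_cancel {x y z : M} (hxy : Ad x y = Ad x z) : y = z := by
  rw [Ad_comm h x y, Ad_comm h x z] at hxy
  exact Ad_cancel h _ _ _ hxy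

theorem pr_inj {x y x' y' : M} (hp : pr h x y = pr h x' y') : x = x' ∧ y = y' := by
  have key : ∀ x y x' y' d : M, pr h x y = pr h x' y' → Ad x' y' = Ad (Ad x y) d →
      x = x' ∧ y = y' := by
    intro x y x' y' d h1 h2
    rcases cases_Z_Sc h d with h3 | ⟨d', h3⟩
    · rw [h3, Ad_Z h] at h2
      unfold pr at h1
      rw [h2] at h1
      have h4 := Ad_left_cancel h h1
      subst h4
      exact ⟨(Ad_cancel h _ _ _ h2).symm, rfl⟩
    · exfalso
      let _ := csr h
      unfold pr at h1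
      rw [h2, h3, Ad_Sc h, tri_Sc h] at h1
      obtain ⟨u, hu⟩ := tri_mono h (Ad x y) d'
      rw [hu] at h1
      have h4 : Ad (tri h (Ad x y)) y = Ad (tri h (Ad x y))
          (Ad (Ad u (Sc (Ad (Ad x y) d'))) y') := by
        rw [h1]
        show tri h (Ad x y) + u + Sc (Ad (Ad x y) d') + y' =
          tri h (Ad x y) + ((u + Sc (Ad (Ad x y) d')) + y')
        ring
      have h5 := Ad_left_cancel h h4
      have h6 : Ad y (Z M) = Ad y (Sc (Ad (Ad x d') (Ad u y'))) := by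
        rw [Ad_Z h]
        refine h5.trans ?_
        rw [Sc_eq h, Sc_eq h]
        show u + (x + y + d' + 1) + y' = y + (x + d' + (u + y') + 1)
        ring
      exact Sc_ne_Z h _ (Ad_left_cancel h h6).symm
  obtain ⟨d, hd | hd⟩ := trich h (Ad x y) (Ad x' y')
  · exact key x y x' y' d hp hd
  · obtain ⟨h1, h2⟩ := key x' y' x y d hp.symm hd
    exact ⟨h1.symm, h2.symm⟩

omit h in
/-- The pairing bijection. -/
noncomputable def prEquiv (h : M ⊨ PA) : M × M ≃ M :=
  Equiv.ofBijective (fun p => pr h p.1 p.2) ⟨fun p q hpq => by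
    obtain ⟨h1, h2⟩ := pr_inj h hpq
    exact Prod.ext h1 h2, fun z => by
    obtain ⟨x, y, hz⟩ := pr_surj h z
    exact ⟨(x, y), hz.symm⟩⟩

omit h in
/-- Numerals. -/
def num (M : Type) [LPA.Structure M] (k : ℕ) : M := Nat.rec (Z M) (fun _ p => Sc p) k

omit h in
/-- `k`-fold successor. -/
def shift (k : ℕ) (x : M) : M := Nat.rec x (fun _ p => Sc p) k

omit h in
theorem num_succ (k : ℕ) : num M (k + 1) = Sc (num M k) := rfl

omit h in
theorem shift_succ (k : ℕ) (x : M) : shift (k + 1) x = Sc (shift k x) := rfl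

theorem shift_inj (k : ℕ) {x y : M} (hxy : shift k x = shift k y) : x = y := by
  induction k with
  | zero => exact hxy
  | succ k ih => exact ih (Sc_inj h hxy)

omit h in
theorem shift_Sc (k : ℕ) (x : M) : shift k (Sc x) = Sc (shift k x) := by
  induction k with
  | zero => rfl
  | succ k ih => rw [shift_succ, ih, shift_succ]

omit h in
theorem shift_num (k j : ℕ) : shift k (num M j) = num M (j + k) := by
  induction k with
  | zero => rfl
  | succ k ih => rw [shift_succ, ih]; rfl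

theorem num_ne_shift {j k : ℕ} (hjk : j < k) (x : M) : num M j ≠ shift k x := by
  intro hcon
  obtain ⟨d, rfl⟩ : ∃ d, k = j + (d + 1) := ⟨k - j - 1, by omega⟩
  have h1 : ∀ j : ℕ, num M j = shift (j + (d + 1)) x → False := by
    intro j
    induction j with
    | zero =>
      intro h1
      have h2 : shift (0 + (d + 1)) x = Sc (shift d x) := by
        rw [Nat.zero_add]; rfl
      rw [h2] at h1
      exact Sc_ne_Z h _ h1.symm
    | succ j ih =>
      intro h1
      apply ih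
      have h2 : j + 1 + (d + 1) = (j + (d + 1)) + 1 := by omega
      rw [h2, shift_succ, num_succ] at h1
      exact Sc_inj h h1
  exact h1 j hcon

theorem num_inj {j k : ℕ} (hjk : num M j = num M k) : j = k := by
  rcases Nat.lt_trichotomy j k with h1 | h1 | h1
  · exfalso
    obtain ⟨d, rfl⟩ : ∃ d, k = d + (j + 1) := ⟨k - j - 1, by omega⟩
    rw [← shift_num] at hjk
    exact num_ne_shift h (Nat.lt_succ_self j) _ hjk
  · exact h1
  · exfalso
    obtain ⟨d, rfl⟩ : ∃ d, j = d + (k + 1) := ⟨j - k - 1, by omega⟩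
    rw [← shift_num] at hjk
    exact num_ne_shift h (Nat.lt_succ_self k) _ hjk.symm

theorem num_or_shift (s : ℕ) (x : M) : (∃ j, j < s ∧ x = num M j) ∨ ∃ y, x = shift s y := by
  induction s generalizing x with
  | zero => exact Or.inr ⟨x, rfl⟩
  | succ s ih =>
    rcases cases_Z_Sc h x with h1 | ⟨x', h1⟩
    · exact Or.inl ⟨0, Nat.succ_pos s, h1⟩
    · rcases ih x' with ⟨j, hj, hx'⟩ | ⟨y, hy⟩
      · exact Or.inl ⟨j + 1, Nat.succ_lt_succ hj, by rw [h1, hx']; rfl⟩
      · exact Or.inr ⟨y, by rw [h1, hy]; rfl⟩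

end model

end Pool.Agent.Arith67
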