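import Pool.Agent.Arith67.Conds
import Pool.Agent.Arith67.Pairing

/-!
Interpretation of the constants in a nonstandard model.
-/

namespace Pool.Agent.Arith67

open FirstOrder FirstOrder.Language Encodable

theorem mem_lt_encode {l : List ℕ} {c : ℕ} (h : c ∈ l) : c < encode l := by
  induction l with
  | nil => simp at h
  | cons a l ih =>
    rw [Encodable.encode_list_cons]
    have h1 := Nat.left_le_pair (encode a) (encode l)
    have h2 := Nat.right_le_pair (encode a) (encode l)
    rcases List.mem_cons.mp h with rfl | h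
    · have : encode c = c := rfl
      omega
    · have := ih h
      omega

/-- The list coded in the second component. -/
def lst (d : ℕ) : List ℕ := Denumerable.ofNat (List ℕ) (Nat.unpair d).2

theorem mem_lst {d c : ℕ} (h : c ∈ lst d) : c < d + 1 := by
  have h1 := mem_lt_encode h
  unfold lst at h1
  rw [Denumerable.encode_ofNat] at h1
  have := Nat.unpair_right_le d
  omega

open Classical in
/-- Interpretation of the constants. -/
noncomputable def II {M : Type} [LPA.Structure M] (e : M) (n : ℕ) : M :=
  letI : Nonempty M := ⟨e⟩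
  if (Nat.unpair n).1 = 1 then e
  else if (Nat.unpair n).1 = 2 then Sc (II e (Nat.unpair n).2)
  else if (Nat.unpair n).1 = 3 then
    Ad (II e (Nat.unpair (Nat.unpair n).2).1) (II e (Nat.unpair (Nat.unpair n).2).2)
  else if (Nat.unpair n).1 = 4 then
    Mu (II e (Nat.unpair (Nat.unpair n).2).1) (II e (Nat.unpair (Nat.unpair n).2).2)
  else if (Nat.unpair n).1 = 5 then
    Classical.epsilon (fun x : M => ¬ Sat (Nat.unpair (Nat.unpair n).2).1
      ((lst (Nat.unpair n).2).attach.map (fun c => II e c.1) ++ [x]))
  else if (Nat.unpair n).1 = 6 then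
    (if ¬ Sat (Nat.unpair (Nat.unpair n).2).1
      ((lst (Nat.unpair n).2).attach.map (fun c => II e c.1) ++ [Z M]) then Z M
    else Sc (Classical.epsilon (fun y : M => Sat (Nat.unpair (Nat.unpair n).2).1
      ((lst (Nat.unpair n).2).attach.map (fun c => II e c.1) ++ [y]) ∧
      ¬ Sat (Nat.unpair (Nat.unpair n).2).1
      ((lst (Nat.unpair n).2).attach.map (fun c => II e c.1) ++ [Sc y]))))
  else if (Nat.unpair n).1 = 7 then
    Classical.epsilon (fun y : M => Sat (Nat.unpair (Nat.unpair n).2).1
      ((lst (Nat.unpair n).2).attach.map (fun c => II e c.1) ++ [y]) ∧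
      ¬ Sat (Nat.unpair (Nat.unpair n).2).1
      ((lst (Nat.unpair n).2).attach.map (fun c => II e c.1) ++ [Sc y]))
  else Z M
termination_by n
decreasing_by
  all_goals
    have hlt : (Nat.unpair n).2 < n := by
      have e1 : Nat.pair (Nat.unpair n).1 (Nat.unpair n).2 = n := Nat.pair_unpair n
      have e2 := Nat.pair_lt_pair_left (a₁ := 0) (a₂ := (Nat.unpair n).1) (Nat.unpair n).2
        (by omega)
      have e3 := Nat.right_le_pair 0 (Nat.unpair n).2
      omega
    first
    | exact hlt
    | exact lt_of_le_of_lt (Nat.unpair_left_le _) hlt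
    | exact lt_of_le_of_lt (Nat.unpair_right_le _) hlt
    | exact lt_of_lt_of_le (mem_lst c.2) hlt

section

variable {M : Type} [LPA.Structure M] (e : M)

theorem II_zero : II e 0 = Z M := by
  rw [II]
  simp

theorem II_w1 : II e w1 = e := by
  rw [II, w1]
  simp

theorem II_ws (c : ℕ) : II e (ws c) = Sc (II e c) := by
  rw [II, ws]
  simp

theorem II_wa (c d : ℕ) : II e (wa c d) = Ad (II e c) (II e d) := by
  rw [II, wa]
  simp

theorem II_wm (c d : ℕ) : II e (wm c d) = Mu (II e c) (II e d) := by
  rw [II, wm]
  simp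

theorem II_nm (k : ℕ) : II e (nm k) = num M k := by
  induction k with
  | zero => exact II_zero e
  | succ k ih =>
    show II e (ws (nm k)) = Sc (num M k)
    rw [II_ws, ih]

theorem attach_map (l : List ℕ) : l.attach.map (fun c => II e c.1) = l.map (II e) := by
  simp

theorem lst_pair (a : ℕ) (l : List ℕ) : lst (Nat.pair a (encode l)) = l := by
  unfold lst
  rw [Nat.unpair_pair, Denumerable.ofNat_encode]

theorem II_wh (a : ℕ) (l : List ℕ) : letI : Nonempty M := ⟨e⟩
    II e (wh a l) = Classical.epsilon (fun x : M => ¬ Sat a (l.map (II e) ++ [x])) := by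
  rw [II, wh]
  simp only [Nat.unpair_pair, attach_map, lst_pair]
  norm_num

theorem II_wp (a : ℕ) (l : List ℕ) : letI : Nonempty M := ⟨e⟩
    II e (wp a l) = Classical.epsilon (fun y : M => Sat a (l.map (II e) ++ [y]) ∧
      ¬ Sat a (l.map (II e) ++ [Sc y])) := by
  rw [II, wp]
  simp only [Nat.unpair_pair, attach_map, lst_pair]
  norm_num

open Classical in
theorem II_wi (a : ℕ) (l : List ℕ) :
    II e (wi a l) = if ¬ Sat a (l.map (II e) ++ [Z M]) then Z M else Sc (II e (wp a l)) := by
  rw [II_wp, II, wi]
  simp only [Nat.unpair_pair, attach_map, lst_pair]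
  norm_num

open Classical in
/-- The truth values in the model. -/
noncomputable def V0 (a : ℕ) (l : List ℕ) : Bool := decide (Sat a (l.map (II e)))

theorem V0_iff (a : ℕ) (l : List ℕ) : V0 e a l = true ↔ Sat a (l.map (II e)) := by
  simp [V0]

theorem V0_false (a : ℕ) (l : List ℕ) : V0 e a l = false ↔ ¬ Sat a (l.map (II e)) := by
  simp [V0]

theorem V0_congr {a b : ℕ} {l l' : List ℕ} (h : Sat a (l.map (II e)) ↔ Sat b (l'.map (II e))) :
    V0 e a l = V0 e b l' := by
  rw [Bool.eq_iff_iff, V0_iff, V0_iff]
  exact h

theorem get_map (l : List ℕ) (i : ℕ) : get (l.map (II e)) i = II e (l.getD i 0) := by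
  unfold get
  by_cases h : i < l.length
  · rw [List.getD_eq_getElem _ _ (by simpa using h), List.getD_eq_getElem _ _ h]
    simp
  · rw [List.getD_eq_default _ _ (by simpa using h), List.getD_eq_default _ _ (by simpa using h),
      II_zero]

theorem EQ_V0 (c d : ℕ) : EQ (V0 e) c d = true ↔ II e c = II e d := by
  unfold EQ
  rw [V0_iff, sat_eq]
  rfl

theorem EQ_V0_false (c d : ℕ) : EQ (V0 e) c d = false ↔ II e c ≠ II e d := by
  rw [← Bool.not_eq_true, EQ_V0]

/-- Induction for codes. -/
theorem ind_sat (hPA : M ⊨ PA) (a : ℕ) (l : List M) (h0 : Sat a (l ++ [Z M]))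
    (hs : ∀ x : M, Sat a (l ++ [x]) → Sat a (l ++ [Sc x])) (x : M) : Sat a (l ++ [x]) := by
  have h1 := UD_sat (ι := PUnit) (C := fun _ => M) a (l.length + 1)
  obtain ⟨φ, hφ⟩ := h1.relabel (Fin.snoc (fun j => Sum.inl j) (Sum.inr ()) :
    Fin (l.length + 1) → Fin l.length ⊕ Unit)
  have key : ∀ x : M, φ.Realize (Sum.elim (fun j : Fin l.length => l[j]) (fun _ => x)) ↔
      Sat a (l ++ [x]) := by
    intro x
    rw [hφ PUnit.unit]
    show Sat a (List.ofFn (Sum.elim (fun j : Fin l.length => l[j]) (fun _ => x) ∘
        (Fin.snoc (fun j => Sum.inl j) (Sum.inr ()) :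
          Fin (l.length + 1) → Fin l.length ⊕ Unit))) ↔ _
    have h2 : (Sum.elim (fun j : Fin l.length => l[j]) (fun _ => x) ∘
        (Fin.snoc (fun j => Sum.inl j) (Sum.inr ()) : Fin (l.length + 1) → Fin l.length ⊕ Unit)) =
        Fin.snoc (fun j : Fin l.length => l[j]) x := by
      funext j
      refine Fin.lastCases ?_ (fun j => ?_) j
      · simp
      · simp
    rw [h2, ofFn_snoc]
    have h3 : List.ofFn (fun j : Fin l.length => l[j]) = l := List.ofFn_getElem
    rw [h3]
  exact ind_pred hPA _ (fun x => Sat a (l ++ [x])) φ key h0 hs x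

/-- The truth values in a nonstandard model satisfy the conditions. -/
theorem gd_V0 (hPA : M ⊨ PA) (he : ∀ k, e ≠ num M k) (n : ℕ) (ax : List ℕ)
    (hax : ∀ c ∈ ax, Sat c ([] : List M))
    (htr : ∀ ms a, TT n ((ms, a), []) = true → Sat (cd n ms a) ([] : List M)) :
    Gd n ax (V0 e) where
  fal := fun l => by
    rw [V0_false]
    exact sat_zero _
  imp := fun a b l => by
    rw [Bool.eq_iff_iff, V0_iff, sat_imp, Bool.or_eq_true, Bool.not_eq_true', V0_false, V0_iff]
    tauto
  all := fun a l d h => by
    rw [V0_iff, sat_all] at h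
    rw [V0_iff, List.map_append]
    exact h _
  wit := fun a l h => by
    rw [V0_false, sat_all] at h
    push Not at h
    rw [V0_false, List.map_append]
    show ¬ Sat a (l.map (II e) ++ [II e (wh a l)])
    rw [II_wh]
    exact Classical.epsilon_spec (p := fun x : M => ¬ Sat a (l.map (II e) ++ [x])) h
  ball := fun i a l => by
    apply V0_congr
    rw [sat_ball, sat_all]
    refine forall_congr' fun x => ?_
    rw [sat_imp, sat_lt, get_append_length (by simp)]
    by_cases h : i < l.length
    · have hb : bix l.length i = i := by simp [bix, h]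
      rw [hb, get_append_left (by simpa using h)]
    · have hb : bix l.length i = l.length + 1 := by simp [bix, h]
      have e1 : get (l.map (II e) ++ [x]) (l.length + 1) = Z M := by
        unfold get
        rw [List.getD_eq_default _ _ (by simp)]
      have e2 : get (l.map (II e)) i = Z M := by
        unfold get
        rw [List.getD_eq_default _ _ (by simpa using h)]
      rw [hb, e1, e2]
  eq := fun i j l => by
    apply V0_congr
    rw [sat_eq, sat_eq, get_map, get_map]
    rfl
  lt := fun i j l => by
    apply V0_congr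
    rw [sat_lt, sat_lt, get_map, get_map]
    rfl
  z := fun a l => by
    apply V0_congr
    rw [sat_z, List.map_append]
    show _ ↔ Sat a (l.map (II e) ++ [II e 0])
    rw [II_zero]
  s := fun i a l => by
    apply V0_congr
    rw [sat_s, List.map_append, get_map]
    show _ ↔ Sat a (l.map (II e) ++ [II e (ws (l.getD i 0))])
    rw [II_ws]
  add := fun i j a l => by
    apply V0_congr
    rw [sat_add, List.map_append, get_map, get_map]
    show _ ↔ Sat a (l.map (II e) ++ [II e (wa (l.getD i 0) (l.getD j 0))])
    rw [II_wa]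
  mul := fun i j a l => by
    apply V0_congr
    rw [sat_mul, List.map_append, get_map, get_map]
    show _ ↔ Sat a (l.map (II e) ++ [II e (wm (l.getD i 0) (l.getD j 0))])
    rw [II_wm]
  refl := fun c => (EQ_V0 e c c).mpr rfl
  cong := fun c d a l l' h => by
    apply V0_congr
    rw [EQ_V0] at h
    simp only [List.map_append, List.map_cons, h]
  axm := fun c hc => by
    rw [V0_iff]
    exact hax c hc
  ind := fun a l d h => by
    rw [V0_false, List.map_append] at h
    rw [V0_false, V0_iff, EQ_V0, EQ_V0, II_ws, II_zero]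
    simp only [List.map_append, List.map_cons, List.map_nil]
    rw [II_wi]
    by_cases h0 : Sat a (l.map (II e) ++ [Z M])
    · have hex : ∃ y : M, Sat a (l.map (II e) ++ [y]) ∧ ¬ Sat a (l.map (II e) ++ [Sc y]) := by
        by_contra hcon
        push Not at hcon
        exact h (ind_sat hPA a _ h0 hcon _)
      have hsp := Classical.epsilon_spec (p := fun y : M => Sat a (l.map (II e) ++ [y]) ∧
        ¬ Sat a (l.map (II e) ++ [Sc y])) hex
      have hwp := II_wp e a l
      simp only [h0, not_true_eq_false, if_false]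
      rw [hwp]
      exact ⟨hsp.2, Or.inr ⟨trivial, hsp.1⟩⟩
    · simp only [h0, not_false_eq_true, if_true]
      exact ⟨trivial, Or.inl trivial⟩
  nonst := fun k => by
    rw [EQ_V0_false, II_w1, II_nm]
    exact he k
  dist := fun i j hij => by
    rw [EQ_V0_false, II_nm, II_nm]
    exact fun h => hij (num_inj hPA h)
  tru := fun ms a h => by
    rw [V0_iff]
    exact htr ms a h

end

end Pool.Agent.Arith67
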