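import Mathlib

/-!
Arithmetic, its fragments of true sentences, definitional equivalence and computable
nonstandard models (problem MP_f714b8_lc).
-/

namespace Pool.Agent.Arith67

open FirstOrder

/-- Function symbols of arithmetic. -/
inductive PAFun : ℕ → Type
  | zero : PAFun 0
  | succ : PAFun 1
  | add : PAFun 2
  | mul : PAFun 2

/-- The relation symbol of arithmetic. -/
inductive PARel : ℕ → Type
  | lt : PARel 2

/-- The language `0, S, +, ·, <`. -/
def LPA : FirstOrder.Language.{0, 0} := ⟨PAFun, PARel⟩

section terms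

variable {α : Type}

def zeroT : LPA.Term α := Language.Term.func (l := 0) PAFun.zero (fun j => j.elim0)

def succT (t : LPA.Term α) : LPA.Term α := Language.Term.func (l := 1) PAFun.succ (fun _ => t)

def addT (t u : LPA.Term α) : LPA.Term α := Language.Term.func (l := 2) PAFun.add ![t, u]

def mulT (t u : LPA.Term α) : LPA.Term α := Language.Term.func (l := 2) PAFun.mul ![t, u]

def ltF (t u : LPA.Term α) : LPA.Formula α :=
  Language.Relations.formula (n := 2) (PARel.lt : LPA.Relations 2) ![t, u]

end terms

/-- Universal closure of a formula with free variables indexed by `Fin k`. -/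
noncomputable def close {k : ℕ} (φ : LPA.Formula (Fin k)) : LPA.Sentence :=
  Language.Formula.iAlls (Fin k) (Language.Formula.relabel (Sum.inr : Fin k → Empty ⊕ Fin k) φ)

/-- Induction for `φ(p, x)`: if `φ(p, 0)` and `φ(p, x) → φ(p, S x)` for all `x`, then `φ(p, x)`
for all `x`. -/
noncomputable def indF {k : ℕ} (φ : LPA.Formula (Fin k ⊕ Unit)) : LPA.Formula (Fin k) :=
  ((Language.BoundedFormula.subst φ (Sum.elim Language.Term.var (fun _ => zeroT)) :
      LPA.Formula (Fin k)) ⊓
    Language.Formula.iAlls Unit (φ.imp (Language.BoundedFormula.subst φ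
      (Sum.elim (fun a => Language.Term.var (Sum.inl a))
        (fun _ => succT (Language.Term.var (Sum.inr ()))))))).imp
    (Language.Formula.iAlls Unit φ)

/-- Peano arithmetic. -/
noncomputable def PA : LPA.Theory :=
  {close (k := 1) ((succT (.var 0)).equal zeroT).not,
   close (k := 2) (((succT (.var 0)).equal (succT (.var 1))).imp
      ((Language.Term.var 0).equal (.var 1))),
   close (k := 1) ((addT (.var 0) zeroT).equal (.var 0)),
   close (k := 2) ((addT (.var 0) (succT (.var 1))).equal (succT (addT (.var 0) (.var 1)))),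
   close (k := 1) ((mulT (.var 0) zeroT).equal zeroT),
   close (k := 2) ((mulT (.var 0) (succT (.var 1))).equal
      (addT (mulT (.var 0) (.var 1)) (.var 0))),
   close (k := 1) (ltF (.var 0) zeroT).not,
   close (k := 2) ((ltF (.var 0) (succT (.var 1))).iff
      (ltF (.var 0) (.var 1) ⊔ (Language.Term.var 0).equal (.var 1)))} ∪
  {σ | ∃ (k : ℕ) (φ : LPA.Formula (Fin k ⊕ Unit)), σ = close (indF φ)}

/-- The standard structure. -/
@[instance_reducible] def stdNat : LPA.Structure ℕ where
  funMap := fun {n} f => match n, f with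
    | _, PAFun.zero => fun _ => 0
    | _, PAFun.succ => fun v => v 0 + 1
    | _, PAFun.add => fun v => v 0 + v 1
    | _, PAFun.mul => fun v => v 0 * v 1
  RelMap := fun {n} R => match n, R with
    | _, PARel.lt => fun v => v 0 < v 1

/-- Formulas with bounded quantifiers only. -/
inductive IsBounded : ∀ {m : ℕ}, LPA.BoundedFormula Empty m → Prop
  | falsum {m : ℕ} : IsBounded (m := m) Language.BoundedFormula.falsum
  | equal {m : ℕ} (t u : LPA.Term (Empty ⊕ Fin m)) :
      IsBounded (Language.BoundedFormula.equal t u)
  | rel {m l : ℕ} (R : LPA.Relations l) (ts : Fin l → LPA.Term (Empty ⊕ Fin m)) :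
      IsBounded (Language.BoundedFormula.rel R ts)
  | imp {m : ℕ} {φ ψ : LPA.BoundedFormula Empty m} :
      IsBounded φ → IsBounded ψ → IsBounded (φ.imp ψ)
  | ball {m : ℕ} (t : LPA.Term (Empty ⊕ Fin m)) {φ : LPA.BoundedFormula Empty (m + 1)} :
      IsBounded φ → IsBounded (Language.BoundedFormula.all
        ((Language.BoundedFormula.rel (l := 2) (PARel.lt : LPA.Relations 2)
          ![Language.Term.var (Sum.inr (Fin.last m)),
            t.relabel (Sum.map id Fin.castSucc)]).imp φ))

/-- `InHier true k` is `Pi_k`, `InHier false k` is `Sigma_k`: blocks of like quantifiers in front of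
formulas with bounded quantifiers. -/
inductive InHier : Bool → ℕ → ∀ {m : ℕ}, LPA.BoundedFormula Empty m → Prop
  | base {b : Bool} {k m : ℕ} {φ : LPA.BoundedFormula Empty m} : IsBounded φ → InHier b k φ
  | all {k m : ℕ} {φ : LPA.BoundedFormula Empty (m + 1)} :
      InHier true (k + 1) φ → InHier true (k + 1) φ.all
  | ex {k m : ℕ} {φ : LPA.BoundedFormula Empty (m + 1)} :
      InHier false (k + 1) φ → InHier false (k + 1) φ.ex
  | up {b : Bool} {k m : ℕ} {φ : LPA.BoundedFormula Empty m} :
      InHier (!b) k φ → InHier b (k + 1) φ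

/-- `PA` together with all `Pi_n` sentences true in the standard model. -/
def PATrue (n : ℕ) : LPA.Theory :=
  PA ∪ {σ | InHier true n σ ∧ @Language.Sentence.Realize LPA ℕ stdNat σ}

/-- Formulas of `L` that define the symbols of `L'`. -/
structure Defns (L L' : FirstOrder.Language.{0, 0}) where
  /-- the formula for a relation symbol -/
  rel : ∀ {k : ℕ}, L'.Relations k → L.Formula (Fin k)
  /-- the formula for the graph of a function symbol; the last variable is the value -/
  fn : ∀ {k : ℕ}, L'.Functions k → L.Formula (Fin (k + 1))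

/-- The definitions hold in `M`. -/
def Defns.Holds {L L' : FirstOrder.Language.{0, 0}} (D : Defns L L') (M : Type)
    [L.Structure M] [L'.Structure M] : Prop :=
  (∀ (k : ℕ) (R : L'.Relations k) (v : Fin k → M),
    Language.Structure.RelMap R v ↔ (D.rel R).Realize v) ∧
  (∀ (k : ℕ) (f : L'.Functions k) (v : Fin k → M) (y : M),
    Language.Structure.funMap f v = y ↔ (D.fn f).Realize (Fin.snoc v y : Fin (k + 1) → M))

/-- `T` with the definitions `D` and `T'` with the definitions `E` have the same models. -/
def SameModels {L L' : FirstOrder.Language.{0, 0}} (T : L.Theory) (T' : L'.Theory)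
    (D : Defns L L') (E : Defns L' L) : Prop :=
  ∀ (M : Type) [Nonempty M] [L.Structure M] [L'.Structure M],
    (M ⊨ T ∧ D.Holds M) ↔ (M ⊨ T' ∧ E.Holds M)

/-- Two structures for arithmetic on `ℕ` are isomorphic. -/
def IsoPA (P Q : LPA.Structure ℕ) : Prop :=
  Nonempty (@Language.Equiv LPA ℕ ℕ P Q)

/-- `T` is definitionally equivalent to `U` and has a computable nonstandard model. -/
def HasCompNonstd (U : LPA.Theory) (L : FirstOrder.Language.{0, 0}) (T : L.Theory) : Prop :=
  ∃ (D : Defns LPA L) (E : Defns L LPA), SameModels U T D E ∧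
    ∃ (S : L.Structure ℕ) (P : LPA.Structure ℕ),
      (∀ (k : ℕ) (R : L.Relations k), ComputablePred (fun v : Fin k → ℕ => S.RelMap R v)) ∧
      @Language.Theory.Model L ℕ S T ∧ @Defns.Holds L LPA E ℕ S P ∧ ¬ IsoPA P stdNat

/-- The relation symbol of arity `r`. -/
inductive OneRel (r : ℕ) : ℕ → Type
  | q : OneRel r r

/-- The language with one relation symbol, of arity `r`. -/
def LOne (r : ℕ) : FirstOrder.Language.{0, 0} := ⟨fun _ => Empty, OneRel r⟩

end Pool.Agent.Arith67
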