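import Pool.Agent.Arith67.LimF

/-!
The construction of a less complex copy of a structure.
-/

namespace Pool.Agent.Arith67.Jump

open Filter

/-- All tuples of length `k` from a list. -/
def tuples (k : ℕ) (l : List ℕ) : List (List ℕ) :=
  Nat.rec [[]] (fun _ IH => l.flatMap (fun x => IH.map (fun t => x :: t))) k

theorem mem_tuples {k : ℕ} {l t : List ℕ} : t ∈ tuples k l ↔ t.length = k ∧ ∀ x ∈ t, x ∈ l := by
  induction k generalizing t with
  | zero =>
    have h0 : tuples 0 l = [[]] := rfl
    rw [h0, List.mem_singleton, List.length_eq_zero_iff]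
    constructor
    · rintro rfl
      simp
    · rintro ⟨h, _⟩
      exact h
  | succ k ih =>
    have h1 : tuples (k + 1) l = l.flatMap (fun x => (tuples k l).map (fun t => x :: t)) := rfl
    rw [h1, List.mem_flatMap]
    constructor
    · rintro ⟨x, hx, ht⟩
      rw [List.mem_map] at ht
      obtain ⟨t', ht', rfl⟩ := ht
      obtain ⟨h2, h3⟩ := ih.mp ht'
      refine ⟨by simp [h2], ?_⟩
      intro y hy
      rcases List.mem_cons.mp hy with rfl | hy
      · exact hx
      · exact h3 y hy
    · rintro ⟨h2, h3⟩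
      rcases t with _ | ⟨x, t⟩
      · simp at h2
      · refine ⟨x, h3 x (by simp), List.mem_map.mpr ⟨t, ih.mpr ⟨by simpa using h2, fun y hy =>
          h3 y (by simp [hy])⟩, rfl⟩⟩

theorem primrec_tuples : Primrec₂ tuples := by
  unfold tuples
  refine Primrec.nat_rec' (f := fun p : ℕ × List ℕ => p.1) (g := fun _ => [[]])
    (h := fun p q => p.2.flatMap (fun x => q.2.map (fun t => x :: t))) Primrec.fst
    (Primrec.const _) ?_
  refine (Primrec.list_flatMap (f := fun p : (ℕ × List ℕ) × (ℕ × List (List ℕ)) => p.1.2)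
    (g := fun p x => p.2.2.map (fun t => x :: t)) (Primrec.snd.comp Primrec.fst) ?_).to₂
  refine (Primrec.list_map (f := fun q : ((ℕ × List ℕ) × (ℕ × List (List ℕ))) × ℕ => q.1.2.2)
    (g := fun q t => q.2 :: t) (Primrec.snd.comp (Primrec.snd.comp Primrec.fst)) ?_).to₂
  exact (Primrec.list_cons.comp (Primrec.snd.comp Primrec.fst) Primrec.snd).to₂

def dom (F : List (ℕ × ℕ)) : List ℕ := F.map Prod.fst

def ran (F : List (ℕ × ℕ)) : List ℕ := F.map Prod.snd

def look (F : List (ℕ × ℕ)) (b : ℕ) : ℕ := (ran F).getD ((dom F).idxOf b) 0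

theorem primrec_dom : Primrec dom :=
  Primrec.list_map Primrec.id (Primrec.fst.comp Primrec.snd).to₂

theorem primrec_ran : Primrec ran :=
  Primrec.list_map Primrec.id (Primrec.snd.comp Primrec.snd).to₂

theorem primrec_look : Primrec₂ look := by
  have h1 : Primrec₂ fun (a : ℕ) (l : List ℕ) => l.idxOf a := Primrec.list_idxOf
  exact ((Primrec.list_getD 0).comp (primrec_ran.comp Primrec.fst)
    (h1.comp Primrec.snd (primrec_dom.comp Primrec.fst))).to₂

theorem look_append {F F' : List (ℕ × ℕ)} {b : ℕ} (hb : b ∈ dom F) :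
    look (F ++ F') b = look F b := by
  unfold look dom ran at *
  rw [List.map_append, List.map_append, List.idxOf_append_of_mem hb]
  have h1 : (F.map Prod.fst).idxOf b < F.length := by
    have := List.idxOf_lt_length_of_mem hb
    simpa using this
  rw [List.getD_append _ _ _ _ (by simpa using h1)]

theorem look_snoc {F : List (ℕ × ℕ)} {b m : ℕ} (hb : b ∉ dom F) :
    look (F ++ [(b, m)]) b = m := by
  unfold look dom ran at *
  rw [List.map_append, List.map_append, List.idxOf_append_of_notMem hb]
  simp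

theorem mem_ran_look {F : List (ℕ × ℕ)} {b : ℕ} (hb : b ∈ dom F) : look F b ∈ ran F := by
  unfold look dom ran at *
  have h1 : (F.map Prod.fst).idxOf b < F.length := by
    have := List.idxOf_lt_length_of_mem hb
    simpa using this
  rw [List.getD_eq_getElem _ _ (by simpa using h1)]
  exact List.getElem_mem _

theorem look_inj {F : List (ℕ × ℕ)} (hr : (ran F).Nodup) {b b' : ℕ} (hb : b ∈ dom F)
    (hb' : b' ∈ dom F) (h : look F b = look F b') : b = b' := by
  unfold look at h
  have h1 : (dom F).idxOf b < (dom F).length := List.idxOf_lt_length_of_mem hb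
  have h1' : (dom F).idxOf b' < (dom F).length := List.idxOf_lt_length_of_mem hb'
  have hl : (dom F).length = (ran F).length := by simp [dom, ran]
  rw [List.getD_eq_getElem _ _ (by omega), List.getD_eq_getElem _ _ (by omega)] at h
  have h2 := (List.Nodup.getElem_inj_iff hr).mp h
  have h3 := List.getElem_idxOf h1
  have h4 := List.getElem_idxOf h1'
  simp only [h2] at h3
  exact h3.symm.trans h4

theorem exists_look {F : List (ℕ × ℕ)} (hd : (dom F).Nodup) {m : ℕ} (hm : m ∈ ran F) :
    ∃ b ∈ dom F, look F b = m := by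
  unfold ran at hm
  obtain ⟨⟨b, m'⟩, hp, rfl⟩ := List.mem_map.mp hm
  have hb : b ∈ dom F := List.mem_map.mpr ⟨(b, m'), hp, rfl⟩
  refine ⟨b, hb, ?_⟩
  obtain ⟨i, hi, hi'⟩ := List.getElem_of_mem hp
  have h1 : (dom F)[i]'(by simpa [dom] using hi) = b := by simp [dom, hi']
  have h2 : (dom F).idxOf b = i := by
    have h3 := List.Nodup.idxOf_getElem hd i (by simpa [dom] using hi)
    rwa [h1] at h3
  unfold look
  rw [h2]
  have h4 : i < (ran F).length := by simpa [ran] using hi
  rw [List.getD_eq_getElem _ _ h4]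
  simp [ran, hi']

/-- The least number not in a list. -/
def mex (l : List ℕ) : ℕ := bfind (l.length + 1) (fun m => !(l.elem m))

theorem mex_notMem (l : List ℕ) : mex l ∉ l := by
  by_cases h : mex l < l.length + 1
  · have := bfind_spec h
    have h9 : (!(l.elem (mex l))) = true := this
    simpa using h9
  · exfalso
    have h0 : mex l ≤ l.length + 1 := bfind_le _ _
    have h1 : mex l = l.length + 1 := by omega
    have h2 : ∀ m < l.length + 1, m ∈ l := by
      intro m hm
      have := bfind_min (n := l.length + 1) (p := fun m => !(l.elem m)) (m := m)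
        (by unfold mex at h1; omega)
      simpa using this
    have h3 : (Finset.range (l.length + 1)) ⊆ l.toFinset := by
      intro m hm
      simpa using h2 m (by simpa using hm)
    have h4 := Finset.card_le_card h3
    have h5 := List.toFinset_card_le l
    simp at h4
    omega

theorem mem_of_lt_mex {l : List ℕ} {m : ℕ} (h : m < mex l) : m ∈ l := by
  have := bfind_min h
  simpa using this

theorem mex_le (l : List ℕ) {m : ℕ} (hm : m ∉ l) : mex l ≤ m := by
  by_contra h
  exact hm (mem_of_lt_mex (by omega))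

theorem primrec_elem : Primrec₂ (fun (l : List ℕ) (m : ℕ) => l.elem m) := by
  have h1 : Primrec₂ (fun (l : List ℕ) (m : ℕ) => decide (l.idxOf m < l.length)) := by
    have h2 : Primrec₂ fun (a : ℕ) (l : List ℕ) => l.idxOf a := Primrec.list_idxOf
    exact (Primrec.nat_lt.decide.comp (h2.comp Primrec.snd Primrec.fst)
      (Primrec.list_length.comp Primrec.fst)).to₂
  refine h1.of_eq fun l m => ?_
  rw [Bool.eq_iff_iff]
  simp [List.idxOf_lt_length_iff]

theorem primrec_mex : Primrec mex := by
  unfold mex bfind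
  refine Primrec.list_findIdx (Primrec.list_range.comp (Primrec.succ.comp Primrec.list_length)) ?_
  exact (Primrec.not.comp (primrec_elem.comp Primrec.fst Primrec.snd)).to₂

theorem inF_mex {α : Type} [Primcodable α] {j : ℕ} {l : α → List ℕ} (hl : InF j l) :
    InF j (fun a => mex (l a)) := InF.comp (InF.of_primrec primrec_mex) hl

section

variable (ar : List ℕ) (a : ℕ) (g : (ℕ × List ℕ) × ℕ → Bool) (e : List ℕ × ℕ → Bool)

/-- All atomic facts over a finite set. -/
def facts (D : List ℕ) : List (ℕ × List ℕ) :=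
  (List.range ar.length).flatMap (fun t => (tuples (ar.getD t 1) D).map (fun l => (t, l)))

theorem mem_facts {D : List ℕ} {q : ℕ × List ℕ} :
    q ∈ facts ar D ↔ q.1 < ar.length ∧ q.2.length = ar.getD q.1 1 ∧ ∀ x ∈ q.2, x ∈ D := by
  unfold facts
  rw [List.mem_flatMap]
  constructor
  · rintro ⟨t, ht, hq⟩
    obtain ⟨l, hl, rfl⟩ := List.mem_map.mp hq
    exact ⟨by simpa using ht, mem_tuples.mp hl⟩
  · rintro ⟨h1, h2⟩
    exact ⟨q.1, by simpa using h1, List.mem_map.mpr ⟨q.2, mem_tuples.mpr h2, rfl⟩⟩

theorem primrec_facts : Primrec (facts ar) := by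
  unfold facts
  refine Primrec.list_flatMap (Primrec.const _) ?_
  refine (Primrec.list_map (f := fun p : List ℕ × ℕ => tuples (ar.getD p.2 1) p.1)
    (g := fun p l => (p.2, l)) (primrec_tuples.comp ?_ Primrec.fst) ?_).to₂
  · exact (Primrec.list_getD 1).comp (Primrec.const _) Primrec.snd
  · exact (Primrec.pair (Primrec.snd.comp Primrec.fst) Primrec.snd).to₂

/-- A finite map that looks right at stage `s`. -/
def good (Hf : ℕ × List ℕ → Bool) (F : List (ℕ × ℕ)) (s : ℕ) : Bool :=
  (facts ar (dom F)).all (fun q => Hf q == g ((q.1, q.2.map (look F)), s)) &&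
  (tuples a (dom F)).all (fun l => !(e (l.map (look F), s)) ||
    (List.range s).all (fun u => Hf (0, l ++ [u])))

theorem good_iff {Hf : ℕ × List ℕ → Bool} {F : List (ℕ × ℕ)} {s : ℕ} :
    good ar a g e Hf F s = true ↔
      (∀ q ∈ facts ar (dom F), Hf q = g ((q.1, q.2.map (look F)), s)) ∧
      (∀ l ∈ tuples a (dom F), e (l.map (look F), s) = true → ∀ u < s, Hf (0, l ++ [u]) = true) := by
  unfold good
  rw [Bool.and_eq_true, List.all_eq_true, List.all_eq_true]
  apply and_congr
  · refine forall_congr' fun q => imp_congr Iff.rfl ?_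
    simp
  · refine forall_congr' fun l => imp_congr Iff.rfl ?_
    rw [Bool.or_eq_true, List.all_eq_true]
    simp only [List.mem_range]
    cases e (l.map (look F), s) <;> simp

theorem good_congr {Hf Hf' : ℕ × List ℕ → Bool} {F : List (ℕ × ℕ)} {s : ℕ}
    (hF : ∀ b ∈ dom F, b < s) (hH : ∀ q : ℕ × List ℕ, (∀ x ∈ q.2, x < s) → Hf q = Hf' q) :
    good ar a g e Hf F s = good ar a g e Hf' F s := by
  rw [Bool.eq_iff_iff, good_iff, good_iff]
  apply and_congr
  · refine forall_congr' fun q => forall_congr' fun hq => ?_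
    rw [hH q (fun x hx => hF x ((mem_facts ar).mp hq |>.2.2 x hx))]
  · refine forall_congr' fun l => forall_congr' fun hl => forall_congr' fun _ =>
      forall_congr' fun u => forall_congr' fun hu => ?_
    rw [hH (0, l ++ [u])]
    intro x hx
    rcases List.mem_append.mp hx with h | h
    · exact hF x ((mem_tuples.mp hl).2 x h)
    · rw [List.mem_singleton.mp h]
      exact hu

/-- One step. -/
def next (Hf : ℕ × List ℕ → Bool) (F : List (ℕ × ℕ)) (s : ℕ) : List (ℕ × ℕ) :=
  (fun k => (fun F' => bif (k % 2 == 0) then F' ++ [(s, mex (ran F'))]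
    else (fun b => (fun m => bif (decide (b < s) && decide (m < s + 1)) then F' ++ [(b, m)] else F')
      (bfind (s + 1) (fun m => !((ran F').elem m) && good ar a g e Hf (F' ++ [(b, m)]) s)))
      (mex (dom F'))) (F.take k))
    (bfind F.length (fun k => !(good ar a g e Hf (F.take (k + 1)) s)))

/-- The largest entry. -/
def lmax (l : List ℕ) : ℕ := l.foldr max 0

theorem le_lmax {l : List ℕ} {x : ℕ} (hx : x ∈ l) : x ≤ lmax l := by
  induction l with
  | nil => simp at hx
  | cons y l ih =>
    show x ≤ max y (lmax l)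
    rcases List.mem_cons.mp hx with rfl | hx
    · exact le_max_left _ _
    · exact le_trans (ih hx) (le_max_right _ _)

theorem lmax_mem {l : List ℕ} (hl : l ≠ []) : lmax l ∈ l := by
  induction l with
  | nil => exact absurd rfl hl
  | cons y l ih =>
    have h1 : lmax (y :: l) = max y (lmax l) := rfl
    rw [h1]
    by_cases h0 : l = []
    · subst h0
      have h2 : lmax ([] : List ℕ) = 0 := rfl
      rw [h2]
      simp
    · rcases le_total (lmax l) y with h | h
      · rw [max_eq_left h]
        simp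
      · rw [max_eq_right h]
        exact List.mem_cons_of_mem _ (ih h0)

/-- The value of a fact, from a history of finite maps. -/
def Hh (hs : List (List (ℕ × ℕ))) (q : ℕ × List ℕ) : Bool :=
  (fun F => bif q.2.all (fun b => (dom F).elem b) then g ((q.1, q.2.map (look F)), lmax q.2)
    else true) (hs.getD (lmax q.2 + 1) [])

/-- The history. -/
def hist (s : ℕ) : List (List (ℕ × ℕ)) :=
  Nat.rec [[]] (fun s hs => hs ++ [next ar a g e (Hh g hs) (hs.getD s []) s]) s

/-- The finite map at stage `s`. -/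
def FF (s : ℕ) : List (ℕ × ℕ) := (hist ar a g e s).getD s []

/-- The new structure. -/
def H (q : ℕ × List ℕ) : Bool := Hh g (hist ar a g e (lmax q.2 + 1)) q

theorem hist_succ (s : ℕ) : hist ar a g e (s + 1) = hist ar a g e s ++
    [next ar a g e (Hh g (hist ar a g e s)) (FF ar a g e s) s] := rfl

theorem hist_length (s : ℕ) : (hist ar a g e s).length = s + 1 := by
  induction s with
  | zero => rfl
  | succ s ih => rw [hist_succ, List.length_append, ih]; rfl

theorem hist_getD {i s : ℕ} (hi : i ≤ s) : (hist ar a g e s).getD i [] = FF ar a g e i := by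
  induction s with
  | zero =>
    have : i = 0 := by omega
    rw [this]
    rfl
  | succ s ih =>
    rcases Nat.lt_or_ge s i with h | h
    · have : i = s + 1 := by omega
      rw [this]
      rfl
    · rw [hist_succ, List.getD_append _ _ _ _ (by rw [hist_length]; omega)]
      exact ih h

theorem FF_zero : FF ar a g e 0 = [] := rfl

theorem FF_succ (s : ℕ) : FF ar a g e (s + 1) =
    next ar a g e (Hh g (hist ar a g e s)) (FF ar a g e s) s := by
  unfold FF
  rw [hist_succ, List.getD_append_right _ _ _ _ (by rw [hist_length]), hist_length]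
  simp
  rfl

theorem Hh_hist {q : ℕ × List ℕ} {s : ℕ} (hs : lmax q.2 < s) :
    Hh g (hist ar a g e s) q = H ar a g e q := by
  unfold H Hh
  rw [hist_getD _ _ _ _ (by omega), hist_getD _ _ _ _ (le_refl _)]

theorem H_eq (q : ℕ × List ℕ) : H ar a g e q =
    bif q.2.all (fun b => (dom (FF ar a g e (lmax q.2 + 1))).elem b) then
      g ((q.1, q.2.map (look (FF ar a g e (lmax q.2 + 1)))), lmax q.2) else true := by
  unfold H Hh
  rw [hist_getD _ _ _ _ (le_refl _)]

/-- Characterization of a step. -/
theorem next_cases (Hf : ℕ × List ℕ → Bool) (F : List (ℕ × ℕ)) (s : ℕ) :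
    ∃ k, k ≤ F.length ∧ (∀ i < k, good ar a g e Hf (F.take (i + 1)) s = true) ∧
      (k < F.length → good ar a g e Hf (F.take (k + 1)) s = false) ∧
      ((k % 2 = 0 ∧ next ar a g e Hf F s = F.take k ++ [(s, mex (ran (F.take k)))]) ∨
       (k % 2 = 1 ∧ mex (dom (F.take k)) < s ∧ ∃ m ≤ s, m ∉ ran (F.take k) ∧
          good ar a g e Hf (F.take k ++ [(mex (dom (F.take k)), m)]) s = true ∧
          (∀ m' < m, m' ∉ ran (F.take k) →
            good ar a g e Hf (F.take k ++ [(mex (dom (F.take k)), m')]) s = false) ∧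
          next ar a g e Hf F s = F.take k ++ [(mex (dom (F.take k)), m)]) ∨
       (k % 2 = 1 ∧ (mex (dom (F.take k)) < s → ∀ m ≤ s, m ∉ ran (F.take k) →
          good ar a g e Hf (F.take k ++ [(mex (dom (F.take k)), m)]) s = false) ∧
          next ar a g e Hf F s = F.take k)) := by
  set k := bfind F.length (fun k => !(good ar a g e Hf (F.take (k + 1)) s)) with hk
  have hnext : next ar a g e Hf F s = (bif (k % 2 == 0) then F.take k ++ [(s, mex (ran (F.take k)))]
    else (fun b => (fun m => bif (decide (b < s) && decide (m < s + 1)) then F.take k ++ [(b, m)]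
      else F.take k)
      (bfind (s + 1) (fun m => !((ran (F.take k)).elem m) &&
        good ar a g e Hf (F.take k ++ [(b, m)]) s)))
      (mex (dom (F.take k)))) := rfl
  refine ⟨k, bfind_le _ _, ?_, ?_, ?_⟩
  · intro i hi
    have := bfind_min hi
    simpa using this
  · intro h
    have := bfind_spec h
    simpa using this
  · rcases Nat.mod_two_eq_zero_or_one k with h | h
    · left
      refine ⟨h, ?_⟩
      rw [hnext, h]
      rfl
    · right
      set b := mex (dom (F.take k)) with hb
      set p : ℕ → Bool := fun m => !((ran (F.take k)).elem m) &&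
        good ar a g e Hf (F.take k ++ [(b, m)]) s with hp
      have hnext' : next ar a g e Hf F s =
          bif (decide (b < s) && decide (bfind (s + 1) p < s + 1)) then
            F.take k ++ [(b, bfind (s + 1) p)] else F.take k := by
        rw [hnext, h]
        rfl
      have hp' : ∀ m, p m = true ↔ (m ∉ ran (F.take k) ∧
          good ar a g e Hf (F.take k ++ [(b, m)]) s = true) := by
        intro m
        rw [hp]
        simp
      by_cases hc : b < s ∧ bfind (s + 1) p < s + 1
      · left
        refine ⟨h, hc.1, bfind (s + 1) p, by omega, ?_⟩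
        obtain ⟨h1, h2⟩ := (hp' _).mp (bfind_spec hc.2)
        refine ⟨h1, h2, ?_, ?_⟩
        · intro m' hm' hm2
          have h3 := bfind_min hm'
          by_contra hcon
          have h4 := (hp' m').mpr ⟨hm2, by simpa using hcon⟩
          rw [h3] at h4
          exact absurd h4 (by simp)
        · rw [hnext']
          simp [hc.1, hc.2]
      · right
        refine ⟨h, ?_, ?_⟩
        · intro hbs m hm hm2
          have h5 : ¬ bfind (s + 1) p < s + 1 := fun h6 => hc ⟨hbs, h6⟩
          have h6 : m < bfind (s + 1) p := by omega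
          have h3 := bfind_min h6
          by_contra hcon
          have h4 := (hp' m).mpr ⟨hm2, by simpa using hcon⟩
          rw [h3] at h4
          exact absurd h4 (by simp)
        · rw [hnext']
          have h7 : (decide (b < s) && decide (bfind (s + 1) p < s + 1)) = false := by
            by_contra h8
            simp at h8
            exact hc ⟨h8.1, by omega⟩
          rw [h7]
          rfl

end

section complexity

variable (ar : List ℕ) (a : ℕ) (g : (ℕ × List ℕ) × ℕ → Bool) (e : List ℕ × ℕ → Bool)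
  {j : ℕ} (hg : InF j g) (he : InF j e)

theorem primrec_lmax : Primrec lmax :=
  Primrec.list_foldr Primrec.id (Primrec.const 0)
    (Primrec.nat_max.comp (Primrec.fst.comp Primrec.snd) (Primrec.snd.comp Primrec.snd)).to₂

theorem primrec_mapLook : Primrec₂ (fun (F : List (ℕ × ℕ)) (l : List ℕ) => l.map (look F)) :=
  (Primrec.list_map Primrec.snd (primrec_look.comp (Primrec.fst.comp Primrec.fst)
    Primrec.snd).to₂).to₂

include hg in
theorem inF_Hh : InF j (fun p : List (List (ℕ × ℕ)) × (ℕ × List ℕ) => Hh g p.1 p.2) := by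
  have hu : Primrec (fun p : List (List (ℕ × ℕ)) × (ℕ × List ℕ) => lmax p.2.2) :=
    primrec_lmax.comp (Primrec.snd.comp Primrec.snd)
  have hF : Primrec (fun p : List (List (ℕ × ℕ)) × (ℕ × List ℕ) => p.1.getD (lmax p.2.2 + 1) []) :=
    (Primrec.list_getD []).comp Primrec.fst (Primrec.succ.comp hu)
  refine InF.cond (c := fun p : List (List (ℕ × ℕ)) × (ℕ × List ℕ) =>
      p.2.2.all (fun b => (dom (p.1.getD (lmax p.2.2 + 1) [])).elem b))
    (f := fun p => g ((p.2.1, p.2.2.map (look (p.1.getD (lmax p.2.2 + 1) []))), lmax p.2.2))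
    (g := fun _ => true) ?_ ?_ (InF.const _)
  · refine InF.listAll (l := fun p : List (List (ℕ × ℕ)) × (ℕ × List ℕ) => p.2.2)
      (f := fun q => (dom (q.1.1.getD (lmax q.1.2.2 + 1) [])).elem q.2)
      (InF.snd.comp InF.snd) ?_
    exact InF.of_primrec (primrec_elem.comp (primrec_dom.comp (hF.comp Primrec.fst)) Primrec.snd)
  · refine hg.comp (InF.of_primrec ?_)
    exact Primrec.pair (Primrec.pair (Primrec.fst.comp Primrec.snd)
      (primrec_mapLook.comp hF (Primrec.snd.comp Primrec.snd))) hu

include hg he in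
theorem inF_good : InF j (fun p : List (List (ℕ × ℕ)) × (List (ℕ × ℕ) × ℕ) =>
    good ar a g e (Hh g p.1) p.2.1 p.2.2) := by
  have hd : Primrec (fun p : List (List (ℕ × ℕ)) × (List (ℕ × ℕ) × ℕ) => dom p.2.1) :=
    primrec_dom.comp (Primrec.fst.comp Primrec.snd)
  have hbeq : Primrec₂ (fun x y : Bool => x == y) := Primrec.beq
  refine InF.and (f := fun p : List (List (ℕ × ℕ)) × (List (ℕ × ℕ) × ℕ) =>
      (facts ar (dom p.2.1)).all (fun q => Hh g p.1 q == g ((q.1, q.2.map (look p.2.1)), p.2.2)))
    (g := fun p => (tuples a (dom p.2.1)).all (fun l => !(e (l.map (look p.2.1), p.2.2)) ||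
    (List.range p.2.2).all (fun u => Hh g p.1 (0, l ++ [u])))) ?_ ?_
  · refine InF.listAll (l := fun p : List (List (ℕ × ℕ)) × (List (ℕ × ℕ) × ℕ) =>
        facts ar (dom p.2.1))
      (f := fun r => Hh g r.1.1 r.2 == g ((r.2.1, r.2.2.map (look r.1.2.1)), r.1.2.2))
      (InF.of_primrec ((primrec_facts ar).comp hd)) ?_
    refine InF.prim₂ hbeq ?_ ?_
    · exact (inF_Hh g hg).comp ((InF.fst.comp InF.fst).pair InF.snd)
    · refine hg.comp (InF.of_primrec ?_)
      exact Primrec.pair (Primrec.pair (Primrec.fst.comp Primrec.snd)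
        (primrec_mapLook.comp (Primrec.fst.comp (Primrec.snd.comp Primrec.fst))
          (Primrec.snd.comp Primrec.snd))) (Primrec.snd.comp (Primrec.snd.comp Primrec.fst))
  · refine InF.listAll (l := fun p : List (List (ℕ × ℕ)) × (List (ℕ × ℕ) × ℕ) =>
        tuples a (dom p.2.1))
      (f := fun r => !(e (r.2.map (look r.1.2.1), r.1.2.2)) ||
        (List.range r.1.2.2).all (fun u => Hh g r.1.1 (0, r.2 ++ [u])))
      (InF.of_primrec (primrec_tuples.comp (Primrec.const _) hd)) ?_
    refine InF.or (f := fun r : (List (List (ℕ × ℕ)) × (List (ℕ × ℕ) × ℕ)) × List ℕ =>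
      !(e (r.2.map (look r.1.2.1), r.1.2.2))) (InF.not ?_) ?_
    · refine he.comp (InF.of_primrec ?_)
      exact Primrec.pair (primrec_mapLook.comp (Primrec.fst.comp (Primrec.snd.comp Primrec.fst))
        Primrec.snd) (Primrec.snd.comp (Primrec.snd.comp Primrec.fst))
    · refine InF.listAll
        (l := fun r : (List (List (ℕ × ℕ)) × (List (ℕ × ℕ) × ℕ)) × List ℕ => List.range r.1.2.2)
        (f := fun r' => Hh g r'.1.1.1 (0, r'.1.2 ++ [r'.2]))
        (InF.of_primrec (Primrec.list_range.comp (Primrec.snd.comp (Primrec.snd.comp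
          Primrec.fst)))) ?_
      refine (inF_Hh g hg).comp
        (g := fun r' : ((List (List (ℕ × ℕ)) × (List (ℕ × ℕ) × ℕ)) × List ℕ) × ℕ =>
          (r'.1.1.1, ((0 : ℕ), r'.1.2 ++ [r'.2]))) (InF.of_primrec ?_)
      exact Primrec.pair (Primrec.fst.comp (Primrec.fst.comp Primrec.fst))
        (Primrec.pair (Primrec.const 0) (Primrec.list_append.comp
          (Primrec.snd.comp Primrec.fst) (Primrec.list_cons.comp Primrec.snd (Primrec.const []))))

include hg he in
theorem inF_next : InF j (fun p : List (List (ℕ × ℕ)) × (List (ℕ × ℕ) × ℕ) =>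
    next ar a g e (Hh g p.1) p.2.1 p.2.2) := by
  have hgood := inF_good ar a g e hg he
  -- the truncation index
  have hk : InF j (fun p : List (List (ℕ × ℕ)) × (List (ℕ × ℕ) × ℕ) =>
      bfind p.2.1.length (fun k => !(good ar a g e (Hh g p.1) (p.2.1.take (k + 1)) p.2.2))) := by
    refine InF.bfind (n := fun p : List (List (ℕ × ℕ)) × (List (ℕ × ℕ) × ℕ) => p.2.1.length)
      (f := fun r => !(good ar a g e (Hh g r.1.1) (r.1.2.1.take (r.2 + 1)) r.1.2.2))
      (InF.of_primrec (Primrec.list_length.comp (Primrec.fst.comp Primrec.snd))) (InF.not ?_)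
    refine hgood.comp (g := fun r : (List (List (ℕ × ℕ)) × (List (ℕ × ℕ) × ℕ)) × ℕ =>
      (r.1.1, (r.1.2.1.take (r.2 + 1), r.1.2.2))) (InF.of_primrec ?_)
    exact Primrec.pair (Primrec.fst.comp Primrec.fst) (Primrec.pair
      (Primrec.list_take.comp (Primrec.succ.comp Primrec.snd)
        (Primrec.fst.comp (Primrec.snd.comp Primrec.fst)))
      (Primrec.snd.comp (Primrec.snd.comp Primrec.fst)))
  -- the rest as a function of the data and the truncation index
  have hm : InF j (fun q : (List (List (ℕ × ℕ)) × (List (ℕ × ℕ) × ℕ)) × ℕ =>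
      bfind (q.1.2.2 + 1) (fun m => !((ran (q.1.2.1.take q.2)).elem m) &&
        good ar a g e (Hh g q.1.1) (q.1.2.1.take q.2 ++ [(mex (dom (q.1.2.1.take q.2)), m)])
          q.1.2.2)) := by
    refine InF.bfind (n := fun q : (List (List (ℕ × ℕ)) × (List (ℕ × ℕ) × ℕ)) × ℕ => q.1.2.2 + 1)
      (f := fun r => !((ran (r.1.1.2.1.take r.1.2)).elem r.2) &&
        good ar a g e (Hh g r.1.1.1)
          (r.1.1.2.1.take r.1.2 ++ [(mex (dom (r.1.1.2.1.take r.1.2)), r.2)]) r.1.1.2.2)
      (InF.of_primrec (Primrec.succ.comp (Primrec.snd.comp (Primrec.snd.comp Primrec.fst)))) ?_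
    have hT : Primrec (fun r : ((List (List (ℕ × ℕ)) × (List (ℕ × ℕ) × ℕ)) × ℕ) × ℕ =>
        r.1.1.2.1.take r.1.2) :=
      Primrec.list_take.comp (Primrec.snd.comp Primrec.fst)
        (Primrec.fst.comp (Primrec.snd.comp (Primrec.fst.comp Primrec.fst)))
    refine InF.and (f := fun r : ((List (List (ℕ × ℕ)) × (List (ℕ × ℕ) × ℕ)) × ℕ) × ℕ =>
      !((ran (r.1.1.2.1.take r.1.2)).elem r.2)) ?_ ?_
    · exact InF.of_primrec (Primrec.not.comp (primrec_elem.comp (primrec_ran.comp hT) Primrec.snd))
    · refine hgood.comp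
        (g := fun r : ((List (List (ℕ × ℕ)) × (List (ℕ × ℕ) × ℕ)) × ℕ) × ℕ =>
          (r.1.1.1, (r.1.1.2.1.take r.1.2 ++ [(mex (dom (r.1.1.2.1.take r.1.2)), r.2)],
            r.1.1.2.2))) (InF.of_primrec ?_)
      refine Primrec.pair (Primrec.fst.comp (Primrec.fst.comp Primrec.fst)) (Primrec.pair ?_
        (Primrec.snd.comp (Primrec.snd.comp (Primrec.fst.comp Primrec.fst))))
      exact Primrec.list_append.comp hT (Primrec.list_cons.comp (Primrec.pair
        (primrec_mex.comp (primrec_dom.comp hT)) Primrec.snd) (Primrec.const []))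
  have hrest : Primrec (fun q : ((List (List (ℕ × ℕ)) × (List (ℕ × ℕ) × ℕ)) × ℕ) × ℕ =>
      bif (q.1.2 % 2 == 0) then q.1.1.2.1.take q.1.2 ++ [(q.1.1.2.2, mex (ran (q.1.1.2.1.take q.1.2)))]
      else bif (decide (mex (dom (q.1.1.2.1.take q.1.2)) < q.1.1.2.2) &&
        decide (q.2 < q.1.1.2.2 + 1)) then
          q.1.1.2.1.take q.1.2 ++ [(mex (dom (q.1.1.2.1.take q.1.2)), q.2)]
        else q.1.1.2.1.take q.1.2) := by
    have hT : Primrec (fun r : ((List (List (ℕ × ℕ)) × (List (ℕ × ℕ) × ℕ)) × ℕ) × ℕ =>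
        r.1.1.2.1.take r.1.2) :=
      Primrec.list_take.comp (Primrec.snd.comp Primrec.fst)
        (Primrec.fst.comp (Primrec.snd.comp (Primrec.fst.comp Primrec.fst)))
    have hs : Primrec (fun r : ((List (List (ℕ × ℕ)) × (List (ℕ × ℕ) × ℕ)) × ℕ) × ℕ =>
        r.1.1.2.2) := Primrec.snd.comp (Primrec.snd.comp (Primrec.fst.comp Primrec.fst))
    refine Primrec.cond ?_ ?_ (Primrec.cond ?_ ?_ hT)
    · exact Primrec.beq.comp (Primrec.nat_mod.comp (Primrec.snd.comp Primrec.fst)
        (Primrec.const 2)) (Primrec.const 0)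
    · exact Primrec.list_append.comp hT (Primrec.list_cons.comp (Primrec.pair hs
        (primrec_mex.comp (primrec_ran.comp hT))) (Primrec.const []))
    · exact Primrec.and.comp (Primrec.nat_lt.decide.comp (primrec_mex.comp
        (primrec_dom.comp hT)) hs) (Primrec.nat_lt.decide.comp Primrec.snd (Primrec.succ.comp hs))
    · exact Primrec.list_append.comp hT (Primrec.list_cons.comp (Primrec.pair
        (primrec_mex.comp (primrec_dom.comp hT)) Primrec.snd) (Primrec.const []))
  set K : List (List (ℕ × ℕ)) × (List (ℕ × ℕ) × ℕ) → ℕ := fun p =>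
    bfind p.2.1.length (fun k => !(good ar a g e (Hh g p.1) (p.2.1.take (k + 1)) p.2.2)) with hK
  set Mm : (List (List (ℕ × ℕ)) × (List (ℕ × ℕ) × ℕ)) × ℕ → ℕ := fun q =>
      bfind (q.1.2.2 + 1) (fun m => !((ran (q.1.2.1.take q.2)).elem m) &&
        good ar a g e (Hh g q.1.1) (q.1.2.1.take q.2 ++ [(mex (dom (q.1.2.1.take q.2)), m)])
          q.1.2.2) with hMm
  have h2 : InF j (fun p => Mm (p, K p)) := InF.comp (g := fun p => (p, K p)) hm (InF.id.pair hk)
  have h1 := InF.comp (g := fun p => ((p, K p), Mm (p, K p))) (InF.of_primrec hrest)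
    (InF.pair (InF.id.pair hk) h2)
  refine h1.of_eq fun p => ?_
  rfl

include hg he in
theorem inF_hist : InF j (hist ar a g e) := by
  obtain ⟨G, hG⟩ : ∃ G : ℕ × ℕ × List (List (ℕ × ℕ)) → List (List (ℕ × ℕ)), ∀ q, G q =
      q.2.2 ++ [next ar a g e (Hh g q.2.2) (q.2.2.getD q.2.1 []) q.2.1] := ⟨_, fun q => rfl⟩
  have hGF : InF j G := by
    refine InF.of_eq ?_ (fun q => (hG q).symm)
    have h3 : InF j (fun q : ℕ × ℕ × List (List (ℕ × ℕ)) =>
        next ar a g e (Hh g q.2.2) (q.2.2.getD q.2.1 []) q.2.1) := by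
      refine (inF_next ar a g e hg he).comp
        (g := fun q : ℕ × ℕ × List (List (ℕ × ℕ)) => (q.2.2, (q.2.2.getD q.2.1 [], q.2.1)))
        (InF.of_primrec ?_)
      exact Primrec.pair (Primrec.snd.comp Primrec.snd) (Primrec.pair
        ((Primrec.list_getD []).comp (Primrec.snd.comp Primrec.snd) (Primrec.fst.comp Primrec.snd))
        (Primrec.fst.comp Primrec.snd))
    have h4 : Primrec₂ (fun (l : List (List (ℕ × ℕ))) (x : List (ℕ × ℕ)) => l ++ [x]) :=
      Primrec.list_concat
    exact InF.prim₂ (f := fun (l : List (List (ℕ × ℕ))) (x : List (ℕ × ℕ)) => l ++ [x])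
      h4 (InF.snd.comp InF.snd) h3
  have h1 := InF.nat_rec (n := fun s : ℕ => s) (f := fun _ => ([[]] : List (List (ℕ × ℕ))))
    (g := G) InF.id (InF.const _) hGF
  refine h1.of_eq fun s => ?_
  have key : ∀ n, Nat.rec (motive := fun _ => List (List (ℕ × ℕ))) [[]]
      (fun y IH => G (s, y, IH)) n = hist ar a g e n := by
    intro n
    induction n with
    | zero => rfl
    | succ n ih =>
      show G (s, n, _) = _
      rw [ih, hG, hist_succ]
      rfl
  exact key s

include hg he in
theorem inF_H : InF j (H ar a g e) := by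
  refine (inF_Hh g hg).comp (InF.pair ?_ InF.id)
  exact (inF_hist ar a g e hg he).comp (InF.of_primrec (Primrec.succ.comp (primrec_lmax.comp
    Primrec.snd)))

end complexity

end Pool.Agent.Arith67.Jump
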