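import Pool.Agent.Arith67.Codes
import Pool.Agent.Arith67.JumpDef

/-!
Evaluation of bounded codes and of prenex codes in the standard model.
-/

namespace Pool.Agent.Arith67

open FirstOrder FirstOrder.Language Filter

attribute [local instance] stdNat

theorem std_Z : Z ℕ = 0 := rfl
theorem std_Sc (x : ℕ) : Sc x = x + 1 := rfl
theorem std_Ad (x y : ℕ) : Ad x y = x + y := rfl
theorem std_Mu (x y : ℕ) : Mu x y = x * y := rfl
theorem std_Lt (x y : ℕ) : Lt x y ↔ x < y := Iff.rfl
theorem std_get (l : List ℕ) (i : ℕ) : get l i = l.getD i 0 := rfl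

/-- Recursive calls. -/
def calls (p : ℕ × List ℕ) : List (ℕ × List ℕ) :=
  bif (p.1 == 0) then []
  else bif ((p.1 - 1) % 9 == 2) then
    [((Nat.unpair ((p.1 - 1) / 9)).1, p.2), ((Nat.unpair ((p.1 - 1) / 9)).2, p.2)]
  else bif ((p.1 - 1) % 9 == 4) then
    ((Nat.unpair ((p.1 - 1) / 9)).2, p.2) ::
      (List.range (p.2.getD (Nat.unpair ((p.1 - 1) / 9)).1 0)).map
        (fun x => ((Nat.unpair ((p.1 - 1) / 9)).2, p.2 ++ [x]))
  else bif ((p.1 - 1) % 9 == 5) then [((p.1 - 1) / 9, p.2 ++ [0])]
  else bif ((p.1 - 1) % 9 == 6) then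
    [((Nat.unpair ((p.1 - 1) / 9)).2, p.2 ++ [p.2.getD (Nat.unpair ((p.1 - 1) / 9)).1 0 + 1])]
  else bif ((p.1 - 1) % 9 == 7) then
    [((Nat.unpair (Nat.unpair ((p.1 - 1) / 9)).2).2,
      p.2 ++ [p.2.getD (Nat.unpair ((p.1 - 1) / 9)).1 0 +
        p.2.getD (Nat.unpair (Nat.unpair ((p.1 - 1) / 9)).2).1 0])]
  else bif ((p.1 - 1) % 9 == 8) then
    [((Nat.unpair (Nat.unpair ((p.1 - 1) / 9)).2).2,
      p.2 ++ [p.2.getD (Nat.unpair ((p.1 - 1) / 9)).1 0 *
        p.2.getD (Nat.unpair (Nat.unpair ((p.1 - 1) / 9)).2).1 0])]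
  else []

theorem primrec_calls : Primrec calls := by
  have d : Primrec (fun p : ℕ × List ℕ => (p.1 - 1) / 9) :=
    Primrec.nat_div.comp (Primrec.pred.comp Primrec.fst) (Primrec.const 9)
  have t : Primrec (fun p : ℕ × List ℕ => (p.1 - 1) % 9) :=
    Primrec.nat_mod.comp (Primrec.pred.comp Primrec.fst) (Primrec.const 9)
  have d1 : Primrec (fun p : ℕ × List ℕ => (Nat.unpair ((p.1 - 1) / 9)).1) :=
    Primrec.fst.comp (Primrec.unpair.comp d)
  have d2 : Primrec (fun p : ℕ × List ℕ => (Nat.unpair ((p.1 - 1) / 9)).2) :=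
    Primrec.snd.comp (Primrec.unpair.comp d)
  have d3 : Primrec (fun p : ℕ × List ℕ => (Nat.unpair (Nat.unpair ((p.1 - 1) / 9)).2).1) :=
    Primrec.fst.comp (Primrec.unpair.comp d2)
  have d4 : Primrec (fun p : ℕ × List ℕ => (Nat.unpair (Nat.unpair ((p.1 - 1) / 9)).2).2) :=
    Primrec.snd.comp (Primrec.unpair.comp d2)
  have g1 : Primrec (fun p : ℕ × List ℕ => p.2.getD (Nat.unpair ((p.1 - 1) / 9)).1 0) :=
    (Primrec.list_getD 0).comp Primrec.snd d1
  have g3 : Primrec (fun p : ℕ × List ℕ =>
      p.2.getD (Nat.unpair (Nat.unpair ((p.1 - 1) / 9)).2).1 0) :=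
    (Primrec.list_getD 0).comp Primrec.snd d3
  have sing : ∀ {f : ℕ × List ℕ → ℕ × List ℕ}, Primrec f → Primrec (fun p => [f p]) :=
    fun hf => Primrec.list_cons.comp hf (Primrec.const [])
  have ap : ∀ {f : ℕ × List ℕ → ℕ}, Primrec f → Primrec (fun p : ℕ × List ℕ => p.2 ++ [f p]) :=
    fun hf => Primrec.list_append.comp Primrec.snd (Primrec.list_cons.comp hf (Primrec.const []))
  have tg : ∀ k : ℕ, Primrec (fun p : ℕ × List ℕ => ((p.1 - 1) % 9 == k)) :=
    fun k => Primrec.beq.comp t (Primrec.const k)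
  refine Primrec.cond (Primrec.beq.comp Primrec.fst (Primrec.const 0)) (Primrec.const _) ?_
  refine Primrec.cond (tg 2) (Primrec.list_cons.comp (d1.pair Primrec.snd)
    (sing (d2.pair Primrec.snd))) ?_
  refine Primrec.cond (tg 4) (Primrec.list_cons.comp (d2.pair Primrec.snd) ?_) ?_
  · refine Primrec.list_map (g := fun (p : ℕ × List ℕ) (x : ℕ) =>
      ((Nat.unpair ((p.1 - 1) / 9)).2, p.2 ++ [x])) (Primrec.list_range.comp g1) ?_
    exact ((d2.comp Primrec.fst).pair (Primrec.list_append.comp (Primrec.snd.comp Primrec.fst)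
      (Primrec.list_cons.comp Primrec.snd (Primrec.const [])))).to₂
  refine Primrec.cond (tg 5) (sing (d.pair (ap (Primrec.const 0)))) ?_
  refine Primrec.cond (tg 6) (sing (d2.pair (ap (Primrec.succ.comp g1)))) ?_
  refine Primrec.cond (tg 7) (sing (d4.pair (ap (Primrec.nat_add.comp g1 g3)))) ?_
  exact Primrec.cond (tg 8) (sing (d4.pair (ap (Primrec.nat_mul.comp g1 g3)))) (Primrec.const _)

/-- Combination of the results of the calls. -/
def comb (p : ℕ × List ℕ) (r : List (Bool × Bool)) : Bool × Bool :=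
  bif (p.1 == 0) then (true, false)
  else bif ((p.1 - 1) % 9 == 0) then
    (true, p.2.getD (Nat.unpair ((p.1 - 1) / 9)).1 0 == p.2.getD (Nat.unpair ((p.1 - 1) / 9)).2 0)
  else bif ((p.1 - 1) % 9 == 1) then
    (true, decide (p.2.getD (Nat.unpair ((p.1 - 1) / 9)).1 0 <
      p.2.getD (Nat.unpair ((p.1 - 1) / 9)).2 0))
  else bif ((p.1 - 1) % 9 == 2) then
    ((r.getD 0 (false, false)).1 && (r.getD 1 (false, false)).1,
      ((r.getD 0 (false, false)).1 && (r.getD 1 (false, false)).1) &&
      (!(r.getD 0 (false, false)).2 || (r.getD 1 (false, false)).2))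
  else bif ((p.1 - 1) % 9 == 3) then (false, false)
  else bif ((p.1 - 1) % 9 == 4) then
    ((r.getD 0 (false, false)).1, (r.getD 0 (false, false)).1 &&
      r.tail.foldr (fun q b => q.2 && b) true)
  else r.getD 0 (false, false)

theorem primrec_comb : Primrec₂ comb := by
  have d : Primrec (fun p : (ℕ × List ℕ) × List (Bool × Bool) => (p.1.1 - 1) / 9) :=
    Primrec.nat_div.comp (Primrec.pred.comp (Primrec.fst.comp Primrec.fst)) (Primrec.const 9)
  have t : Primrec (fun p : (ℕ × List ℕ) × List (Bool × Bool) => (p.1.1 - 1) % 9) :=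
    Primrec.nat_mod.comp (Primrec.pred.comp (Primrec.fst.comp Primrec.fst)) (Primrec.const 9)
  have l : Primrec (fun p : (ℕ × List ℕ) × List (Bool × Bool) => p.1.2) :=
    Primrec.snd.comp Primrec.fst
  have g1 : Primrec (fun p : (ℕ × List ℕ) × List (Bool × Bool) =>
      p.1.2.getD (Nat.unpair ((p.1.1 - 1) / 9)).1 0) :=
    (Primrec.list_getD 0).comp l (Primrec.fst.comp (Primrec.unpair.comp d))
  have g2 : Primrec (fun p : (ℕ × List ℕ) × List (Bool × Bool) =>
      p.1.2.getD (Nat.unpair ((p.1.1 - 1) / 9)).2 0) :=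
    (Primrec.list_getD 0).comp l (Primrec.snd.comp (Primrec.unpair.comp d))
  have tg : ∀ k : ℕ, Primrec (fun p : (ℕ × List ℕ) × List (Bool × Bool) =>
      ((p.1.1 - 1) % 9 == k)) := fun k => Primrec.beq.comp t (Primrec.const k)
  have r0 : Primrec (fun p : (ℕ × List ℕ) × List (Bool × Bool) => p.2.getD 0 (false, false)) :=
    (Primrec.list_getD _).comp Primrec.snd (Primrec.const 0)
  have r1 : Primrec (fun p : (ℕ × List ℕ) × List (Bool × Bool) => p.2.getD 1 (false, false)) :=
    (Primrec.list_getD _).comp Primrec.snd (Primrec.const 1)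
  have r01 := Primrec.and.comp (Primrec.fst.comp r0) (Primrec.fst.comp r1)
  unfold comb
  refine Primrec.cond (Primrec.beq.comp (Primrec.fst.comp Primrec.fst) (Primrec.const 0))
    (Primrec.const _) ?_
  refine Primrec.cond (tg 0) ((Primrec.const true).pair (Primrec.beq.comp g1 g2)) ?_
  refine Primrec.cond (tg 1) ((Primrec.const true).pair (Primrec.nat_lt.decide.comp g1 g2)) ?_
  refine Primrec.cond (tg 2) (r01.pair (Primrec.and.comp r01
    (Primrec.or.comp (Primrec.not.comp (Primrec.snd.comp r0)) (Primrec.snd.comp r1)))) ?_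
  refine Primrec.cond (tg 3) (Primrec.const _) ?_
  refine Primrec.cond (tg 4) ((Primrec.fst.comp r0).pair (Primrec.and.comp (Primrec.fst.comp r0)
    ?_)) r0
  exact Primrec.list_foldr (h := fun (p : (ℕ × List ℕ) × List (Bool × Bool))
    (q : (Bool × Bool) × Bool) => q.1.2 && q.2) (Primrec.list_tail.comp Primrec.snd)
    (Primrec.const true) (Primrec.and.comp (Primrec.snd.comp (Primrec.fst.comp Primrec.snd))
      (Primrec.snd.comp Primrec.snd)).to₂

section bdinv

theorem bd_all (a : ℕ) : ¬ Bd (allC a) := by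
  intro h
  generalize hn : allC a = n at h
  have h1 : (n - 1) % 9 = 3 := by rw [← hn]; exact mk_tag (by omega)
  have h2 : n ≠ 0 := by rw [← hn]; exact mk_ne _ _
  cases h with
  | fal => exact h2 rfl
  | eq i j => rw [eqC, mk_tag (by omega)] at h1; omega
  | lt i j => rw [ltC, mk_tag (by omega)] at h1; omega
  | imp _ _ => rw [impC, mk_tag (by omega)] at h1; omega
  | ball i _ => rw [ballC, mk_tag (by omega)] at h1; omega
  | z _ => rw [zC, mk_tag (by omega)] at h1; omega
  | s i _ => rw [sC, mk_tag (by omega)] at h1; omega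
  | add i j _ => rw [addC, mk_tag (by omega)] at h1; omega
  | mul i j _ => rw [mulC, mk_tag (by omega)] at h1; omega

/-- What a bounded code looks like. -/
theorem bd_cases {n : ℕ} (h : Bd n) : n = 0 ∨ ((n - 1) % 9 = 0) ∨ ((n - 1) % 9 = 1) ∨
    ((n - 1) % 9 = 2 ∧ Bd (Nat.unpair ((n - 1) / 9)).1 ∧ Bd (Nat.unpair ((n - 1) / 9)).2) ∨
    ((n - 1) % 9 = 4 ∧ Bd (Nat.unpair ((n - 1) / 9)).2) ∨
    ((n - 1) % 9 = 5 ∧ Bd ((n - 1) / 9)) ∨
    ((n - 1) % 9 = 6 ∧ Bd (Nat.unpair ((n - 1) / 9)).2) ∨
    ((n - 1) % 9 = 7 ∧ Bd (Nat.unpair (Nat.unpair ((n - 1) / 9)).2).2) ∨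
    ((n - 1) % 9 = 8 ∧ Bd (Nat.unpair (Nat.unpair ((n - 1) / 9)).2).2) := by
  cases h with
  | fal => exact Or.inl rfl
  | eq i j => right; left; rw [eqC, mk_tag (by omega)]
  | lt i j => right; right; left; rw [ltC, mk_tag (by omega)]
  | imp h1 h2 =>
    right; right; right; left
    rw [impC, mk_tag (by omega), mk_data (by omega), Nat.unpair_pair]
    exact ⟨rfl, h1, h2⟩
  | ball i h1 =>
    right; right; right; right; left
    rw [ballC, mk_tag (by omega), mk_data (by omega), Nat.unpair_pair]
    exact ⟨rfl, h1⟩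
  | z h1 =>
    right; right; right; right; right; left
    rw [zC, mk_tag (by omega), mk_data (by omega)]
    exact ⟨rfl, h1⟩
  | s i h1 =>
    right; right; right; right; right; right; left
    rw [sC, mk_tag (by omega), mk_data (by omega), Nat.unpair_pair]
    exact ⟨rfl, h1⟩
  | add i j h1 =>
    right; right; right; right; right; right; right; left
    rw [addC, mk_tag (by omega), mk_data (by omega), Nat.unpair_pair, Nat.unpair_pair]
    exact ⟨rfl, h1⟩
  | mul i j h1 =>
    right; right; right; right; right; right; right; right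
    rw [mulC, mk_tag (by omega), mk_data (by omega), Nat.unpair_pair, Nat.unpair_pair]
    exact ⟨rfl, h1⟩

theorem bd_imp {a b : ℕ} : Bd (impC a b) ↔ Bd a ∧ Bd b := by
  constructor
  · intro h
    have h1 := bd_cases h
    rw [impC, mk_tag (by omega), mk_data (by omega), Nat.unpair_pair] at h1
    rcases h1 with h1 | h1 | h1 | ⟨_, h2⟩ | ⟨h1, _⟩ | ⟨h1, _⟩ | ⟨h1, _⟩ | ⟨h1, _⟩ | ⟨h1, _⟩
    · exact absurd h1 (mk_ne _ _)
    · omega
    · omega
    · exact h2
    all_goals omega
  · rintro ⟨h1, h2⟩
    exact Bd.imp h1 h2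

theorem bd_ball {i a : ℕ} : Bd (ballC i a) ↔ Bd a := by
  constructor
  · intro h
    have h1 := bd_cases h
    rw [ballC, mk_tag (by omega), mk_data (by omega), Nat.unpair_pair] at h1
    rcases h1 with h1 | h1 | h1 | ⟨h1, _⟩ | ⟨_, h2⟩ | ⟨h1, _⟩ | ⟨h1, _⟩ | ⟨h1, _⟩ | ⟨h1, _⟩
    · exact absurd h1 (mk_ne _ _)
    · omega
    · omega
    · omega
    · exact h2
    all_goals omega
  · exact Bd.ball i

theorem bd_z {a : ℕ} : Bd (zC a) ↔ Bd a := by
  constructor
  · intro h
    have h1 := bd_cases h
    rw [zC, mk_tag (by omega), mk_data (by omega)] at h1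
    rcases h1 with h1 | h1 | h1 | ⟨h1, _⟩ | ⟨h1, _⟩ | ⟨_, h2⟩ | ⟨h1, _⟩ | ⟨h1, _⟩ | ⟨h1, _⟩
    · exact absurd h1 (mk_ne _ _)
    · omega
    · omega
    · omega
    · omega
    · exact h2
    all_goals omega
  · exact Bd.z

theorem bd_s {i a : ℕ} : Bd (sC i a) ↔ Bd a := by
  constructor
  · intro h
    have h1 := bd_cases h
    rw [sC, mk_tag (by omega), mk_data (by omega), Nat.unpair_pair] at h1
    rcases h1 with h1 | h1 | h1 | ⟨h1, _⟩ | ⟨h1, _⟩ | ⟨h1, _⟩ | ⟨_, h2⟩ | ⟨h1, _⟩ | ⟨h1, _⟩
    · exact absurd h1 (mk_ne _ _)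
    · omega
    · omega
    · omega
    · omega
    · omega
    · exact h2
    all_goals omega
  · exact Bd.s i

theorem bd_add {i j a : ℕ} : Bd (addC i j a) ↔ Bd a := by
  constructor
  · intro h
    have h1 := bd_cases h
    rw [addC, mk_tag (by omega), mk_data (by omega), Nat.unpair_pair, Nat.unpair_pair] at h1
    rcases h1 with h1 | h1 | h1 | ⟨h1, _⟩ | ⟨h1, _⟩ | ⟨h1, _⟩ | ⟨h1, _⟩ | ⟨_, h2⟩ | ⟨h1, _⟩
    · exact absurd h1 (mk_ne _ _)
    · omega
    · omega
    · omega
    · omega
    · omega
    · omega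
    · exact h2
    all_goals omega
  · exact Bd.add i j

theorem bd_mul {i j a : ℕ} : Bd (mulC i j a) ↔ Bd a := by
  constructor
  · intro h
    have h1 := bd_cases h
    rw [mulC, mk_tag (by omega), mk_data (by omega), Nat.unpair_pair, Nat.unpair_pair] at h1
    rcases h1 with h1 | h1 | h1 | ⟨h1, _⟩ | ⟨h1, _⟩ | ⟨h1, _⟩ | ⟨h1, _⟩ | ⟨h1, _⟩ | ⟨_, h2⟩
    · exact absurd h1 (mk_ne _ _)
    all_goals first | exact h2 | omega
  · exact Bd.mul i j

end bdinv

open Classical in
/-- Boundedness and truth. -/
noncomputable def bt (p : ℕ × List ℕ) : Bool × Bool :=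
  (decide (Bd p.1), decide (Bd p.1 ∧ Sat p.1 p.2))

theorem mk_beq (t d : ℕ) : (mk t d == 0) = false := by
  simpa using mk_ne t d

theorem calls_comb (n : ℕ) (l : List ℕ) : comb (n, l) ((calls (n, l)).map bt) = bt (n, l) := by
  induction n using code_induction with
  | h0 =>
    simp [comb, calls, bt, Bd.fal, sat_zero]
  | h1 i j =>
    have e1 : comb (eqC i j, l) ((calls (eqC i j, l)).map bt) =
        (true, l.getD i 0 == l.getD j 0) := by
      simp [comb, calls, eqC, mk_tag, mk_data, mk_beq]
    rw [e1]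
    simp only [bt, Bd.eq, sat_eq, true_and, decide_true, std_get]
    rfl
  | h2 i j =>
    have e1 : comb (ltC i j, l) ((calls (ltC i j, l)).map bt) =
        (true, decide (l.getD i 0 < l.getD j 0)) := by
      simp [comb, calls, ltC, mk_tag, mk_data, mk_beq]
    rw [e1]
    simp only [bt, Bd.lt, sat_lt, true_and, decide_true, std_get, std_Lt]
  | h3 a b _ _ =>
    have e1 : comb (impC a b, l) ((calls (impC a b, l)).map bt) =
        ((bt (a, l)).1 && (bt (b, l)).1, ((bt (a, l)).1 && (bt (b, l)).1) &&
          (!(bt (a, l)).2 || (bt (b, l)).2)) := by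
      simp [comb, calls, impC, mk_tag, mk_data, mk_beq]
    rw [e1]
    unfold bt
    by_cases h1 : Bd a <;> by_cases h2 : Bd b <;> by_cases h3 : Sat a l <;>
      by_cases h4 : Sat b l <;> simp [h1, h2, h3, h4, bd_imp, sat_imp]
  | h4 a _ =>
    have e1 : comb (allC a, l) ((calls (allC a, l)).map bt) = (false, false) := by
      simp [comb, calls, allC, mk_tag, mk_data, mk_beq]
    rw [e1]
    simp [bt, bd_all]
  | h5 i a _ =>
    have e1 : comb (ballC i a, l) ((calls (ballC i a, l)).map bt) =
        ((bt (a, l)).1, (bt (a, l)).1 && ((List.range (l.getD i 0)).map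
          (fun x => bt (a, l ++ [x]))).foldr (fun q b => q.2 && b) true) := by
      simp [comb, calls, ballC, mk_tag, mk_data, mk_beq, List.map_map]
      rfl
    have e2 : ∀ L : List (Bool × Bool), L.foldr (fun q b => q.2 && b) true =
        L.all (fun q => q.2) := by
      intro L
      induction L with
      | nil => rfl
      | cons q L ih => simp only [List.foldr_cons, ih, List.all_cons]
    rw [e1, e2]
    unfold bt
    by_cases h1 : Bd a
    · simp [h1, bd_ball, List.all_map]
      rw [Bool.eq_iff_iff]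
      simp [h1]
      rw [bd_ball, sat_ball]
      simp [h1, std_Lt, std_get]
    · simp [h1, bd_ball]
  | h6 a _ =>
    have e1 : comb (zC a, l) ((calls (zC a, l)).map bt) = bt (a, l ++ [0]) := by
      simp [comb, calls, zC, mk_tag, mk_data, mk_beq]
    rw [e1]
    unfold bt
    simp [bd_z, sat_z, std_Z]
  | h7 i a _ =>
    have e1 : comb (sC i a, l) ((calls (sC i a, l)).map bt) = bt (a, l ++ [l.getD i 0 + 1]) := by
      simp [comb, calls, sC, mk_tag, mk_data, mk_beq]
    rw [e1]
    unfold bt
    simp [bd_s, sat_s, std_Sc, std_get]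
  | h8 i j a _ =>
    have e1 : comb (addC i j a, l) ((calls (addC i j a, l)).map bt) =
        bt (a, l ++ [l.getD i 0 + l.getD j 0]) := by
      simp [comb, calls, addC, mk_tag, mk_data, mk_beq]
    rw [e1]
    unfold bt
    simp [bd_add, sat_add, std_Ad, std_get]
  | h9 i j a _ =>
    have e1 : comb (mulC i j a, l) ((calls (mulC i j a, l)).map bt) =
        bt (a, l ++ [l.getD i 0 * l.getD j 0]) := by
      simp [comb, calls, mulC, mk_tag, mk_data, mk_beq]
    rw [e1]
    unfold bt
    simp [bd_mul, sat_mul, std_Mu, std_get]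

theorem calls_lt (p : ℕ × List ℕ) : ∀ q ∈ calls p, q.1 < p.1 := by
  obtain ⟨n, l⟩ := p
  intro q hq
  show q.1 < n
  rcases Nat.eq_zero_or_pos n with rfl | hn
  · simp [calls] at hq
  · have h1 := Nat.unpair_left_le ((n - 1) / 9)
    have h2 := Nat.unpair_right_le ((n - 1) / 9)
    have h3 := Nat.unpair_right_le (Nat.unpair ((n - 1) / 9)).2
    have h4 : (n == 0) = false := by simpa using (by omega : n ≠ 0)
    unfold calls at hq
    simp only [h4, cond_false] at hq
    have h5 : (n - 1) / 9 < n := by omega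
    have : (n - 1) % 9 < 9 := Nat.mod_lt _ (by omega)
    rcases hb2 : ((n - 1) % 9 == 2) with _ | _
    · simp only [hb2, cond_false] at hq
      rcases hb4 : ((n - 1) % 9 == 4) with _ | _
      · simp only [hb4, cond_false] at hq
        rcases hb5 : ((n - 1) % 9 == 5) with _ | _
        · simp only [hb5, cond_false] at hq
          rcases hb6 : ((n - 1) % 9 == 6) with _ | _
          · simp only [hb6, cond_false] at hq
            rcases hb7 : ((n - 1) % 9 == 7) with _ | _
            · simp only [hb7, cond_false] at hq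
              rcases hb8 : ((n - 1) % 9 == 8) with _ | _
              · simp only [hb8, cond_false] at hq
                simp at hq
              · simp only [hb8, cond_true, List.mem_singleton] at hq
                rw [hq]
                show (Nat.unpair (Nat.unpair ((n - 1) / 9)).2).2 < n
                omega
            · simp only [hb7, cond_true, List.mem_singleton] at hq
              rw [hq]
              show (Nat.unpair (Nat.unpair ((n - 1) / 9)).2).2 < n
              omega
          · simp only [hb6, cond_true, List.mem_singleton] at hq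
            rw [hq]
            show (Nat.unpair ((n - 1) / 9)).2 < n
            omega
        · simp only [hb5, cond_true, List.mem_singleton] at hq
          rw [hq]
          exact h5
      · simp only [hb4, cond_true, List.mem_cons, List.mem_map] at hq
        rcases hq with rfl | ⟨x, _, rfl⟩
        · show (Nat.unpair ((n - 1) / 9)).2 < n
          omega
        · show (Nat.unpair ((n - 1) / 9)).2 < n
          omega
    · simp only [hb2, cond_true, List.mem_cons, List.not_mem_nil, or_false] at hq
      rcases hq with rfl | rfl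
      · show (Nat.unpair ((n - 1) / 9)).1 < n
        omega
      · show (Nat.unpair ((n - 1) / 9)).2 < n
        omega

theorem primrec_bt : Primrec bt := by
  refine Primrec.nat_omega_rec' bt (m := fun p => p.1) (l := calls)
    (g := fun p r => some (comb p r)) Primrec.fst primrec_calls
    (Primrec.option_some.comp primrec_comb).to₂ calls_lt ?_
  rintro ⟨n, l⟩
  rw [calls_comb]

theorem inF_bt {j : ℕ} : InF j bt := InF.of_primrec primrec_bt

/-- Negation of a code. -/
def negC (c : ℕ) : ℕ := impC c 0

theorem sat_neg {M : Type} [LPA.Structure M] (c : ℕ) (l : List M) : Sat (negC c) l ↔ ¬ Sat c l := by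
  unfold negC
  rw [sat_imp]
  constructor
  · intro h1 h2
    exact sat_zero l (h1 h2)
  · intro h1 h2
    exact absurd h2 h1

/-- A block of universal quantifiers. -/
def allsC (m c : ℕ) : ℕ := Nat.rec c (fun _ x => allC x) m

theorem allsC_succ (m c : ℕ) : allsC (m + 1) c = allC (allsC m c) := rfl

theorem sat_alls {M : Type} [LPA.Structure M] (m c : ℕ) (l : List M) :
    Sat (allsC m c) l ↔ ∀ x : List M, x.length = m → Sat c (l ++ x) := by
  induction m generalizing l with
  | zero =>
    constructor
    · intro h x hx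
      rw [List.eq_nil_of_length_eq_zero hx, List.append_nil]
      exact h
    · intro h
      have := h [] rfl
      rwa [List.append_nil] at this
  | succ m ih =>
    rw [allsC_succ, sat_all]
    constructor
    · intro h x hx
      rcases x with _ | ⟨y, x⟩
      · simp at hx
      · have h1 := (ih (l ++ [y])).mp (h y) x (by simpa using hx)
        rwa [List.append_assoc] at h1
    · intro h y
      rw [ih]
      intro x hx
      rw [List.append_assoc]
      exact h (y :: x) (by simp [hx])

/-- Prenex codes: `k` blocks with sizes `ms` and matrix `a`. -/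
def cd (k : ℕ) (ms : List ℕ) (a : ℕ) : ℕ :=
  Nat.rec (motive := fun _ => List ℕ → ℕ) (fun _ => a)
    (fun _ IH ms => allsC (ms.headD 0) (negC (IH ms.tail))) k ms

theorem cd_zero (ms : List ℕ) (a : ℕ) : cd 0 ms a = a := rfl

theorem cd_succ (k : ℕ) (ms : List ℕ) (a : ℕ) :
    cd (k + 1) ms a = allsC (ms.headD 0) (negC (cd k ms.tail a)) := rfl

theorem primrec_allsC : Primrec₂ allsC := by
  have h1 : Primrec allC :=
    Primrec.nat_add.comp (Primrec.nat_add.comp (Primrec.nat_mul.comp (Primrec.const 9)
      Primrec.id) (Primrec.const 3)) (Primrec.const 1)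
  exact (Primrec.nat_rec' (f := fun p : ℕ × ℕ => p.1) (g := fun p => p.2)
    (h := fun _ q => allC q.2) Primrec.fst Primrec.snd
    (h1.comp (Primrec.snd.comp Primrec.snd)).to₂)

theorem primrec_impC : Primrec₂ impC :=
  Primrec.nat_add.comp (Primrec.nat_add.comp (Primrec.nat_mul.comp (Primrec.const 9)
      (Primrec₂.natPair.comp Primrec.fst Primrec.snd)) (Primrec.const 2)) (Primrec.const 1)

theorem primrec_negC : Primrec negC := primrec_impC.comp Primrec.id (Primrec.const 0)

theorem primrec_cd (k : ℕ) : Primrec (fun p : List ℕ × ℕ => cd k p.1 p.2) := by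
  induction k with
  | zero => exact Primrec.snd
  | succ k ih =>
    have h1 : Primrec (fun p : List ℕ × ℕ => p.1.headD 0) := by
      refine ((Primrec.list_getD 0).comp Primrec.fst (Primrec.const 0)).of_eq fun p => ?_
      rcases p.1 with _ | ⟨a, l⟩ <;> rfl
    refine primrec_allsC.comp h1 (primrec_negC.comp ?_)
    exact ih.comp (Primrec.pair (Primrec.list_tail.comp Primrec.fst) Primrec.snd)

open Classical in
/-- Truth of prenex codes. -/
noncomputable def TT (k : ℕ) (p : (List ℕ × ℕ) × List ℕ) : Bool :=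
  decide (Bd p.1.2 ∧ Sat (cd k p.1.1 p.1.2) p.2)

theorem inF_TT (k : ℕ) : InF k (TT k) := by
  classical
  induction k with
  | zero =>
    have h1 : InF 0 (fun p : (List ℕ × ℕ) × List ℕ => (bt (p.1.2, p.2)).2) :=
      InF.snd.comp (inF_bt.comp (g := fun p : (List ℕ × ℕ) × List ℕ => (p.1.2, p.2))
        ((InF.snd.comp InF.fst).pair InF.snd))
    exact h1.of_eq fun p => rfl
  | succ k ih =>
    refine ⟨fun q => (bt (q.1.1.2, [])).1 &&
      (Jump.tuples (q.1.1.1.headD 0) (List.range q.2)).all (fun x =>
        !(TT k ((q.1.1.1.tail, q.1.1.2), q.1.2 ++ x))), ?_, ?_⟩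
    · refine InF.and (f := fun q : ((List ℕ × ℕ) × List ℕ) × ℕ => (bt (q.1.1.2, [])).1) ?_ ?_
      · exact InF.fst.comp (inF_bt.comp (g := fun q : ((List ℕ × ℕ) × List ℕ) × ℕ =>
          (q.1.1.2, ([] : List ℕ))) ((InF.snd.comp (InF.fst.comp InF.fst)).pair (InF.const _)))
      · refine InF.listAll (l := fun q : ((List ℕ × ℕ) × List ℕ) × ℕ =>
          Jump.tuples (q.1.1.1.headD 0) (List.range q.2))
          (f := fun r => !(TT k ((r.1.1.1.1.tail, r.1.1.1.2), r.1.1.2 ++ r.2))) ?_ ?_
        · refine InF.of_primrec (Jump.primrec_tuples.comp ?_ (Primrec.list_range.comp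
            Primrec.snd))
          have h1 : Primrec (fun p : List ℕ => p.headD 0) := by
            refine ((Primrec.list_getD 0).comp Primrec.id (Primrec.const 0)).of_eq fun p => ?_
            rcases p with _ | ⟨a, l⟩ <;> rfl
          exact h1.comp (Primrec.fst.comp (Primrec.fst.comp Primrec.fst))
        · refine InF.not (ih.comp (g := fun r : (((List ℕ × ℕ) × List ℕ) × ℕ) × List ℕ =>
            ((r.1.1.1.1.tail, r.1.1.1.2), r.1.1.2 ++ r.2)) (InF.of_primrec ?_))
          refine Primrec.pair (Primrec.pair (Primrec.list_tail.comp (Primrec.fst.comp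
            (Primrec.fst.comp (Primrec.fst.comp Primrec.fst)))) (Primrec.snd.comp
            (Primrec.fst.comp (Primrec.fst.comp Primrec.fst)))) ?_
          exact Primrec.list_append.comp (Primrec.snd.comp (Primrec.fst.comp Primrec.fst))
            Primrec.snd
    · rintro ⟨⟨ms, a⟩, l⟩
      show ∀ᶠ s in atTop, ((bt (a, [])).1 && (Jump.tuples (ms.headD 0) (List.range s)).all
        (fun x => !(TT k ((ms.tail, a), l ++ x)))) = TT (k + 1) ((ms, a), l)
      by_cases ha : Bd a
      · have hb : (bt (a, [])).1 = true := by simp [bt, ha]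
        have hTT : ∀ x, TT k ((ms.tail, a), l ++ x) = decide (Sat (cd k ms.tail a) (l ++ x)) := by
          intro x
          simp [TT, ha]
        by_cases hall : ∀ x : List ℕ, x.length = ms.headD 0 → ¬ Sat (cd k ms.tail a) (l ++ x)
        · have h1 : TT (k + 1) ((ms, a), l) = true := by
            simp only [TT, ha, true_and, decide_eq_true_eq]
            rw [cd_succ, sat_alls]
            intro x hx
            rw [sat_neg]
            exact hall x hx
          refine Filter.Eventually.of_forall fun s => ?_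
          rw [hb, h1, Bool.true_and, List.all_eq_true]
          intro x hx
          rw [hTT]
          simpa using hall x (Jump.mem_tuples.mp hx).1
        · have h1 : TT (k + 1) ((ms, a), l) = false := by
            rw [Bool.eq_false_iff]
            intro hcon
            apply hall
            simp only [TT, ha, true_and, decide_eq_true_eq] at hcon
            rw [cd_succ, sat_alls] at hcon
            intro x hx
            rw [← sat_neg]
            exact hcon x hx
          push Not at hall
          obtain ⟨x, hx, hx'⟩ := hall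
          filter_upwards [Filter.eventually_gt_atTop (Jump.lmax x)] with s hs
          rw [hb, h1, Bool.true_and, Bool.eq_false_iff]
          intro hcon
          have h2 := List.all_eq_true.mp hcon x (Jump.mem_tuples.mpr ⟨hx, fun y hy => by
            simpa using lt_of_le_of_lt (Jump.le_lmax hy) hs⟩)
          rw [hTT] at h2
          simp [hx'] at h2
      · refine Filter.Eventually.of_forall fun s => ?_
        simp [bt, TT, ha]

/-- Parity. -/
theorem cd_parity {c : ℕ} (hc : Bd c) (k : ℕ) : ∀ b : Bool, ∃ a, Bd a ∧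
    ∀ (M : Type) [LPA.Structure M] (l : List M), Sat (cd k [] a) l ↔ (Sat c l ↔ b = true) := by
  induction k with
  | zero =>
    intro b
    cases b
    · refine ⟨negC c, Bd.imp hc Bd.fal, fun M _ l => ?_⟩
      rw [cd_zero, sat_neg]
      simp
    · refine ⟨c, hc, fun M _ l => ?_⟩
      rw [cd_zero]
      simp
  | succ k ih =>
    intro b
    obtain ⟨a, ha, h⟩ := ih (!b)
    refine ⟨a, ha, fun M _ l => ?_⟩
    have h1 : cd (k + 1) [] a = negC (cd k [] a) := rfl
    rw [h1, sat_neg, h M l]
    cases b <;> simp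

theorem default_eq {M : Type} (f : Empty → M) : f = (default : Empty → M) := by
  funext b
  exact b.elim

/-- Bounded formulas have bounded codes. -/
theorem bounded_code {m : ℕ} {φ : LPA.BoundedFormula Empty m} (hφ : IsBounded φ) :
    ∀ (k : ℕ) (pb : Fin m → ℕ), (∀ i, pb i < k) →
    ∃ c, Bd c ∧ ∀ (M : Type) [LPA.Structure M] (l : List M), l.length = k →
      (Sat c l ↔ φ.Realize default (fun i => get l (pb i))) := by
  induction hφ with
  | falsum =>
    intro k pb _
    exact ⟨0, Bd.fal, fun M _ l _ => by simp [sat_zero, BoundedFormula.Realize]⟩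
  | @equal m t u =>
    intro k pb hpb
    obtain ⟨c, hb, hc⟩ := equal_code t u k (Sum.elim Empty.elim pb) (by
      rintro (b | b)
      · exact b.elim
      · exact hpb b)
    refine ⟨c, hb, fun M _ l hl => ?_⟩
    rw [hc M l hl]
    have hv : (fun b => get l ((Sum.elim Empty.elim pb : Empty ⊕ Fin m → ℕ) b)) =
        Sum.elim default (fun i => get l (pb i)) := by
      funext b
      rcases b with b | b
      · exact b.elim
      · rfl
    rw [hv]
    rfl
  | @rel m n R ts =>
    cases R
    intro k pb hpb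
    obtain ⟨c, hb, hc⟩ := lt_code (ts 0) (ts 1) k
      (Sum.elim Empty.elim pb) (by
      rintro (b | b)
      · exact b.elim
      · exact hpb b)
    refine ⟨c, hb, fun M _ l hl => ?_⟩
    rw [hc M l hl]
    have hv : (fun b => get l ((Sum.elim Empty.elim pb : Empty ⊕ Fin m → ℕ) b)) =
        Sum.elim default (fun i => get l (pb i)) := by
      funext b
      rcases b with b | b
      · exact b.elim
      · rfl
    rw [hv]
    show Structure.RelMap (L := LPA) PARel.lt _ ↔ Structure.RelMap (L := LPA) PARel.lt _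
    apply iff_of_eq
    congr 1
    funext j
    fin_cases j <;> rfl
  | @imp m φ ψ _ _ ih1 ih2 =>
    intro k pb hpb
    obtain ⟨c1, hb1, hc1⟩ := ih1 k pb hpb
    obtain ⟨c2, hb2, hc2⟩ := ih2 k pb hpb
    refine ⟨impC c1 c2, Bd.imp hb1 hb2, fun M _ l hl => ?_⟩
    rw [sat_imp, hc1 M l hl, hc2 M l hl]
    rfl
  | @ball m t φ _ ih =>
    intro k pb hpb
    obtain ⟨e, q, F, hq, hF, h⟩ := term_code t k
      (Sum.elim Empty.elim pb) (by
      rintro (b | b)
      · exact b.elim
      · exact hpb b)
    obtain ⟨c, hb, hc⟩ := ih (k + e + 1) (Fin.snoc pb (k + e)) (by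
      intro b
      refine Fin.lastCases ?_ (fun b => ?_) b
      · simp
      · simp only [Fin.snoc_castSucc]
        have := hpb b
        omega)
    refine ⟨F (ballC q c), hF _ (Bd.ball q hb), fun M _ l hl => ?_⟩
    obtain ⟨ext, he, h1, h2⟩ := h M l hl
    have hv : (fun b => get l ((Sum.elim Empty.elim pb : Empty ⊕ Fin m → ℕ) b)) =
        Sum.elim default (fun i => get l (pb i)) := by
      funext b
      rcases b with b | b
      · exact b.elim
      · rfl
    rw [h1, sat_ball, h2, hv, BoundedFormula.realize_all]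
    refine forall_congr' fun x => ?_
    rw [BoundedFormula.realize_imp]
    apply imp_congr
    · show Lt _ _ ↔ Structure.RelMap (L := LPA) PARel.lt _
      unfold Lt
      apply iff_of_eq
      congr 1
      funext j
      fin_cases j
      · simp
      · simp only [Fin.mk_one, Matrix.cons_val_one, Matrix.cons_val_fin_one, Term.realize_relabel]
        congr 1
        funext b
        rcases b with b | b
        · exact b.elim
        · simp
    · rw [hc M (l ++ ext ++ [x]) (by simp [hl, he]; omega)]
      apply iff_of_eq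
      congr 1
      funext b
      refine Fin.lastCases ?_ (fun b => ?_) b
      · simp only [Fin.snoc_last]
        exact get_append_length (by simp [hl, he])
      · simp only [Fin.snoc_castSucc]
        rw [get_append_left (by have := hpb b; simp [hl, he]; omega),
          get_append_left (by rw [hl]; exact hpb b)]

/-- Formulas of the hierarchy have prenex codes. -/
theorem hier_code {b : Bool} {k m : ℕ} {φ : LPA.BoundedFormula Empty m} (hφ : InHier b k φ) :
    ∃ (ms : List ℕ) (a : ℕ), Bd a ∧ ∀ (M : Type) [LPA.Structure M] (l : List M), l.length = m →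
      (Sat (cd k ms a) l ↔ (φ.Realize default (fun i => get l i) ↔ b = true)) := by
  have snoc_get : ∀ {m : ℕ} {M : Type} [LPA.Structure M] (l : List M) (x : M), l.length = m →
      (fun i : Fin (m + 1) => get (l ++ [x]) i) = Fin.snoc (fun i : Fin m => get l i) x := by
    intro m M _ l x hl
    funext b
    refine Fin.lastCases ?_ (fun b => ?_) b
    · simp only [Fin.snoc_last]
      exact get_append_length (by simp [hl])
    · simp only [Fin.snoc_castSucc]
      exact get_append_left (by rw [hl]; exact b.isLt)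
  induction hφ with
  | @base b k m φ hφ =>
    obtain ⟨c, hb, hc⟩ := bounded_code hφ m (fun i => i) (fun i => i.isLt)
    obtain ⟨a, ha, h⟩ := cd_parity hb k b
    refine ⟨[], a, ha, fun M _ l hl => ?_⟩
    rw [h M l, hc M l hl]
  | @all k m φ _ ih =>
    obtain ⟨ms, a, ha, h⟩ := ih
    refine ⟨(ms.headD 0 + 1) :: ms.tail, a, ha, fun M _ l hl => ?_⟩
    have h1 : cd (k + 1) ((ms.headD 0 + 1) :: ms.tail) a = allC (cd (k + 1) ms a) := rfl
    rw [h1, sat_all, BoundedFormula.realize_all]
    simp only [iff_true]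
    refine forall_congr' fun x => ?_
    rw [h M (l ++ [x]) (by simp [hl]), snoc_get l x hl]
    simp
  | @ex k m φ _ ih =>
    obtain ⟨ms, a, ha, h⟩ := ih
    refine ⟨(ms.headD 0 + 1) :: ms.tail, a, ha, fun M _ l hl => ?_⟩
    have h1 : cd (k + 1) ((ms.headD 0 + 1) :: ms.tail) a = allC (cd (k + 1) ms a) := rfl
    rw [h1, sat_all, BoundedFormula.realize_ex]
    simp only [Bool.false_eq_true, iff_false, not_exists]
    refine forall_congr' fun x => ?_
    rw [h M (l ++ [x]) (by simp [hl]), snoc_get l x hl]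
    simp
  | @up b k m φ _ ih =>
    obtain ⟨ms, a, ha, h⟩ := ih
    refine ⟨0 :: ms, a, ha, fun M _ l hl => ?_⟩
    have h1 : cd (k + 1) (0 :: ms) a = negC (cd k ms a) := rfl
    rw [h1, sat_neg, h M l hl]
    cases b <;> simp

end Pool.Agent.Arith67
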