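import Pool.Agent.Arith67.Main
import Pool.Agent.Arith67.Comp

/-!
The arity reduction theorem.
-/

namespace Pool.Agent.Arith67

open FirstOrder FirstOrder.Language

theorem transport_sentence {M N : Type} [LPA.Structure M] [LPA.Structure N] (e : M ≃[LPA] N)
    (σ : LPA.Sentence) : M ⊨ σ ↔ N ⊨ σ := StrongHomClass.realize_sentence e σ

theorem transport_formula {M N : Type} [LPA.Structure M] [LPA.Structure N] (e : M ≃[LPA] N)
    {α : Type} (φ : LPA.Formula α) (v : α → M) : φ.Realize (e ∘ v) ↔ φ.Realize v :=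
  StrongHomClass.realize_formula e φ

theorem transport_main {U : LPA.Theory} {r : ℕ} (hr : 2 ≤ r) {T' : (LOne r).Theory}
    {D' : Defns LPA (LOne r)} {E' : Defns (LOne r) LPA} (hSM' : SameModels U T' D' E')
    (P0 : LPA.Structure ℕ) (hmodU : @Theory.Model LPA ℕ P0 U) (R0 : ℕ → ℕ → Prop)
    (hD0 : @Defns.Holds LPA (LOne r) D' ℕ P0 (oneStr R0 r hr)) (θ : ℕ ≃ ℕ) (R : ℕ → ℕ → Prop)
    (hRθ : ∀ x y, R x y ↔ R0 (θ x) (θ y))
    (hcomp : ComputablePred (fun p : ℕ × ℕ => R p.1 p.2)) (hns : ¬ IsoPA P0 stdNat) :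
    HasCompNonstd U (LOne r) T' := by
  let P1 : LPA.Structure ℕ := @Equiv.inducedStructure LPA ℕ ℕ P0 θ.symm
  let eq1 : @Language.Equiv LPA ℕ ℕ P0 P1 := @Equiv.inducedStructureEquiv LPA ℕ ℕ P0 θ.symm
  have heq1 : ∀ x, eq1 x = θ.symm x := fun x => rfl
  have hU1 : @Theory.Model LPA ℕ P1 U := by
    constructor
    intro σ hσ
    exact (@transport_sentence ℕ ℕ P0 P1 eq1 σ).mp (hmodU.realize_of_mem σ hσ)
  have hD1 : @Defns.Holds LPA (LOne r) D' ℕ P1 (oneStr R r hr) := by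
    refine ⟨fun k Q v => ?_, fun k f => f.elim⟩
    cases Q
    refine (relMap_oneStr R r hr v).trans ?_
    rw [hRθ]
    refine Iff.trans (relMap_oneStr R0 r hr (fun j => θ (v j))).symm ?_
    refine (hD0.1 r OneRel.q (fun j => θ (v j))).trans ?_
    have h3 := @transport_formula ℕ ℕ P0 P1 eq1 (Fin r) (D'.rel OneRel.q) (fun j => θ (v j))
    have h4 : (eq1 ∘ fun j => θ (v j)) = v := by
      funext j
      show eq1 (θ (v j)) = v j
      rw [heq1, Equiv.symm_apply_apply]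
    rw [h4] at h3
    exact h3.symm
  obtain ⟨hT1, hE1⟩ := (@hSM' ℕ _ P1 (oneStr R r hr)).mp ⟨hU1, hD1⟩
  refine ⟨D', E', hSM', oneStr R r hr, P1, ?_, hT1, hE1, ?_⟩
  · intro k Q
    cases Q
    have h2 : ComputablePred (fun v : Fin r → ℕ => R (v ⟨0, by omega⟩) (v ⟨1, by omega⟩)) :=
      cp_comp hcomp ((comp_app ⟨0, by omega⟩).pair (comp_app ⟨1, by omega⟩))
    exact h2.of_eq fun v => (relMap_oneStr R r hr v).symm
  · rintro ⟨f⟩
    apply hns
    exact ⟨@Language.Equiv.comp LPA ℕ ℕ P0 P1 ℕ stdNat f eq1⟩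

/-- Reduction to one relation symbol of arity `r ≥ 2`. -/
theorem reduction {U : LPA.Theory} (hU : ∀ (M : Type) [LPA.Structure M], M ⊨ U → M ⊨ PA)
    {L : FirstOrder.Language.{0,0}} [L.IsRelational] [Finite ((k : ℕ) × L.Relations k)]
    {T : L.Theory} (hT : HasCompNonstd U L T) {r : ℕ} (hr : 2 ≤ r) :
    ∃ T' : (LOne r).Theory, HasCompNonstd U (LOne r) T' := by
  obtain ⟨D, E, hSM, S, P0, hcomp, hmod, hE, hns⟩ := hT
  -- numbers
  obtain ⟨m, hm⟩ : ∃ m : ℕ, ∀ (k : ℕ) (_ : L.Relations k), k ≤ m + 1 := by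
    obtain ⟨m, hm⟩ := (Set.finite_range (fun s : (k : ℕ) × L.Relations k => s.1)).bddAbove
    exact ⟨m, fun k R => le_trans (hm ⟨⟨k, R⟩, rfl⟩) (Nat.le_succ m)⟩
  obtain ⟨nI, hnI⟩ : ∃ nI : ((k : ℕ) × L.Relations k) → ℕ, Function.Injective nI := by
    obtain ⟨n0, ⟨e0⟩⟩ := Finite.exists_equiv_fin ((k : ℕ) × L.Relations k)
    exact ⟨fun s => (e0 s).val, fun a b hab => e0.injective (Fin.ext hab)⟩
  obtain ⟨s, ⟨κE⟩⟩ := Finite.exists_equiv_fin (Kind nI (m + 1))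
  -- the new theory
  obtain ⟨D', E', hDE⟩ := exists_defns (D := D) hSM hU hm hnI κE hr
  have hSM' := sameModels_TI (D := D) hU hm κE hr D' E' hDE
  -- the model of `U`
  obtain ⟨hmodU, hD⟩ : (@Theory.Model LPA ℕ P0 U) ∧ @Defns.Holds LPA L D ℕ P0 S :=
    (@hSM ℕ _ P0 S).mpr ⟨hmod, hE⟩
  have h1 := (hDE ⟨ℕ, P0, S, inferInstance, hmodU, hD⟩).1
  refine ⟨TI hU hm κE hr D, transport_main hr hSM' P0 hmodU _ h1
    ((BS κE).symm.trans (BI hU κE ⟨ℕ, P0, S, inferInstance, hmodU, hD⟩))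
    (fun x y => EG nI (m + 1) (fun t a => S.RelMap t.2
      (fun j : Fin t.1 => a (Fin.castLE (hm t.1 t.2) j))) ((BS κE).symm x) ((BS κE).symm y))
    ?_ ?_ hns⟩
  · intro x y
    unfold RI Rn
    rw [Equiv.trans_apply, Equiv.trans_apply, Equiv.symm_apply_apply, Equiv.symm_apply_apply]
    exact Iff.rfl
  · exact computable_graph κE fun t =>
      cp_comp (hcomp t.1 t.2) (comp_fin fun j => comp_app (Fin.castLE (hm t.1 t.2) j))

/-- The case of `PA` with the true `Pi_n` sentences. -/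
theorem reduction_PATrue (n : ℕ) {L : FirstOrder.Language.{0,0}} [L.IsRelational]
    [Finite ((k : ℕ) × L.Relations k)] {T : L.Theory} (hT : HasCompNonstd (PATrue n) L T)
    {r : ℕ} (hr : 2 ≤ r) : ∃ T' : (LOne r).Theory, HasCompNonstd (PATrue n) (LOne r) T' := by
  refine reduction (fun M _ h => ?_) hT hr
  exact Theory.Model.mono h Set.subset_union_left

end Pool.Agent.Arith67
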