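import Pool.Agent.Arith67.Consts

/-!
The model given by a complete theory with witnesses.
-/

namespace Pool.Agent.Arith67

open FirstOrder FirstOrder.Language Encodable

section

variable {n : ℕ} {ax : List ℕ} {V : ℕ → List ℕ → Bool} (h : Gd n ax V)

include h

theorem EQ_symm {c d : ℕ} (hcd : EQ V c d = true) : EQ V d c = true := by
  have h1 := h.cong c d (eqC 0 1) [] [c] hcd
  have h2 := h.refl c
  unfold EQ at h2 ⊢
  rw [← h2]
  exact h1.symm

theorem EQ_left {c d : ℕ} (hcd : EQ V c d = true) (e : ℕ) : EQ V c e = EQ V d e :=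
  h.cong c d (eqC 0 1) [] [e] hcd

theorem EQ_right {c d : ℕ} (hcd : EQ V c d = true) (e : ℕ) : EQ V e c = EQ V e d :=
  h.cong c d (eqC 0 1) [e] [] hcd

theorem EQ_trans {c d e : ℕ} (hcd : EQ V c d = true) (hde : EQ V d e = true) :
    EQ V c e = true := by
  rw [EQ_left h hcd]
  exact hde

theorem cong_last {a c d : ℕ} {l : List ℕ} (hcd : EQ V c d = true) :
    V a (l ++ [c]) = V a (l ++ [d]) := h.cong c d a l [] hcd

theorem EQ_ws {c d : ℕ} (hcd : EQ V c d = true) : EQ V (ws c) (ws d) = true := by
  have h1 := h.cong c d (sC 0 (eqC 1 2)) [] [ws c] hcd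
  have h2 : ∀ x e, V (sC 0 (eqC 1 2)) ([] ++ x :: [e]) = EQ V e (ws x) := by
    intro x e
    rw [h.s, h.eq]
    rfl
  rw [h2, h2, h.refl] at h1
  exact h1.symm

theorem EQ_wa_left {c c' d : ℕ} (hcd : EQ V c c' = true) : EQ V (wa c d) (wa c' d) = true := by
  have h1 := h.cong c c' (addC 0 1 (eqC 2 3)) [] [d, wa c d] hcd
  have h2 : ∀ x y e, V (addC 0 1 (eqC 2 3)) ([] ++ x :: [y, e]) = EQ V e (wa x y) := by
    intro x y e
    rw [h.add, h.eq]
    rfl
  rw [h2, h2, h.refl] at h1
  exact h1.symm

theorem EQ_wa_right {c d d' : ℕ} (hcd : EQ V d d' = true) : EQ V (wa c d) (wa c d') = true := by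
  have h1 := h.cong d d' (addC 0 1 (eqC 2 3)) [c] [wa c d] hcd
  have h2 : ∀ x y e, V (addC 0 1 (eqC 2 3)) ([x] ++ y :: [e]) = EQ V e (wa x y) := by
    intro x y e
    rw [h.add, h.eq]
    rfl
  rw [h2, h2, h.refl] at h1
  exact h1.symm

theorem EQ_wa {c c' d d' : ℕ} (hc : EQ V c c' = true) (hd : EQ V d d' = true) :
    EQ V (wa c d) (wa c' d') = true := EQ_trans h (EQ_wa_left h hc) (EQ_wa_right h hd)

theorem EQ_wm_left {c c' d : ℕ} (hcd : EQ V c c' = true) : EQ V (wm c d) (wm c' d) = true := by
  have h1 := h.cong c c' (mulC 0 1 (eqC 2 3)) [] [d, wm c d] hcd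
  have h2 : ∀ x y e, V (mulC 0 1 (eqC 2 3)) ([] ++ x :: [y, e]) = EQ V e (wm x y) := by
    intro x y e
    rw [h.mul, h.eq]
    rfl
  rw [h2, h2, h.refl] at h1
  exact h1.symm

theorem EQ_wm_right {c d d' : ℕ} (hcd : EQ V d d' = true) : EQ V (wm c d) (wm c d') = true := by
  have h1 := h.cong d d' (mulC 0 1 (eqC 2 3)) [c] [wm c d] hcd
  have h2 : ∀ x y e, V (mulC 0 1 (eqC 2 3)) ([x] ++ y :: [e]) = EQ V e (wm x y) := by
    intro x y e
    rw [h.mul, h.eq]
    rfl
  rw [h2, h2, h.refl] at h1
  exact h1.symm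

theorem EQ_wm {c c' d d' : ℕ} (hc : EQ V c c' = true) (hd : EQ V d d' = true) :
    EQ V (wm c d) (wm c' d') = true := EQ_trans h (EQ_wm_left h hc) (EQ_wm_right h hd)

omit h in
/-- Least representatives. -/
def inD (V : ℕ → List ℕ → Bool) (c : ℕ) : Bool := (List.range c).all (fun d => !(EQ V d c))

omit h in
theorem inD_iff (c : ℕ) : inD V c = true ↔ ∀ d < c, EQ V d c = false := by
  unfold inD
  rw [List.all_eq_true]
  simp

theorem exists_rep (c : ℕ) : ∃ d, inD V d = true ∧ EQ V d c = true := by
  classical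
  have hex : ∃ d, EQ V d c = true := ⟨c, h.refl c⟩
  refine ⟨Nat.find hex, ?_, Nat.find_spec hex⟩
  rw [inD_iff]
  intro d hd
  have h1 := Nat.find_min hex hd
  by_contra hcon
  apply h1
  have h2 : EQ V d (Nat.find hex) = true := by simpa using hcon
  exact EQ_trans h h2 (Nat.find_spec hex)

theorem inD_unique {c d : ℕ} (hc : inD V c = true) (hd : inD V d = true)
    (hcd : EQ V c d = true) : c = d := by
  rw [inD_iff] at hc hd
  rcases Nat.lt_trichotomy c d with h1 | h1 | h1
  · have := hd c h1
    rw [hcd] at this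
    exact absurd this (by simp)
  · exact h1
  · have := hc d h1
    rw [EQ_symm h hcd] at this
    exact absurd this (by simp)

theorem inD_unbounded (B : ℕ) : ∃ d, B < d ∧ inD V d = true := by
  by_contra hcon
  push Not at hcon
  choose rep hrep hrep' using exists_rep h
  have h1 : ∀ k, rep (nm k) < B + 1 := by
    intro k
    by_contra h2
    exact hcon (rep (nm k)) (by omega) (hrep _)
  have h2 : Function.Injective (fun k : ℕ => (⟨rep (nm k), h1 k⟩ : Fin (B + 1))) := by
    intro i j hij
    have h3 : rep (nm i) = rep (nm j) := by simpa using hij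
    by_contra hne
    have h4 := h.dist i j hne
    have h5 : EQ V (nm i) (nm j) = true := by
      apply EQ_trans h (EQ_symm h (hrep' (nm i)))
      rw [h3]
      exact hrep' (nm j)
    rw [h4] at h5
    exact absurd h5 (by simp)
  exact not_injective_infinite_finite _ h2

omit h in
/-- The enumeration of the least representatives. -/
theorem exists_enum {j : ℕ} (h : Gd n ax V) (hV : InF (j + 1) (fun p : ℕ × List ℕ => V p.1 p.2)) :
    ∃ p : ℕ → ℕ, InF (j + 1) p ∧ (∀ x, inD V (p x) = true) ∧ Function.Injective p ∧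
      ∀ c, inD V c = true → ∃ x, p x = c := by
  have hD : InF (j + 1) (inD V) := by
    refine InF.ball (n := fun c : ℕ => c) (f := fun q : ℕ × ℕ => !(EQ V q.2 q.1)) InF.id
      (InF.not ?_)
    exact hV.comp (g := fun q : ℕ × ℕ => (eqC 0 1, [q.2, q.1])) (InF.of_primrec
      ((Primrec.const _).pair (primrec_two Primrec.snd Primrec.fst)))
  classical
  -- the next representative
  have hex : ∀ x, ∃ d, x < d ∧ inD V d = true := inD_unbounded h
  let sd : ℕ → ℕ := fun x => Nat.find (hex x)
  have hsp : ∀ y, y < sd y ∧ inD V (sd y) = true := fun y => Nat.find_spec (hex y)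
  have hsm : ∀ y c, y < c → inD V c = true → sd y ≤ c := fun y c h1 h2 =>
    Nat.find_min' (hex y) ⟨h1, h2⟩
  have hsd : InF (j + 1) sd := by
    refine InF.search (f := fun q : ℕ × ℕ => decide (q.1 < q.2) && inD V q.2)
      (InF.and (InF.of_primrec (Primrec.nat_lt.decide.comp Primrec.fst Primrec.snd))
        (hD.comp InF.snd)) sd ?_ ?_
    · intro a
      obtain ⟨h1, h2⟩ := Nat.find_spec (hex a)
      rw [Bool.and_eq_true]
      exact ⟨decide_eq_true h1, h2⟩
    · intro a m hm
      have := Nat.find_min (hex a) hm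
      by_contra hcon
      apply this
      simpa using hcon
  have h0 : inD V 0 = true := by rw [inD_iff]; intro d hd; omega
  let p : ℕ → ℕ := fun x => Nat.rec 0 (fun _ y => sd y) x
  have hp0 : p 0 = 0 := rfl
  have hps : ∀ x, p (x + 1) = sd (p x) := fun x => rfl
  have hpD : ∀ x, inD V (p x) = true := by
    intro x
    cases x with
    | zero => exact h0
    | succ x => exact (hsp (p x)).2
  have hmono : StrictMono p := strictMono_nat_of_lt_succ fun x => by
    exact (hsp (p x)).1
  refine ⟨p, ?_, hpD, hmono.injective, ?_⟩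
  · refine InF.nat_rec (n := fun x : ℕ => x) (f := fun _ => 0)
      (g := fun q : ℕ × ℕ × ℕ => sd q.2.2) InF.id (InF.const _) (hsd.comp (InF.snd.comp InF.snd))
  · intro c hc
    have key : ∀ x, c ≤ p x → ∃ y, p y = c := by
      intro x
      induction x with
      | zero =>
        intro hcx
        exact ⟨0, by rw [hp0] at hcx ⊢; omega⟩
      | succ x ih =>
        intro hcx
        rcases Nat.lt_or_ge (p x) c with h1 | h1
        · have h2 : p (x + 1) ≤ c := hsm (p x) c h1 hc
          exact ⟨x + 1, by omega⟩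
        · exact ih h1
    exact key c (hmono.id_le c)

end

/-- The data of the model. -/
structure Dat (n : ℕ) (ax : List ℕ) (V : ℕ → List ℕ → Bool) where
  h : Gd n ax V
  p : ℕ → ℕ
  r : ℕ → ℕ
  hr : ∀ c, EQ V (p (r c)) c = true
  hp : ∀ x y, EQ V (p x) (p y) = true → x = y

namespace Dat

variable {n : ℕ} {ax : List ℕ} {V : ℕ → List ℕ → Bool} (D : Dat n ax V)

/-- The model. -/
@[instance_reducible] def str : LPA.Structure ℕ where
  funMap := fun {n} f => match n, f with
    | _, PAFun.zero => fun _ => D.r 0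
    | _, PAFun.succ => fun v => D.r (ws (D.p (v 0)))
    | _, PAFun.add => fun v => D.r (wa (D.p (v 0)) (D.p (v 1)))
    | _, PAFun.mul => fun v => D.r (wm (D.p (v 0)) (D.p (v 1)))
  RelMap := fun {n} R => match n, R with
    | _, PARel.lt => fun v => V (ltC 0 1) [D.p (v 0), D.p (v 1)] = true

theorem str_Z : letI := D.str; Z ℕ = D.r 0 := rfl
theorem str_Sc (x : ℕ) : letI := D.str; Sc x = D.r (ws (D.p x)) := rfl
theorem str_Ad (x y : ℕ) : letI := D.str; Ad x y = D.r (wa (D.p x) (D.p y)) := rfl
theorem str_Mu (x y : ℕ) : letI := D.str; Mu x y = D.r (wm (D.p x) (D.p y)) := rfl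
theorem str_Lt (x y : ℕ) : letI := D.str; Lt x y ↔ V (ltC 0 1) [D.p x, D.p y] = true := Iff.rfl

theorem get_EQ (l : List ℕ) (i : ℕ) : letI := D.str;
    EQ V (D.p (get l i)) ((l.map D.p).getD i 0) = true := by
  let _ := D.str
  unfold get
  by_cases hi : i < l.length
  · rw [List.getD_eq_getElem _ _ hi, List.getD_eq_getElem _ _ (by simpa using hi)]
    simp only [List.getElem_map]
    exact D.h.refl _
  · rw [List.getD_eq_default _ _ (by simpa using hi), List.getD_eq_default _ _ (by simpa using hi)]
    exact D.hr 0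

theorem V_all (a : ℕ) (l : List ℕ) :
    V (allC a) (l.map D.p) = true ↔ ∀ x, V a ((l ++ [x]).map D.p) = true := by
  constructor
  · intro h1 x
    rw [List.map_append]
    exact D.h.all a _ _ h1
  · intro h1
    by_contra hcon
    have h2 := D.h.wit a (l.map D.p) (by simpa using hcon)
    have h3 := h1 (D.r (wh a (l.map D.p)))
    rw [List.map_append] at h3
    have h4 := cong_last D.h (a := a) (l := l.map D.p) (D.hr (wh a (l.map D.p)))
    rw [h2] at h4
    rw [show [D.r (wh a (l.map D.p))].map D.p = [D.p (D.r (wh a (l.map D.p)))] from rfl, h4] at h3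
    exact absurd h3 (by simp)

theorem V_lt (i j : ℕ) (l : List ℕ) : letI := D.str;
    V (ltC i j) (l.map D.p) = true ↔ Lt (get l i) (get l j) := by
  let _ := D.str
  rw [D.h.lt, str_Lt]
  have h1 := D.h.cong _ _ (ltC 0 1) [] [(l.map D.p).getD j 0] (D.get_EQ l i)
  have h2 := D.h.cong _ _ (ltC 0 1) [D.p (get l i)] [] (D.get_EQ l j)
  have h3 : V (ltC 0 1) [D.p (get l i), D.p (get l j)] =
      V (ltC 0 1) [(l.map D.p).getD i 0, (l.map D.p).getD j 0] := h2.trans h1
  rw [h3]

/-- Truth in the model. -/
theorem sat_iff (a : ℕ) : letI := D.str; ∀ l : List ℕ, Sat a l ↔ V a (l.map D.p) = true := by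
  let _ := D.str
  have hsn : ∀ (a : ℕ) (l : List ℕ) (x c : ℕ), EQ V (D.p x) c = true →
      V a ((l ++ [x]).map D.p) = V a (l.map D.p ++ [c]) := by
    intro a l x c hx
    rw [List.map_append]
    exact cong_last D.h hx
  induction a using code_induction with
  | h0 =>
    intro l
    rw [D.h.fal]
    simp [sat_zero]
  | h1 i j =>
    intro l
    rw [sat_eq, D.h.eq]
    have h1 := EQ_left D.h (D.get_EQ l i) ((l.map D.p).getD j 0)
    have h2 := EQ_right D.h (D.get_EQ l j) (D.p (get l i))
    have h3 : EQ V (D.p (get l i)) (D.p (get l j)) =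
      EQ V ((l.map D.p).getD i 0) ((l.map D.p).getD j 0) := h2.trans h1
    unfold EQ at h3
    rw [← h3]
    constructor
    · intro h4
      rw [h4]
      exact D.h.refl _
    · intro h4
      exact D.hp _ _ h4
  | h2 i j =>
    intro l
    rw [sat_lt, D.V_lt]
  | h3 a b ha hb =>
    intro l
    rw [sat_imp, ha l, hb l, D.h.imp, Bool.or_eq_true, Bool.not_eq_true']
    rcases V a (l.map D.p) with _ | _ <;> simp
  | h4 a ha =>
    intro l
    rw [sat_all, D.V_all]
    exact forall_congr' fun x => ha _
  | h5 i a ha =>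
    intro l
    rw [sat_ball, D.h.ball, List.length_map, D.V_all]
    refine forall_congr' fun x => ?_
    rw [ha, D.h.imp, Bool.or_eq_true, Bool.not_eq_true', ← Bool.not_eq_true, D.V_lt,
      get_append_length rfl]
    have e1 : get (l ++ [x]) (bix l.length i) = get l i := by
      by_cases hi : i < l.length
      · have hb : bix l.length i = i := by simp [bix, hi]
        rw [hb, get_append_left hi]
      · have hb : bix l.length i = l.length + 1 := by simp [bix, hi]
        unfold get
        rw [hb, List.getD_eq_default _ _ (by simp), List.getD_eq_default _ _ (by simpa using hi)]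
    rw [e1]
    tauto
  | h6 a ha =>
    intro l
    rw [sat_z, ha, D.h.z, hsn a l (Z ℕ) 0 (D.hr 0)]
  | h7 i a ha =>
    intro l
    rw [sat_s, ha, D.h.s, D.str_Sc, hsn a l _ (ws ((l.map D.p).getD i 0))
      (EQ_trans D.h (D.hr _) (EQ_ws D.h (D.get_EQ l i)))]
  | h8 i j a ha =>
    intro l
    rw [sat_add, ha, D.h.add, D.str_Ad, hsn a l _ (wa ((l.map D.p).getD i 0) ((l.map D.p).getD j 0))
      (EQ_trans D.h (D.hr _) (EQ_wa D.h (D.get_EQ l i) (D.get_EQ l j)))]
  | h9 i j a ha =>
    intro l
    rw [sat_mul, ha, D.h.mul, D.str_Mu, hsn a l _ (wm ((l.map D.p).getD i 0) ((l.map D.p).getD j 0))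
      (EQ_trans D.h (D.hr _) (EQ_wm D.h (D.get_EQ l i) (D.get_EQ l j)))]

theorem p_num (k : ℕ) : letI := D.str; EQ V (D.p (num ℕ k)) (nm k) = true := by
  let _ := D.str
  induction k with
  | zero => exact D.hr 0
  | succ k ih =>
    rw [num_succ, D.str_Sc]
    exact EQ_trans D.h (D.hr _) (EQ_ws D.h ih)

theorem nonstd : letI := D.str; ∀ k, D.r w1 ≠ num ℕ k := by
  let _ := D.str
  intro k hk
  have h1 := D.p_num k
  rw [← hk] at h1
  have h2 := EQ_trans D.h (EQ_symm D.h (D.hr w1)) h1
  rw [D.h.nonst k] at h2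
  exact absurd h2 (by simp)

theorem not_iso : ¬ IsoPA D.str stdNat := by
  rintro ⟨f⟩
  have h1 : ∀ k, f (@num ℕ D.str k) = k := by
    intro k
    induction k with
    | zero => exact @Equiv.map_fun LPA ℕ ℕ D.str stdNat f 0 PAFun.zero _
    | succ k ih =>
      have h2 := @Equiv.map_fun LPA ℕ ℕ D.str stdNat f 1 PAFun.succ (fun _ => @num ℕ D.str k)
      refine h2.trans ?_
      show f (@num ℕ D.str k) + 1 = k + 1
      rw [ih]
  have h3 := h1 (f (D.r w1))
  have h4 := (@Language.Equiv.toEquiv LPA ℕ ℕ D.str stdNat f).injective h3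
  exact D.nonstd _ h4.symm

/-- The induction axioms hold. -/
theorem ind {k : ℕ} (φ : LPA.Formula (Fin k ⊕ Unit)) : letI := D.str; ℕ ⊨ close (indF φ) := by
  let _ := D.str
  rw [realize_close]
  intro v
  rw [realize_indF]
  rintro ⟨h0, hs⟩
  obtain ⟨c, hc⟩ := formula_code φ (k + 1) (Sum.elim (fun i : Fin k => (i : ℕ)) (fun _ => k))
    (fun i => i.elim0) (by
      rintro (b | b)
      · show (b : ℕ) < k + 1
        omega
      · show k < k + 1
        omega) (fun i => i.elim0)
  have key : ∀ x : ℕ, Sat c (List.ofFn v ++ [x]) ↔ φ.Realize (Sum.elim v (fun _ => x)) := by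
    intro x
    rw [hc ℕ (List.ofFn v ++ [x]) (by simp)]
    unfold Formula.Realize
    apply iff_of_eq
    congr 1
    · funext b
      rcases b with b | b
      · show get (List.ofFn v ++ [x]) (b : ℕ) = v b
        rw [get_append_left (by simp)]
        unfold get
        rw [List.getD_eq_getElem _ _ (by simp)]
        simp
      · exact get_append_length (by simp)
    · funext b
      exact b.elim0
  by_contra hcon
  push Not at hcon
  obtain ⟨x, hx⟩ := hcon
  rw [← key, D.sat_iff] at hx
  rw [List.map_append] at hx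
  have hx' : V c ((List.ofFn v).map D.p ++ [D.p x]) = false := by simpa using hx
  obtain ⟨h1, h2⟩ := D.h.ind c _ _ hx'
  set wI := wi c ((List.ofFn v).map D.p) with hwI
  set wP := wp c ((List.ofFn v).map D.p) with hwP
  have h3 : ¬ Sat c (List.ofFn v ++ [D.r wI]) := by
    rw [D.sat_iff, List.map_append]
    have := cong_last D.h (a := c) (l := (List.ofFn v).map D.p) (D.hr wI)
    rw [h1] at this
    rw [show [D.r wI].map D.p = [D.p (D.r wI)] from rfl, this]
    simp
  rcases h2 with h2 | ⟨h2, h4⟩
  · apply h3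
    have h5 : D.r wI = Z ℕ := by
      apply D.hp
      exact EQ_trans D.h (EQ_trans D.h (D.hr wI) h2) (EQ_symm D.h (D.hr 0))
    rw [h5, key]
    exact h0
  · apply h3
    have h5 : Sat c (List.ofFn v ++ [D.r wP]) := by
      rw [D.sat_iff, List.map_append]
      have := cong_last D.h (a := c) (l := (List.ofFn v).map D.p) (D.hr wP)
      rw [h4] at this
      rw [show [D.r wP].map D.p = [D.p (D.r wP)] from rfl, this]
    have h6 : D.r wI = Sc (D.r wP) := by
      apply D.hp
      apply EQ_trans D.h (EQ_trans D.h (D.hr wI) h2)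
      apply EQ_symm D.h
      rw [D.str_Sc]
      exact EQ_trans D.h (D.hr _) (EQ_ws D.h (D.hr wP))
    rw [h6, key]
    exact hs _ ((key _).mp h5)

end Dat

/-- Sentences have codes. -/
theorem sentence_code (σ : LPA.Sentence) :
    ∃ c, ∀ (M : Type) [LPA.Structure M], Sat c ([] : List M) ↔ M ⊨ σ := by
  obtain ⟨c, hc⟩ := formula_code σ 0 (fun i => i.elim) (fun i => i.elim0) (fun i => i.elim)
    (fun i => i.elim0)
  refine ⟨c, fun M _ => ?_⟩
  rw [hc M [] rfl]
  unfold Sentence.Realize Formula.Realize
  apply iff_of_eq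
  congr 1
  · funext b
    exact b.elim
  · funext b
    exact b.elim0

/-- The axioms other than induction. -/
noncomputable def basicAx : List LPA.Sentence :=
  [close (k := 1) ((succT (.var 0)).equal zeroT).not,
   close (k := 2) (((succT (.var 0)).equal (succT (.var 1))).imp
      ((Language.Term.var 0).equal (.var 1))),
   close (k := 1) ((addT (.var 0) zeroT).equal (.var 0)),
   close (k := 2) ((addT (.var 0) (succT (.var 1))).equal (succT (addT (.var 0) (.var 1)))),
   close (k := 1) ((mulT (.var 0) zeroT).equal zeroT),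
   close (k := 2) ((mulT (.var 0) (succT (.var 1))).equal
      (addT (mulT (.var 0) (.var 1)) (.var 0))),
   close (k := 1) (ltF (.var 0) zeroT).not,
   close (k := 2) ((ltF (.var 0) (succT (.var 1))).iff
      (ltF (.var 0) (.var 1) ⊔ (Language.Term.var 0).equal (.var 1)))]

theorem mem_PA (σ : LPA.Sentence) : σ ∈ PA ↔ σ ∈ basicAx ∨
    ∃ (k : ℕ) (φ : LPA.Formula (Fin k ⊕ Unit)), σ = close (indF φ) := by
  unfold PA basicAx
  simp only [Set.mem_union, Set.mem_insert_iff, Set.mem_singleton_iff, Set.mem_ofPred_eq,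
    List.mem_cons, List.not_mem_nil, or_false]

/-- The standard model is a model of `PA`. -/
theorem std_PA : @Theory.Model LPA ℕ stdNat PA := by
  let _ := stdNat
  constructor
  intro σ hσ
  rcases (mem_PA σ).mp hσ with h | ⟨k, φ, rfl⟩
  · unfold basicAx at h
    simp only [List.mem_cons, List.not_mem_nil, or_false] at h
    rcases h with rfl | rfl | rfl | rfl | rfl | rfl | rfl | rfl <;> rw [realize_close] <;> intro v
    · simp [std_Z, std_Sc]
    · simp [std_Sc]
    · simp [std_Z, std_Ad]
    · simp [std_Sc, std_Ad]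
      omega
    · simp [std_Z, std_Mu]
    · simp [std_Sc, std_Ad, std_Mu]
      ring
    · rw [Formula.realize_not, realize_ltF, std_Lt]
      simp [std_Z]
    · rw [Formula.realize_iff, Formula.realize_sup, realize_ltF, realize_ltF, std_Lt, std_Lt]
      simp [std_Sc]
      omega
  · rw [realize_close]
    intro v
    rw [realize_indF]
    rintro ⟨h0, hs⟩ x
    induction x with
    | zero => exact h0
    | succ x ih => exact hs x ih

/-- An elementary extension of the standard model with a nonstandard element. -/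
theorem exists_M0 : ∃ (M : Type) (_ : LPA.Structure M) (e : M),
    (∀ σ : LPA.Sentence, @Sentence.Realize LPA ℕ stdNat σ ↔ M ⊨ σ) ∧ ∀ k, e ≠ num M k := by
  let _ := stdNat
  have hc1 : Cardinal.lift.{0} LPA.card ≤ Cardinal.lift.{0} (Cardinal.aleph 1) := by
    simp only [Cardinal.lift_id]
    have h1 : Countable ((l : ℕ) × LPA.Functions l) := by
      have : ∀ l, Countable (LPA.Functions l) := by
        intro l
        have hf : Function.Injective (fun f : PAFun l => match l, f with
          | _, PAFun.zero => (0 : ℕ)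
          | _, PAFun.succ => 1
          | _, PAFun.add => 2
          | _, PAFun.mul => 3) := by
          intro f g hfg
          cases f <;> cases g <;> simp at hfg <;> rfl
        exact hf.countable
      infer_instance
    have h2 : Countable ((l : ℕ) × LPA.Relations l) := by
      have : ∀ l, Countable (LPA.Relations l) := by
        intro l
        have hf : Function.Injective (fun _ : PARel l => (0 : ℕ)) := by
          intro f g _
          cases f
          cases g
          rfl
        exact hf.countable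
      infer_instance
    have h3 : LPA.card ≤ Cardinal.aleph0 := by
      have h4 : LPA.card = Cardinal.mk ((l : ℕ) × LPA.Functions l) +
          Cardinal.mk ((l : ℕ) × LPA.Relations l) := by
        simp [Language.card_eq_card_functions_add_card_relations]
      rw [h4]
      exact le_trans (add_le_add (Cardinal.mk_le_aleph0_iff.mpr h1)
        (Cardinal.mk_le_aleph0_iff.mpr h2)) (by simp)
    exact le_trans h3 (Cardinal.aleph0_le_aleph 1)
  obtain ⟨N, hN, hcard⟩ := exists_elementarilyEquivalent_card_eq LPA ℕ (Cardinal.aleph 1)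
    (Cardinal.aleph0_le_aleph 1) hc1
  refine ⟨N, N.str, ?_⟩
  let _ := N.str
  have hex : ∃ e : N, ∀ k, e ≠ num N k := by
    by_contra hcon
    push Not at hcon
    have hs : Function.Surjective (fun k : ℕ => num N k) := fun e => by
      obtain ⟨k, hk⟩ := hcon e
      exact ⟨k, hk.symm⟩
    have h1 : Cardinal.mk N ≤ Cardinal.mk ℕ := Cardinal.mk_le_of_surjective hs
    rw [hcard, Cardinal.mk_nat] at h1
    exact absurd h1 (not_le.mpr Cardinal.aleph0_lt_aleph_one)
  obtain ⟨e, he⟩ := hex
  exact ⟨e, fun σ => (elementarilyEquivalent_iff.mp hN) σ, he⟩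

/-- All structures for arithmetic. -/
structure AllPA : Type 1 where
  C : Type
  s : LPA.Structure C

instance instAllPA (i : AllPA) : LPA.Structure i.C := i.s

/-- A nonstandard model of low complexity. -/
theorem exists_model (n : ℕ) : ∃ P0 : LPA.Structure ℕ, @Theory.Model LPA ℕ P0 (PATrue n) ∧
    ¬ IsoPA P0 stdNat ∧ ∀ a : ℕ, ∃ g : List ℕ → Bool, InF (n + 1) g ∧
      ∀ l, g l = true ↔ @Sat ℕ P0 a l := by
  choose c hc using sentence_code
  set ax := basicAx.map c with hax
  obtain ⟨M, strM, e, hel, he⟩ := exists_M0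
  have hPAM : M ⊨ PA := by
    constructor
    intro σ hσ
    exact (hel σ).mp (std_PA.realize_of_mem σ hσ)
  have hgd : Gd n ax (V0 e) := by
    refine gd_V0 e hPAM he n ax ?_ ?_
    · intro d hd
      obtain ⟨σ, hσ, rfl⟩ := List.mem_map.mp hd
      rw [hc σ M]
      exact hPAM.realize_of_mem σ ((mem_PA σ).mpr (Or.inl hσ))
    · intro ms a hT
      let _ := stdNat
      have h1 : Sat (cd n ms a) ([] : List ℕ) := by
        simp only [TT, decide_eq_true_eq] at hT
        exact hT.2
      -- truth of codes is first-order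
      obtain ⟨φ, hφ⟩ := UD_sat (ι := AllPA) (C := fun i => i.C) (cd n ms a) 0
      have h2 : ∀ (C : Type) (sC : LPA.Structure C),
          Sat (cd n ms a) ([] : List C) ↔ C ⊨ (φ.relabel (fun i : Fin 0 => i.elim0) :
            LPA.Sentence) := by
        intro C sC
        have h3 := hφ ⟨C, sC⟩ (fun i => i.elim0)
        unfold Sentence.Realize
        rw [Formula.realize_relabel]
        have h4 : ((default : Empty → C) ∘ fun i : Fin 0 => i.elim0) =
            (fun i : Fin 0 => i.elim0) := Subsingleton.elim _ _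
        rw [h4]
        exact h3.symm
      rw [h2 M strM, ← hel, ← h2 ℕ stdNat]
      exact h1
  obtain ⟨w, hw, hgw⟩ := (closed_gd n ax).leftmost ⟨fun x =>
    V0 e ((Denumerable.ofNat (ℕ × List ℕ) x).1) ((Denumerable.ofNat (ℕ × List ℕ) x).2), by
      have : Vw (fun x => V0 e ((Denumerable.ofNat (ℕ × List ℕ) x).1)
          ((Denumerable.ofNat (ℕ × List ℕ) x).2)) = V0 e := by
        funext a l
        unfold Vw
        have h2 : Denumerable.ofNat (ℕ × List ℕ) (encode (a, l)) = (a, l) :=
          Denumerable.ofNat_encode _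
        show V0 e (Denumerable.ofNat (ℕ × List ℕ) (encode (a, l))).1
          (Denumerable.ofNat (ℕ × List ℕ) (encode (a, l))).2 = V0 e a l
        rw [h2]
      rw [this]
      exact hgd⟩
  have hV : InF (n + 1) (fun p : ℕ × List ℕ => Vw w p.1 p.2) :=
    hw.comp (InF.of_primrec Primrec.encode)
  obtain ⟨p, hp, hpD, hpinj, hpsurj⟩ := exists_enum hgw hV
  have hrex : ∀ d, ∃ x, EQ (Vw w) (p x) d = true := by
    intro d
    obtain ⟨d', h1, h2⟩ := exists_rep hgw d
    obtain ⟨x, hx⟩ := hpsurj d' h1
    exact ⟨x, by rw [hx]; exact h2⟩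
  choose r hr using hrex
  let D : Dat n ax (Vw w) := ⟨hgw, p, r, hr, fun x y hxy =>
    hpinj (inD_unique hgw (hpD x) (hpD y) hxy)⟩
  refine ⟨D.str, @Theory.Model.mk LPA ℕ D.str _ (fun σ hσ => ?_), D.not_iso, ?_⟩
  · rcases hσ with hσ | ⟨hσ1, hσ2⟩
    · rcases (mem_PA σ).mp hσ with h | ⟨k, φ, rfl⟩
      · let _ := D.str
        rw [← hc σ ℕ, D.sat_iff]
        exact hgw.axm _ (List.mem_map.mpr ⟨σ, h, rfl⟩)
      · exact D.ind φ
    · obtain ⟨ms, a, ha, h1⟩ := hier_code hσ1
      have hT : TT n ((ms, a), []) = true := by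
        simp only [TT, decide_eq_true_eq]
        refine ⟨ha, ?_⟩
        have h2 := (@h1 ℕ stdNat [] rfl).mpr
        apply h2
        simp only [iff_true]
        have h8 := hσ2
        unfold Sentence.Realize Formula.Realize at h8
        have h9 : (fun i : Fin 0 => @get ℕ stdNat [] i) =
          (@default (Fin 0 → ℕ) Unique.instInhabited) := Subsingleton.elim _ _
        rw [h9]
        exact h8
      have h2 := hgw.tru ms a hT
      let _ := D.str
      have h3 : Sat (cd n ms a) ([] : List ℕ) := (D.sat_iff _ []).mpr h2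
      rw [h1 ℕ [] rfl] at h3
      simp only [iff_true] at h3
      unfold Sentence.Realize Formula.Realize
      have h9 : (fun i : Fin 0 => get ([] : List ℕ) i) =
        (@default (Fin 0 → ℕ) Unique.instInhabited) := Subsingleton.elim _ _
      rw [h9] at h3
      exact h3
  · intro a
    refine ⟨fun l => Vw w a (l.map p), ?_, fun l => ((D.sat_iff a) l).symm⟩
    refine hV.comp (g := fun l : List ℕ => (a, l.map p)) ((InF.const a).pair ?_)
    exact InF.listMap (l := fun l : List ℕ => l) (f := fun q : List ℕ × ℕ => p q.2) InF.id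
      (hp.comp InF.snd)

end Pool.Agent.Arith67
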