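import Pool.Agent.Arith67.ChainUD
import Pool.Agent.Arith67.Chain
import Pool.Agent.Arith67.ModelV
import Pool.Agent.Arith67.Final

/-!
The full theorem.
-/

namespace Pool.Agent.Arith67

open FirstOrder FirstOrder.Language

/-- Models of `U`. -/
structure Mod (U : LPA.Theory) : Type 1 where
  C : Type
  pa : LPA.Structure C
  ne : Nonempty C
  mod : C ⊨ U

instance instModPA {U : LPA.Theory} (i : Mod U) : LPA.Structure i.C := i.pa
instance instModNe {U : LPA.Theory} (i : Mod U) : Nonempty i.C := i.ne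

section

variable {U : LPA.Theory} {a : ℕ} (S : ∀ i : Mod U, (LOne a).Structure i.C)

/-- The theory of all expansions. -/
def TG : (LOne a).Theory := {σ | ∀ i : Mod U, @Sentence.Realize (LOne a) i.C (S i) σ}

theorem generic
    (e1 : ∀ {k : ℕ} (R : LPA.Relations k), UD (LOne a) (fun i : Mod U => i.C)
      (fun i (v : Fin k → i.C) => Structure.RelMap R v))
    (e2 : ∀ {k : ℕ} (f : LPA.Functions k), UD (LOne a) (fun i : Mod U => i.C)
      (fun i (v : Fin (k + 1) → i.C) => Structure.funMap f (fun j : Fin k => v j.castSucc) =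
        v (Fin.last k)))
    (e3 : ∀ {k : ℕ} (R : (LOne a).Relations k), UD LPA (fun i : Mod U => i.C)
      (fun i (v : Fin k → i.C) => (S i).RelMap R v)) :
    ∃ (D : Defns LPA (LOne a)) (E : Defns (LOne a) LPA), SameModels U (TG S) D E ∧
      ∀ i : Mod U, D.Holds i.C ∧ E.Holds i.C := by
  choose φ1 h1 using @e1
  choose φ2 h2 using @e2
  choose φ3 h3 using @e3
  let D' : Defns LPA (LOne a) := ⟨fun {k} R => φ3 R, fun f => f.elim⟩
  let E' : Defns (LOne a) LPA := ⟨fun {k} R => φ1 R, fun {k} f => φ2 f⟩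
  have hDE : ∀ i : Mod U, D'.Holds i.C ∧ E'.Holds i.C := by
    intro i
    refine ⟨⟨fun k R v => (h3 R i v).symm, fun k f => f.elim⟩, fun k R v => (h1 R i v).symm, ?_⟩
    intro k f v y
    refine Iff.trans ?_ (h2 f i _).symm
    simp
  refine ⟨D', E', ?_, hDE⟩
  intro M hne hpa hone
  constructor
  · rintro ⟨hMU, hMD⟩
    let i0 : Mod U := ⟨M, hpa, hne, hMU⟩
    have heq : hone = S i0 := structure_eq (C := M) D' hone (S i0) hMD (hDE i0).1
    subst heq
    let _ : (LOne a).Structure M := S i0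
    exact ⟨⟨fun σ hσ => hσ i0⟩, (hDE i0).2⟩
  · rintro ⟨hMT, hME⟩
    let j0 : Idx2 a E' := ⟨M, hpa, hone, hME⟩
    have key : ∀ {α : Type} (φ : LPA.Formula α), ∃ ψ : (LOne a).Formula α,
        ∀ (j : Idx2 a E') (v : α → j.C), ψ.Realize v ↔ φ.Realize v := fun φ =>
      UD_formula' (C := fun j : Idx2 a E' => j.C) E' (fun j => j.holds) φ
    refine ⟨⟨fun σ hσ => ?_⟩, ⟨fun k R v => ?_, fun k f => f.elim⟩⟩
    · obtain ⟨ψ, hψ⟩ := key σ
      have h1 : ψ ∈ TG S := by
        intro i
        let j : Idx2 a E' := ⟨i.C, i.pa, S i, (hDE i).2⟩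
        exact (hψ j default).mpr (i.mod.realize_of_mem σ hσ)
      exact (hψ j0 default).mp (hMT.realize_of_mem ψ h1)
    · obtain ⟨ψ, hψ⟩ := key (D'.rel R)
      set χ : (LOne a).Formula (Fin k) := (Relations.formula R (fun j => Term.var j)).iff ψ with hχ
      have h1 : (Formula.iAlls (Fin k) (Formula.relabel (Sum.inr : Fin k → Empty ⊕ Fin k) χ) :
          (LOne a).Sentence) ∈ TG S := by
        intro i
        let j : Idx2 a E' := ⟨i.C, i.pa, S i, (hDE i).2⟩
        show Formula.Realize _ _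
        rw [Formula.realize_iAlls]
        intro w
        rw [Formula.realize_relabel, hχ, Formula.realize_iff, Formula.realize_rel]
        exact ((hDE i).1.1 k R w).trans (hψ j w).symm
      have h2 := hMT.realize_of_mem _ h1
      rw [Sentence.Realize, Formula.realize_iAlls] at h2
      have h3 := h2 v
      rw [Formula.realize_relabel, hχ, Formula.realize_iff, Formula.realize_rel] at h3
      exact h3.trans (hψ j0 v)

end

instance instLOneRel (a : ℕ) : (LOne a).IsRelational := fun _ => inferInstanceAs (IsEmpty Empty)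

instance instLOneFin (a : ℕ) : Finite ((k : ℕ) × (LOne a).Relations k) := by
  have hf : Function.Injective (fun _ : ((k : ℕ) × (LOne a).Relations k) => ()) := by
    rintro ⟨k, R⟩ ⟨k', R'⟩ _
    cases R
    cases R'
    rfl
  exact Finite.of_injective _ hf

/-- The structure given by the last relation of the chain. -/
@[instance_reducible] def SK {M : Type} [LPA.Structure M] (h : M ⊨ PA) (K : ℕ) :
    (LOne (5 + K)).Structure M where
  funMap := fun f => f.elim
  RelMap := fun {_} _ v => SS h K (List.ofFn v)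

theorem mod_PA {n : ℕ} (i : Mod (PATrue n)) : i.C ⊨ PA :=
  Theory.Model.mono i.mod Set.subset_union_left

theorem computable_ofFn (k : ℕ) : Computable (fun v : Fin k → ℕ => List.ofFn v) := by
  refine (Primrec.list_ofFn (f := fun (i : Fin k) (v : Fin k → ℕ) => v i) fun i => ?_).to_comp
  exact Primrec.fin_app.comp Primrec.id (Primrec.const i)

/-- A theory in one relation symbol with a computable nonstandard model. -/
theorem exists_one (n : ℕ) :
    ∃ T : (LOne (5 + (n + 1))).Theory, HasCompNonstd (PATrue n) (LOne (5 + (n + 1))) T := by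
  set K := n + 1 with hK
  obtain ⟨P0, hmod, hns, hlow⟩ := exists_model n
  have hPA0 : @Theory.Model LPA ℕ P0 PA := Theory.Model.mono hmod Set.subset_union_left
  -- definable relations of the model have low complexity
  have hdef : ∀ (k : ℕ) (r : List ℕ → Prop), (∃ φ : LPA.Formula (Fin k),
      ∀ v : Fin k → ℕ, @Formula.Realize LPA ℕ P0 _ φ v ↔ r (List.ofFn v)) →
      ∃ g : List ℕ → Bool, InF K g ∧ ∀ l, l.length = k → (g l = true ↔ r l) := by
    rintro k r ⟨φ, hφ⟩
    obtain ⟨c, hc⟩ := formula_code φ k (fun i => i) (fun i => i.elim0) (fun i => i.isLt)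
      (fun i => i.elim0)
    obtain ⟨g, hg, hg'⟩ := hlow c
    refine ⟨g, hg, fun l hl => ?_⟩
    rw [hg', @hc ℕ P0 l hl]
    have h1 : List.ofFn (fun i : Fin k => l.getD i 0) = l := by
      apply List.ext_getElem (by simp [hl])
      intro i hi hi'
      simp only [List.getElem_ofFn]
      rw [List.getD_eq_getElem _ _ hi']
    have h2 := hφ (fun i : Fin k => l.getD i 0)
    rw [h1] at h2
    rw [← h2]
    unfold Formula.Realize
    apply iff_of_eq
    congr 1
    · funext i
      unfold get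
      rw [List.getD_eq_getElem _ _ (by rw [hl]; exact i.isLt),
        List.getD_eq_getElem _ _ (by rw [hl]; exact i.isLt)]
    · funext i
      exact i.elim0
  have hL : Low hPA0 K K 0 (Equiv.refl ℕ) := by
    have hmap : ∀ l : List ℕ, l.map (Equiv.refl ℕ) = l := fun l => by simp
    let _ : ∀ i : PUnit.{2}, LPA.Structure ((fun _ : PUnit.{2} => ℕ) i) := fun _ => P0
    constructor
    · obtain ⟨φ, hφ⟩ := UD_SS (ι := PUnit) (C := fun _ => ℕ) (fun _ => hPA0) 0
        (α := Fin (5 + 0)) (fun k => k)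
      obtain ⟨g, hg, hg'⟩ := hdef (5 + 0) (fun l => SS hPA0 0 l) ⟨φ, fun v => hφ PUnit.unit v⟩
      exact ⟨g, hg, fun l hl => by rw [hmap]; exact hg' l hl⟩
    · intro t _ _
      obtain ⟨φ, hφ⟩ := UD_rho (ι := PUnit) (C := fun _ => ℕ) (fun _ => hPA0) t (5 + t)
        (α := Fin (5 + t)) (fun k => k)
      obtain ⟨g, hg, hg'⟩ := hdef (5 + t) (fun l => rho hPA0 t l) ⟨φ, fun v => hφ PUnit.unit v⟩
      exact ⟨g, hg, fun l hl => by rw [hmap]; exact hg' l hl⟩
  obtain ⟨f, s, hs, hs'⟩ := exists_copy hPA0 hL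
  -- the theory
  let S : ∀ i : Mod (PATrue n), (LOne (5 + K)).Structure i.C := fun i => SK (mod_PA i) K
  let _ : ∀ i : Mod (PATrue n), (LOne (5 + K)).Structure i.C := S
  have hSU : UD (LOne (5 + K)) (fun i : Mod (PATrue n) => i.C)
      (fun i (v : Fin (5 + K) → i.C) => SS (mod_PA i) K (List.ofFn v)) := by
    refine (UD.rel (L := LOne (5 + K)) (M := fun i : Mod (PATrue n) => i.C)
      (OneRel.q : OneRel (5 + K) (5 + K)) id).congr fun i v => ?_
    exact Iff.rfl
  obtain ⟨D, E, hSM, hDE⟩ := generic S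
    (fun R => UDL_rel (C := fun i : Mod (PATrue n) => i.C) mod_PA hSU R)
    (fun f => UDL_fun (C := fun i : Mod (PATrue n) => i.C) mod_PA hSU f)
    (fun {k} R => by
      cases R
      exact (UD_SS (C := fun i : Mod (PATrue n) => i.C) mod_PA K (fun k => k)).congr
        fun i v => Iff.rfl)
  refine ⟨TG S, D, E, hSM, ?_⟩
  -- the computable model
  let i0 : Mod (PATrue n) := ⟨ℕ, P0, inferInstance, hmod⟩
  let Q : (LOne (5 + K)).Structure ℕ :=
    { funMap := fun f => f.elim
      RelMap := fun {_} _ v => SS hPA0 K (List.ofFn (fun j => f (v j))) }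
  let P1 : LPA.Structure ℕ := @Equiv.inducedStructure LPA ℕ ℕ P0 f.symm
  let eq1 : @Language.Equiv LPA ℕ ℕ P0 P1 := @Equiv.inducedStructureEquiv LPA ℕ ℕ P0 f.symm
  have heq1 : ∀ x, eq1 x = f.symm x := fun x => rfl
  have hU1 : @Theory.Model LPA ℕ P1 (PATrue n) := by
    constructor
    intro σ hσ
    exact (@transport_sentence ℕ ℕ P0 P1 eq1 σ).mp (hmod.realize_of_mem σ hσ)
  have hD0 := (hDE i0).1
  have hD1 : @Defns.Holds LPA (LOne (5 + K)) D ℕ P1 Q := by
    refine ⟨fun k R v => ?_, fun k f => f.elim⟩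
    cases R
    have h1 := hD0.1 (5 + K) OneRel.q (fun j => f (v j))
    refine Iff.trans ?_ (h1.trans ?_)
    · exact Iff.rfl
    · have h3 := @transport_formula ℕ ℕ P0 P1 eq1 (Fin (5 + K)) (D.rel OneRel.q)
        (fun j => f (v j))
      have h4 : (eq1 ∘ fun j => f (v j)) = v := by
        funext j
        show eq1 (f (v j)) = v j
        rw [heq1, Equiv.symm_apply_apply]
      rw [h4] at h3
      exact h3.symm
  obtain ⟨hT1, hE1⟩ := (@hSM ℕ _ P1 Q).mp ⟨hU1, hD1⟩
  refine ⟨Q, P1, ?_, hT1, hE1, ?_⟩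
  · intro k R
    cases R
    refine cp_iff.mpr ⟨fun v => s (List.ofFn v), hs.comp (computable_ofFn _), fun v => ?_⟩
    rw [hs' _ (by rw [List.length_ofFn]), List.map_ofFn]
    exact Iff.rfl
  · rintro ⟨g⟩
    apply hns
    exact ⟨@Language.Equiv.comp LPA ℕ ℕ P0 P1 ℕ stdNat g eq1⟩

/-- For every `n` and every arity `r ≥ 2` there is a theory in one relation symbol of arity `r`
that is definitionally equivalent to `PA` with the true `Pi_n` sentences and has a computable
nonstandard model. -/
theorem full (n r : ℕ) (hr : 2 ≤ r) :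
    ∃ T : (LOne r).Theory, HasCompNonstd (PATrue n) (LOne r) T := by
  obtain ⟨T, hT⟩ := exists_one n
  exact reduction_PATrue n hT hr

end Pool.Agent.Arith67
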