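import Pool.Agent.Arith67.JumpDef

/-!
The construction converges.
-/

namespace Pool.Agent.Arith67.Jump

open Filter

theorem eventually_list {α : Type} (L : List α) (P : α → ℕ → Prop)
    (h : ∀ x ∈ L, ∀ᶠ s in atTop, P x s) : ∀ᶠ s in atTop, ∀ x ∈ L, P x s := by
  induction L with
  | nil => simp
  | cons a L ih =>
    filter_upwards [h a (by simp), ih (fun x hx => h x (by simp [hx]))] with s h1 h2
    intro x hx
    rcases List.mem_cons.mp hx with rfl | hx
    · exact h1
    · exact h2 x hx

theorem dom_take (F : List (ℕ × ℕ)) (k : ℕ) : dom (F.take k) = (dom F).take k := by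
  simp [dom, List.map_take]

theorem ran_take (F : List (ℕ × ℕ)) (k : ℕ) : ran (F.take k) = (ran F).take k := by
  simp [ran, List.map_take]

theorem dom_append (F F' : List (ℕ × ℕ)) : dom (F ++ F') = dom F ++ dom F' := by simp [dom]

theorem ran_append (F F' : List (ℕ × ℕ)) : ran (F ++ F') = ran F ++ ran F' := by simp [ran]

theorem dom_snoc (F : List (ℕ × ℕ)) (b m : ℕ) : dom (F ++ [(b, m)]) = dom F ++ [b] := by simp [dom]

theorem ran_snoc (F : List (ℕ × ℕ)) (b m : ℕ) : ran (F ++ [(b, m)]) = ran F ++ [m] := by simp [ran]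

theorem mex_le_length (l : List ℕ) : mex l ≤ l.length := by
  by_contra h
  have h1 : l.length + 1 ≤ mex l := by omega
  have h3 : (Finset.range (l.length + 1)) ⊆ l.toFinset := by
    intro m hm
    have h2 : m ∈ l := mem_of_lt_mex (lt_of_lt_of_le (by simpa using hm) h1)
    simpa using h2
  have h4 := Finset.card_le_card h3
  have h5 := List.toFinset_card_le l
  simp at h4
  omega

/-- Structural invariants of the finite maps. -/
def Ok (F : List (ℕ × ℕ)) (s : ℕ) : Prop :=
  (dom F).Nodup ∧ (ran F).Nodup ∧ (∀ b ∈ dom F, b < s) ∧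
    ∀ i (hi : i < F.length), (i % 2 = 1 → (F[i]).1 = mex (dom (F.take i))) ∧
      (i % 2 = 0 → (F[i]).2 = mex (ran (F.take i)))

theorem Ok.take {F : List (ℕ × ℕ)} {s : ℕ} (h : Ok F s) (k : ℕ) : Ok (F.take k) s := by
  obtain ⟨h1, h2, h3, h4⟩ := h
  refine ⟨?_, ?_, ?_, ?_⟩
  · rw [dom_take]
    exact h1.sublist (List.take_sublist _ _)
  · rw [ran_take]
    exact h2.sublist (List.take_sublist _ _)
  · rw [dom_take]
    intro b hb
    exact h3 b (List.mem_of_mem_take hb)
  · intro i hi
    rw [List.length_take] at hi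
    have hi' : i < F.length := by omega
    rw [List.getElem_take, List.take_take, min_eq_left (by omega)]
    exact h4 i hi'

theorem Ok.mono {F : List (ℕ × ℕ)} {s s' : ℕ} (h : Ok F s) (hs : s ≤ s') : Ok F s' :=
  ⟨h.1, h.2.1, fun b hb => lt_of_lt_of_le (h.2.2.1 b hb) hs, h.2.2.2⟩

theorem Ok.snoc {F : List (ℕ × ℕ)} {s s' b m : ℕ} (h : Ok F s) (hb : b ∉ dom F) (hm : m ∉ ran F)
    (hbs : b < s') (hs : s ≤ s') (h1 : F.length % 2 = 1 → b = mex (dom F))
    (h0 : F.length % 2 = 0 → m = mex (ran F)) : Ok (F ++ [(b, m)]) s' := by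
  refine ⟨?_, ?_, ?_, ?_⟩
  · rw [dom_snoc, List.nodup_append]
    refine ⟨h.1, by simp, ?_⟩
    intro x hx y hy hxy
    rw [List.mem_singleton] at hy
    subst hxy
    subst hy
    exact hb hx
  · rw [ran_snoc, List.nodup_append]
    refine ⟨h.2.1, by simp, ?_⟩
    intro x hx y hy hxy
    rw [List.mem_singleton] at hy
    subst hxy
    subst hy
    exact hm hx
  · rw [dom_snoc]
    intro x hx
    rcases List.mem_append.mp hx with hx | hx
    · exact lt_of_lt_of_le (h.2.2.1 x hx) hs
    · rw [List.mem_singleton.mp hx]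
      exact hbs
  · intro i hi
    rcases Nat.lt_or_ge i F.length with h2 | h2
    · rw [List.getElem_append_left h2, List.take_append_of_le_length (by omega)]
      exact h.2.2.2 i h2
    · have h3 : i = F.length := by
        rw [List.length_append] at hi
        simp at hi
        omega
      subst h3
      rw [List.getElem_append_right (le_refl _)]
      simp only [Nat.sub_self, List.getElem_singleton, List.take_left']
      exact ⟨h1, h0⟩

section

variable (ar : List ℕ) (a : ℕ) (g : (ℕ × List ℕ) × ℕ → Bool) (e : List ℕ × ℕ → Bool)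

theorem Hh_nil (hs hs' : List (List (ℕ × ℕ))) (t : ℕ) : Hh g hs (t, []) = Hh g hs' (t, []) := by
  simp [Hh]

theorem Hh_hist' {q : ℕ × List ℕ} {s : ℕ} (hs : ∀ x ∈ q.2, x < s) :
    Hh g (hist ar a g e s) q = H ar a g e q := by
  obtain ⟨t, l⟩ := q
  rcases l with _ | ⟨x, l⟩
  · exact Hh_nil g _ _ t
  · exact Hh_hist ar a g e (hs _ (lmax_mem (by simp)))

theorem good_hist {F : List (ℕ × ℕ)} {s : ℕ} (hF : ∀ b ∈ dom F, b < s) :
    good ar a g e (Hh g (hist ar a g e s)) F s = good ar a g e (H ar a g e) F s :=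
  good_congr ar a g e hF (fun _ hq => Hh_hist' ar a g e hq)

theorem ok_FF (s : ℕ) : Ok (FF ar a g e s) s := by
  induction s with
  | zero =>
    rw [FF_zero]
    refine ⟨by simp [dom], by simp [ran], by simp [dom], ?_⟩
    intro i hi
    simp at hi
  | succ s ih =>
    rw [FF_succ]
    obtain ⟨k, hk, h1, h2, h3⟩ := next_cases ar a g e (Hh g (hist ar a g e s)) (FF ar a g e s) s
    have hok := ih.take k
    have hlen : ((FF ar a g e s).take k).length = k := by simp [hk]
    rcases h3 with ⟨h4, h5⟩ | ⟨h4, h5, m, h6, h7, h8, h9, h10⟩ | ⟨h4, h5, h6⟩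
    · rw [h5]
      refine hok.snoc (fun hc => lt_irrefl _ (hok.2.2.1 s hc)) (mex_notMem _) (by omega) (by omega)
        (by rw [hlen]; omega) (fun _ => rfl)
    · rw [h10]
      exact hok.snoc (mex_notMem _) h7 (by omega) (by omega) (fun _ => rfl)
        (by rw [hlen]; omega)
    · rw [h6]
      exact hok.mono (by omega)

/-- Characterization of a step. -/
theorem step_cases (s : ℕ) :
    ∃ k, k ≤ (FF ar a g e s).length ∧
      (∀ i < k, good ar a g e (H ar a g e) ((FF ar a g e s).take (i + 1)) s = true) ∧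
      (k < (FF ar a g e s).length →
        good ar a g e (H ar a g e) ((FF ar a g e s).take (k + 1)) s = false) ∧
      ((k % 2 = 0 ∧ FF ar a g e (s + 1) = (FF ar a g e s).take k ++
          [(s, mex (ran ((FF ar a g e s).take k)))]) ∨
       (k % 2 = 1 ∧ mex (dom ((FF ar a g e s).take k)) < s ∧ ∃ m ≤ s,
          m ∉ ran ((FF ar a g e s).take k) ∧
          good ar a g e (H ar a g e) ((FF ar a g e s).take k ++
            [(mex (dom ((FF ar a g e s).take k)), m)]) s = true ∧
          (∀ m' < m, m' ∉ ran ((FF ar a g e s).take k) →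
            good ar a g e (H ar a g e) ((FF ar a g e s).take k ++
              [(mex (dom ((FF ar a g e s).take k)), m')]) s = false) ∧
          FF ar a g e (s + 1) = (FF ar a g e s).take k ++
            [(mex (dom ((FF ar a g e s).take k)), m)]) ∨
       (k % 2 = 1 ∧ (mex (dom ((FF ar a g e s).take k)) < s → ∀ m ≤ s,
          m ∉ ran ((FF ar a g e s).take k) →
          good ar a g e (H ar a g e) ((FF ar a g e s).take k ++
            [(mex (dom ((FF ar a g e s).take k)), m)]) s = false) ∧
          FF ar a g e (s + 1) = (FF ar a g e s).take k)) := by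
  obtain ⟨k, hk, h1, h2, h3⟩ := next_cases ar a g e (Hh g (hist ar a g e s)) (FF ar a g e s) s
  have hok := ok_FF ar a g e s
  have hg1 : ∀ i, good ar a g e (Hh g (hist ar a g e s)) ((FF ar a g e s).take i) s =
      good ar a g e (H ar a g e) ((FF ar a g e s).take i) s := fun i =>
    good_hist ar a g e (hok.take i).2.2.1
  have hg2 : mex (dom ((FF ar a g e s).take k)) < s → ∀ m,
      good ar a g e (Hh g (hist ar a g e s)) ((FF ar a g e s).take k ++
        [(mex (dom ((FF ar a g e s).take k)), m)]) s =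
      good ar a g e (H ar a g e) ((FF ar a g e s).take k ++
        [(mex (dom ((FF ar a g e s).take k)), m)]) s := by
    intro hb m
    apply good_hist
    rw [dom_snoc]
    intro x hx
    rcases List.mem_append.mp hx with hx | hx
    · exact (hok.take k).2.2.1 x hx
    · rw [List.mem_singleton.mp hx]
      exact hb
  refine ⟨k, hk, ?_, ?_, ?_⟩
  · intro i hi
    rw [← hg1]
    exact h1 i hi
  · intro hk'
    rw [← hg1]
    exact h2 hk'
  · rcases h3 with ⟨h4, h5⟩ | ⟨h4, h5, m, h6, h7, h8, h9, h10⟩ | ⟨h4, h5, h6⟩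
    · left
      exact ⟨h4, by rw [FF_succ, h5]⟩
    · right; left
      refine ⟨h4, h5, m, h6, h7, ?_, ?_, by rw [FF_succ, h10]⟩
      · rw [← hg2 h5]
        exact h8
      · intro m' hm' hm2
        rw [← hg2 h5]
        exact h9 m' hm' hm2
    · right; right
      refine ⟨h4, ?_, by rw [FF_succ, h6]⟩
      intro hb m hm hm2
      rw [← hg2 hb]
      exact h5 hb m hm hm2

/-- A good initial segment is kept. -/
theorem keep {F : List (ℕ × ℕ)} {s : ℕ} (hF : (FF ar a g e s).take F.length = F)
    (hg : ∀ i < F.length, good ar a g e (H ar a g e) (F.take (i + 1)) s = true) :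
    (FF ar a g e (s + 1)).take F.length = F := by
  obtain ⟨k, hk, h1, h2, h3⟩ := step_cases ar a g e s
  have hlen : F.length ≤ (FF ar a g e s).length := by
    have := congrArg List.length hF
    rw [List.length_take] at this
    omega
  have hkF : F.length ≤ k := by
    by_contra hcon
    have h4 := h2 (by omega)
    have h5 := hg k (by omega)
    have h6 : (FF ar a g e s).take (k + 1) = F.take (k + 1) := by
      rw [← hF, List.take_take, min_eq_left (by omega)]
    rw [h6, h5] at h4
    exact absurd h4 (by simp)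
  have h7 : ((FF ar a g e s).take k).take F.length = F := by
    rw [List.take_take, min_eq_left hkF, hF]
  have h8 : F.length ≤ ((FF ar a g e s).take k).length := by
    rw [List.length_take]
    omega
  rcases h3 with ⟨h4, h5⟩ | ⟨h4, h5, m, h6, _, _, _, h10⟩ | ⟨h4, h5, h6⟩
  · rw [h5, List.take_append_of_le_length h8, h7]
  · rw [h10, List.take_append_of_le_length h8, h7]
  · rw [h6, h7]

/-- The entry after a good initial segment is chosen anew. -/
theorem choose_new {F : List (ℕ × ℕ)} {s : ℕ} (hF : (FF ar a g e s).take F.length = F)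
    (hg : ∀ i < F.length, good ar a g e (H ar a g e) (F.take (i + 1)) s = true)
    (hbad : (FF ar a g e s).length = F.length ∨
      good ar a g e (H ar a g e) ((FF ar a g e s).take (F.length + 1)) s = false) :
    (F.length % 2 = 0 ∧ FF ar a g e (s + 1) = F ++ [(s, mex (ran F))]) ∨
       (F.length % 2 = 1 ∧ mex (dom F) < s ∧ ∃ m ≤ s, m ∉ ran F ∧
          good ar a g e (H ar a g e) (F ++ [(mex (dom F), m)]) s = true ∧
          (∀ m' < m, m' ∉ ran F →
            good ar a g e (H ar a g e) (F ++ [(mex (dom F), m')]) s = false) ∧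
          FF ar a g e (s + 1) = F ++ [(mex (dom F), m)]) ∨
       (F.length % 2 = 1 ∧ (mex (dom F) < s → ∀ m ≤ s, m ∉ ran F →
          good ar a g e (H ar a g e) (F ++ [(mex (dom F), m)]) s = false) ∧
          FF ar a g e (s + 1) = F) := by
  obtain ⟨k, hk, h1, h2, h3⟩ := step_cases ar a g e s
  have hlen : F.length ≤ (FF ar a g e s).length := by
    have := congrArg List.length hF
    rw [List.length_take] at this
    omega
  have hkF : F.length ≤ k := by
    by_contra hcon
    have h4 := h2 (by omega)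
    have h5 := hg k (by omega)
    have h6 : (FF ar a g e s).take (k + 1) = F.take (k + 1) := by
      rw [← hF, List.take_take, min_eq_left (by omega)]
    rw [h6, h5] at h4
    exact absurd h4 (by simp)
  have hkF' : k = F.length := by
    rcases hbad with h | h
    · omega
    · by_contra hcon
      have h4 := h1 F.length (by omega)
      rw [h4] at h
      exact absurd h (by simp)
  subst hkF'
  rw [hF] at h3
  exact h3

variable (G : ℕ × List ℕ → Bool) (E : List ℕ → Bool)
  (hG : ∀ q, ∀ᶠ s in atTop, g (q, s) = G q) (hE : ∀ l, ∀ᶠ s in atTop, e (l, s) = E l)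

/-- Correctness of the approximations on all tuples from a finite set. -/
def Corr (R : List ℕ) (s : ℕ) : Prop :=
  (∀ q ∈ facts ar R, g (q, s) = G q) ∧ (∀ l ∈ tuples a R, e (l, s) = E l)

include hG hE in
theorem exists_corr (R : List ℕ) : ∀ᶠ s in atTop, Corr ar a g e G E R s := by
  filter_upwards [eventually_list (facts ar R) (fun q s => g (q, s) = G q) (fun q _ => hG q),
    eventually_list (tuples a R) (fun l s => e (l, s) = E l) (fun l _ => hE l)] with s h1 h2
  exact ⟨h1, h2⟩

theorem Corr.fact {R : List ℕ} {s : ℕ} (h : Corr ar a g e G E R s) {F : List (ℕ × ℕ)}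
    (hF : ∀ m ∈ ran F, m ∈ R) {q : ℕ × List ℕ} (hq : q ∈ facts ar (dom F)) :
    g ((q.1, q.2.map (look F)), s) = G (q.1, q.2.map (look F)) := by
  obtain ⟨h1, h2, h3⟩ := (mem_facts ar).mp hq
  refine h.1 _ ((mem_facts ar).mpr ⟨h1, by rw [List.length_map]; exact h2, ?_⟩)
  intro x hx
  obtain ⟨y, hy, rfl⟩ := List.mem_map.mp hx
  exact hF _ (mem_ran_look (h3 y hy))

theorem Corr.efact {R : List ℕ} {s : ℕ} (h : Corr ar a g e G E R s) {F : List (ℕ × ℕ)}
    (hF : ∀ m ∈ ran F, m ∈ R) {l : List ℕ} (hl : l ∈ tuples a (dom F)) :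
    e (l.map (look F), s) = E (l.map (look F)) := by
  obtain ⟨h1, h2⟩ := mem_tuples.mp hl
  refine h.2 _ (mem_tuples.mpr ⟨by rw [List.length_map]; exact h1, ?_⟩)
  intro x hx
  obtain ⟨y, hy, rfl⟩ := List.mem_map.mp hx
  exact hF _ (mem_ran_look (h2 y hy))

/-- Goodness in the limit. -/
def GoodLim (Hf : ℕ × List ℕ → Bool) (F : List (ℕ × ℕ)) : Prop :=
  (∀ q ∈ facts ar (dom F), Hf q = G (q.1, q.2.map (look F))) ∧
  (∀ l ∈ tuples a (dom F), E (l.map (look F)) = true → ∀ u, Hf (0, l ++ [u]) = true)

include hG hE in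
theorem good_lim (Hf : ℕ × List ℕ → Bool) (F : List (ℕ × ℕ)) :
    (GoodLim ar a G E Hf F → ∀ᶠ s in atTop, good ar a g e Hf F s = true) ∧
    (¬ GoodLim ar a G E Hf F → ∀ᶠ s in atTop, good ar a g e Hf F s = false) := by
  have hc := exists_corr ar a g e G E hG hE (ran F)
  constructor
  · intro h
    filter_upwards [hc] with s hs
    rw [good_iff]
    refine ⟨fun q hq => ?_, fun l hl hel u _ => ?_⟩
    · rw [Corr.fact ar a g e G E hs (fun m hm => hm) hq]
      exact h.1 q hq
    · rw [Corr.efact ar a g e G E hs (fun m hm => hm) hl] at hel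
      exact h.2 l hl hel u
  · intro h
    have h' : (∃ q ∈ facts ar (dom F), Hf q ≠ G (q.1, q.2.map (look F))) ∨
        (∃ l ∈ tuples a (dom F), E (l.map (look F)) = true ∧ ∃ u, Hf (0, l ++ [u]) ≠ true) := by
      by_contra hcon
      push Not at hcon
      exact h ⟨hcon.1, fun l hl hel u => hcon.2 l hl hel u⟩
    rcases h' with ⟨q, hq, hne⟩ | ⟨l, hl, hel, u, hu⟩
    · filter_upwards [hc] with s hs
      by_contra hcon
      have h3 := (good_iff ar a g e).mp (by simpa using hcon)
      apply hne
      rw [← Corr.fact ar a g e G E hs (fun m hm => hm) hq]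
      exact h3.1 q hq
    · filter_upwards [hc, eventually_gt_atTop u] with s hs hus
      by_contra hcon
      have h3 := (good_iff ar a g e).mp (by simpa using hcon)
      apply hu
      refine h3.2 l hl ?_ u hus
      rw [Corr.efact ar a g e G E hs (fun m hm => hm) hl]
      exact hel

end

end Pool.Agent.Arith67.Jump
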