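import Mathlib

/-!
Iterated limits of computable functions.
-/

namespace Pool.Agent.Arith67

open Filter

/-- `InF j f`: `f` is a `j`-fold iterated limit of computable functions. -/
def InF : ℕ → ∀ {α β : Type} [Primcodable α] [Primcodable β], (α → β) → Prop
  | 0, _, _, _, _, f => Computable f
  | j + 1, α, β, _, _, f => ∃ g : α × ℕ → β, InF j g ∧ ∀ a, ∀ᶠ s in atTop, g (a, s) = f a

section

variable {α β γ δ σ : Type} [Primcodable α] [Primcodable β] [Primcodable γ] [Primcodable δ]
  [Primcodable σ] {j : ℕ}

theorem InF.of_eq {f g : α → β} (hf : InF j f) (h : ∀ a, f a = g a) : InF j g := by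
  have : f = g := funext h
  rwa [← this]

theorem InF.of_computable {f : α → β} (hf : Computable f) : InF j f := by
  induction j generalizing α with
  | zero => exact hf
  | succ j ih => exact ⟨fun p => f p.1, ih (hf.comp Computable.fst), fun a => by simp⟩

theorem InF.of_primrec {f : α → β} (hf : Primrec f) : InF j f := InF.of_computable hf.to_comp

theorem InF.pair {f : α → β} {g : α → γ} (hf : InF j f) (hg : InF j g) :
    InF j (fun a => (f a, g a)) := by
  induction j generalizing α with
  | zero => exact Computable.pair hf hg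
  | succ j ih =>
    obtain ⟨f', hf', hl⟩ := hf
    obtain ⟨g', hg', hl'⟩ := hg
    refine ⟨fun p => (f' p, g' p), ih hf' hg', fun a => ?_⟩
    filter_upwards [hl a, hl' a] with s h1 h2
    rw [h1, h2]

theorem InF.comp {f : β → γ} {g : α → β} (hf : InF j f) (hg : InF j g) :
    InF j (fun a => f (g a)) := by
  induction j generalizing α β with
  | zero => exact Computable.comp hf hg
  | succ j ih =>
    obtain ⟨f', hf', hl⟩ := hf
    obtain ⟨g', hg', hl'⟩ := hg
    refine ⟨fun p => f' (g' p, p.2), ih hf' (InF.pair hg' (InF.of_computable Computable.snd)),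
      fun a => ?_⟩
    filter_upwards [hl (g a), hl' a] with s h1 h2
    rw [h2, h1]

theorem InF.succ {f : α → β} (hf : InF j f) : InF (j + 1) f :=
  ⟨fun p => f p.1, hf.comp (InF.of_computable Computable.fst), fun a => by simp⟩

theorem InF.mono {k : ℕ} (hjk : j ≤ k) {f : α → β} (hf : InF j f) : InF k f := by
  induction hjk with
  | refl => exact hf
  | step _ ih => exact ih.succ

theorem InF.limit {f : α → β} (g : α × ℕ → β) (hg : InF j g)
    (h : ∀ a, ∀ᶠ s in atTop, g (a, s) = f a) : InF (j + 1) f := ⟨g, hg, h⟩

theorem InF.fst : InF j (Prod.fst : α × β → α) := InF.of_computable Computable.fst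

theorem InF.snd : InF j (Prod.snd : α × β → β) := InF.of_computable Computable.snd

theorem InF.id : InF j (fun a : α => a) := InF.of_computable Computable.id

theorem InF.const (b : β) : InF j (fun _ : α => b) := InF.of_computable (Computable.const b)

theorem InF.comp₂ {f : β → γ → δ} {g : α → β} {h : α → γ} (hf : InF j (fun p : β × γ => f p.1 p.2))
    (hg : InF j g) (hh : InF j h) : InF j (fun a => f (g a) (h a)) :=
  InF.comp hf (hg.pair hh)

theorem InF.prim₂ {f : β → γ → δ} {g : α → β} {h : α → γ} (hf : Primrec₂ f)
    (hg : InF j g) (hh : InF j h) : InF j (fun a => f (g a) (h a)) :=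
  InF.comp (f := fun p : β × γ => f p.1 p.2) (InF.of_primrec hf) (hg.pair hh)

theorem InF.nat_rec_aux (j : ℕ) : ∀ {α : Type} [Primcodable α] {f : α → β} {g : α × ℕ × β → β}
    (_ : InF j f) (_ : InF j g), InF j (fun p : α × ℕ =>
      Nat.rec (motive := fun _ => β) (f p.1) (fun y IH => g (p.1, y, IH)) p.2) := by
  induction j with
  | zero =>
    intro α _ f g hf hg
    exact Computable.nat_rec (h := fun (p : α × ℕ) (q : ℕ × β) => g (p.1, q.1, q.2))
      Computable.snd (Computable.comp hf Computable.fst)
      (Computable.comp hg ((Computable.fst.comp Computable.fst).pair Computable.snd))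
  | succ j ih =>
    intro α _ f g hf hg
    obtain ⟨f', hf', hl⟩ := hf
    obtain ⟨g', hg', hl'⟩ := hg
    have h1 := @ih (α × ℕ) _ (fun p => f' p) (fun q => g' ((q.1.1, q.2.1, q.2.2), q.1.2)) hf'
      (hg'.comp (((InF.fst.comp InF.fst).pair InF.snd).pair (InF.snd.comp InF.fst)))
    have h2 := h1.comp (f := fun p : (α × ℕ) × ℕ => Nat.rec (motive := fun _ => β) (f' p.1)
      (fun y IH => g' ((p.1.1, y, IH), p.1.2)) p.2)
      (g := fun p : (α × ℕ) × ℕ => ((p.1.1, p.2), p.1.2))
      (((InF.fst.comp InF.fst).pair InF.snd).pair (InF.snd.comp InF.fst))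
    refine ⟨_, h2, ?_⟩
    rintro ⟨a, n⟩
    induction n with
    | zero => exact hl a
    | succ n ihn =>
      filter_upwards [ihn, hl' (a, n, Nat.rec (motive := fun _ => β) (f a)
        (fun y IH => g (a, y, IH)) n)] with s h3 h4
      show g' ((a, n, Nat.rec (motive := fun _ => β) (f' (a, s))
        (fun y IH => g' ((a, y, IH), s)) n), s) = _
      have h5 : Nat.rec (motive := fun _ => β) (f' (a, s))
        (fun y IH => g' ((a, y, IH), s)) n = Nat.rec (motive := fun _ => β) (f a)
        (fun y IH => g (a, y, IH)) n := h3
      rw [h5, h4]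

theorem InF.nat_rec {n : α → ℕ} {f : α → β} {g : α × ℕ × β → β} (hn : InF j n) (hf : InF j f)
    (hg : InF j g) :
    InF j (fun a => Nat.rec (motive := fun _ => β) (f a) (fun y IH => g (a, y, IH)) (n a)) :=
  (InF.nat_rec_aux j hf hg).comp (InF.id.pair hn)

theorem InF.cond {c : α → Bool} {f g : α → β} (hc : InF j c) (hf : InF j f) (hg : InF j g) :
    InF j (fun a => bif c a then f a else g a) :=
  InF.comp (f := fun p : Bool × β × β => bif p.1 then p.2.1 else p.2.2)
    (InF.of_primrec (Primrec.cond Primrec.fst (Primrec.fst.comp Primrec.snd)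
      (Primrec.snd.comp Primrec.snd))) (hc.pair (hf.pair hg))

theorem InF.and {f g : α → Bool} (hf : InF j f) (hg : InF j g) :
    InF j (fun a => f a && g a) := InF.prim₂ Primrec.and hf hg

theorem InF.or {f g : α → Bool} (hf : InF j f) (hg : InF j g) :
    InF j (fun a => f a || g a) := InF.prim₂ Primrec.or hf hg

theorem InF.not {f : α → Bool} (hf : InF j f) : InF j (fun a => !f a) :=
  InF.comp (InF.of_primrec Primrec.not) hf

theorem InF.listMap {l : α → List β} {f : α × β → γ} (hl : InF j l) (hf : InF j f) :
    InF j (fun a => (l a).map (fun b => f (a, b))) := by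
  -- by recursion on the length, with values in lists
  have h1 : InF j (fun a => Nat.rec (motive := fun _ => List γ) []
      (fun y IH => ((fun q : (α × ℕ × List γ) => Option.casesOn (motive := fun _ => List γ)
        (((l q.1)[q.2.1]?).map (fun b => f (q.1, b))) q.2.2
        (fun c => q.2.2 ++ [c])) (a, y, IH))) ((l a).length)) := by
    refine InF.nat_rec (β := List γ) (n := fun a => (l a).length) (f := fun _ => [])
      (g := fun q : (α × ℕ × List γ) => Option.casesOn (motive := fun _ => List γ)
        (((l q.1)[q.2.1]?).map (fun b => f (q.1, b))) q.2.2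
        (fun c => q.2.2 ++ [c]))
      (InF.comp (InF.of_primrec Primrec.list_length) hl) (InF.const _) ?_
    have h2 : InF j (fun q : α × ℕ × List γ => ((l q.1)[q.2.1]?).map (fun b => f (q.1, b))) := by
      -- option map
      have h3 : ∀ {j : ℕ} {α' : Type} [Primcodable α'] {o : α' → Option β} {f : α' × β → γ},
          InF j o → InF j f → InF j (fun a => (o a).map (fun b => f (a, b))) := by
        intro j
        induction j with
        | zero =>
          intro α' _ o f ho hf
          exact Computable.option_map (f := o) (g := fun a b => f (a, b)) ho hf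
        | succ j ih =>
          intro α' _ o f ho hf
          obtain ⟨o', ho', hlo⟩ := ho
          obtain ⟨f', hf', hlf⟩ := hf
          refine ⟨_, ih (o := o') (f := fun q => f' ((q.1.1, q.2), q.1.2)) ho'
            (hf'.comp (((InF.fst.comp InF.fst).pair InF.snd).pair (InF.snd.comp InF.fst))), ?_⟩
          intro a
          rcases hoa : o a with _ | b
          · filter_upwards [hlo a] with s h4
            rw [h4, hoa]
            rfl
          · filter_upwards [hlo a, hlf (a, b)] with s h4 h5
            rw [h4, hoa]
            show some (f' ((a, b), s)) = some (f (a, b))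
            rw [h5]
      refine h3 (o := fun q : α × ℕ × List γ => (l q.1)[q.2.1]?)
        (f := fun q => f (q.1.1, q.2)) ?_ ?_
      · exact InF.prim₂ Primrec.list_getElem? (hl.comp InF.fst) (InF.fst.comp InF.snd)
      · exact hf.comp ((InF.fst.comp InF.fst).pair InF.snd)
    have h4 : Primrec (fun q : Option γ × List γ => Option.casesOn (motive := fun _ => List γ)
        q.1 q.2 (fun c => q.2 ++ [c])) :=
      Primrec.option_casesOn Primrec.fst Primrec.snd
        (Primrec.list_concat.comp (Primrec.snd.comp Primrec.fst) Primrec.snd).to₂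
    exact InF.comp (InF.of_primrec h4) (h2.pair (InF.snd.comp InF.snd))
  refine h1.of_eq fun a => ?_
  have key : ∀ n ≤ (l a).length, Nat.rec (motive := fun _ => List γ) []
      (fun y IH => Option.casesOn (motive := fun _ => List γ)
        (((l a)[y]?).map (fun b => f (a, b))) IH
        (fun c => IH ++ [c])) n = ((l a).take n).map (fun b => f (a, b)) := by
    intro n
    induction n with
    | zero => intro _; simp
    | succ n ih =>
      intro hn
      show Option.casesOn (motive := fun _ => List γ)
        (((l a)[n]?).map (fun b => f (a, b))) _ _ = _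
      rw [ih (by omega)]
      have h5 : (l a)[n]? = some ((l a)[n]'(by omega)) := by
        rw [List.getElem?_eq_getElem]
      rw [h5, List.take_add_one, h5]
      simp only [Option.map_some, Option.toList_some, List.map_append, List.map_cons,
        List.map_nil]
  have := key _ (le_refl _)
  rw [List.take_length] at this
  exact this

theorem InF.listAll {l : α → List β} {f : α × β → Bool} (hl : InF j l) (hf : InF j f) :
    InF j (fun a => (l a).all (fun b => f (a, b))) := by
  have h1 : Primrec (fun l : List Bool => l.all _root_.id) := by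
    refine (Primrec.list_foldr (f := fun l : List Bool => l) (g := fun _ => true)
      (h := fun _ p => p.1 && p.2) Primrec.id (Primrec.const _)
      (Primrec.and.comp (Primrec.fst.comp Primrec.snd) (Primrec.snd.comp Primrec.snd)).to₂).of_eq
      fun l => ?_
    induction l with
    | nil => rfl
    | cons a l ih => simp at ih ⊢; rw [ih]
  refine (InF.comp (InF.of_primrec h1) (InF.listMap hl hf)).of_eq fun a => ?_
  rw [List.all_map]
  rfl

theorem InF.ball {n : α → ℕ} {f : α × ℕ → Bool} (hn : InF j n) (hf : InF j f) :
    InF j (fun a => (List.range (n a)).all (fun i => f (a, i))) :=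
  InF.listAll (InF.comp (InF.of_primrec Primrec.list_range) hn) hf

/-- Bounded search. -/
def bfind (n : ℕ) (p : ℕ → Bool) : ℕ := (List.range n).findIdx p

theorem bfind_le (n : ℕ) (p : ℕ → Bool) : bfind n p ≤ n := by
  have := List.findIdx_le_length (p := p) (xs := List.range n)
  simpa [bfind] using this

theorem bfind_spec {n : ℕ} {p : ℕ → Bool} (h : bfind n p < n) : p (bfind n p) = true := by
  have h1 : (List.range n).findIdx p < (List.range n).length := by simpa [bfind] using h
  have h2 := List.findIdx_getElem (w := h1)
  simpa [bfind] using h2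

theorem bfind_min {n : ℕ} {p : ℕ → Bool} {m : ℕ} (hm : m < bfind n p) : p m = false := by
  have h1 := List.not_of_lt_findIdx (p := p) (xs := List.range n) hm
  simpa using h1

theorem bfind_eq {n : ℕ} {p : ℕ → Bool} {m : ℕ} (hm : m < n) (hp : p m = true)
    (hmin : ∀ k < m, p k = false) : bfind n p = m := by
  rcases Nat.lt_trichotomy (bfind n p) m with h | h | h
  · have h1 := bfind_spec (lt_trans h hm)
    rw [hmin _ h] at h1
    exact absurd h1 (by simp)
  · exact h
  · rw [bfind_min h] at hp
    exact absurd hp (by simp)

theorem InF.bfind {n : α → ℕ} {f : α × ℕ → Bool} (hn : InF j n) (hf : InF j f) :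
    InF j (fun a => Arith67.bfind (n a) (fun i => f (a, i))) := by
  have h1 : Primrec (fun l : List Bool => l.findIdx _root_.id) :=
    Primrec.list_findIdx Primrec.id Primrec.snd.to₂
  refine (InF.comp (InF.of_primrec h1) (InF.listMap
    (InF.comp (InF.of_primrec Primrec.list_range) hn) hf)).of_eq fun a => ?_
  unfold Arith67.bfind
  rw [List.findIdx_map]
  rfl

theorem InF.search {f : α × ℕ → Bool} (hf : InF (j + 1) f)
    (r : α → ℕ) (hr : ∀ a, f (a, r a) = true) (hr' : ∀ a, ∀ m < r a, f (a, m) = false) :
    InF (j + 1) r := by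
  obtain ⟨g, hg, hl⟩ := hf
  refine ⟨fun p => Arith67.bfind p.2 (fun i => g ((p.1, i), p.2)), ?_, fun a => ?_⟩
  · exact InF.bfind (f := fun q : (α × ℕ) × ℕ => g ((q.1.1, q.2), q.1.2)) InF.snd
      (hg.comp (((InF.fst.comp InF.fst).pair InF.snd).pair (InF.snd.comp InF.fst)))
  · have h1 : ∀ᶠ s in atTop, ∀ m ∈ Finset.range (r a + 1), g ((a, m), s) = f (a, m) := by
      rw [Filter.eventually_all_finset]
      exact fun m _ => hl (a, m)
    filter_upwards [h1, eventually_gt_atTop (r a)] with s h2 h3
    refine bfind_eq h3 ?_ ?_
    · rw [h2 (r a) (by simp), hr]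
    · intro k hk
      rw [h2 k (by simp; omega), hr' a k hk]

end

end Pool.Agent.Arith67
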