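import Mathlib

/-!
Uniform definability of families of relations over a family of structures.
-/

namespace Pool.Agent.Arith67

open FirstOrder FirstOrder.Language

variable {ι : Type 1} {L : FirstOrder.Language.{0,0}} {M : ι → Type} [∀ i, L.Structure (M i)]

/-- The family `r` of relations is defined by one formula in all structures of the family. -/
def UD (L : FirstOrder.Language.{0,0}) (M : ι → Type) [∀ i, L.Structure (M i)] {α : Type}
    (r : ∀ i, (α → M i) → Prop) : Prop :=
  ∃ φ : L.Formula α, ∀ i (v : α → M i), φ.Realize v ↔ r i v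

namespace UD

variable {α β : Type}

theorem congr {r s : ∀ i, (α → M i) → Prop} (h : UD L M r) (hrs : ∀ i v, r i v ↔ s i v) :
    UD L M s := by
  obtain ⟨φ, hφ⟩ := h
  exact ⟨φ, fun i v => (hφ i v).trans (hrs i v)⟩

theorem not {r : ∀ i, (α → M i) → Prop} (h : UD L M r) : UD L M (fun i v => ¬ r i v) := by
  obtain ⟨φ, hφ⟩ := h
  exact ⟨φ.not, fun i v => by rw [Formula.realize_not, hφ]⟩

theorem imp {r s : ∀ i, (α → M i) → Prop} (h : UD L M r) (h' : UD L M s) :
    UD L M (fun i v => r i v → s i v) := by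
  obtain ⟨φ, hφ⟩ := h
  obtain ⟨ψ, hψ⟩ := h'
  exact ⟨φ.imp ψ, fun i v => by rw [Formula.realize_imp, hφ, hψ]⟩

theorem and {r s : ∀ i, (α → M i) → Prop} (h : UD L M r) (h' : UD L M s) :
    UD L M (fun i v => r i v ∧ s i v) := by
  refine (h.imp h'.not).not.congr fun i v => ?_
  tauto

theorem or {r s : ∀ i, (α → M i) → Prop} (h : UD L M r) (h' : UD L M s) :
    UD L M (fun i v => r i v ∨ s i v) := by
  refine (h.not.imp h').congr fun i v => ?_
  tauto

theorem iff {r s : ∀ i, (α → M i) → Prop} (h : UD L M r) (h' : UD L M s) :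
    UD L M (fun i v => (r i v ↔ s i v)) := by
  refine ((h.imp h').and (h'.imp h)).congr fun i v => ?_
  tauto

theorem false : UD L M (fun i (_ : α → M i) => False) :=
  ⟨⊥, fun i v => by simp [Formula.Realize]⟩

theorem true : UD L M (fun i (_ : α → M i) => True) :=
  (UD.false.not).congr fun i v => by tauto

theorem const (p : Prop) : UD L M (fun i (_ : α → M i) => p) := by
  by_cases hp : p
  · exact UD.true.congr fun i v => by tauto
  · exact UD.false.congr fun i v => by tauto

theorem eq (a b : α) : UD L M (fun i (v : α → M i) => v a = v b) :=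
  ⟨(Term.var a).equal (Term.var b), fun i v => by simp⟩

theorem relabel {r : ∀ i, (α → M i) → Prop} (h : UD L M r) (f : α → β) :
    UD L M (fun i (v : β → M i) => r i (v ∘ f)) := by
  obtain ⟨φ, hφ⟩ := h
  exact ⟨φ.relabel f, fun i v => by rw [Formula.realize_relabel, hφ]⟩

theorem exs (β : Type) [Finite β] {r : ∀ i, (α → M i) → (β → M i) → Prop}
    (h : UD L M (fun i (v : α ⊕ β → M i) => r i (v ∘ Sum.inl) (v ∘ Sum.inr))) :
    UD L M (fun i v => ∃ w : β → M i, r i v w) := by
  obtain ⟨φ, hφ⟩ := h
  refine ⟨φ.iExs β, fun i v => ?_⟩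
  rw [Formula.realize_iExs]
  apply exists_congr
  intro w
  rw [hφ]
  simp

theorem alls (β : Type) [Finite β] {r : ∀ i, (α → M i) → (β → M i) → Prop}
    (h : UD L M (fun i (v : α ⊕ β → M i) => r i (v ∘ Sum.inl) (v ∘ Sum.inr))) :
    UD L M (fun i v => ∀ w : β → M i, r i v w) := by
  refine (UD.exs β (r := fun i v w => ¬ r i v w) h.not).not.congr fun i v => ?_
  push Not
  rfl

theorem ex {r : ∀ i, (α → M i) → M i → Prop}
    (h : UD L M (fun i (v : Option α → M i) => r i (fun a => v (some a)) (v none))) :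
    UD L M (fun i v => ∃ x : M i, r i v x) := by
  have h1 : UD L M (fun i (v : α ⊕ Unit → M i) => r i (v ∘ Sum.inl) ((v ∘ Sum.inr) ())) := by
    refine (h.relabel (fun o : Option α => o.elim (Sum.inr ()) Sum.inl)).congr fun i v => ?_
    rfl
  refine (UD.exs Unit (r := fun i v w => r i v (w ())) h1).congr fun i v => ?_
  constructor
  · rintro ⟨w, hw⟩
    exact ⟨w (), hw⟩
  · rintro ⟨x, hx⟩
    exact ⟨fun _ => x, hx⟩

theorem all {r : ∀ i, (α → M i) → M i → Prop}
    (h : UD L M (fun i (v : Option α → M i) => r i (fun a => v (some a)) (v none))) :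
    UD L M (fun i v => ∀ x : M i, r i v x) := by
  refine (UD.ex (r := fun i v x => ¬ r i v x) h.not).not.congr fun i v => ?_
  push Not
  rfl

theorem iOr {κ : Type} [Finite κ] {r : κ → ∀ i, (α → M i) → Prop} (h : ∀ k, UD L M (r k)) :
    UD L M (fun i v => ∃ k, r k i v) := by
  choose φ hφ using h
  refine ⟨Formula.iSup φ, fun i v => ?_⟩
  rw [Formula.realize_iSup]
  exact exists_congr fun k => hφ k i v

theorem iAnd {κ : Type} [Finite κ] {r : κ → ∀ i, (α → M i) → Prop} (h : ∀ k, UD L M (r k)) :
    UD L M (fun i v => ∀ k, r k i v) := by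
  refine (UD.iOr (r := fun k i v => ¬ r k i v) fun k => (h k).not).not.congr fun i v => ?_
  push Not
  rfl

theorem rel {k : ℕ} (R : L.Relations k) (f : Fin k → α) :
    UD L M (fun i (v : α → M i) => Structure.RelMap R (fun j => v (f j))) :=
  ⟨Relations.formula R (fun j => Term.var (f j)), fun i v => by
    rw [Formula.realize_rel]
    rfl⟩

theorem term (t u : L.Term α) : UD L M (fun i (v : α → M i) => t.realize v = u.realize v) :=
  ⟨t.equal u, fun i v => by simp⟩

theorem formula (φ : L.Formula α) : UD L M (fun i (v : α → M i) => φ.Realize v) :=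
  ⟨φ, fun _ _ => Iff.rfl⟩

end UD

end Pool.Agent.Arith67
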