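import Pool.Agent.Arith67.Defs
import Pool.Agent.Arith67.UDef

/-!
Algebra in models of Peano arithmetic.
-/

namespace Pool.Agent.Arith67

open FirstOrder FirstOrder.Language

section basic

variable {M : Type} [LPA.Structure M]

def Z (M : Type) [LPA.Structure M] : M := Structure.funMap (L := LPA) PAFun.zero (fun j : Fin 0 => j.elim0)

def Sc (x : M) : M := Structure.funMap (L := LPA) PAFun.succ (fun _ : Fin 1 => x)

def Ad (x y : M) : M := Structure.funMap (L := LPA) PAFun.add ![x, y]

def Mu (x y : M) : M := Structure.funMap (L := LPA) PAFun.mul ![x, y]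

@[simp] theorem realize_zeroT {α : Type} (v : α → M) : (zeroT : LPA.Term α).realize v = Z M := by
  simp only [zeroT, Term.realize, Z]
  congr 1
  funext j; exact j.elim0

@[simp] theorem realize_succT {α : Type} (t : LPA.Term α) (v : α → M) :
    (succT t).realize v = Sc (t.realize v) := rfl

@[simp] theorem realize_addT {α : Type} (t u : LPA.Term α) (v : α → M) :
    (addT t u).realize v = Ad (t.realize v) (u.realize v) := by
  simp only [addT, Term.realize, Ad]
  congr 1
  funext j
  fin_cases j <;> rfl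

@[simp] theorem realize_mulT {α : Type} (t u : LPA.Term α) (v : α → M) :
    (mulT t u).realize v = Mu (t.realize v) (u.realize v) := by
  simp only [mulT, Term.realize, Mu]
  congr 1
  funext j
  fin_cases j <;> rfl

theorem realize_close {k : ℕ} (φ : LPA.Formula (Fin k)) :
    M ⊨ close φ ↔ ∀ v : Fin k → M, φ.Realize v := by
  unfold close
  rw [Sentence.Realize, Formula.realize_iAlls]
  apply forall_congr'
  intro v
  rw [Formula.realize_relabel]
  rfl

theorem realize_indF {k : ℕ} (φ : LPA.Formula (Fin k ⊕ Unit)) (v : Fin k → M) :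
    (indF φ).Realize v ↔
      ((φ.Realize (Sum.elim v (fun _ => Z M)) ∧
        ∀ x : M, φ.Realize (Sum.elim v (fun _ => x)) → φ.Realize (Sum.elim v (fun _ => Sc x))) →
        ∀ x : M, φ.Realize (Sum.elim v (fun _ => x))) := by
  unfold indF
  rw [Formula.realize_imp, Formula.realize_inf, Formula.realize_iAlls, Formula.realize_iAlls]
  have h1 : ∀ w : Unit → M, w = fun _ => w () := fun w => by funext; rfl
  apply imp_congr
  · apply and_congr
    · rw [Formula.Realize, BoundedFormula.realize_subst, ← Formula.Realize]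
      apply iff_of_eq
      congr 1
      funext a
      rcases a with a | a
      · rfl
      · simp
    · constructor
      · intro h x hx
        have h2 := h (fun _ => x)
        rw [Formula.realize_imp] at h2
        have h3 := h2 hx
        rw [Formula.Realize, BoundedFormula.realize_subst, ← Formula.Realize] at h3
        convert h3 using 1
        funext a
        rcases a with a | a
        · rfl
        · simp
      · intro h w
        rw [Formula.realize_imp]
        intro hx
        rw [h1 w] at hx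
        have h3 := h (w ()) hx
        rw [Formula.Realize, BoundedFormula.realize_subst, ← Formula.Realize]
        convert h3 using 1
        funext a
        rcases a with a | a
        · rfl
        · simp
  · constructor
    · intro h x
      exact h (fun _ => x)
    · intro h w
      rw [h1 w]
      exact h (w ())

end basic

section model

variable {M : Type} [LPA.Structure M] (h : M ⊨ PA)

include h

theorem pa_sent {σ : LPA.Sentence} (hσ : σ ∈ PA) : M ⊨ σ := h.realize_of_mem σ hσ

theorem Sc_ne_Z (x : M) : Sc x ≠ Z M := by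
  have h1 := pa_sent h (σ := close (k := 1) ((succT (.var 0)).equal zeroT).not) (by simp [PA])
  rw [realize_close] at h1
  simpa using h1 (fun _ => x)

theorem Sc_inj {x y : M} (hxy : Sc x = Sc y) : x = y := by
  have h1 := pa_sent h (σ := close (k := 2) (((succT (.var 0)).equal (succT (.var 1))).imp
      ((Language.Term.var 0).equal (.var 1)))) (by simp [PA])
  rw [realize_close] at h1
  have h2 := h1 ![x, y]
  simp at h2
  exact h2 hxy

theorem Ad_Z (x : M) : Ad x (Z M) = x := by
  have h1 := pa_sent h (σ := close (k := 1) ((addT (.var 0) zeroT).equal (.var 0))) (by simp [PA])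
  rw [realize_close] at h1
  simpa using h1 (fun _ => x)

theorem Ad_Sc (x y : M) : Ad x (Sc y) = Sc (Ad x y) := by
  have h1 := pa_sent h (σ := close (k := 2)
    ((addT (.var 0) (succT (.var 1))).equal (succT (addT (.var 0) (.var 1))))) (by simp [PA])
  rw [realize_close] at h1
  simpa using h1 ![x, y]

theorem Mu_Z (x : M) : Mu x (Z M) = Z M := by
  have h1 := pa_sent h (σ := close (k := 1) ((mulT (.var 0) zeroT).equal zeroT)) (by simp [PA])
  rw [realize_close] at h1
  simpa using h1 (fun _ => x)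

theorem Mu_Sc (x y : M) : Mu x (Sc y) = Ad (Mu x y) x := by
  have h1 := pa_sent h (σ := close (k := 2) ((mulT (.var 0) (succT (.var 1))).equal
      (addT (mulT (.var 0) (.var 1)) (.var 0)))) (by simp [PA])
  rw [realize_close] at h1
  simpa using h1 ![x, y]

theorem ind_formula {k : ℕ} (φ : LPA.Formula (Fin k ⊕ Unit)) (v : Fin k → M)
    (h0 : φ.Realize (Sum.elim v (fun _ => Z M)))
    (hs : ∀ x : M, φ.Realize (Sum.elim v (fun _ => x)) → φ.Realize (Sum.elim v (fun _ => Sc x)))
    (x : M) : φ.Realize (Sum.elim v (fun _ => x)) := by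
  have h1 := pa_sent h (σ := close (indF φ)) (Or.inr ⟨k, φ, rfl⟩)
  rw [realize_close] at h1
  have h2 := h1 v
  rw [realize_indF] at h2
  exact h2 ⟨h0, hs⟩ x

/-- Induction for predicates that are definable with parameters. -/
theorem ind_pred {k : ℕ} (v : Fin k → M) (P : M → Prop)
    (φ : LPA.Formula (Fin k ⊕ Unit)) (hφ : ∀ x, φ.Realize (Sum.elim v (fun _ => x)) ↔ P x)
    (h0 : P (Z M)) (hs : ∀ x : M, P x → P (Sc x)) (x : M) : P x := by
  rw [← hφ]
  refine ind_formula h φ v ((hφ _).mpr h0) (fun y hy => (hφ _).mpr (hs y ((hφ _).mp hy))) x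

theorem Z_Ad (x : M) : Ad (Z M) x = x := by
  refine ind_pred h ![] (fun x => Ad (Z M) x = x)
    ((addT zeroT (.var (Sum.inr ()))).equal (.var (Sum.inr ()))) (fun x => by simp)
    (Ad_Z h _) ?_ x
  intro x hx
  rw [Ad_Sc h, hx]

theorem Sc_Ad (y x : M) : Ad (Sc y) x = Sc (Ad y x) := by
  refine ind_pred h ![y] (fun x => Ad (Sc y) x = Sc (Ad y x))
    ((addT (succT (.var (Sum.inl 0))) (.var (Sum.inr ()))).equal
      (succT (addT (.var (Sum.inl 0)) (.var (Sum.inr ()))))) (fun x => by simp)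
    ?_ ?_ x
  · rw [Ad_Z h, Ad_Z h]
  · intro x hx
    rw [Ad_Sc h, hx, Ad_Sc h]

theorem Ad_comm (y x : M) : Ad y x = Ad x y := by
  refine ind_pred h ![y] (fun x => Ad y x = Ad x y)
    ((addT (.var (Sum.inl 0)) (.var (Sum.inr ()))).equal
      (addT (.var (Sum.inr ())) (.var (Sum.inl 0)))) (fun x => by simp)
    ?_ ?_ x
  · rw [Ad_Z h, Z_Ad h]
  · intro x hx
    rw [Ad_Sc h, hx, Sc_Ad h]

theorem Ad_assoc (y z x : M) : Ad (Ad y z) x = Ad y (Ad z x) := by
  refine ind_pred h ![y, z] (fun x => Ad (Ad y z) x = Ad y (Ad z x))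
    ((addT (addT (.var (Sum.inl 0)) (.var (Sum.inl 1))) (.var (Sum.inr ()))).equal
      (addT (.var (Sum.inl 0)) (addT (.var (Sum.inl 1)) (.var (Sum.inr ()))))) (fun x => by simp)
    ?_ ?_ x
  · rw [Ad_Z h, Ad_Z h]
  · intro x hx
    rw [Ad_Sc h, hx, Ad_Sc h, Ad_Sc h]

theorem Z_Mu (x : M) : Mu (Z M) x = Z M := by
  refine ind_pred h ![] (fun x => Mu (Z M) x = Z M)
    ((mulT zeroT (.var (Sum.inr ()))).equal zeroT) (fun x => by simp)
    (Mu_Z h _) ?_ x
  intro x hx
  rw [Mu_Sc h, hx, Ad_Z h]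

theorem Sc_Mu (y x : M) : Mu (Sc y) x = Ad (Mu y x) x := by
  refine ind_pred h ![y] (fun x => Mu (Sc y) x = Ad (Mu y x) x)
    ((mulT (succT (.var (Sum.inl 0))) (.var (Sum.inr ()))).equal
      (addT (mulT (.var (Sum.inl 0)) (.var (Sum.inr ()))) (.var (Sum.inr ())))) (fun x => by simp)
    ?_ ?_ x
  · rw [Mu_Z h, Mu_Z h, Ad_Z h]
  · intro x hx
    rw [Mu_Sc h, hx, Mu_Sc h, Ad_Sc h, Ad_Sc h, Ad_assoc h, Ad_assoc h, Ad_comm h x y]

theorem Mu_comm (y x : M) : Mu y x = Mu x y := by
  refine ind_pred h ![y] (fun x => Mu y x = Mu x y)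
    ((mulT (.var (Sum.inl 0)) (.var (Sum.inr ()))).equal
      (mulT (.var (Sum.inr ())) (.var (Sum.inl 0)))) (fun x => by simp)
    ?_ ?_ x
  · rw [Mu_Z h, Z_Mu h]
  · intro x hx
    rw [Mu_Sc h, hx, Sc_Mu h]

theorem Mu_Ad (z y x : M) : Mu z (Ad y x) = Ad (Mu z y) (Mu z x) := by
  refine ind_pred h ![z, y] (fun x => Mu z (Ad y x) = Ad (Mu z y) (Mu z x))
    ((mulT (.var (Sum.inl 0)) (addT (.var (Sum.inl 1)) (.var (Sum.inr ())))).equal
      (addT (mulT (.var (Sum.inl 0)) (.var (Sum.inl 1)))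
        (mulT (.var (Sum.inl 0)) (.var (Sum.inr ()))))) (fun x => by simp)
    ?_ ?_ x
  · rw [Mu_Z h, Ad_Z h, Ad_Z h]
  · intro x hx
    rw [Ad_Sc h, Mu_Sc h, hx, Mu_Sc h, Ad_assoc h]

theorem Mu_assoc (z y x : M) : Mu (Mu z y) x = Mu z (Mu y x) := by
  refine ind_pred h ![z, y] (fun x => Mu (Mu z y) x = Mu z (Mu y x))
    ((mulT (mulT (.var (Sum.inl 0)) (.var (Sum.inl 1))) (.var (Sum.inr ()))).equal
      (mulT (.var (Sum.inl 0)) (mulT (.var (Sum.inl 1)) (.var (Sum.inr ()))))) (fun x => by simp)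
    ?_ ?_ x
  · rw [Mu_Z h, Mu_Z h, Mu_Z h]
  · intro x hx
    rw [Mu_Sc h, hx, Mu_Sc h, Mu_Ad h]

theorem Ad_cancel (y z x : M) : Ad y x = Ad z x → y = z := by
  refine ind_pred h ![y, z] (fun x => Ad y x = Ad z x → y = z)
    (((addT (.var (Sum.inl 0)) (.var (Sum.inr ()))).equal
      (addT (.var (Sum.inl 1)) (.var (Sum.inr ())))).imp
        ((Term.var (Sum.inl 0)).equal (Term.var (Sum.inl 1)))) (fun x => by simp)
    ?_ ?_ x
  · rw [Ad_Z h, Ad_Z h]; exact id
  · intro x hx hyz
    rw [Ad_Sc h, Ad_Sc h] at hyz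
    exact hx (Sc_inj h hyz)

theorem cases_Z_Sc (x : M) : x = Z M ∨ ∃ y, x = Sc y := by
  refine ind_pred h ![] (fun x => x = Z M ∨ ∃ y, x = Sc y)
    (((Term.var (Sum.inr ())).equal zeroT) ⊔ (Formula.iExs Unit
      ((Term.var (Sum.inl (Sum.inr ()))).equal (succT (Term.var (Sum.inr ())))))) (fun x => ?_)
    (Or.inl rfl) (fun x _ => Or.inr ⟨x, rfl⟩) x
  rw [Formula.realize_sup, Formula.realize_iExs]
  simp only [Formula.realize_equal, Term.realize_var, realize_zeroT, realize_succT, Sum.elim_inr,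
    Sum.elim_inl]
  constructor
  · rintro (h1 | ⟨w, hw⟩)
    · exact Or.inl h1
    · exact Or.inr ⟨_, hw⟩
  · rintro (h1 | ⟨w, hw⟩)
    · exact Or.inl h1
    · exact Or.inr ⟨fun _ => w, hw⟩

end model

end Pool.Agent.Arith67
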